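import Pool.Agent.X290.Eis

/-! The absolute value of ideles. -/

set_option autoImplicit false

namespace Pool.Agent.X290

open Polynomial WithZero IsDedekindDomain

noncomputable section

/-- the norm of a place -/
def Nv (v : HS) : ℝ := (Nat.card ((ZMod 2)[X] ⧸ v.asIdeal) : ℝ)

theorem finite_quotient {p : (ZMod 2)[X]} (hp : p ≠ 0) : Finite ((ZMod 2)[X] ⧸ Ideal.span {p}) := by
  have : Module.Finite (ZMod 2) (AdjoinRoot p) := (AdjoinRoot.powerBasis hp).finite
  exact Module.finite_of_finite (ZMod 2) (M := AdjoinRoot p)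

theorem card_quotient {p : (ZMod 2)[X]} (hp : p ≠ 0) : Nat.card ((ZMod 2)[X] ⧸ Ideal.span {p}) = 2 ^ p.natDegree := by
  have : Module.Finite (ZMod 2) (AdjoinRoot p) := (AdjoinRoot.powerBasis hp).finite
  have h1 : Nat.card (AdjoinRoot p) = Nat.card (ZMod 2) ^ Module.finrank (ZMod 2) (AdjoinRoot p) :=
    Module.natCard_eq_pow_finrank
  rw [(AdjoinRoot.powerBasis hp).finrank, AdjoinRoot.powerBasis_dim hp, Nat.card_zmod] at h1
  exact h1

theorem exists_gen (v : HS) : ∃ p : (ZMod 2)[X], p ≠ 0 ∧ v.asIdeal = Ideal.span {p} := by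
  obtain ⟨p, hp⟩ := (IsPrincipalIdealRing.principal v.asIdeal).principal
  refine ⟨p, ?_, hp⟩
  rintro rfl
  apply v.ne_bot
  rw [hp]
  simp

theorem Nv_pos (v : HS) : 0 < Nv v := by
  obtain ⟨p, hp, he⟩ := exists_gen v
  unfold Nv
  rw [he, card_quotient hp]
  positivity

theorem absIdele_eq (x : Idele) : absIdele x = (2 : ℝ) ^ (log (vi (x.1 : Kinf)) : ℤ) *
    ∏ᶠ v : HS, Nv v ^ (log (Valued.v ((x.2 : Afin) v)) : ℤ) := rfl

theorem absIdele_pos (x : Idele) : 0 < absIdele x := by
  rw [absIdele_eq]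
  refine mul_pos (zpow_pos two_pos _) ?_
  exact finprod_induction (fun y => 0 < y) one_pos (fun _ _ => mul_pos) fun v => zpow_pos (Nv_pos v) _

theorem unit_apply_ne (x : Afinˣ) (v : HS) : (x : Afin) v ≠ 0 := by
  intro h
  have h1 : (x : Afin) * ((x⁻¹ : Afinˣ) : Afin) = 1 := x.mul_inv
  have h2 := congrArg (proj v) h1
  rw [map_mul, map_one, proj_apply, h, zero_mul] at h2
  exact zero_ne_one h2

theorem finite_mulSupport (x : Afinˣ) :
    Function.HasFiniteMulSupport fun v : HS => Nv v ^ (log (Valued.v ((x : Afin) v)) : ℤ) := by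
  have h := (FiniteAdeleRing.isUnit_iff.1 x.isUnit).2
  rw [Filter.eventually_cofinite] at h
  refine Set.Finite.subset h fun v hv => ?_
  intro h1
  apply hv
  change Nv v ^ (log (Valued.v ((x : Afin) v)) : ℤ) = 1
  rw [h1, log_one, zpow_zero]

theorem absIdele_mul (x y : Idele) : absIdele (x * y) = absIdele x * absIdele y := by
  rw [absIdele_eq, absIdele_eq, absIdele_eq]
  have h1 : log (vi ((x * y).1 : Kinf)) = log (vi (x.1 : Kinf)) + log (vi (y.1 : Kinf)) := by
    have : ((x * y).1 : Kinf) = (x.1 : Kinf) * (y.1 : Kinf) := rfl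
    rw [this, vi_mul, log_mul]
    · rw [vi, Valuation.ne_zero_iff]
      exact x.1.ne_zero
    · rw [vi, Valuation.ne_zero_iff]
      exact y.1.ne_zero
  have h2 : ∀ v : HS, log (Valued.v (((x * y).2 : Afin) v)) = log (Valued.v ((x.2 : Afin) v)) +
      log (Valued.v ((y.2 : Afin) v)) := by
    intro v
    have : (((x * y).2 : Afin) v) = (x.2 : Afin) v * (y.2 : Afin) v := map_mul (proj v) _ _
    rw [this, map_mul, log_mul]
    · rw [Valuation.ne_zero_iff]
      exact unit_apply_ne _ _
    · rw [Valuation.ne_zero_iff]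
      exact unit_apply_ne _ _
  rw [h1, zpow_add₀ two_ne_zero]
  have h3 : ∏ᶠ v : HS, Nv v ^ (log (Valued.v (((x * y).2 : Afin) v)) : ℤ) =
      (∏ᶠ v : HS, Nv v ^ (log (Valued.v ((x.2 : Afin) v)) : ℤ)) *
        ∏ᶠ v : HS, Nv v ^ (log (Valued.v ((y.2 : Afin) v)) : ℤ) := by
    rw [← finprod_mul_distrib (finite_mulSupport x.2) (finite_mulSupport y.2)]
    refine finprod_congr fun v => ?_
    rw [h2, zpow_add₀ (Nv_pos v).ne']
  rw [h3]
  ring

theorem absIdele_one : absIdele 1 = 1 := by
  have h := absIdele_mul 1 1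
  rw [one_mul] at h
  have h0 := absIdele_pos 1
  field_simp at h
  exact h.symm

/-- the diagonal embedding of `K^×` -/
def diagU : Kˣ →* Idele := (Units.map (algebraMap K Kinf).toMonoidHom).prod (Units.map (algebraMap K Afin).toMonoidHom)

/-- the absolute value as a homomorphism -/
def absHom : Idele →* ℝ where
  toFun := absIdele
  map_one' := absIdele_one
  map_mul' := absIdele_mul

/-- a nonzero polynomial as a unit of `K` -/
def polU (p : (ZMod 2)[X]) (hp : p ≠ 0) : Kˣ := Units.mk0 (algebraMap (ZMod 2)[X] K p) (by simpa using hp)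

theorem abs_polU_irreducible {p : (ZMod 2)[X]} (hp : Irreducible p) : absIdele (diagU (polU p hp.ne_zero)) = 1 := by
  have hprime : (Ideal.span {p}).IsPrime := (Ideal.span_singleton_prime hp.ne_zero).2 hp.prime
  have hbot : Ideal.span {p} ≠ ⊥ := by
    rw [Ne, Ideal.span_singleton_eq_bot]
    exact hp.ne_zero
  let w : HS := ⟨Ideal.span {p}, hprime, hbot⟩
  have hv : ∀ v : HS, Valued.v (((diagU (polU p hp.ne_zero)).2 : Afin) v) = v.intValuation p := by
    intro v
    have : (((diagU (polU p hp.ne_zero)).2 : Afin) v) = (algebraMap K Afin (algebraMap (ZMod 2)[X] K p)) v := rfl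
    rw [this, val_K, HeightOneSpectrum.valuation_of_algebraMap]
  have hi : vi ((diagU (polU p hp.ne_zero)).1 : Kinf) = exp (p.natDegree : ℤ) := vi_pol hp.ne_zero
  rw [absIdele_eq, hi, finprod_eq_single _ w]
  · rw [hv, HeightOneSpectrum.intValuation_singleton w hp.ne_zero rfl, log_exp, log_exp]
    have : Nv w = 2 ^ p.natDegree := by
      have := card_quotient hp.ne_zero
      unfold Nv
      rw [this]
      norm_cast
    rw [this, zpow_natCast, zpow_neg, zpow_one]
    exact mul_inv_cancel₀ (by positivity)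
  · intro v hvw
    rw [hv]
    have h1 : v.intValuation p = 1 := by
      rw [HeightOneSpectrum.intValuation_eq_one_iff]
      intro hmem
      apply hvw
      apply HeightOneSpectrum.ext
      have hle : Ideal.span {p} ≤ v.asIdeal := by
        rw [Ideal.span_le, Set.singleton_subset_iff]
        exact hmem
      have hmax : (Ideal.span {p}).IsMaximal := w.isMaximal
      exact (hmax.eq_of_le v.isPrime.ne_top hle).symm
    rw [h1, log_one, zpow_zero]

theorem abs_polU (p : (ZMod 2)[X]) (hp : p ≠ 0) : absIdele (diagU (polU p hp)) = 1 := by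
  induction p using UniqueFactorizationMonoid.induction_on_prime with
  | h₁ => exact absurd rfl hp
  | h₂ x hx =>
    have h1 : x = 1 := by
      rw [Polynomial.isUnit_iff] at hx
      obtain ⟨r, hr, rfl⟩ := hx
      have key : ∀ r : ZMod 2, IsUnit r → r = 1 := by decide
      rw [key r hr, map_one]
    subst h1
    have : polU 1 hp = 1 := by
      apply Units.ext
      simp [polU]
    rw [this, map_one, absIdele_one]
  | h₃ a q ha hq ih =>
    have : polU (q * a) hp = polU q hq.ne_zero * polU a ha := by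
      apply Units.ext
      simp [polU]
    rw [this, map_mul, absIdele_mul, ih ha, abs_polU_irreducible hq.irreducible, mul_one]

theorem abs_K (a : Kˣ) : absIdele (diagU a) = 1 := by
  have hn : RatFunc.num (a : K) ≠ 0 := RatFunc.num_ne_zero a.ne_zero
  have hd : RatFunc.denom (a : K) ≠ 0 := RatFunc.denom_ne_zero _
  have e : a * polU _ hd = polU _ hn := by
    apply Units.ext
    have h := RatFunc.num_div_denom (a : K)
    have hd' : algebraMap (ZMod 2)[X] K (RatFunc.denom (a : K)) ≠ 0 := by simpa using hd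
    change (a : K) * algebraMap (ZMod 2)[X] K (RatFunc.denom (a : K)) = algebraMap (ZMod 2)[X] K (RatFunc.num (a : K))
    rw [div_eq_iff hd'] at h
    exact h.symm
  have h1 := congrArg (fun x => absIdele (diagU x)) e
  simp only [map_mul, absIdele_mul, abs_polU, mul_one] at h1
  exact h1

/-- the character `|.|^s` -/
def chiS (s : ℝ) : Idele →* ℂˣ where
  toFun x := Units.mk0 ((absIdele x ^ s : ℝ) : ℂ) (by
    have := Real.rpow_pos_of_pos (absIdele_pos x) s
    exact_mod_cast this.ne')
  map_one' := by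
    apply Units.ext
    simp [absIdele_one]
  map_mul' x y := by
    apply Units.ext
    simp only [Units.val_mk0, Units.val_mul]
    rw [absIdele_mul, Real.mul_rpow (absIdele_pos x).le (absIdele_pos y).le]
    push_cast
    rfl

theorem chiS_apply (s : ℝ) (x : Idele) : (chiS s x : ℂ) = ((absIdele x ^ s : ℝ) : ℂ) := rfl

theorem norm_chiS (s : ℝ) (x : Idele) : ‖(chiS s x : ℂ)‖ = absIdele x ^ s := by
  rw [chiS_apply, Complex.norm_real, Real.norm_of_nonneg (Real.rpow_nonneg (absIdele_pos x).le s)]

theorem abs_near_one : ∀ᶠ x : Idele in nhds 1, absIdele x = 1 := by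
  have h1 : {x : Idele | vi ((x.1 : Kinf) - 1) < 1} ∈ nhds (1 : Idele) := by
    have hc : Continuous fun x : Idele => (x.1 : Kinf) - 1 :=
      (Units.continuous_val.comp continuous_fst).sub continuous_const
    have ht := hc.tendsto 1
    have e0 : (((1 : Idele).1 : Kinf)) - 1 = 0 := by simp
    rw [e0] at ht
    have := ht (ball_mem_nhds 0)
    rw [exp_zero] at this
    exact this
  have h2 : {x : Idele | (x.2 : Afin) ∈ Oh} ∈ nhds (1 : Idele) :=
    (Oh_open.preimage (Units.continuous_val.comp continuous_snd)).mem_nhds Oh.one_mem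
  have h3 : {x : Idele | ((x.2⁻¹ : Afinˣ) : Afin) ∈ Oh} ∈ nhds (1 : Idele) := by
    refine (Oh_open.preimage (Units.continuous_val.comp (continuous_inv.comp continuous_snd))).mem_nhds ?_
    change (((1 : Afinˣ)⁻¹ : Afinˣ) : Afin) ∈ Oh
    rw [inv_one]
    exact Oh.one_mem
  filter_upwards [h1, h2, h3] with x hx1 hx2 hx3
  have hv1 : vi (x.1 : Kinf) = 1 := by
    have e : (x.1 : Kinf) = 1 + ((x.1 : Kinf) - 1) := by ring
    have hx1' : vi ((x.1 : Kinf) - 1) < 1 := hx1
    rw [e, vi, Valuation.map_add_eq_of_lt_left _ (by rw [map_one]; exact hx1'), map_one]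
  have hv2 : ∀ v : HS, Valued.v ((x.2 : Afin) v) = 1 := by
    intro v
    have e : (x.2 : Afin) v * ((x.2⁻¹ : Afinˣ) : Afin) v = 1 := by
      have h4 : (x.2 : Afin) * ((x.2⁻¹ : Afinˣ) : Afin) = 1 := x.2.mul_inv
      have h5 := congrArg (proj v) h4
      rwa [map_mul, map_one] at h5
    have e2 := congrArg Valued.v e
    rw [map_mul, map_one] at e2
    apply le_antisymm (hx2 v)
    by_contra h
    rw [not_le] at h
    have h6 : Valued.v ((x.2 : Afin) v) * Valued.v (((x.2⁻¹ : Afinˣ) : Afin) v) < 1 :=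
      mul_lt_one_of_lt_of_le h (hx3 v)
    exact absurd e2 h6.ne
  rw [absIdele_eq, hv1, log_one, zpow_zero, one_mul]
  have : ∀ v : HS, Nv v ^ (log (Valued.v ((x.2 : Afin) v)) : ℤ) = 1 := by
    intro v
    rw [hv2, log_one, zpow_zero]
  simp only [this, finprod_one]

theorem chiS_hecke (s : ℝ) : IsHecke (chiS s) := by
  constructor
  · apply continuous_of_continuousAt_one
    refine ContinuousAt.congr (continuousAt_const (y := (1 : ℂˣ))) ?_
    filter_upwards [abs_near_one] with x hx
    apply Units.ext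
    rw [chiS_apply, hx, Real.one_rpow]
    simp
  · intro a
    apply Units.ext
    change (chiS s (diagU a) : ℂ) = 1
    rw [chiS_apply, abs_K, Real.one_rpow]
    simp

end

end Pool.Agent.X290
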