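import Pool.Agent.X290.St

/-! Averaging locally constant functions over the Iwahori subgroup. -/

set_option autoImplicit false

namespace Pool.Agent.X290

open Polynomial WithZero Matrix

noncomputable section

/-- the average over the translations by the elements of `1/T O` modulo `1/T^(n+1) O` -/
def Av (n : ℕ) : PF →ₗ[ℂ] PF :=
  ((pfin n).card : ℂ)⁻¹ • ∑ p ∈ pfin n, rP (unip (pol p * T ^ (-(n : ℤ))))

theorem pfin_card_ne (n : ℕ) : ((pfin n).card : ℂ) ≠ 0 := by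
  have : (0 : (ZMod 2)[X]) ∈ pfin n := by
    rw [mem_pfin, degree_zero]
    exact WithBot.bot_lt_coe _
  exact_mod_cast Finset.card_ne_zero_of_mem this

theorem Av_apply (n : ℕ) (f : PF) (ξ : Row) :
    (Av n f).1 ξ = ((pfin n).card : ℂ)⁻¹ * ∑ p ∈ pfin n, f.1 (ξ ᵥ* (unip (pol p * T ^ (-(n : ℤ))) : Ginf).1) := by
  simp only [Av, LinearMap.smul_apply, LinearMap.sum_apply, Submodule.coe_smul, Submodule.coe_sum, Pi.smul_apply,
    Finset.sum_apply, smul_eq_mul, rP_apply]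

theorem Av_const {n : ℕ} {f : PF} {c : ℂ} {ξ : Row}
    (h : ∀ p ∈ pfin n, f.1 (ξ ᵥ* (unip (pol p * T ^ (-(n : ℤ))) : Ginf).1) = c) : (Av n f).1 ξ = c := by
  rw [Av_apply, Finset.sum_congr rfl h, Finset.sum_const, nsmul_eq_mul, ← mul_assoc,
    inv_mul_cancel₀ (pfin_card_ne n), one_mul]

theorem Av_one0 (n : ℕ) : Av n one0 = one0 := by
  apply PF_ext
  intro ξ hξ
  rw [one0_apply hξ]
  exact Av_const fun p _ => one0_apply (vecMul_ne hξ)

theorem in_ball_unip {n : ℕ} {p : (ZMod 2)[X]} (hp : p ∈ pfin n) (ξ : Row) :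
    vi ((ξ ᵥ* (unip (pol p * T ^ (-(n : ℤ))) : Ginf).1) 1) < vi ((ξ ᵥ* (unip (pol p * T ^ (-(n : ℤ))) : Ginf).1) 0) ↔
      vi (ξ 1) < vi (ξ 0) := by
  set a := pol p * T ^ (-(n : ℤ)) with ha
  have ha1 : vi a < 1 := by
    have := vi_rp_lt (m := n) hp
    rwa [sub_self, exp_zero] at this
  have e0 : (ξ ᵥ* (unip a : Ginf).1) 0 = ξ 0 := by
    rw [vecMul_two]
    simp [unip]
  have e1 : (ξ ᵥ* (unip a : Ginf).1) 1 = ξ 0 * a + ξ 1 := by
    rw [vecMul_two]
    simp [unip]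
  rw [e0, e1]
  rcases eq_or_ne (ξ 0) 0 with h0 | h0
  · rw [h0, zero_mul, zero_add]
  have hlt : vi (ξ 0 * a) < vi (ξ 0) := by
    rw [vi_mul]
    calc _ < vi (ξ 0) * 1 := mul_lt_mul_of_pos_left ha1 (pos_of_ne h0)
      _ = _ := mul_one _
  constructor
  · intro h
    have : ξ 1 = (ξ 0 * a + ξ 1) - ξ 0 * a := by ring
    rw [this]
    exact vi_sub_lt h hlt
  · intro h
    exact vi_add_lt hlt h

theorem Av_B0 (n : ℕ) : Av n B0 = B0 := by
  classical
  apply PF_ext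
  intro ξ hξ
  refine Av_const fun p hp => ?_
  rw [B0_apply, B0_apply]
  simp only [in_ball_unip hp]

/-- after averaging, a function of level `n` is constant on the standard ball -/
theorem Av_ball {n : ℕ} {f : PF} (hf : Level f n) {ξ : Row} (hξ : vi (ξ 1) < vi (ξ 0)) :
    (Av n f).1 ξ = (Av n f).1 ![1, 0] := by
  have h0 : ξ 0 ≠ 0 := ne_of_vi_lt hξ
  rw [hom_left h0]
  set y := ξ 1 / ξ 0 with hy
  have hy1 : vi y < 1 := by
    rw [hy, vi, map_div₀]
    exact (div_lt_one₀ (pos_of_ne h0)).2 hξ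
  rw [Av_apply, Av_apply]
  congr 1
  simp only [unip_row, one_mul, add_zero]
  obtain ⟨q, hq⟩ := exists_rep y n
  have hqm : q ∈ pfin n := by
    refine rep_mem hq ?_
    rw [sub_self, exp_zero]
    exact hy1
  refine Finset.sum_bij (fun p _ => p + q) (fun p hp => pfin_add hp hqm)
    (fun p _ p' _ h => add_right_cancel h)
    (fun p hp => ⟨p + q, pfin_add hp hqm, by rw [add_assoc, poly_char2, add_zero]⟩) (fun p _ => ?_)
  refine hf.1 _ _ ?_
  have e : pol (p + q) * T ^ (-(n : ℤ)) - (pol p * T ^ (-(n : ℤ)) + y) = -(y - pol q * T ^ (-(n : ℤ))) := by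
    rw [map_add]
    ring
  rw [e, vi, Valuation.map_neg]
  exact hq

/-- averaging preserves functions which are constant on the complement of the standard ball -/
theorem Av_compl {n : ℕ} {f : PF} {c : ℂ} (hf : ∀ ξ : Row, ξ ≠ 0 → ¬ vi (ξ 1) < vi (ξ 0) → f.1 ξ = c) {ξ : Row}
    (hξ0 : ξ ≠ 0) (hξ : ¬ vi (ξ 1) < vi (ξ 0)) : (Av n f).1 ξ = c :=
  Av_const fun p hp => hf _ (vecMul_ne hξ0) (by rwa [in_ball_unip hp])

/-- the element which exchanges the standard ball and its complement -/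
def om : Ginf := sw * dg Tu 1

theorem om_row (ξ : Row) : ξ ᵥ* (om).1 = ![T * ξ 1, ξ 0] := by
  ext i
  rw [vecMul_two]
  have hT : (Tu : Kinf) = T := rfl
  fin_cases i <;> simp [om, sw, dg, mul_comm, hT]

theorem vi_T_mul_lt {x y : Kinf} (hx : x ≠ 0 ∨ y ≠ 0): vi x < vi (T * y) ↔ vi x ≤ vi y := by
  rw [vi_mul, vi_T]
  rcases eq_or_ne y 0 with rfl | hy
  · have hx' : x ≠ 0 := by simpa using hx
    have := pos_of_ne hx'
    rw [vi] at this
    simp only [vi, map_zero, mul_zero, not_lt_zero, false_iff, not_le]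
    exact this
  · have := pos_of_ne hy
    rw [mul_comm]
    exact lt_mul_exp_iff_le this.ne'

theorem om_ball {ξ : Row} (hξ : ξ ≠ 0) : vi ((ξ ᵥ* (om).1) 1) < vi ((ξ ᵥ* (om).1) 0) ↔ ¬ vi (ξ 1) < vi (ξ 0) := by
  rw [om_row, not_lt]
  simp only [cons_val_one, cons_val_zero]
  apply vi_T_mul_lt
  by_contra h
  push Not at h
  apply hξ
  ext i
  fin_cases i
  · exact h.1
  · exact h.2

theorem rP_om_B0 : rP om B0 = one0 - B0 := by
  classical
  apply PF_ext
  intro ξ hξ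
  rw [rP_apply, B0_apply]
  simp only [om_ball hξ, Submodule.coe_sub, Pi.sub_apply, one0_apply hξ, B0_apply]
  split_ifs <;> simp_all

theorem rP_om_inv_B0 : rP om⁻¹ B0 = one0 - B0 := by
  have h := congrArg (rP om⁻¹) rP_om_B0
  rw [← Module.End.mul_apply, ← map_mul, inv_mul_cancel, map_one, Module.End.one_apply, map_sub, rP_one0] at h
  exact eq_sub_of_add_eq (by rw [add_comm]; exact add_eq_of_eq_sub h)

theorem om_inv_ball {ξ : Row} (hξ : ξ ≠ 0) : vi ((ξ ᵥ* (om⁻¹).1) 1) < vi ((ξ ᵥ* (om⁻¹).1) 0) ↔ ¬ vi (ξ 1) < vi (ξ 0) := by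
  have h := om_ball (vecMul_ne (g := om⁻¹) hξ)
  rw [Matrix.vecMul_vecMul] at h
  have e : om⁻¹.1 * om.1 = 1 := om.inv_mul
  rw [e, Matrix.vecMul_one] at h
  rw [h, not_not]

/-- after two averages only combinations of the standard ball and the constant function remain -/
theorem two_averages {n n' : ℕ} {f : PF} (hf : Level f n) (hf' : Level (rP om⁻¹ (Av n f)) n') :
    ∃ α β : ℂ, Av n' (rP om⁻¹ (Av n f)) = α • B0 + β • one0 := by
  classical
  set h := rP om⁻¹ (Av n f) with hh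
  have hc : ∀ ξ : Row, ξ ≠ 0 → ¬ vi (ξ 1) < vi (ξ 0) → h.1 ξ = (Av n f).1 ![1, 0] := by
    intro ξ hξ hξ'
    rw [hh, rP_apply]
    exact Av_ball hf ((om_inv_ball hξ).2 hξ')
  refine ⟨(Av n' h).1 ![1, 0] - (Av n f).1 ![1, 0], (Av n f).1 ![1, 0], PF_ext fun ξ hξ => ?_⟩
  simp only [Submodule.coe_add, Submodule.coe_smul, Pi.add_apply, Pi.smul_apply, smul_eq_mul, B0_apply,
    one0_apply hξ]
  by_cases hb : vi (ξ 1) < vi (ξ 0)
  · rw [if_pos hb, Av_ball hf' hb]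
    ring
  · rw [if_neg hb, Av_compl hc hξ hb]
    ring

theorem two_averages_B0 (n n' : ℕ) : Av n' (rP om⁻¹ (Av n B0)) = one0 - B0 := by
  rw [Av_B0, rP_om_inv_B0, map_sub, Av_one0, Av_B0]

theorem two_averages_one0 (n n' : ℕ) : Av n' (rP om⁻¹ (Av n one0)) = one0 := by
  rw [Av_one0, rP_one0, Av_one0]

/-- the subdivision of the standard ball -/
theorem B0_split : B0 = rP (gd 0 1) B0 + rP (gd (T ^ (-1 : ℤ)) 1) B0 := by
  classical
  apply PF_ext
  intro ξ hξ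
  simp only [Submodule.coe_add, Pi.add_apply, gd_apply, B0_apply, zero_mul, sub_zero]
  rcases eq_or_ne (ξ 0) 0 with h0 | h0
  · simp [h0, vi]
  have hpos := pos_of_ne h0
  have hT1 : vi (T ^ (-1 : ℤ)) = exp (-1 : ℤ) := vi_Tz (-1)
  have hlt1 : exp (-1 : ℤ) * vi (ξ 0) < vi (ξ 0) := by
    calc _ < 1 * vi (ξ 0) := mul_lt_mul_of_pos_right (by rw [← exp_zero, exp_lt_exp]; norm_num) hpos
      _ = _ := one_mul _
  by_cases h1 : vi (ξ 1) < exp (-1 : ℤ) * vi (ξ 0)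
  · have h2 : ¬ vi (ξ 1 - T ^ (-1 : ℤ) * ξ 0) < exp (-1 : ℤ) * vi (ξ 0) := by
      intro h
      have : T ^ (-1 : ℤ) * ξ 0 = ξ 1 - (ξ 1 - T ^ (-1 : ℤ) * ξ 0) := by ring
      have h3 := vi_sub_lt h1 h
      rw [← this, vi_mul, hT1] at h3
      exact lt_irrefl _ h3
    rw [if_pos (h1.trans hlt1), if_pos h1, if_neg h2, add_zero]
  · by_cases h2 : vi (ξ 1 - T ^ (-1 : ℤ) * ξ 0) < exp (-1 : ℤ) * vi (ξ 0)
    · have h3 : vi (ξ 1) < vi (ξ 0) := by
        refine vi_lt_of_sub (h2.trans hlt1) ?_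
        rw [vi_mul, hT1]
        exact hlt1
      rw [if_pos h3, if_neg h1, if_pos h2, zero_add]
    · rw [if_neg h1, if_neg h2, if_neg, add_zero]
      intro h3
      -- `|ξ₁/ξ₀| < 1` so `≤ exp (-1)`
      have h4 : vi (ξ 1 / ξ 0) < exp (0 : ℤ) := by
        rw [exp_zero, vi, map_div₀]
        exact (div_lt_one₀ hpos).2 h3
      have h5 : vi (ξ 1 / ξ 0) ≤ exp (-1 : ℤ) := by
        rw [← lt_exp_succ]
        exact h4
      rcases residue h5 with h6 | h6
      · apply h1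
        have := (div_rep (y := ξ 1) (m := 1) (a := 0) h0).2 (by rw [sub_zero]; exact h6)
        simpa using this
      · apply h2
        exact (div_rep (y := ξ 1) (m := 1) (a := T ^ (-1 : ℤ)) h0).2 h6

end

end Pool.Agent.X290
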