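import Mathlib

/-!
The function field `K = F₂(T)`, its completion at `∞` and its finite adeles; smooth irreducible representations.
-/

set_option autoImplicit false

namespace Pool.Agent.X290

open Polynomial IsDedekindDomain

noncomputable section

/-- the global field `K = F₂(T)` -/
abbrev K : Type := RatFunc (ZMod 2)

open Classical in
/-- the completion `K_∞ = F₂((1/T))` of `K` at the place `∞` -/
abbrev Kinf : Type := RatFunc.CompletionAtInfty (ZMod 2)

/-- the ring of finite adeles of `K`: the restricted product of the completions at the places `v ≠ ∞`, which are the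
nonzero primes of `F₂[T]` -/
abbrev Afin : Type := FiniteAdeleRing (ZMod 2)[X] K

/-- a smooth irreducible complex representation of a topological group: every vector is fixed by an open subgroup -/
structure Irrep (G : Type) [Group G] [TopologicalSpace G] where
  /-- the space -/
  V : Type
  [grp : AddCommGroup V]
  [mod : Module ℂ V]
  /-- the action -/
  ρ : Representation ℂ G V
  irreducible : ρ.IsIrreducible
  smooth : ∀ v : V, ∃ U : Subgroup G, IsOpen (U : Set G) ∧ ∀ g ∈ U, ρ g v = v

attribute [instance] Irrep.grp Irrep.mod

/-- the unipotent matrix `(1 x; 0 1)` -/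
def unip {R : Type} [CommRing R] (x : R) : GL (Fin 2) R where
  val := !![1, x; 0, 1]
  inv := !![1, -x; 0, 1]
  val_inv := by simp [Matrix.one_fin_two]
  inv_val := by simp [Matrix.one_fin_two]

/-- the image of `K` in the adele ring `K_∞ × 𝔸^∞` -/
def Kdiag : AddSubgroup (Kinf × Afin) := (RingHom.prod (algebraMap K Kinf) (algebraMap K Afin)).toAddMonoidHom.range

end

end Pool.Agent.X290
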