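import Pool.Agent.X290.Smo

set_option autoImplicit false

/-!
# The Laplacian of the integral operators
-/

namespace Pool.Agent.X290.Lap

open UpperHalfPlane MeasureTheory Set Filter Topology Hyp Smo
open Fou (Hs D isOpen_Hs)

/-- smooth admissible radial functions -/
structure RhoS (ρ : ℝ → ℝ) : Prop where
  smooth : ContDiff ℝ (⊤ : ℕ∞) ρ
  supp : ∃ δ < 1 / 8, ∀ u, δ ≤ u → ρ u = 0

lemma RhoS.rho {ρ : ℝ → ℝ} (h : RhoS ρ) : Rho ρ where
  cont := h.smooth.continuous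
  supp u hu := by
    obtain ⟨δ, hδ, hs⟩ := h.supp
    exact hs u (by linarith)

lemma RhoS.deriv {ρ : ℝ → ℝ} (h : RhoS ρ) : RhoS (deriv ρ) where
  smooth := by
    have := h.smooth
    rw [show ((⊤ : ℕ∞) : WithTop ℕ∞) = ((⊤ : ℕ∞) : WithTop ℕ∞) + 1 by rfl] at this
    exact (contDiff_succ_iff_deriv.mp this).2.2
  supp := by
    obtain ⟨δ, hδ, hs⟩ := h.supp
    refine ⟨(δ + 1 / 8) / 2, by linarith, fun u hu => ?_⟩
    have h1 : ρ =ᶠ[𝓝 u] fun _ => 0 := by
      filter_upwards [Ioi_mem_nhds (show δ < u by linarith)] with v hv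
      exact hs v (le_of_lt hv)
    rw [h1.deriv_eq, deriv_const]

/-- the radial Laplacian -/
noncomputable def psi (ρ : ℝ → ℝ) (u : ℝ) : ℝ :=
  -(u * (u + 1) * deriv (deriv ρ) u + (2 * u + 1) * deriv ρ u)

lemma RhoS.psi {ρ : ℝ → ℝ} (h : RhoS ρ) : RhoS (psi ρ) where
  smooth := by
    have h1 := h.deriv.smooth
    have h2 := h.deriv.deriv.smooth
    unfold Lap.psi
    have h3 : ContDiff ℝ (⊤ : ℕ∞) fun u : ℝ => u := contDiff_id
    exact (((h3.mul (h3.add contDiff_const)).mul h2).add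
      (((contDiff_const.mul h3).add contDiff_const).mul h1)).neg
  supp := by
    obtain ⟨δ1, hδ1, hs1⟩ := h.deriv.supp
    obtain ⟨δ2, hδ2, hs2⟩ := h.deriv.deriv.supp
    refine ⟨max δ1 δ2, max_lt hδ1 hδ2, fun u hu => ?_⟩
    rw [Lap.psi, hs1 u ((le_max_left _ _).trans hu), hs2 u ((le_max_right _ _).trans hu)]
    ring

/-- the point pair invariant in coordinates -/
noncomputable def uu (z w : ℂ) : ℝ :=
  ((z.re - w.re) ^ 2 + (z.im - w.im) ^ 2) / (4 * z.im * w.im)

lemma U_eq_uu (z w : ℍ) : U z w = uu z w := by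
  unfold U uu
  congr 1
  rw [← Complex.normSq_eq_norm_sq, Complex.normSq_apply]
  simp
  ring

/-- the kernel in coordinates -/
noncomputable def kr (ρ : ℝ → ℝ) (z w : ℂ) : ℝ := if 0 < w.im then ρ (uu z w) / w.im ^ 2 else 0

/-- the function in coordinates -/
noncomputable def hh (g : ℍ → ℂ) (w : ℂ) : ℂ := if 0 < w.im then g (ofComplex w) else 0

lemma hh_loc {g : ℍ → ℂ} (hg : BM g) : LocallyIntegrable (hh g) := by
  obtain ⟨C, hC⟩ := hg.bdd
  have hC0 : 0 ≤ C := (norm_nonneg _).trans (hC I)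
  have hmeas : Measurable (hh g) := by
    unfold hh
    refine Measurable.ite (measurableSet_lt measurable_const Complex.measurable_im) ?_
      measurable_const
    refine hg.meas.comp ?_
    rw [← measurableEmbedding_coe.measurable_comp_iff]
    have h1 : (UpperHalfPlane.coe ∘ (ofComplex : ℂ → ℍ)) = fun w => if 0 < w.im then w
        else UpperHalfPlane.coe (Classical.choice inferInstance) := by
      funext w
      simp only [Function.comp]
      rw [ofComplex_apply_eq_ite w]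
      split_ifs <;> rfl
    rw [h1]
    exact Measurable.ite (measurableSet_lt measurable_const Complex.measurable_im) measurable_id
      measurable_const
  refine (locallyIntegrable_const C).mono hmeas.aestronglyMeasurable ?_
  refine Filter.Eventually.of_forall fun w => ?_
  rw [Real.norm_of_nonneg hC0]
  unfold hh
  split_ifs
  · exact hC _
  · simpa using hC0

lemma K_eq_II (ρ : ℝ → ℝ) (g : ℍ → ℂ) {z : ℂ} (hz : 0 < z.im) :
    K ρ g (ofComplex z) = II (kr ρ) (hh g) z := by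
  unfold K II
  rw [integral_H, ← integral_indicator isOpen_Hs.measurableSet]
  refine integral_congr_ae (Filter.Eventually.of_forall fun w => ?_)
  simp only
  by_cases hw : 0 < w.im
  · rw [indicator_of_mem (show w ∈ Hs from hw), kr, hh, if_pos hw, if_pos hw, U_eq_uu,
      ofComplex_apply_of_im_pos hz, ofComplex_apply_of_im_pos hw, coe_mk, coe_mk,
      Complex.real_smul, Complex.real_smul]
    push_cast
    ring
  · rw [indicator_of_notMem (show w ∉ Hs from hw), kr, if_neg hw, zero_smul]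

/-- neighbourhood -/
def sN (z0 : ℂ) : Set ℂ := {z | z0.im / 2 < z.im ∧ z.im < 2 * z0.im ∧ |z.re - z0.re| < 1}

/-- compact set -/
def kN (z0 : ℂ) : Set ℂ :=
  Icc (z0.re - (1 + 2 * z0.im)) (z0.re + (1 + 2 * z0.im)) ×ℂ Icc (z0.im / 4) (4 * z0.im)

lemma isOpen_sN (z0 : ℂ) : IsOpen (sN z0) := by
  refine (isOpen_lt continuous_const Complex.continuous_im).inter
    ((isOpen_lt Complex.continuous_im continuous_const).inter
      (isOpen_lt (continuous_abs.comp (Complex.continuous_re.sub continuous_const))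
        continuous_const))

lemma mem_sN {z0 : ℂ} (h : 0 < z0.im) : z0 ∈ sN z0 := by
  refine ⟨by linarith, by linarith, by simp⟩

lemma uu_pos_im {z0 : ℂ} (h0 : 0 < z0.im) {z : ℂ} (hz : z ∈ sN z0) : 0 < z.im := by
  have := hz.1; linarith

lemma uu_zero {z0 : ℂ} (h0 : 0 < z0.im) {z w : ℂ} (hz : z ∈ sN z0) (hw : 0 < w.im)
    (hu : uu z w ≤ 1 / 8) : w ∈ kN z0 := by
  have hzp := uu_pos_im h0 hz
  have hU : U ⟨z, hzp⟩ ⟨w, hw⟩ ≤ 1 / 8 := by rw [U_eq_uu]; exact hu
  have h1 := im_le_of_U hU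
  have h2 := im_ge_of_U hU
  have h3 := re_le_of_U hU
  simp only [mk_im, mk_re] at h1 h2 h3
  obtain ⟨a1, a2, a3⟩ := hz
  rw [abs_lt] at a3
  rw [abs_le] at h3
  rw [kN, Complex.mem_reProdIm, mem_Icc, mem_Icc]
  refine ⟨⟨?_, ?_⟩, ⟨?_, ?_⟩⟩ <;> linarith [h3.1, h3.2, a3.1, a3.2]

lemma kr_smooth_at {ρ : ℝ → ℝ} (hρ : RhoS ρ) {z w : ℂ} (hz : 0 < z.im) (hw : 0 < w.im) :
    ContDiffAt ℝ (⊤ : ℕ∞) (fun p : ℂ × ℂ => ρ (uu p.1 p.2) / p.2.im ^ 2) (z, w) := by
  have r1 : ContDiff ℝ (⊤ : ℕ∞) fun p : ℂ × ℂ => p.1.re := Complex.reCLM.contDiff.comp contDiff_fst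
  have r2 : ContDiff ℝ (⊤ : ℕ∞) fun p : ℂ × ℂ => p.2.re := Complex.reCLM.contDiff.comp contDiff_snd
  have i1 : ContDiff ℝ (⊤ : ℕ∞) fun p : ℂ × ℂ => p.1.im := Complex.imCLM.contDiff.comp contDiff_fst
  have i2 : ContDiff ℝ (⊤ : ℕ∞) fun p : ℂ × ℂ => p.2.im := Complex.imCLM.contDiff.comp contDiff_snd
  unfold uu
  refine ContDiffAt.div (ContDiffAt.comp (z, w) hρ.smooth.contDiffAt ?_) (i2.pow 2).contDiffAt
    (pow_ne_zero 2 hw.ne')
  refine ContDiffAt.div (((r1.sub r2).pow 2).add ((i1.sub i2).pow 2)).contDiffAt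
    ((contDiff_const.mul i1).mul i2).contDiffAt ?_
  have := mul_pos hz hw
  simp only
  positivity

lemma kr_good {ρ : ℝ → ℝ} (hρ : RhoS ρ) {z0 : ℂ} (h0 : 0 < z0.im) :
    Good (sN z0) (kN z0) (kr ρ) where
  os := isOpen_sN z0
  ck := isCompact_Icc.reProdIm isCompact_Icc
  smooth := by
    rintro ⟨z, w⟩ ⟨hz, -⟩
    by_cases hw : 0 < w.im
    · have h1 := kr_smooth_at hρ (uu_pos_im h0 hz) hw
      refine ContDiffAt.contDiffWithinAt (h1.congr_of_eventuallyEq ?_)
      have ho : IsOpen {p : ℂ × ℂ | 0 < p.2.im} :=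
        isOpen_lt continuous_const (Complex.continuous_im.comp continuous_snd)
      filter_upwards [ho.mem_nhds hw] with p hp
      exact if_pos hp
    · have h1 : ContDiffAt ℝ (⊤ : ℕ∞) (fun _ : ℂ × ℂ => (0 : ℝ)) (z, w) := contDiffAt_const
      refine ContDiffAt.contDiffWithinAt (h1.congr_of_eventuallyEq ?_)
      have ho : IsOpen {p : ℂ × ℂ | p.1 ∈ sN z0 ∧ p.2.im < z0.im / 4} :=
        ((isOpen_sN z0).preimage continuous_fst).inter
          (isOpen_lt (Complex.continuous_im.comp continuous_snd) continuous_const)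
      filter_upwards [ho.mem_nhds (show (z, w) ∈ _ from ⟨hz, by simp only; linarith⟩)] with p hp
      simp only [kr]
      split_ifs with hp2
      · rw [hρ.rho.supp _ (by
          by_contra hc
          push Not at hc
          have := uu_zero h0 hp.1 hp2 hc.le
          rw [kN, Complex.mem_reProdIm, mem_Icc, mem_Icc] at this
          linarith [this.2.1, hp.2]), zero_div]
      · rfl
  zero z hz w hw := by
    unfold kr
    split_ifs with hp
    · rw [hρ.rho.supp _ (by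
        by_contra hc
        push Not at hc
        exact hw (uu_zero h0 hz hp hc.le)), zero_div]
    · rfl

/-- **Smoothness.** -/
theorem smooth_K {ρ : ℝ → ℝ} (hρ : RhoS ρ) {g : ℍ → ℂ} (hg : BM g) :
    ContDiffOn ℝ (⊤ : ℕ∞) (fun z => K ρ g (ofComplex z)) Hs := by
  intro z0 hz0
  have h1 := (kr_good hρ hz0).contDiffOn (hh_loc hg)
  have h2 := h1.contDiffAt ((isOpen_sN z0).mem_nhds (mem_sN hz0))
  refine ContDiffAt.contDiffWithinAt (h2.congr_of_eventuallyEq ?_)
  filter_upwards [isOpen_Hs.mem_nhds hz0] with z hz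
  exact K_eq_II ρ g hz

section derivatives

variable {ρ : ℝ → ℝ} {z0 : ℂ}

lemma sN_line_x {x y : ℝ} (h : (x : ℂ) + y * Complex.I ∈ sN z0) :
    ∀ᶠ t : ℝ in 𝓝 x, (t : ℂ) + y * Complex.I ∈ sN z0 := by
  have hc : Continuous fun t : ℝ => (t : ℂ) + y * Complex.I := by fun_prop
  exact hc.continuousAt.preimage_mem_nhds ((isOpen_sN z0).mem_nhds h)

lemma sN_line_y {x y : ℝ} (h : (x : ℂ) + y * Complex.I ∈ sN z0) :
    ∀ᶠ t : ℝ in 𝓝 y, (x : ℂ) + t * Complex.I ∈ sN z0 := by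
  have hc : Continuous fun t : ℝ => (x : ℂ) + t * Complex.I := by fun_prop
  exact hc.continuousAt.preimage_mem_nhds ((isOpen_sN z0).mem_nhds h)

lemma line_x (x y : ℝ) : HasDerivAt (fun t : ℝ => (t : ℂ) + y * Complex.I) 1 x := by
  simpa using (Complex.ofRealCLM.hasDerivAt (x := x)).add_const ((y : ℂ) * Complex.I)

lemma line_y (x y : ℝ) : HasDerivAt (fun t : ℝ => (x : ℂ) + t * Complex.I) Complex.I y := by
  have := ((Complex.ofRealCLM.hasDerivAt (x := y)).mul_const Complex.I).const_add (x : ℂ)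
  simpa using this

lemma uu_xy (x y : ℝ) (w : ℂ) : uu ((x : ℂ) + y * Complex.I) w
    = ((x - w.re) ^ 2 + (y - w.im) ^ 2) / (4 * y * w.im) := by
  simp [uu]

lemma kr_xy {w : ℂ} (hw : 0 < w.im) (x y : ℝ) : kr ρ ((x : ℂ) + y * Complex.I) w
    = ρ (((x - w.re) ^ 2 + (y - w.im) ^ 2) / (4 * y * w.im)) / w.im ^ 2 := by
  rw [kr, if_pos hw, uu_xy]

lemma kr_nonpos {w : ℂ} (hw : ¬ 0 < w.im) (z : ℂ) : kr ρ z w = 0 := by
  rw [kr, if_neg hw]

/-- first `x`-derivative of the kernel -/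
lemma DK_x (hρ : RhoS ρ) (h0 : 0 < z0.im) {x y : ℝ} (h : (x : ℂ) + y * Complex.I ∈ sN z0) {w : ℂ}
    (hw : 0 < w.im) : DK 1 (kr ρ) ((x : ℂ) + y * Complex.I) w
      = deriv ρ (((x - w.re) ^ 2 + (y - w.im) ^ 2) / (4 * y * w.im)) *
        ((x - w.re) / (2 * y * w.im)) / w.im ^ 2 := by
  have hy : 0 < y := by simpa using uu_pos_im h0 h
  have h1 := (kr_good hρ h0).line h w 1 (line_x x y) rfl
  refine h1.unique ?_
  have h2 : (fun t : ℝ => kr ρ ((t : ℂ) + y * Complex.I) w)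
      = fun t : ℝ => ρ (((t - w.re) ^ 2 + (y - w.im) ^ 2) / (4 * y * w.im)) / w.im ^ 2 := by
    funext t; exact kr_xy hw t y
  rw [h2]
  have h3 : HasDerivAt (fun t : ℝ => ((t - w.re) ^ 2 + (y - w.im) ^ 2) / (4 * y * w.im))
      ((x - w.re) / (2 * y * w.im)) x := by
    have h4 := ((((hasDerivAt_id x).sub_const w.re).pow 2).add_const ((y - w.im) ^ 2)).div_const
      (4 * y * w.im)
    refine h4.congr_deriv ?_
    simp only [id, Pi.pow_apply]
    field_simp
    ring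
  have h5 := (hρ.smooth.differentiable (by simp)
    (((x - w.re) ^ 2 + (y - w.im) ^ 2) / (4 * y * w.im))).hasDerivAt
  exact (h5.comp x h3).div_const _

/-- second `x`-derivative of the kernel -/
lemma DK_xx (hρ : RhoS ρ) (h0 : 0 < z0.im) {x y : ℝ} (h : (x : ℂ) + y * Complex.I ∈ sN z0) {w : ℂ}
    (hw : 0 < w.im) : DK 1 (DK 1 (kr ρ)) ((x : ℂ) + y * Complex.I) w
      = (deriv (deriv ρ) (((x - w.re) ^ 2 + (y - w.im) ^ 2) / (4 * y * w.im)) *
        ((x - w.re) / (2 * y * w.im)) ^ 2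
        + deriv ρ (((x - w.re) ^ 2 + (y - w.im) ^ 2) / (4 * y * w.im)) * (1 / (2 * y * w.im)))
        / w.im ^ 2 := by
  have hy : 0 < y := by simpa using uu_pos_im h0 h
  have h1 := ((kr_good hρ h0).DK 1).line h w 1 (line_x x y) rfl
  refine h1.unique ?_
  have h2 : (fun t : ℝ => DK 1 (kr ρ) ((t : ℂ) + y * Complex.I) w)
      =ᶠ[𝓝 x] fun t : ℝ => deriv ρ (((t - w.re) ^ 2 + (y - w.im) ^ 2) / (4 * y * w.im)) *
        ((t - w.re) / (2 * y * w.im)) / w.im ^ 2 := by
    filter_upwards [sN_line_x h] with t ht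
    exact DK_x hρ h0 ht hw
  refine HasDerivAt.congr_of_eventuallyEq ?_ h2
  have h3 : HasDerivAt (fun t : ℝ => ((t - w.re) ^ 2 + (y - w.im) ^ 2) / (4 * y * w.im))
      ((x - w.re) / (2 * y * w.im)) x := by
    have h4 := ((((hasDerivAt_id x).sub_const w.re).pow 2).add_const ((y - w.im) ^ 2)).div_const
      (4 * y * w.im)
    refine h4.congr_deriv ?_
    simp only [id, Pi.pow_apply]
    field_simp
    ring
  have h5 := (hρ.deriv.smooth.differentiable (by simp)
    (((x - w.re) ^ 2 + (y - w.im) ^ 2) / (4 * y * w.im))).hasDerivAt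
  have h6 : HasDerivAt (fun t : ℝ => (t - w.re) / (2 * y * w.im)) (1 / (2 * y * w.im)) x :=
    ((hasDerivAt_id x).sub_const w.re).div_const _
  have h7 := ((h5.comp x h3).mul h6).div_const (w.im ^ 2)
  refine h7.congr_deriv ?_
  simp only [Function.comp]
  ring

/-- first `y`-derivative of the kernel -/
lemma DK_y (hρ : RhoS ρ) (h0 : 0 < z0.im) {x y : ℝ} (h : (x : ℂ) + y * Complex.I ∈ sN z0) {w : ℂ}
    (hw : 0 < w.im) : DK Complex.I (kr ρ) ((x : ℂ) + y * Complex.I) w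
      = deriv ρ (((x - w.re) ^ 2 + (y - w.im) ^ 2) / (4 * y * w.im)) *
        ((y ^ 2 - w.im ^ 2 - (x - w.re) ^ 2) / (4 * y ^ 2 * w.im)) / w.im ^ 2 := by
  have hy : 0 < y := by simpa using uu_pos_im h0 h
  have h1 := (kr_good hρ h0).line h w Complex.I (line_y x y) rfl
  refine h1.unique ?_
  have h2 : (fun t : ℝ => kr ρ ((x : ℂ) + t * Complex.I) w)
      = fun t : ℝ => ρ (((x - w.re) ^ 2 + (t - w.im) ^ 2) / (4 * t * w.im)) / w.im ^ 2 := by
    funext t; exact kr_xy hw x t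
  rw [h2]
  have h3 : HasDerivAt (fun t : ℝ => ((x - w.re) ^ 2 + (t - w.im) ^ 2) / (4 * t * w.im))
      ((y ^ 2 - w.im ^ 2 - (x - w.re) ^ 2) / (4 * y ^ 2 * w.im)) y := by
    have h4 := ((((hasDerivAt_id y).sub_const w.im).pow 2).const_add ((x - w.re) ^ 2)).div
      (((hasDerivAt_id y).const_mul 4).mul_const w.im) (by simp only [id]; positivity)
    refine h4.congr_deriv ?_
    simp only [id, Pi.pow_apply]
    field_simp
    ring
  have h5 := (hρ.smooth.differentiable (by simp)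
    (((x - w.re) ^ 2 + (y - w.im) ^ 2) / (4 * y * w.im))).hasDerivAt
  exact (h5.comp y h3).div_const _

/-- second `y`-derivative of the kernel -/
lemma DK_yy (hρ : RhoS ρ) (h0 : 0 < z0.im) {x y : ℝ} (h : (x : ℂ) + y * Complex.I ∈ sN z0) {w : ℂ}
    (hw : 0 < w.im) : DK Complex.I (DK Complex.I (kr ρ)) ((x : ℂ) + y * Complex.I) w
      = (deriv (deriv ρ) (((x - w.re) ^ 2 + (y - w.im) ^ 2) / (4 * y * w.im)) *
        ((y ^ 2 - w.im ^ 2 - (x - w.re) ^ 2) / (4 * y ^ 2 * w.im)) ^ 2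
        + deriv ρ (((x - w.re) ^ 2 + (y - w.im) ^ 2) / (4 * y * w.im)) *
          ((w.im ^ 2 + (x - w.re) ^ 2) / (2 * w.im * y ^ 3)))
        / w.im ^ 2 := by
  have hy : 0 < y := by simpa using uu_pos_im h0 h
  have h1 := ((kr_good hρ h0).DK Complex.I).line h w Complex.I (line_y x y) rfl
  refine h1.unique ?_
  have h2 : (fun t : ℝ => DK Complex.I (kr ρ) ((x : ℂ) + t * Complex.I) w)
      =ᶠ[𝓝 y] fun t : ℝ => deriv ρ (((x - w.re) ^ 2 + (t - w.im) ^ 2) / (4 * t * w.im)) *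
        ((t ^ 2 - w.im ^ 2 - (x - w.re) ^ 2) / (4 * t ^ 2 * w.im)) / w.im ^ 2 := by
    filter_upwards [sN_line_y h] with t ht
    exact DK_y hρ h0 ht hw
  refine HasDerivAt.congr_of_eventuallyEq ?_ h2
  have h3 : HasDerivAt (fun t : ℝ => ((x - w.re) ^ 2 + (t - w.im) ^ 2) / (4 * t * w.im))
      ((y ^ 2 - w.im ^ 2 - (x - w.re) ^ 2) / (4 * y ^ 2 * w.im)) y := by
    have h4 := ((((hasDerivAt_id y).sub_const w.im).pow 2).const_add ((x - w.re) ^ 2)).div
      (((hasDerivAt_id y).const_mul 4).mul_const w.im) (by simp only [id]; positivity)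
    refine h4.congr_deriv ?_
    simp only [id, Pi.pow_apply]
    field_simp
    ring
  have h5 := (hρ.deriv.smooth.differentiable (by simp)
    (((x - w.re) ^ 2 + (y - w.im) ^ 2) / (4 * y * w.im))).hasDerivAt
  have h6 : HasDerivAt (fun t : ℝ => (t ^ 2 - w.im ^ 2 - (x - w.re) ^ 2) / (4 * t ^ 2 * w.im))
      ((w.im ^ 2 + (x - w.re) ^ 2) / (2 * w.im * y ^ 3)) y := by
    have h4 := ((((hasDerivAt_id y).pow 2).sub_const (w.im ^ 2)).sub_const ((x - w.re) ^ 2)).div
      ((((hasDerivAt_id y).pow 2).const_mul 4).mul_const w.im)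
      (by simp only [id, Pi.pow_apply]; positivity)
    refine h4.congr_deriv ?_
    simp only [id, Pi.pow_apply]
    field_simp
    ring
  have h7 := ((h5.comp y h3).mul h6).div_const (w.im ^ 2)
  refine h7.congr_deriv ?_
  simp only [Function.comp]
  ring

/-- derivatives vanish below the real axis -/
lemma DK_nonpos (hρ : RhoS ρ) (h0 : 0 < z0.im) {z : ℂ} (h : z ∈ sN z0) {w : ℂ}
    (hw : ¬ 0 < w.im) (v : ℂ) : DK v (kr ρ) z w = 0 := by
  have hγ : HasDerivAt (fun t : ℝ => z + t • v) v 0 := by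
    have := ((hasDerivAt_id (0 : ℝ)).smul_const v).const_add z
    rw [one_smul] at this
    exact this
  have h1 := (kr_good hρ h0).line h w v hγ (by simp)
  refine h1.unique ?_
  have h2 : (fun t : ℝ => kr ρ (z + t • v) w) = fun _ => 0 := by
    funext t; exact kr_nonpos hw _
  rw [h2]
  exact hasDerivAt_const _ _

lemma DK_DK_nonpos (hρ : RhoS ρ) (h0 : 0 < z0.im) {z : ℂ} (h : z ∈ sN z0) {w : ℂ}
    (hw : ¬ 0 < w.im) (v : ℂ) : DK v (DK v (kr ρ)) z w = 0 := by
  have hγ : HasDerivAt (fun t : ℝ => z + t • v) v 0 := by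
    have := ((hasDerivAt_id (0 : ℝ)).smul_const v).const_add z
    rw [one_smul] at this
    exact this
  have h1 := ((kr_good hρ h0).DK v).line h w v hγ (by simp)
  refine h1.unique ?_
  have h2 : (fun t : ℝ => DK v (kr ρ) (z + t • v) w) =ᶠ[𝓝 0] fun _ => 0 := by
    have hc : Continuous fun t : ℝ => z + t • v := by fun_prop
    have : ∀ᶠ t : ℝ in 𝓝 0, z + t • v ∈ sN z0 :=
      hc.continuousAt.preimage_mem_nhds ((isOpen_sN z0).mem_nhds (by simpa using h))
    filter_upwards [this] with t ht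
    exact DK_nonpos hρ h0 ht hw v
  exact (hasDerivAt_const _ _).congr_of_eventuallyEq h2

/-- the Laplacian of the kernel -/
lemma DK_lap (hρ : RhoS ρ) (h0 : 0 < z0.im) {z : ℂ} (h : z ∈ sN z0) (w : ℂ) :
    DK 1 (DK 1 (kr ρ)) z w + DK Complex.I (DK Complex.I (kr ρ)) z w
      = -(1 / z.im ^ 2) * kr (psi ρ) z w := by
  by_cases hw : 0 < w.im
  · obtain ⟨x, y, rfl⟩ : ∃ x y : ℝ, z = (x : ℂ) + y * Complex.I :=
      ⟨z.re, z.im, (Complex.re_add_im z).symm⟩
    have hy : 0 < y := by simpa using uu_pos_im h0 h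
    rw [DK_xx hρ h0 h hw, DK_yy hρ h0 h hw, kr_xy hw, psi]
    have him : ((x : ℂ) + y * Complex.I).im = y := by simp
    rw [him]
    generalize deriv (deriv ρ) (((x - w.re) ^ 2 + (y - w.im) ^ 2) / (4 * y * w.im)) = r2
    generalize deriv ρ (((x - w.re) ^ 2 + (y - w.im) ^ 2) / (4 * y * w.im)) = r1
    field_simp
    ring
  · rw [DK_DK_nonpos hρ h0 h hw, DK_DK_nonpos hρ h0 h hw, kr_nonpos hw]
    ring

end derivatives

/-- **Laplacian of the integral operator.** -/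
theorem lap_K {ρ : ℝ → ℝ} (hρ : RhoS ρ) {g : ℍ → ℂ} (hg : BM g) {z : ℂ} (hz : 0 < z.im) :
    D 1 (D 1 (fun z => K ρ g (ofComplex z))) z
      + D Complex.I (D Complex.I (fun z => K ρ g (ofComplex z))) z
      = -(1 / (z.im : ℂ) ^ 2) * K (psi ρ) g (ofComplex z) := by
  set F : ℂ → ℂ := fun z => K ρ g (ofComplex z) with hF
  have hG := kr_good hρ hz
  have hL := hh_loc hg
  have hzs : z ∈ sN z := mem_sN hz
  have hEq : ∀ y ∈ sN z, F =ᶠ[𝓝 y] II (kr ρ) (hh g) := by
    intro y hy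
    filter_upwards [isOpen_Hs.mem_nhds (show y ∈ Hs from uu_pos_im hz hy)] with t ht
    exact K_eq_II ρ g ht
  have h1 : ∀ v : ℂ, D v (D v F) z = II (DK v (DK v (kr ρ))) (hh g) z := by
    intro v
    have h2 : D v F =ᶠ[𝓝 z] II (DK v (kr ρ)) (hh g) := by
      filter_upwards [(isOpen_sN z).mem_nhds hzs] with y hy
      have : D v F y = D v (II (kr ρ) (hh g)) y := by
        unfold Fou.D; rw [(hEq y hy).fderiv_eq]
      rw [this, hG.D_II hL hy]
    have h3 : D v (D v F) z = D v (II (DK v (kr ρ)) (hh g)) z := by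
      change fderiv ℝ (D v F) z v = _
      rw [h2.fderiv_eq]
      rfl
    rw [h3, (hG.DK v).D_II hL hzs]
  rw [h1, h1, K_eq_II _ _ hz]
  unfold II
  rw [← integral_add ((((hG.DK 1).DK 1)).integrable hL hzs)
    ((((hG.DK Complex.I).DK Complex.I)).integrable hL hzs), ← integral_const_mul]
  refine integral_congr_ae (Filter.Eventually.of_forall fun w => ?_)
  simp only
  rw [← add_smul, DK_lap hρ hz hzs, Complex.real_smul, Complex.real_smul]
  push_cast
  ring

end Pool.Agent.X290.Lap
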