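import Pool.Agent.X290.Ker
import Pool.Agent.X290.Lap

set_option autoImplicit false

/-!
# Boundedness of the odd automorphic kernel
-/

namespace Pool.Agent.X290.Bd

open UpperHalfPlane MeasureTheory Set Filter Topology ModularGroup Hyp Fd Ker Lap
open scoped MatrixGroups Modular

lemma J_im (z : ℍ) : (J • z).im = z.im := by
  have := coe_J_smul z
  have h := congrArg Complex.im this
  simpa using h

lemma J_re (z : ℍ) : (J • z).re = - z.re := by
  have := coe_J_smul z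
  have h := congrArg Complex.re this
  simpa using h

lemma J_mem_fd {z : ℍ} (hz : z ∈ 𝒟) : J • z ∈ 𝒟 := by
  obtain ⟨h1, h2⟩ := hz
  refine ⟨?_, ?_⟩
  · rw [Complex.normSq_apply] at h1 ⊢
    change 1 ≤ z.re * z.re + z.im * z.im at h1
    change 1 ≤ (J • z).re * (J • z).re + (J • z).im * (J • z).im
    rw [J_im, J_re]
    linarith
  · rw [J_re, abs_neg]; exact h2

lemma im_fd {z : ℍ} (hz : z ∈ 𝒟) : 3 / 4 ≤ z.im := by
  have h1 := three_le_four_mul_im_sq_of_mem_fd hz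
  have h3 := z.im_pos
  nlinarith

/-- dichotomy for group elements -/
lemma dich (g : Gm) : (∀ w : ℍ, (g • w).im * w.im ≤ 1) ∨ ∃ n : ℤ, g = cl (T ^ n) := by
  obtain ⟨γ, rfl⟩ := exists_cl g
  by_cases hc : γ 1 0 = 0
  · right
    obtain ⟨n, hn⟩ := exists_eq_T_zpow_of_c_eq_zero hc
    refine ⟨n, ?_⟩
    apply Subtype.ext
    ext z
    change ((γ • z : ℍ) : ℂ) = ((T ^ n • z : ℍ) : ℂ)
    rw [hn z]
  · left
    intro w
    rw [cl_smul, ModularGroup.im_smul_eq_div_normSq]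
    have h1 := c_mul_im_sq_le_normSq_denom (γ : GL (Fin 2) ℝ) w
    have h2 : ((γ : GL (Fin 2) ℝ) 1 0 : ℝ) = ((γ 1 0 : ℤ) : ℝ) := by simp
    rw [h2] at h1
    have h3 : (1 : ℝ) ≤ ((γ 1 0 : ℤ) : ℝ) ^ 2 := by
      have : (1 : ℤ) ≤ (γ 1 0) ^ 2 := by
        have := sq_pos_of_ne_zero hc
        omega
      exact_mod_cast this
    have hw := w.im_pos
    have h4 : 0 < Complex.normSq (denom (γ : GL (Fin 2) ℝ) w) := by
      nlinarith [mul_pos hw hw]
    rw [div_mul_eq_mul_div, div_le_one h4]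
    nlinarith [mul_pos hw hw]

/-- counting -/
theorem count : ∃ C : ℝ, 0 ≤ C ∧ ∀ z ∈ 𝒟, ∀ w ∈ 𝒟, ∃ s : Finset Gm,
    (∀ g ∉ s, 1 / 8 < U z (g • w) ∧ 1 / 8 < U (J • z) (g • w)) ∧ (s.card : ℝ) ≤ C * z.im := by
  classical
  set s0 := (finite_U (isCompact_truncatedFundamentalDomain 4)
    (isCompact_truncatedFundamentalDomain 8)).toFinset with hs0
  refine ⟨2 * s0.card + 5, by positivity, fun z hz w hw => ?_⟩
  have hzi := im_fd hz
  have hwi := im_fd hw
  rcases le_or_gt z.im 4 with h4 | h4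
  · refine ⟨s0, fun g hg => ?_, ?_⟩
    · have key : ∀ z' : ℍ, z' ∈ 𝒟 → z'.im = z.im → 1 / 8 < U z' (g • w) := by
        intro z' hz' hzi'
        by_contra hc
        push Not at hc
        apply hg
        rw [hs0, Finite.mem_toFinset]
        refine ⟨z', ⟨hz', by rw [hzi']; exact h4⟩, w, ⟨hw, ?_⟩, hc⟩
        have h5 := im_le_of_U hc
        have h6 := im_ge_of_U hc
        rw [hzi'] at h5 h6
        rcases dich g with h | ⟨n, hn⟩
        · have h7 := h w
          nlinarith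
        · rw [hn, cl_smul, im_T_zpow_smul] at h5
          linarith
      exact ⟨key z hz rfl, key _ (J_mem_fd hz) (J_im z)⟩
    · have : (0 : ℝ) ≤ s0.card := Nat.cast_nonneg _
      nlinarith
  · refine ⟨(Finset.Icc (-⌊2 * z.im⌋) ⌊2 * z.im⌋).image (fun n => cl (T ^ n)), fun g hg => ?_, ?_⟩
    · have key : ∀ z' : ℍ, z' ∈ 𝒟 → z'.im = z.im → 1 / 8 < U z' (g • w) := by
        intro z' hz' hzi'
        by_contra hc
        push Not at hc
        apply hg
        have h5 := im_le_of_U hc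
        have h6 := im_ge_of_U hc
        have h8 := re_le_of_U hc
        rw [hzi'] at h5 h6 h8
        rcases dich g with h | ⟨n, hn⟩
        · have h7 := h w
          nlinarith
        · rw [Finset.mem_image]
          refine ⟨n, ?_, hn.symm⟩
          rw [hn, cl_smul, re_T_zpow_smul] at h8
          have h9 : |z'.re| ≤ 1 / 2 := hz'.2
          have h10 : |w.re| ≤ 1 / 2 := hw.2
          rw [abs_le] at h8 h9 h10
          rw [Finset.mem_Icc]
          constructor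
          · rw [neg_le, Int.le_floor]; push_cast; linarith [h8.1, h8.2, h9.1, h9.2, h10.1, h10.2]
          · rw [Int.le_floor]; linarith [h8.1, h8.2, h9.1, h9.2, h10.1, h10.2]
      exact ⟨key z hz rfl, key _ (J_mem_fd hz) (J_im z)⟩
    · have h1 : ((Finset.Icc (-⌊2 * z.im⌋) ⌊2 * z.im⌋).image (fun n => cl (T ^ n))).card
          ≤ (Finset.Icc (-⌊2 * z.im⌋) ⌊2 * z.im⌋).card := Finset.card_image_le
      rw [Int.card_Icc] at h1
      have h2 : 0 ≤ ⌊2 * z.im⌋ := Int.floor_nonneg.mpr (by linarith)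
      have h3 : (((⌊2 * z.im⌋ + 1 - -⌊2 * z.im⌋).toNat : ℕ) : ℝ) = 2 * (⌊2 * z.im⌋ : ℝ) + 1 := by
        have h4 : (((⌊2 * z.im⌋ + 1 - -⌊2 * z.im⌋).toNat : ℕ) : ℤ) = 2 * ⌊2 * z.im⌋ + 1 := by
          rw [Int.toNat_of_nonneg (by omega)]; ring
        exact_mod_cast h4
      have h5 : (⌊2 * z.im⌋ : ℝ) ≤ 2 * z.im := Int.floor_le _
      have h6 : (((Finset.Icc (-⌊2 * z.im⌋) ⌊2 * z.im⌋).image (fun n => cl (T ^ n))).card : ℝ)
          ≤ 2 * (⌊2 * z.im⌋ : ℝ) + 1 := by rw [← h3]; exact_mod_cast h1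
      have h7 : (0 : ℝ) ≤ s0.card := Nat.cast_nonneg _
      nlinarith

/-- Lipschitz bound for `φ` -/
lemma lip {φ : ℝ → ℝ} (hφ : RhoS φ) : ∃ L : ℝ, 0 ≤ L ∧ ∀ a b : ℝ, 0 ≤ a → 0 ≤ b →
    |φ a - φ b| ≤ L * |a - b| := by
  have hd := hφ.deriv
  obtain ⟨M, hM⟩ := (isCompact_Icc (a := (0 : ℝ)) (b := 1)).exists_bound_of_continuousOn
    hd.smooth.continuous.continuousOn
  have hM0 : 0 ≤ M := (norm_nonneg _).trans (hM 0 ⟨le_refl _, zero_le_one⟩)
  refine ⟨M, hM0, fun a b ha hb => ?_⟩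
  have h1 : ∀ x ∈ Ici (0 : ℝ), ‖deriv φ x‖ ≤ M := by
    intro x hx
    rcases le_or_gt x 1 with h | h
    · exact hM x ⟨hx, h⟩
    · rw [hd.rho.supp x (by linarith)]; simpa using hM0
  have h2 := (convex_Ici (0 : ℝ)).norm_image_sub_le_of_norm_deriv_le (f := φ)
    (fun x _ => hφ.smooth.differentiable (by simp) x) h1 (mem_Ici.mpr hb) (mem_Ici.mpr ha)
  simpa [Real.norm_eq_abs] using h2

/-- difference of the invariants at `z` and `Jz` -/
lemma U_diff {z w : ℍ} (hz : z ∈ 𝒟) (h : U z w ≤ 1 / 8 ∨ U (J • z) w ≤ 1 / 8) :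
    |U z w - U (J • z) w| ≤ 2 / z.im := by
  have hzi := im_fd hz
  have hzp := z.im_pos
  have hwp := w.im_pos
  have hre : |z.re| ≤ 1 / 2 := hz.2
  have h1 : z.im ≤ 2 * w.im ∧ |w.re| ≤ 1 / 2 + z.im := by
    rcases h with h | h
    · refine ⟨im_ge_of_U h, ?_⟩
      have := re_le_of_U h
      rw [abs_le] at this hre ⊢
      constructor <;> linarith [this.1, this.2, hre.1, hre.2]
    · have a1 := im_ge_of_U h
      have := re_le_of_U h
      rw [J_im] at a1 this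
      rw [J_re] at this
      refine ⟨a1, ?_⟩
      rw [abs_le] at this hre ⊢
      constructor <;> linarith [this.1, this.2, hre.1, hre.2]
  have h2 : U z w - U (J • z) w = -(z.re * w.re) / (z.im * w.im) := by
    have e1 : U z w = ((z.re - w.re) ^ 2 + (z.im - w.im) ^ 2) / (4 * z.im * w.im) := by
      rw [U_eq_uu]; rfl
    have e2 : U (J • z) w = ((-z.re - w.re) ^ 2 + (z.im - w.im) ^ 2) / (4 * z.im * w.im) := by
      rw [U_eq_uu]
      change (((J • z).re - w.re) ^ 2 + ((J • z).im - w.im) ^ 2) / (4 * (J • z).im * w.im) = _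
      rw [J_im, J_re]
    rw [e1, e2]
    field_simp
    ring
  rw [h2, abs_div, abs_neg, abs_mul, abs_of_pos (mul_pos hzp hwp), div_le_div_iff₀ (by positivity)
    hzp]
  have h3 : |z.re| * |w.re| ≤ 1 / 2 * (1 / 2 + z.im) := by
    gcongr
    exact h1.2
  have h4 : 1 / 2 * (1 / 2 + z.im) ≤ z.im := by linarith
  nlinarith [h1.1, mul_pos hzp hwp]

/-- **The odd kernel is bounded.** -/
theorem km_bdd {φ : ℝ → ℝ} (hφ : RhoS φ) : ∃ M : ℝ, 0 ≤ M ∧ ∀ z w, |km φ z w| ≤ M := by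
  obtain ⟨C, hC, hcount⟩ := count
  obtain ⟨L, hL, hlip⟩ := lip hφ
  have key : ∀ z ∈ 𝒟, ∀ w ∈ 𝒟, |km φ z w| ≤ C * L := by
    intro z hz w hw
    obtain ⟨s, hs, hcard⟩ := hcount z hz w hw
    have hzp := z.im_pos
    unfold km
    rw [A_eq_sum hφ.rho (fun g hg => (hs g hg).1), A_eq_sum hφ.rho (fun g hg => (hs g hg).2),
      ← Finset.sum_sub_distrib, abs_div, abs_two]
    have h1 : |∑ g ∈ s, (φ (U z (g • w)) - φ (U (J • z) (g • w)))| ≤ ∑ g ∈ s, L * (2 / z.im) := by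
      refine (Finset.abs_sum_le_sum_abs _ _).trans (Finset.sum_le_sum fun g _ => ?_)
      by_cases h : U z (g • w) ≤ 1 / 8 ∨ U (J • z) (g • w) ≤ 1 / 8
      · refine (hlip _ _ (U_nonneg _ _) (U_nonneg _ _)).trans ?_
        gcongr
        exact U_diff hz h
      · push Not at h
        rw [hφ.rho.supp _ h.1.le, hφ.rho.supp _ h.2.le, sub_zero, abs_zero]
        positivity
    rw [Finset.sum_const, nsmul_eq_mul] at h1
    rw [div_le_iff₀ (by norm_num)]
    calc _ ≤ (s.card : ℝ) * (L * (2 / z.im)) := h1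
      _ ≤ (C * z.im) * (L * (2 / z.im)) := by gcongr
      _ = C * L * 2 := by field_simp
  refine ⟨C * L, by positivity, fun z w => ?_⟩
  obtain ⟨γ1, h1⟩ := exists_smul_mem_fd z
  obtain ⟨γ2, h2⟩ := exists_smul_mem_fd w
  have h3 := key _ h1 _ h2
  rw [← cl_smul, ← cl_smul, km_smul, km_smul_right] at h3
  exact h3

end Pool.Agent.X290.Bd
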