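import Mathlib

set_option autoImplicit false

/-!
# The Bessel type integral `∫ cosh(x)^j exp(-2π y cosh x + ν x) dx`
-/

namespace Pool.Agent.X290.Bes

open Real MeasureTheory Set Filter Topology

lemma cosh_ge_sq (x : ℝ) : x ^ 2 / 4 ≤ Real.cosh x := by
  rw [← Real.cosh_abs, Real.cosh_eq]
  have h1 := Real.quadratic_le_exp_of_nonneg (abs_nonneg x)
  have h2 := Real.exp_pos (-|x|)
  have h3 : |x| ^ 2 = x ^ 2 := sq_abs x
  nlinarith [abs_nonneg x]

lemma base_le {a : ℝ} (ha : 0 < a) (N : ℕ) (x : ℝ) :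
    Real.cosh x ^ N * Real.exp (-a * Real.cosh x)
      ≤ (N.factorial : ℝ) * (2 / a) ^ N * Real.exp (-(a / 8) * x ^ 2) := by
  have hc : 0 < Real.cosh x := Real.cosh_pos x
  have h1 := Real.pow_div_factorial_le_exp (a / 2 * Real.cosh x) (by positivity) N
  have h2 : Real.cosh x ^ N ≤ (N.factorial : ℝ) * (2 / a) ^ N * Real.exp (a / 2 * Real.cosh x) := by
    have hf : (0 : ℝ) < N.factorial := by exact_mod_cast N.factorial_pos
    rw [div_le_iff₀ hf, mul_pow] at h1
    have h3 : (2 / a) ^ N * ((a / 2) ^ N * Real.cosh x ^ N) = Real.cosh x ^ N := by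
      rw [← mul_assoc, ← mul_pow]
      have : 2 / a * (a / 2) = 1 := by field_simp
      rw [this]; simp
    calc Real.cosh x ^ N = (2 / a) ^ N * ((a / 2) ^ N * Real.cosh x ^ N) := h3.symm
      _ ≤ (2 / a) ^ N * (Real.exp (a / 2 * Real.cosh x) * N.factorial) :=
          mul_le_mul_of_nonneg_left h1 (by positivity)
      _ = _ := by ring
  calc Real.cosh x ^ N * Real.exp (-a * Real.cosh x)
      ≤ ((N.factorial : ℝ) * (2 / a) ^ N * Real.exp (a / 2 * Real.cosh x))
          * Real.exp (-a * Real.cosh x) :=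
        mul_le_mul_of_nonneg_right h2 (Real.exp_pos _).le
    _ = (N.factorial : ℝ) * (2 / a) ^ N * Real.exp (-(a / 2) * Real.cosh x) := by
        rw [mul_assoc, ← Real.exp_add]; ring_nf
    _ ≤ _ := by
        apply mul_le_mul_of_nonneg_left _ (by positivity)
        apply Real.exp_le_exp.mpr
        have := cosh_ge_sq x
        nlinarith

lemma int_base {a : ℝ} (ha : 0 < a) (N : ℕ) :
    Integrable (fun x : ℝ => Real.cosh x ^ N * Real.exp (-a * Real.cosh x)) := by
  refine Integrable.mono'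
    ((integrable_exp_neg_mul_sq (b := a / 8) (by positivity)).const_mul
      ((N.factorial : ℝ) * (2 / a) ^ N)) ?_ ?_
  · exact (by fun_prop : Continuous _).aestronglyMeasurable
  · refine Filter.Eventually.of_forall fun x => ?_
    rw [Real.norm_of_nonneg (by have := Real.cosh_pos x; positivity)]
    exact base_le ha N x

lemma exp_le_two_cosh_pow {s : ℝ} {n : ℕ} (h : |s| ≤ n) (x : ℝ) :
    Real.exp (s * x) ≤ (2 * Real.cosh x) ^ n := by
  have h1 : Real.exp |x| ≤ 2 * Real.cosh x := by
    rw [← Real.cosh_abs, Real.cosh_eq]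
    have := Real.exp_pos (-|x|)
    linarith
  calc Real.exp (s * x) ≤ Real.exp (n * |x|) := by
        apply Real.exp_le_exp.mpr
        calc s * x ≤ |s * x| := le_abs_self _
          _ = |s| * |x| := abs_mul _ _
          _ ≤ n * |x| := mul_le_mul_of_nonneg_right h (abs_nonneg x)
    _ = Real.exp |x| ^ n := by rw [← Real.exp_nat_mul]
    _ ≤ _ := pow_le_pow_left₀ (Real.exp_pos _).le h1 n

/-- The integrand. -/
noncomputable def ker (j : ℕ) (nu : ℂ) (y x : ℝ) : ℂ :=
  ((Real.cosh x : ℝ) : ℂ) ^ j * Complex.exp (-(2 * π * y * Real.cosh x : ℝ) + nu * x)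

/-- `K j ν y = ∫ cosh(x)^j exp(-2π y cosh x + ν x) dx`. -/
noncomputable def K (j : ℕ) (nu : ℂ) (y : ℝ) : ℂ := ∫ x : ℝ, ker j nu y x

lemma norm_ker (j : ℕ) (nu : ℂ) (y x : ℝ) :
    ‖ker j nu y x‖ = Real.cosh x ^ j * Real.exp (-(2 * π * y * Real.cosh x) + nu.re * x) := by
  rw [ker, norm_mul, norm_pow, Complex.norm_exp, Complex.norm_real,
    Real.norm_of_nonneg (Real.cosh_pos x).le]
  simp

lemma norm_ker_le (j : ℕ) (nu : ℂ) (y x : ℝ) :
    ‖ker j nu y x‖ ≤ 2 ^ ⌈|nu.re|⌉₊ *
      (Real.cosh x ^ (j + ⌈|nu.re|⌉₊) * Real.exp (-(2 * π * y) * Real.cosh x)) := by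
  rw [norm_ker, Real.exp_add]
  have h := exp_le_two_cosh_pow (Nat.le_ceil |nu.re|) x
  have hc := Real.cosh_pos x
  calc Real.cosh x ^ j * (Real.exp (-(2 * π * y * Real.cosh x)) * Real.exp (nu.re * x))
      ≤ Real.cosh x ^ j * (Real.exp (-(2 * π * y * Real.cosh x)) *
          (2 * Real.cosh x) ^ ⌈|nu.re|⌉₊) := by gcongr
    _ = _ := by rw [mul_pow, pow_add]; ring_nf

lemma continuous_ker (j : ℕ) (nu : ℂ) (y : ℝ) : Continuous (ker j nu y) := by
  unfold ker; fun_prop

lemma int_ker (j : ℕ) (nu : ℂ) {y : ℝ} (hy : 0 < y) : Integrable (ker j nu y) := by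
  refine Integrable.mono'
    ((int_base (a := 2 * π * y) (by positivity) (j + ⌈|nu.re|⌉₊)).const_mul
      (2 ^ ⌈|nu.re|⌉₊)) (continuous_ker j nu y).aestronglyMeasurable ?_
  exact Filter.Eventually.of_forall fun x => norm_ker_le j nu y x

lemma hasDerivAt_ker (j : ℕ) (nu : ℂ) (y x : ℝ) :
    HasDerivAt (fun y => ker j nu y x) (-(2 * π) * ker (j + 1) nu y x) y := by
  unfold ker
  have h1 : HasDerivAt (fun y : ℝ => (-(2 * π * y * Real.cosh x : ℝ) + nu * x : ℂ))
      (-(2 * π * Real.cosh x : ℝ)) y := by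
    have h0 : HasDerivAt (fun y : ℝ => -(2 * π * y * Real.cosh x)) (-(2 * π * Real.cosh x)) y := by
      have := ((hasDerivAt_id y).const_mul (2 * π)).mul_const (Real.cosh x)
      simpa using this.fun_neg
    have := h0.ofReal_comp.add_const (nu * x)
    simpa using this
  have h2 := (h1.cexp).const_mul (((Real.cosh x : ℝ) : ℂ) ^ j)
  refine h2.congr_deriv ?_
  push_cast
  ring

theorem hasDerivAt_K (j : ℕ) (nu : ℂ) {y : ℝ} (hy : 0 < y) :
    HasDerivAt (K j nu) (-(2 * π) * K (j + 1) nu y) y := by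
  have key := hasDerivAt_integral_of_dominated_loc_of_deriv_le (𝕜 := ℝ) (μ := volume)
    (F := fun y x => ker j nu y x) (F' := fun y x => -(2 * π) * ker (j + 1) nu y x)
    (x₀ := y) (s := Ioi (y / 2))
    (bound := fun x => 2 * π * (2 ^ ⌈|nu.re|⌉₊ *
      (Real.cosh x ^ (j + 1 + ⌈|nu.re|⌉₊) * Real.exp (-(2 * π * (y / 2)) * Real.cosh x))))
    (Ioi_mem_nhds (by linarith))
    (Filter.Eventually.of_forall fun y => (continuous_ker j nu y).aestronglyMeasurable)
    (int_ker j nu hy)
    (((continuous_ker (j + 1) nu y).const_smul (-(2 * (π : ℂ)))).aestronglyMeasurable)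
    ?_ ?_ ?_
  · have h := key.2
    simp only [integral_const_mul] at h
    exact h
  · refine Filter.Eventually.of_forall fun x y' hy' => ?_
    have hy'' : y / 2 < y' := hy'
    have hc := Real.cosh_pos x
    rw [norm_mul]
    have e1 : ‖(-(2 * (π : ℂ)))‖ = 2 * π := by
      rw [norm_neg, norm_mul, Complex.norm_real, Real.norm_of_nonneg Real.pi_pos.le]; simp
    rw [e1]
    refine mul_le_mul_of_nonneg_left ((norm_ker_le (j + 1) nu y' x).trans ?_) (by positivity)
    gcongr
  · exact ((int_base (a := 2 * π * (y / 2)) (by positivity) _).const_mul _).const_mul _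
  · exact Filter.Eventually.of_forall fun x y' _ => hasDerivAt_ker j nu y' x

/-- The Bessel relation. -/
theorem rel (nu : ℂ) {y : ℝ} (hy : 0 < y) :
    4 * (π : ℂ) ^ 2 * (y : ℂ) ^ 2 * (K 2 nu y - K 0 nu y) - 2 * π * y * K 1 nu y
      = nu ^ 2 * K 0 nu y := by
  have hI := integral_eq_zero_of_hasDerivAt_of_integrable
    (f := fun x : ℝ => (-(2 * π * y * Real.sinh x : ℝ) - nu) *
      Complex.exp (-(2 * π * y * Real.cosh x : ℝ) + nu * x))
    (f' := fun x : ℝ => 4 * (π : ℂ) ^ 2 * (y : ℂ) ^ 2 * ker 2 nu y x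
      - 4 * (π : ℂ) ^ 2 * (y : ℂ) ^ 2 * ker 0 nu y x
      - 2 * π * y * ker 1 nu y x - nu ^ 2 * ker 0 nu y x) ?_ ?_ ?_
  · rw [integral_sub, integral_sub, integral_sub, integral_const_mul, integral_const_mul,
      integral_const_mul, integral_const_mul] at hI
    · simp only [K]
      linear_combination hI
    all_goals
      first
      | exact (int_ker _ nu hy).const_mul _
      | exact ((int_ker _ nu hy).const_mul _).sub ((int_ker _ nu hy).const_mul _)
      | exact (((int_ker _ nu hy).const_mul _).sub ((int_ker _ nu hy).const_mul _)).sub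
          ((int_ker _ nu hy).const_mul _)
  · intro x
    have h1 : HasDerivAt (fun x : ℝ => (-(2 * π * y * Real.sinh x : ℝ) - nu : ℂ))
        (-(2 * π * y * Real.cosh x : ℝ)) x := by
      have h0 : HasDerivAt (fun x : ℝ => -(2 * π * y * Real.sinh x))
          (-(2 * π * y * Real.cosh x)) x := by
        simpa using ((Real.hasDerivAt_sinh x).const_mul (2 * π * y)).fun_neg
      have := h0.ofReal_comp.sub_const nu
      simpa using this
    have h2 : HasDerivAt (fun x : ℝ => (-(2 * π * y * Real.cosh x : ℝ) + nu * x : ℂ))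
        (-(2 * π * y * Real.sinh x : ℝ) + nu) x := by
      have h0 : HasDerivAt (fun x : ℝ => -(2 * π * y * Real.cosh x))
          (-(2 * π * y * Real.sinh x)) x := by
        simpa using ((Real.hasDerivAt_cosh x).const_mul (2 * π * y)).fun_neg
      have h3 : HasDerivAt (fun x : ℝ => nu * (x : ℂ)) nu x := by
        simpa using (Complex.ofRealCLM.hasDerivAt (x := x)).const_mul nu
      have := h0.ofReal_comp.fun_add h3
      simpa using this
    refine (h1.mul h2.cexp).congr_deriv ?_
    simp only [ker]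
    have hs : ((Real.sinh x : ℝ) : ℂ) ^ 2 = ((Real.cosh x : ℝ) : ℂ) ^ 2 - 1 := by
      have := Real.sinh_sq x
      rw [← Complex.ofReal_pow, this]; push_cast; ring
    push_cast
    push_cast at hs
    linear_combination (4 * (π : ℂ) ^ 2 * (y : ℂ) ^ 2 *
      Complex.exp (-(2 * π * y * Complex.cosh x) + nu * x)) * hs
  · exact ((((int_ker _ nu hy).const_mul _).sub ((int_ker _ nu hy).const_mul _)).sub
      ((int_ker _ nu hy).const_mul _)).sub ((int_ker _ nu hy).const_mul _)
  · refine Integrable.mono' (g := fun x => (2 * π * y) * ‖ker 1 nu y x‖ + ‖nu‖ * ‖ker 0 nu y x‖)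
      (((int_ker 1 nu hy).norm.const_mul _).add ((int_ker 0 nu hy).norm.const_mul _)) ?_ ?_
    · exact (by fun_prop : Continuous _).aestronglyMeasurable
    · refine Filter.Eventually.of_forall fun x => ?_
      rw [norm_mul, norm_ker, norm_ker]
      have e2 : ‖Complex.exp (-(2 * π * y * Real.cosh x : ℝ) + nu * x)‖
          = Real.exp (-(2 * π * y * Real.cosh x) + nu.re * x) := by
        rw [Complex.norm_exp]; simp
      rw [e2]
      have hsc : |Real.sinh x| ≤ Real.cosh x := by
        rw [abs_le]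
        constructor
        · have := Real.exp_pos x
          rw [← Real.cosh_add_sinh] at this; linarith
        · exact (Real.sinh_lt_cosh x).le
      have e1 : ‖(-(2 * π * y * Real.sinh x : ℝ) - nu : ℂ)‖
          ≤ 2 * π * y * Real.cosh x + ‖nu‖ := by
        refine (norm_sub_le _ _).trans ?_
        gcongr
        rw [norm_neg, Complex.norm_real, norm_mul, Real.norm_of_nonneg (by positivity)]
        exact mul_le_mul_of_nonneg_left hsc (by positivity)
      have hE := (Real.exp_pos (-(2 * π * y * Real.cosh x) + nu.re * x)).le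
      calc _ ≤ (2 * π * y * Real.cosh x + ‖nu‖) *
            Real.exp (-(2 * π * y * Real.cosh x) + nu.re * x) :=
            mul_le_mul_of_nonneg_right e1 hE
        _ = _ := by simp; ring

end Pool.Agent.X290.Bes
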