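import Pool.Agent.X290.Bes

set_option autoImplicit false

/-!
# Mellin transform of the Bessel type integral
-/

namespace Pool.Agent.X290.Bes

open Real MeasureTheory Set Filter Topology

/-- logistic substitution -/
noncomputable def P (x : ℝ) : ℝ := 1 / (1 + Real.exp (-2 * x))

lemma P_pos (x : ℝ) : 0 < P x := by unfold P; positivity

lemma one_sub_P (x : ℝ) : 1 - P x = Real.exp (-2 * x) / (1 + Real.exp (-2 * x)) := by
  unfold P
  have : (1 : ℝ) + Real.exp (-2 * x) ≠ 0 := by positivity
  field_simp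
  ring

lemma one_sub_P_pos (x : ℝ) : 0 < 1 - P x := by rw [one_sub_P]; positivity

lemma P_eq (x : ℝ) : P x = Real.exp x / (2 * Real.cosh x) := by
  unfold P
  rw [Real.cosh_eq]
  have h : Real.exp (-x) = Real.exp x * Real.exp (-2 * x) := by rw [← Real.exp_add]; ring_nf
  rw [h]
  have h1 : (1 : ℝ) + Real.exp (-2 * x) ≠ 0 := by positivity
  have h2 := (Real.exp_pos x).ne'
  field_simp

lemma one_sub_P_eq (x : ℝ) : 1 - P x = Real.exp (-x) / (2 * Real.cosh x) := by
  rw [P_eq, Real.cosh_eq]
  have h1 : Real.exp x + Real.exp (-x) ≠ 0 := by positivity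
  field_simp
  ring

lemma hasDerivAt_P (x : ℝ) : HasDerivAt P (2 * (P x * (1 - P x))) x := by
  have h1 : HasDerivAt (fun x : ℝ => 1 + Real.exp (-2 * x)) (-2 * Real.exp (-2 * x)) x := by
    have := (((hasDerivAt_id x).const_mul (-2)).exp).const_add 1
    simpa [mul_comm] using this
  have h2 := h1.inv (by positivity : (1 : ℝ) + Real.exp (-2 * x) ≠ 0)
  have h3 : (fun x : ℝ => 1 + Real.exp (-2 * x))⁻¹ = P := by
    ext t; simp [P]
  rw [h3] at h2
  refine h2.congr_deriv ?_
  rw [one_sub_P]; unfold P
  have : (1 : ℝ) + Real.exp (-2 * x) ≠ 0 := by positivity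
  field_simp

lemma P_inj : Function.Injective P := by
  intro a b h
  unfold P at h
  have h1 : (1 : ℝ) + Real.exp (-2 * a) ≠ 0 := by positivity
  have h2 : (1 : ℝ) + Real.exp (-2 * b) ≠ 0 := by positivity
  have h3 : Real.exp (-2 * a) = Real.exp (-2 * b) := by
    field_simp at h
    rw [neg_mul, neg_mul]; linarith
  have := Real.exp_injective h3
  linarith

lemma P_range : P '' univ = Ioo 0 1 := by
  ext p
  constructor
  · rintro ⟨x, -, rfl⟩
    exact ⟨P_pos x, by have := one_sub_P_pos x; linarith⟩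
  · rintro ⟨h0, h1⟩
    have h1' : 0 < 1 - p := by linarith
    refine ⟨Real.log (p / (1 - p)) / 2, trivial, ?_⟩
    unfold P
    have : -2 * (Real.log (p / (1 - p)) / 2) = Real.log ((1 - p) / p) := by
      rw [Real.log_div h0.ne' h1'.ne', Real.log_div h1'.ne' h0.ne']; ring
    rw [this, Real.exp_log (by positivity)]
    field_simp
    ring

/-- the integrand in the `x` variable -/
noncomputable def hh (u v : ℂ) (x : ℝ) : ℂ :=
  Complex.exp ((u - v) * x) * ((2 * Real.cosh x : ℝ) : ℂ) ^ (-(u + v))

lemma hh_eq (u v : ℂ) (x : ℝ) :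
    ((P x : ℝ) : ℂ) ^ u * ((1 - P x : ℝ) : ℂ) ^ v = hh u v x := by
  have hc : 0 < 2 * Real.cosh x := by have := Real.cosh_pos x; positivity
  rw [P_eq, hh]
  have e2 : (1 - Real.exp x / (2 * Real.cosh x) : ℝ) = Real.exp (-x) / (2 * Real.cosh x) := by
    rw [← P_eq, one_sub_P_eq]
  rw [e2]
  rw [Complex.cpow_def_of_ne_zero (by exact_mod_cast (by positivity :
      Real.exp x / (2 * Real.cosh x) ≠ 0)),
    Complex.cpow_def_of_ne_zero (by exact_mod_cast (by positivity :
      Real.exp (-x) / (2 * Real.cosh x) ≠ 0)),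
    Complex.cpow_def_of_ne_zero (by exact_mod_cast hc.ne'),
    ← Complex.exp_add, ← Complex.exp_add, ← Complex.ofReal_log (by positivity),
    ← Complex.ofReal_log (by positivity), ← Complex.ofReal_log hc.le,
    Real.log_div (Real.exp_pos _).ne' hc.ne', Real.log_div (Real.exp_pos _).ne' hc.ne',
    Real.log_exp, Real.log_exp]
  congr 1
  push_cast
  ring

lemma key_fun (u v : ℂ) (x : ℝ) :
    |2 * (P x * (1 - P x))| • (((P x : ℝ) : ℂ) ^ (u - 1) * (1 - (P x : ℂ)) ^ (v - 1))
      = 2 * hh u v x := by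
  have h0 := P_pos x
  have h1 := one_sub_P_pos x
  rw [← hh_eq, abs_of_pos (by positivity), Complex.real_smul]
  have e0 : ((P x : ℝ) : ℂ) ≠ 0 := by exact_mod_cast h0.ne'
  have e1 : ((1 - P x : ℝ) : ℂ) ≠ 0 := by exact_mod_cast h1.ne'
  have e2 : (1 - (P x : ℂ)) = ((1 - P x : ℝ) : ℂ) := by push_cast; ring
  rw [e2, Complex.cpow_sub _ _ e0, Complex.cpow_sub _ _ e1, Complex.cpow_one, Complex.cpow_one]
  push_cast
  push_cast at e0 e1
  field_simp

lemma beta_int {u v : ℂ} (hu : 0 < u.re) (hv : 0 < v.re) : Integrable (hh u v) := by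
  have h := Complex.betaIntegral_convergent hu hv
  rw [intervalIntegrable_iff_integrableOn_Ioo_of_le zero_le_one, ← P_range,
    integrableOn_image_iff_integrableOn_abs_deriv_smul MeasurableSet.univ
      (fun x _ => (hasDerivAt_P x).hasDerivWithinAt) P_inj.injOn] at h
  rw [integrableOn_univ] at h
  have h2 : Integrable (fun x => 2 * hh u v x) := by
    refine h.congr (Filter.Eventually.of_forall fun x => ?_)
    exact key_fun u v x
  have := h2.const_mul (1 / 2)
  refine this.congr (Filter.Eventually.of_forall fun x => ?_)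
  simp

lemma beta_val (u v : ℂ) :
    2 * ∫ x, hh u v x = Complex.betaIntegral u v := by
  unfold Complex.betaIntegral
  rw [intervalIntegral.integral_of_le zero_le_one, integral_Ioc_eq_integral_Ioo, ← P_range,
    integral_image_eq_integral_abs_deriv_smul MeasurableSet.univ
      (fun x _ => (hasDerivAt_P x).hasDerivWithinAt) P_inj.injOn, Measure.restrict_univ,
    ← integral_const_mul]
  refine integral_congr_ae (Filter.Eventually.of_forall fun x => ?_)
  exact (key_fun u v x).symm

/-- The kernel in two variables. -/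
noncomputable def GG (s nu : ℂ) (q : ℝ × ℝ) : ℂ := (q.1 : ℂ) ^ (s - 1) * ker 0 nu q.1 q.2

lemma norm_GG (s nu : ℂ) {y : ℝ} (hy : 0 < y) (x : ℝ) :
    ‖GG s nu (y, x)‖ = Real.exp (nu.re * x) *
      (y ^ (s.re - 1) * Real.exp (-(2 * π * Real.cosh x * y))) := by
  rw [GG, norm_mul, norm_ker, Complex.norm_cpow_eq_rpow_re_of_pos hy, Real.exp_add]
  simp only [Complex.sub_re, Complex.one_re, pow_zero, one_mul]
  ring_nf

lemma int_y (s : ℝ) (hs : 0 < s) {r : ℝ} (hr : 0 < r) :
    IntegrableOn (fun y : ℝ => y ^ (s - 1) * Real.exp (-(r * y))) (Ioi 0) := by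
  have h := integrableOn_rpow_mul_exp_neg_mul_rpow (p := 1) (s := s - 1) (b := r)
    (by linarith) one_pos hr
  refine h.congr_fun (fun y _ => ?_) measurableSet_Ioi
  simp

lemma int_GG {s nu : ℂ} (h : |nu.re| < s.re) :
    Integrable (GG s nu) ((volume.restrict (Ioi (0 : ℝ))).prod volume) := by
  have hs : 0 < s.re := (abs_nonneg _).trans_lt h
  have hmeas : AEStronglyMeasurable (GG s nu) ((volume.restrict (Ioi (0 : ℝ))).prod volume) := by
    rw [← Measure.restrict_univ (μ := (volume : Measure ℝ)), Measure.prod_restrict]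
    rw [Measure.restrict_univ]
    refine ContinuousOn.aestronglyMeasurable ?_ (measurableSet_Ioi.prod MeasurableSet.univ)
    unfold GG ker
    refine ContinuousOn.mul ?_ (by fun_prop)
    refine ContinuousOn.cpow_const (by fun_prop) ?_
    rintro ⟨y, x⟩ ⟨hy, -⟩
    exact Or.inl (by simpa using hy)
  rw [integrable_prod_iff' hmeas]
  constructor
  · refine Filter.Eventually.of_forall fun x => ?_
    have h1 := (int_y s.re hs (r := 2 * π * Real.cosh x)
      (by have := Real.cosh_pos x; positivity)).const_mul (Real.exp (nu.re * x))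
    refine Integrable.mono h1 ?_ ?_
    · refine ContinuousOn.aestronglyMeasurable ?_ measurableSet_Ioi
      unfold GG ker
      refine ContinuousOn.mul ?_ (by fun_prop)
      refine ContinuousOn.cpow_const (by fun_prop) ?_
      intro y hy
      exact Or.inl (by simpa using hy)
    · refine (ae_restrict_mem measurableSet_Ioi).mono fun y hy => ?_
      have hy : 0 < y := hy
      rw [norm_GG s nu hy x]
      exact le_abs_self _
  · have h2 : (fun x : ℝ => ∫ y in Ioi (0 : ℝ), ‖GG s nu (y, x)‖)
        = fun x => (Real.Gamma s.re * π ^ (-s.re)) *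
          (Real.exp (nu.re * x) * (2 * Real.cosh x) ^ (-s.re)) := by
      ext x
      have hc := Real.cosh_pos x
      have e : ∫ y in Ioi (0 : ℝ), ‖GG s nu (y, x)‖
          = ∫ y in Ioi (0 : ℝ), Real.exp (nu.re * x) *
            (y ^ (s.re - 1) * Real.exp (-(2 * π * Real.cosh x * y))) :=
        setIntegral_congr_fun measurableSet_Ioi fun y hy => norm_GG s nu hy x
      rw [e, integral_const_mul, Real.integral_rpow_mul_exp_neg_mul_Ioi hs (by positivity)]
      rw [one_div, Real.inv_rpow (by positivity), ← Real.rpow_neg (by positivity),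
        show 2 * π * Real.cosh x = π * (2 * Real.cosh x) by ring,
        Real.mul_rpow (by positivity) (by positivity)]
      ring
    rw [h2]
    refine Integrable.const_mul ?_ _
    have h3 := (beta_int (u := ((s.re + nu.re) / 2 : ℝ)) (v := ((s.re - nu.re) / 2 : ℝ))
      (by rw [Complex.ofReal_re]; have := neg_abs_le nu.re; linarith)
      (by rw [Complex.ofReal_re]; have := le_abs_self nu.re; linarith)).norm
    refine h3.congr (Filter.Eventually.of_forall fun x => ?_)
    have hc := Real.cosh_pos x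
    simp only [hh]
    rw [norm_mul, Complex.norm_exp, Complex.norm_cpow_eq_rpow_re_of_pos (by positivity)]
    congr 2
    · rw [show ((((s.re + nu.re) / 2 : ℝ) : ℂ) - (((s.re - nu.re) / 2 : ℝ) : ℂ)) * (x : ℂ)
        = ((nu.re * x : ℝ) : ℂ) by push_cast; ring, Complex.ofReal_re]
    · rw [show -((((s.re + nu.re) / 2 : ℝ) : ℂ) + (((s.re - nu.re) / 2 : ℝ) : ℂ))
        = ((-s.re : ℝ) : ℂ) by push_cast; ring, Complex.ofReal_re]

theorem mellin_K {s nu : ℂ} (h : |nu.re| < s.re) :
    MellinConvergent (K 0 nu) s ∧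
    mellin (K 0 nu) s = (1 / 2) * (π : ℂ) ^ (-s) *
      (Complex.Gamma ((s + nu) / 2) * Complex.Gamma ((s - nu) / 2)) := by
  have hs : 0 < s.re := (abs_nonneg _).trans_lt h
  have hI := int_GG h
  have hu : 0 < ((s + nu) / 2).re := by
    have := neg_abs_le nu.re
    have e : ((s + nu) / 2).re = (s.re + nu.re) / 2 := by simp
    rw [e]; linarith
  have hv : 0 < ((s - nu) / 2).re := by
    have := le_abs_self nu.re
    have e : ((s - nu) / 2).re = (s.re - nu.re) / 2 := by simp
    rw [e]; linarith
  constructor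
  · have := hI.integral_prod_left
    refine (this.congr ?_)
    refine Filter.Eventually.of_forall fun y => ?_
    simp only [GG, integral_const_mul, K, smul_eq_mul]
  · have e1 : mellin (K 0 nu) s
        = ∫ y in Ioi (0 : ℝ), ∫ x : ℝ, GG s nu (y, x) := by
      unfold mellin
      congr 1
      ext y
      simp only [GG, integral_const_mul, K, smul_eq_mul]
    rw [e1, integral_integral_swap (f := fun y x => GG s nu (y, x)) hI]
    have e2 : ∀ x : ℝ, ∫ y in Ioi (0 : ℝ), GG s nu (y, x)
        = (Complex.Gamma s * (π : ℂ) ^ (-s)) * hh ((s + nu) / 2) ((s - nu) / 2) x := by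
      intro x
      have hc := Real.cosh_pos x
      have e3 : ∫ y in Ioi (0 : ℝ), GG s nu (y, x)
          = ∫ y in Ioi (0 : ℝ), Complex.exp (nu * x) *
            ((y : ℂ) ^ (s - 1) * Complex.exp (-(((2 * π * Real.cosh x : ℝ) : ℂ) * y))) := by
        refine setIntegral_congr_fun measurableSet_Ioi fun y hy => ?_
        simp only [GG, ker, pow_zero, one_mul, Complex.exp_add]
        push_cast
        ring_nf
      rw [e3, integral_const_mul, Complex.integral_cpow_mul_exp_neg_mul_Ioi hs
        (by positivity : 0 < 2 * π * Real.cosh x)]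
      simp only [hh]
      have e4 : (1 / ((2 * π * Real.cosh x : ℝ) : ℂ)) ^ s
          = (π : ℂ) ^ (-s) * ((2 * Real.cosh x : ℝ) : ℂ) ^ (-s) := by
        rw [← Complex.mul_cpow_ofReal_nonneg Real.pi_pos.le (by positivity)]
        rw [one_div, show ((π : ℝ) : ℂ) * ((2 * Real.cosh x : ℝ) : ℂ)
          = ((2 * π * Real.cosh x : ℝ) : ℂ) by push_cast; ring]
        rw [← Complex.ofReal_inv, Complex.cpow_neg, ← Complex.inv_cpow, Complex.ofReal_inv]
        rw [Complex.arg_ofReal_of_nonneg (by positivity)]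
        exact Real.pi_pos.ne
      rw [e4]
      have e5 : (s + nu) / 2 - (s - nu) / 2 = nu := by ring
      have e6 : -((s + nu) / 2 + (s - nu) / 2) = -s := by ring
      rw [e5, e6]
      ring
    simp only [e2]
    rw [integral_const_mul]
    have e7 := beta_val ((s + nu) / 2) ((s - nu) / 2)
    have e8 := Complex.Gamma_mul_Gamma_eq_betaIntegral hu hv
    have e9 : (s + nu) / 2 + (s - nu) / 2 = s := by ring
    rw [e9, ← e7] at e8
    rw [e8]
    ring

end Pool.Agent.X290.Bes
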