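import Pool.Agent.X290.Base

/-!
# Automorphic representations of `GL(2)` over the function field `K = F₂(T)`

The basic notions of the theory of automorphic representations of `GL₂` over the global field `K = F₂(T)`:
adeles, automorphic forms and cusp forms, automorphic and cuspidal representations, local components, Hecke
characters, Langlands sums (isobaric representations) and global liftings for the standard representation of the
dual group `GL₂(ℂ)`.
-/

set_option autoImplicit false

namespace Pool.Agent.X290.Aut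

open Polynomial IsDedekindDomain

noncomputable section

/-! ### The groups -/

/-- `GL₂(K_∞)` -/
def GInf : Type := GL (Fin 2) Kinf

instance : Group GInf := (inferInstance : Group (GL (Fin 2) Kinf))

instance : TopologicalSpace GInf := (inferInstance : TopologicalSpace (GL (Fin 2) Kinf))

/-- `GL₂(𝔸^∞)`, with `𝔸^∞` the ring of finite adeles -/
def GFin : Type := GL (Fin 2) Afin

instance : Group GFin := (inferInstance : Group (GL (Fin 2) Afin))

instance : TopologicalSpace GFin := (inferInstance : TopologicalSpace (GL (Fin 2) Afin))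

/-- `GL₂(𝔸) = GL₂(K_∞) × GL₂(𝔸^∞)` -/
def GA : Type := GInf × GFin

instance : Group GA := (inferInstance : Group (GInf × GFin))

instance : TopologicalSpace GA := (inferInstance : TopologicalSpace (GInf × GFin))

/-- the element of `GL₂(𝔸)` with the given components -/
def pair (g : GInf) (h : GFin) : GA := (g, h)

/-- the entries of the component at `∞` -/
def entInf (g : GA) (i j : Fin 2) : Kinf := Units.val (α := Matrix (Fin 2) (Fin 2) Kinf) (Prod.fst g) i j

/-- the entries of the finite component -/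
def entFin (g : GA) (i j : Fin 2) : Afin := Units.val (α := Matrix (Fin 2) (Fin 2) Afin) (Prod.snd g) i j

/-- the diagonal embedding `GL₂(K) → GL₂(𝔸)` -/
def diag (γ : GL (Fin 2) K) : GA :=
  pair (Matrix.GeneralLinearGroup.map (algebraMap K Kinf) γ) (Matrix.GeneralLinearGroup.map (algebraMap K Afin) γ)

/-- the places of `K`: `none` is `∞`, the others are the nonzero primes of `F₂[T]` -/
abbrev Place : Type := Option (HeightOneSpectrum (ZMod 2)[X])

/-- the component of `g` at the place `v` is trivial -/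
def TrivialAt (g : GA) : Place → Prop
  | none => ∀ i j, entInf g i j = if i = j then 1 else 0
  | some v => ∀ i j, (entFin g i j) v = if i = j then 1 else 0

/-- the component of `g` at the place `v` has integral entries -/
def EntriesIntegralAt (g : GA) : Place → Prop
  | none => ∀ i j, Valued.v (entInf g i j) ≤ (1 : WithZero (Multiplicative ℤ))
  | some v => ∀ i j, Valued.v ((entFin g i j) v) ≤ (1 : WithZero (Multiplicative ℤ))

/-- `g` lies in the subgroup `GL₂(K_v)` of `GL₂(𝔸)`: all components outside `v` are trivial -/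
def InLocal (v : Place) (g : GA) : Prop := ∀ w : Place, w ≠ v → TrivialAt g w

/-- the component of `g` at `v` lies in `GL₂(O_v)` -/
def IntegralAt (g : GA) (v : Place) : Prop := EntriesIntegralAt g v ∧ EntriesIntegralAt g⁻¹ v

/-! ### Components of smooth representations -/

/-- the restriction of `π` along `i : H → GL₂(𝔸)` is a direct sum of copies of `σ`. If `π = ⊗ π_v` and `H = GL₂(K_v)`,
this says that the component `π_v` is isomorphic to `σ`. -/
def IsComponent {H : Type} [Group H] [TopologicalSpace H] (i : H → GA) (σ : Irrep H) (π : Irrep GA) : Prop :=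
  ∃ (J : Type) (e : π.V ≃ₗ[ℂ] (J →₀ σ.V)), ∀ (h : H) (x : π.V) (j : J), e (π.ρ (i h) x) j = σ.ρ h (e x j)

/-- the subgroup `GL₂(K_v)` of `GL₂(𝔸)` -/
def localGroup (v : Place) : Subgroup GA := Subgroup.closure {g | InLocal v g}

/-- `π` and `τ` have isomorphic components at the place `v` (every irreducible smooth representation of
`GL₂(𝔸)` has exactly one component at `v`, up to isomorphism) -/
def SameComponent (v : Place) (π τ : Irrep GA) : Prop :=
  ∀ σ : Irrep (localGroup v), IsComponent Subtype.val σ π ↔ IsComponent Subtype.val σ τ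

/-- `π_v` is unramified: there is a nonzero vector fixed by `GL₂(O_v)` -/
def UnramifiedAt (v : Place) (π : Irrep GA) : Prop :=
  ∃ x : π.V, x ≠ 0 ∧ ∀ g : GA, InLocal v g → IntegralAt g v → π.ρ g x = x

/-! ### Automorphic representations -/

/-- right translation of functions on `GL₂(𝔸)` -/
def rt (h : GA) (φ : GA → ℂ) : GA → ℂ := fun g => φ (g * h)

/-- the representation space of `GL₂(K_v)` generated by `φ` -/
def genSpace (v : Place) (φ : GA → ℂ) : Submodule ℂ (GA → ℂ) :=
  Submodule.span ℂ {ψ | ∃ h : GA, InLocal v h ∧ ψ = rt h φ}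

/-- the vectors fixed by `U ∩ GL₂(K_v)` in the representation space of `GL₂(K_v)` generated by `φ` -/
def fixedSpace (v : Place) (φ : GA → ℂ) (U : Subgroup GA) : Submodule ℂ (GA → ℂ) :=
  Submodule.span ℂ {ψ | ψ ∈ genSpace v φ ∧ ∀ u ∈ U, InLocal v u → rt u ψ = ψ}

/-- automorphic forms on `GL₂(𝔸)` (Borel, Jacquet): left `GL₂(K)`-invariant, right invariant under an open subgroup,
and for some place `v` the representation of `GL₂(K_v)` generated by `φ` is admissible -/
def IsAutomorphicForm (φ : GA → ℂ) : Prop :=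
  (∀ (γ : GL (Fin 2) K) (g : GA), φ (diag γ * g) = φ g) ∧
  (∃ U : Subgroup GA, IsOpen (U : Set GA) ∧ ∀ u ∈ U, rt u φ = φ) ∧
  ∃ v : Place, ∀ U : Subgroup GA, IsOpen (U : Set GA) → Module.Finite ℂ (fixedSpace v φ U)

/-- the compact group `𝔸 / K` -/
def AQ : Type := (Kinf × Afin) ⧸ Kdiag

instance : AddGroup AQ := (inferInstance : AddGroup ((Kinf × Afin) ⧸ Kdiag))

instance : TopologicalSpace AQ := (inferInstance : TopologicalSpace ((Kinf × Afin) ⧸ Kdiag))

instance : MeasurableSpace AQ := borel AQ

/-- the projection `𝔸 → 𝔸 / K` -/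
def mkAQ (x : Kinf) (y : Afin) : AQ := QuotientAddGroup.mk (x, y)

/-- cusp forms: automorphic forms all of whose constant terms `∫_{K \ 𝔸} φ((1 x; 0 1) g) dx` vanish; here `F` is the
function `x ↦ φ((1 x; 0 1) g)` on the compact group `𝔸 / K` and `μ` a Haar measure -/
def IsCuspForm (φ : GA → ℂ) : Prop :=
  IsAutomorphicForm φ ∧ ∀ (g : GA) (F : AQ → ℂ),
    (∀ (x : Kinf) (y : Afin), F (mkAQ x y) = φ (pair (unip x) (unip y) * g)) →
    ∀ (μ : MeasureTheory.Measure AQ) [μ.IsAddHaarMeasure], ∫ x, F x ∂μ = 0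

/-- `π` is a quotient of the space `V` of functions, on which `GL₂(𝔸)` acts by right translation -/
def IsQuotientOf (π : Irrep GA) (V : Submodule ℂ (GA → ℂ)) : Prop :=
  ∃ (hV : ∀ h : GA, ∀ φ ∈ V, rt h φ ∈ V) (q : V →ₗ[ℂ] π.V), Function.Surjective q ∧
    ∀ (h : GA) (φ : V), q ⟨rt h φ.1, hV h φ.1 φ.2⟩ = π.ρ h (q φ)

/-- automorphic representations: the irreducible subquotients of the space of automorphic forms -/
def IsAutomorphic (π : Irrep GA) : Prop :=
  ∃ V : Submodule ℂ (GA → ℂ), (∀ φ ∈ V, IsAutomorphicForm φ) ∧ IsQuotientOf π V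

/-- cuspidal automorphic representations: the irreducible subquotients of the space of cusp forms -/
def IsCuspidal (π : Irrep GA) : Prop :=
  ∃ V : Submodule ℂ (GA → ℂ), (∀ φ ∈ V, IsCuspForm φ) ∧ IsQuotientOf π V

/-! ### Isobaric representations -/

/-- the ideles of `K` -/
def Idele : Type := Kinfˣ × Afinˣ

instance : Group Idele := (inferInstance : Group (Kinfˣ × Afinˣ))

instance : TopologicalSpace Idele := (inferInstance : TopologicalSpace (Kinfˣ × Afinˣ))

/-- the component at `∞` -/
def idInf (x : Idele) : Kinf := Units.val (Prod.fst x)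

/-- the finite component -/
def idFin (x : Idele) : Afin := Units.val (α := Afin) (Prod.snd x)

/-- the diagonal embedding `K^× → 𝔸^×` -/
def diagK (a : Kˣ) : Idele := (Units.map (algebraMap K Kinf).toMonoidHom a, Units.map (algebraMap K Afin).toMonoidHom a)

/-- the absolute value `|x|_v`, the norm of the place to the power `-v(x)`, of an element of `K_v`, where `v ≠ ∞` -/
def absFin (v : HeightOneSpectrum (ZMod 2)[X]) (x : Afin) : ℝ :=
  (Nat.card ((ZMod 2)[X] ⧸ v.asIdeal) : ℝ) ^ (WithZero.log (Valued.v (x v)) : ℤ)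

/-- the absolute value `|x| = ∏_v |x_v|_v` of an idele -/
def absIdele (x : Idele) : ℝ :=
  (2 : ℝ) ^ (WithZero.log (Valued.v (idInf x)) : ℤ) * ∏ᶠ v : HeightOneSpectrum (ZMod 2)[X], absFin v (idFin x)

/-- Hecke characters of `K` (continuous homomorphisms `χ : 𝔸^× / K^× → ℂ^×`), i.e. the (cuspidal) automorphic
representations of `GL₁` -/
def IsHecke (χ : Idele → ℂ) : Prop :=
  Continuous χ ∧ (∀ x, χ x ≠ 0) ∧ (∀ x y, χ (x * y) = χ x * χ y) ∧ ∀ a : Kˣ, χ (diagK a) = 1

/-- `b` is an upper triangular matrix with diagonal entries `a`, `d` -/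
def IsUpper (b : GA) (a d : Idele) : Prop :=
  (entInf b 0 0 = idInf a ∧ entInf b 1 0 = 0 ∧ entInf b 1 1 = idInf d) ∧
  entFin b 0 0 = idFin a ∧ entFin b 1 0 = 0 ∧ entFin b 1 1 = idFin d

/-- `f` lies in the space of the representation of `GL₂(𝔸)` induced (normalized) from the character
`(a *; 0 d) ↦ χ(a) χ'(d)` of the Borel subgroup -/
def InInduced (χ χ' : Idele → ℂ) (f : GA → ℂ) : Prop :=
  (∃ U : Subgroup GA, IsOpen (U : Set GA) ∧ ∀ u ∈ U, rt u f = f) ∧
  ∀ (b g : GA) (a d : Idele), IsUpper b a d →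
    f (b * g) = χ a * χ' d * ((absIdele a / absIdele d) ^ (1 / 2 : ℝ) : ℝ) * f g

/-- the Langlands sum `χ₁ ⊞ χ₂` of two Hecke characters with `|χ_i| = |.|^{s_i}`, `s₁ ≥ s₂`: all the local components
are the Langlands quotients, i.e. `π` is the unique irreducible subrepresentation of the representation induced
from `(χ₂, χ₁)` -/
def IsLanglandsSum (χ₁ χ₂ : Idele → ℂ) (π : Irrep GA) : Prop :=
  ∃ s₁ s₂ : ℝ, s₂ ≤ s₁ ∧ (∀ x, ‖χ₁ x‖ = absIdele x ^ s₁) ∧ (∀ x, ‖χ₂ x‖ = absIdele x ^ s₂) ∧
  ∃ j : π.V →ₗ[ℂ] (GA → ℂ), Function.Injective j ∧ (∀ g x, j (π.ρ g x) = rt g (j x)) ∧ ∀ x, InInduced χ₂ χ₁ (j x)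

/-- isobaric automorphic representations `Π₁ ⊞ ... ⊞ Π_r` of `GL₂(𝔸)`: the cuspidal ones (`r = 1`) and the Langlands
sums of two Hecke characters (`r = 2`) -/
def IsIsobaric (π : Irrep GA) : Prop :=
  IsAutomorphic π ∧ (IsCuspidal π ∨ ∃ χ₁ χ₂ : Idele → ℂ, IsHecke χ₁ ∧ IsHecke χ₂ ∧ IsLanglandsSum χ₁ χ₂ π)

/-- `τ` is the global lifting of `π` for the group `GL₂` and the standard representation of its dual group `GL₂(ℂ)`:
`τ` is isobaric and `τ_v ≅ π_v` at all places at which `π_v` is unramified -/
def IsGlobalLifting (π τ : Irrep GA) : Prop :=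
  IsIsobaric τ ∧ ∀ v : Place, UnramifiedAt v π → SameComponent v π τ

/-- the inclusion of `GL₂(K_∞)` in `GL₂(𝔸)` -/
def inclInf (g : GInf) : GA := pair g 1

end

end Pool.Agent.X290.Aut
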