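import Pool.Agent.X290.Pip
import Pool.Agent.X290.Stmt

/-! Comparison of two forms of the definitions, and the final statement. -/

set_option autoImplicit false

namespace Pool.Agent.X290

open Polynomial WithZero Matrix IsDedekindDomain Representation

noncomputable section

theorem entInf_eq (g : GA) (i j : Fin 2) : Aut.entInf g i j = g.1.1 i j := rfl

theorem entFin_eq (g : GA) (i j : Fin 2) : Aut.entFin g i j = g.2.1 i j := rfl

theorem one_apply' {R : Type} [CommRing R] (i j : Fin 2) : (1 : GL (Fin 2) R).1 i j = if i = j then 1 else 0 := by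
  change (1 : Matrix (Fin 2) (Fin 2) R) i j = _
  exact Matrix.one_apply

theorem trivialAt_none (g : GA) : Aut.TrivialAt g none ↔ g.1 = 1 := by
  constructor
  · intro h
    apply Units.ext
    refine Matrix.ext fun i j => ?_
    rw [one_apply']
    exact h i j
  · intro h i j
    rw [entInf_eq, h]
    exact one_apply' i j

theorem trivialAt_some (g : GA) (v : HS) :
    Aut.TrivialAt g (some v) ↔ Matrix.GeneralLinearGroup.map (proj v) g.2 = 1 := by
  constructor
  · intro h
    apply Units.ext
    refine Matrix.ext fun i j => ?_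
    rw [one_apply']
    exact h i j
  · intro h i j
    have h1 := congrArg (fun k : GL (Fin 2) (v.adicCompletion K) => k.1 i j) h
    exact h1.trans (one_apply' i j)

theorem inLocal_iff (v : Place) (g : GA) : Aut.InLocal v g ↔ g ∈ localGroup v := by
  cases v with
  | none =>
    rw [mem_localGroup_none]
    constructor
    · intro h
      apply Units.ext
      refine Matrix.ext fun i j => ?_
      apply FiniteAdeleRing.ext
      intro w
      have h1 := (trivialAt_some g w).1 (h (some w) (by simp))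
      have h2 := congrArg (fun k : GL (Fin 2) (w.adicCompletion K) => k.1 i j) h1
      have h3 : (g.2.1 i j) w = (1 : Matrix (Fin 2) (Fin 2) (w.adicCompletion K)) i j := h2
      rw [h3]
      change _ = proj w ((1 : Matrix (Fin 2) (Fin 2) Afin) i j)
      rw [Matrix.one_apply, Matrix.one_apply]
      split_ifs
      · exact (map_one _).symm
      · exact (map_zero _).symm
    · intro h w hw
      cases w with
      | none => exact absurd rfl hw
      | some w =>
        rw [trivialAt_some, h, map_one]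
  | some v =>
    constructor
    · intro h
      refine Subgroup.mem_inf.2 ⟨?_, ?_⟩
      · exact (trivialAt_none g).1 (h none (by simp))
      · rw [Subgroup.mem_iInf]
        intro w
        exact (trivialAt_some g w.1).1 (h (some w.1) (fun he => w.2 (Option.some_injective _ he)))
    · intro h w hw
      obtain ⟨h1, h2⟩ := Subgroup.mem_inf.1 h
      rw [Subgroup.mem_iInf] at h2
      cases w with
      | none => exact (trivialAt_none g).2 h1
      | some w => exact (trivialAt_some g w).2 (h2 ⟨w, fun he => hw (by rw [he])⟩)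

theorem localGroup_eq (v : Place) : Aut.localGroup v = localGroup v := by
  have e : {g : Aut.GA | Aut.InLocal v g} = (localGroup v : Set GA) := by
    ext g
    exact inLocal_iff v g
  unfold Aut.localGroup
  rw [e]
  exact Subgroup.closure_eq (localGroup v)

theorem rt_eq (h : GA) (φ : GA → ℂ) : Aut.rt h φ = rightReg h φ := rfl

theorem finite_of_le (v : Place) (φ : GA → ℂ) (U : Subgroup GA)
    (h : FiniteDimensional ℂ ↥(Submodule.span ℂ {ψ | ∃ h ∈ localGroup v, ψ = rightReg h φ} ⊓
      fixedBy {u | u ∈ U ∧ u ∈ localGroup v})) :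
    Module.Finite ℂ (Submodule.span ℂ {ψ : GA → ℂ | ψ ∈ Submodule.span ℂ {ψ : GA → ℂ | ∃ h : GA, Aut.InLocal v h ∧
      ψ = rightReg h φ} ∧ ∀ u ∈ U, Aut.InLocal v u → rightReg u ψ = ψ}) := by
  have hle : Submodule.span ℂ {ψ : GA → ℂ | ψ ∈ Submodule.span ℂ {ψ : GA → ℂ | ∃ h : GA, Aut.InLocal v h ∧
      ψ = rightReg h φ} ∧ ∀ u ∈ U, Aut.InLocal v u → rightReg u ψ = ψ} ≤
      Submodule.span ℂ {ψ | ∃ h ∈ localGroup v, ψ = rightReg h φ} ⊓
      fixedBy {u | u ∈ U ∧ u ∈ localGroup v} := by
    rw [Submodule.span_le]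
    rintro ψ ⟨ha, hb⟩
    refine ⟨?_, ?_⟩
    · have hle' : Submodule.span ℂ {ψ : GA → ℂ | ∃ h : GA, Aut.InLocal v h ∧ ψ = rightReg h φ} ≤
          Submodule.span ℂ {ψ | ∃ h ∈ localGroup v, ψ = rightReg h φ} := by
        refine Submodule.span_mono ?_
        rintro _ ⟨x, hx, rfl⟩
        exact ⟨x, (inLocal_iff v x).1 hx, rfl⟩
      exact hle' ha
    · rintro u ⟨hu, hu'⟩
      exact hb u hu ((inLocal_iff v u).2 hu')
  exact Submodule.finiteDimensional_of_le hle

theorem autForm {φ : GA → ℂ} (h : IsAutomorphicForm φ) : Aut.IsAutomorphicForm φ := by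
  obtain ⟨h1, ⟨U, hU, h2⟩, v, h3⟩ := h
  exact ⟨fun γ g => h1 γ g, ⟨U, hU, fun u hu => h2 u hu⟩, v, fun U hU => finite_of_le v φ U (h3 U hU)⟩

theorem quotientOf {π : Irrep GA} {V : Subrepresentation rightReg} {q : V.toRepresentation.IntertwiningMap π.ρ}
    (hq : Function.Surjective q) : Aut.IsQuotientOf π V.toSubmodule := by
  refine ⟨fun h φ hφ => V.apply_mem_toSubmodule h hφ, q.toLinearMap, hq, fun h φ => ?_⟩
  exact Representation.IntertwiningMap.isIntertwining _ _ q h φ

theorem automorphic_of {π : Irrep GA} (h : IsAutomorphic π) : Aut.IsAutomorphic π := by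
  obtain ⟨V, q, h1, h2⟩ := h
  exact ⟨V.toSubmodule, fun φ hφ => autForm (h1 φ hφ), quotientOf h2⟩

theorem cuspForm {φ : GA → ℂ} (h : IsCuspForm φ) : Aut.IsCuspForm φ := by
  refine ⟨autForm h.1, fun g F hF μ hμ => ?_⟩
  exact @h.2 g F (fun x => hF x.1 x.2) μ hμ

theorem cuspidal_of {π : Irrep GA} (h : IsCuspidal π) : Aut.IsCuspidal π := by
  obtain ⟨V, q, h1, h2⟩ := h
  exact ⟨V.toSubmodule, fun φ hφ => cuspForm (h1 φ hφ), quotientOf h2⟩

theorem finsupp_apply' {G V J : Type} [Group G] [AddCommGroup V] [Module ℂ V] (ρ : Representation ℂ G V) (g : G)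
    (f : J →₀ V) (j : J) : ρ.finsupp J g f j = ρ g (f j) := by
  classical
  induction f using Finsupp.induction_linear with
  | zero => simp
  | add a b ha hb => rw [map_add, Finsupp.add_apply, Finsupp.add_apply, ha, hb, map_add]
  | single k a =>
    rw [Representation.finsupp_single, Finsupp.single_apply, Finsupp.single_apply]
    split_ifs
    · rfl
    · rw [map_zero]

theorem component_iff {H : Type} [Group H] [TopologicalSpace H] (i : H →* GA) (σ : Irrep H) (π : Irrep GA) :
    Aut.IsComponent (fun h => i h) σ π ↔ IsComponent i σ π := by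
  constructor
  · rintro ⟨J, e, he⟩
    refine ⟨J, ⟨Representation.Equiv.mk e ?_⟩⟩
    intro g
    apply LinearMap.ext
    intro x
    apply Finsupp.ext
    intro j
    have h1 := he g x j
    rw [← finsupp_apply'] at h1
    exact h1
  · rintro ⟨J, ⟨e⟩⟩
    refine ⟨J, e.toLinearEquiv, fun h x j => ?_⟩
    have h1 : e (π.ρ (i h) x) = σ.ρ.finsupp J h (e x) :=
      Representation.IntertwiningMap.isIntertwining _ _ e.toIntertwiningMap h x
    have h2 := congrArg (fun y : J →₀ σ.V => y j) h1
    exact h2.trans (finsupp_apply' σ.ρ h (e x) j)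

theorem hecke_of (s : ℝ) : Aut.IsHecke (fun x => (chiS s x : ℂ)) := by
  obtain ⟨h1, h2⟩ := chiS_hecke s
  refine ⟨Units.continuous_val.comp h1, fun x => (chiS s x).ne_zero, fun x y => ?_, fun a => ?_⟩
  · have h3 := congrArg Units.val (map_mul (chiS s) x y)
    exact h3
  · have h3 := congrArg Units.val (h2 a)
    exact h3

theorem triv_aux (a d : Idele) (c : ℂ) : c = (chiS (-(1 / 2)) a : ℂ) * (chiS (1 / 2) d : ℂ) *
      ((absIdele a / absIdele d) ^ (1 / 2 : ℝ) : ℝ) * c := by
  rw [chiS_apply, chiS_apply, ← Complex.ofReal_mul, ← Complex.ofReal_mul]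
  have h1 : absIdele a ^ (-(1 / 2) : ℝ) * absIdele d ^ (1 / 2 : ℝ) * (absIdele a / absIdele d) ^ (1 / 2 : ℝ) = 1 := by
    have ha := Real.rpow_pos_of_pos (absIdele_pos a) (1 / 2)
    have hd := Real.rpow_pos_of_pos (absIdele_pos d) (1 / 2)
    rw [Real.div_rpow (absIdele_pos a).le (absIdele_pos d).le, Real.rpow_neg (absIdele_pos a).le]
    field_simp
  rw [h1, Complex.ofReal_one, one_mul]

theorem triv_isobaric' : Aut.IsIsobaric triv := by
  refine ⟨automorphic_of triv_automorphic, Or.inr ⟨fun x => (chiS (1 / 2) x : ℂ), fun x => (chiS (-(1 / 2)) x : ℂ),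
    hecke_of _, hecke_of _, 1 / 2, -(1 / 2), by norm_num, norm_chiS _, norm_chiS _, cst, ?_, fun _ _ => rfl, ?_⟩⟩
  · intro a b h
    exact congrFun h 1
  · intro (c : ℂ)
    exact ⟨⟨⊤, isOpen_univ, fun _ _ => rfl⟩, fun b g a d _ => triv_aux a d c⟩

theorem piE_ramified' : ¬ Aut.UnramifiedAt none piE := by
  rintro ⟨x, hx, h⟩
  refine piE_ramified ⟨x, hx, fun g hg hi => ?_⟩
  refine h g ((inLocal_iff none g).2 hg) ⟨?_, ?_⟩
  · intro i j
    exact hi.1 i j
  · intro i j
    exact hi.2 i j

theorem loc_trivial {v : HS} {h : GA} (hh : h ∈ localGroup (some v)) (x : piE.V) : piE.ρ h x = x := by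
  have h1 : h.1 = 1 := by
    have := (Subgroup.mem_inf.1 hh).1
    rw [MonoidHom.mem_ker] at this
    exact this
  change stR h.1 x = x
  rw [h1, map_one]
  rfl

theorem same_of_trivial {H : Type} [Group H] [TopologicalSpace H] (i : H →* GA) (π τ : Irrep GA)
    (h1 : ∀ h x, π.ρ (i h) x = x) (h2 : ∀ h x, τ.ρ (i h) x = x) (σ : Irrep H) :
    Aut.IsComponent (fun h => i h) σ π ↔ Aut.IsComponent (fun h => i h) σ τ := by
  rw [component_iff, component_iff]
  constructor
  · intro h
    exact component_of_trivial h2 (trivial_of_component h1 h)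
  · intro h
    exact component_of_trivial h1 (trivial_of_component h2 h)

theorem same_of_trivial' (S : Subgroup Aut.GA) (π τ : Irrep Aut.GA) (h1 : ∀ h ∈ S, ∀ x, π.ρ h x = x)
    (h2 : ∀ h ∈ S, ∀ x, τ.ρ h x = x) (σ : Irrep S) :
    Aut.IsComponent Subtype.val σ π ↔ Aut.IsComponent Subtype.val σ τ :=
  same_of_trivial (S.subtype : S →* Aut.GA) π τ (fun h x => h1 h.1 h.2 x) (fun h x => h2 h.1 h.2 x) σ

theorem piE_lifting' : Aut.IsGlobalLifting piE triv := by
  refine ⟨triv_isobaric', fun v hv => ?_⟩
  cases v with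
  | none => exact absurd hv piE_ramified'
  | some v =>
    have hloc : ∀ h ∈ Aut.localGroup (some v), ∀ x : piE.V, piE.ρ h x = x := by
      intro h hh x
      rw [localGroup_eq] at hh
      exact loc_trivial hh x
    exact same_of_trivial' (Aut.localGroup (some v)) piE triv hloc (fun h _ x => triv_apply h x)

theorem comp_inf (σ : Irrep Ginf) (π : Irrep GA) : Aut.IsComponent Aut.inclInf σ π ↔ IsComponent inclInf σ π :=
  component_iff inclInf σ π

/-- the endgame -/
theorem endgame {lst : Irrep Ginf} {π : Irrep GA} (h1 : IsComponent inclInf lst triv) (h2 : IsComponent inclInf lst π)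
    (hcomp : IsComponent inclInf st π) : False := by
  -- `GL₂(K_∞)` acts trivially on `l st`
  have htriv : ∀ (g : Ginf) (x : lst.V), lst.ρ g x = x := trivial_of_component (fun _ _ => rfl) h1
  -- hence on `π`
  obtain ⟨J, ⟨e⟩⟩ := h2
  have hπ : ∀ (g : Ginf) (x : π.V), π.ρ (inclInf g) x = x := by
    intro g x
    have h3 : e (π.ρ (inclInf g) x) = lst.ρ.finsupp J g (e x) :=
      Representation.IntertwiningMap.isIntertwining _ _ e.toIntertwiningMap g x
    have h4 : ∀ y : J →₀ lst.V, lst.ρ.finsupp J g y = y := by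
      intro y
      apply Finsupp.ext
      intro j
      rw [finsupp_apply' lst.ρ g y j]
      exact htriv g (y j)
    rw [h4] at h3
    exact e.toLinearEquiv.injective h3
  -- hence on `St`
  have hst : ∀ (g : Ginf) (x : st.V), st.ρ g x = x := trivial_of_component hπ hcomp
  have h5 : stR om (Submodule.Quotient.mk B0) = Submodule.Quotient.mk B0 := hst om _
  rw [stR_mk, rP_om_B0, Submodule.Quotient.eq, Submodule.mem_span_singleton] at h5
  obtain ⟨c, hc'⟩ := h5
  have h6 := indep (a := 0) (b := c) (c := -2) (d := 1) (by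
    rw [hc']
    module)
  norm_num at h6

/-- **no local lifting is compatible with the global liftings** -/
theorem no_local_lifting' : ¬ ∃ l : Irrep Aut.GInf → Irrep Aut.GInf,
    ∀ π τ : Irrep Aut.GA, Aut.IsAutomorphic π → Aut.IsGlobalLifting π τ →
      ∀ σ, Aut.IsComponent Aut.inclInf σ π → Aut.IsComponent Aut.inclInf (l σ) τ := by
  rintro ⟨l, hl⟩
  obtain ⟨π, ha, hc, hcomp⟩ := exists_cuspidal
  have h1 : Aut.IsComponent Aut.inclInf (l st) triv :=
    hl piE triv (automorphic_of piE_automorphic) piE_lifting' st ((comp_inf st piE).2 piE_component)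
  have h2 : Aut.IsComponent Aut.inclInf (l st) π := hl π π (automorphic_of ha)
    ⟨⟨automorphic_of ha, Or.inl (cuspidal_of hc)⟩, fun v _ σ => Iff.rfl⟩ st ((comp_inf st π).2 hcomp)
  exact endgame ((comp_inf (l st) triv).1 h1) ((comp_inf (l st) π).1 h2) hcomp

end

end Pool.Agent.X290
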