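import Pool.Agent.X290.Cu

/-! Cuspidality. -/

set_option autoImplicit false

namespace Pool.Agent.X290

open Polynomial WithZero Matrix IsDedekindDomain MeasureTheory

noncomputable section

/-- left invariant functions -/
def leftInv : Submodule ℂ (GA → ℂ) where
  carrier := {φ | ∀ (γ : GL (Fin 2) K) (g : GA), φ (diag γ * g) = φ g}
  add_mem' ha hb γ g := by rw [Pi.add_apply, Pi.add_apply, ha, hb]
  zero_mem' _ _ := rfl
  smul_mem' _ _ hx _ _ := by rw [Pi.smul_apply, Pi.smul_apply, hx]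

theorem leftInv_right {φ : GA → ℂ} (h : φ ∈ leftInv) (x : GA) : rightReg x φ ∈ leftInv := by
  intro γ g
  rw [rightReg_apply, rightReg_apply, mul_assoc, h]

theorem Dp_left (f : PF) (γ : GL (Fin 2) K) (g : GA) : Dp f (diag γ * g) = Dp f g :=
  Dp_induction (N := leftInv) (fun _ => leftInv_right (fun γ g => phi_left γ g) _) f γ g

/-- the group which fixes `phi` -/
def Uphi : Subgroup GA where
  carrier := {u | u.1 ∈ Si ∧ u.2 ∈ U0 ∧ ps u.2 = 1}
  mul_mem' := by
    rintro u w ⟨u1, u2, u3⟩ ⟨w1, w2, w3⟩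
    exact ⟨Si.mul_mem u1 w1, U0.mul_mem u2 w2, by
      have : (u * w).2 = u.2 * w.2 := rfl
      rw [this, ps_mul u2 w2, u3, w3, one_mul]⟩
  one_mem' := ⟨Si.one_mem, U0.one_mem, ps_one⟩
  inv_mem' := by
    rintro u ⟨u1, u2, u3⟩
    refine ⟨Si.inv_mem u1, U0.inv_mem u2, ?_⟩
    have h := ps_mul u2 (U0.inv_mem u2)
    rw [mul_inv_cancel, ps_one, u3, one_mul] at h
    exact h.symm

theorem proj_continuous (v : HS) : Continuous (proj v : Afin → v.adicCompletion K) := by
  have h := RestrictedProduct.continuous_eval (R := fun v : HS => v.adicCompletion K)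
    (A := fun v : HS => (v.adicCompletionIntegers K : Set (v.adicCompletion K))) (𝓕 := Filter.cofinite) v
  exact h

theorem entry0_nhds (i j : Fin 2) (hij : (1 : Gfin).1 i j = 0) (n : ℤ) :
    {k : Gfin | vz (proj v0 (k.1 i j)) < exp n} ∈ nhds (1 : Gfin) := by
  have hc : Continuous fun k : Gfin => proj v0 (k.1 i j) :=
    (proj_continuous v0).comp (Units.continuous_val.matrix_elem i j)
  have ht := hc.tendsto 1
  rw [hij, map_zero] at ht
  exact ht (ball0_nhds n)

theorem Uphi_open : IsOpen (Uphi : Set GA) := by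
  apply Subgroup.isOpen_of_mem_nhds (g := 1)
  have h1 : {u : GA | u.1 ∈ Si} ∈ nhds (1 : GA) := continuous_fst.tendsto (1 : GA) Si_mem_nhds
  have h2 : {u : GA | u.2 ∈ Khat} ∈ nhds (1 : GA) :=
    continuous_snd.tendsto (1 : GA) (Khat_open.mem_nhds Khat.one_mem)
  have h3 : {u : GA | vz (proj v0 (u.2.1 0 1)) < exp 0} ∈ nhds (1 : GA) :=
    continuous_snd.tendsto (1 : GA) (entry0_nhds 0 1 (by simp) 0)
  have h4 : {u : GA | vz (proj v0 (u.2.1 1 0)) < exp (-1 : ℤ)} ∈ nhds (1 : GA) :=
    continuous_snd.tendsto (1 : GA) (entry0_nhds 1 0 (by simp) (-1))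
  filter_upwards [h1, h2, h3, h4] with u u1 u2 u3 u4
  have u3' : vz (proj v0 (u.2.1 0 1)) < exp 0 := u3
  have u4' : vz (proj v0 (u.2.1 1 0)) < exp (-1 : ℤ) := u4
  refine ⟨u1, ⟨u2, ?_⟩, ?_⟩
  · refine u4'.trans ?_
    rw [← exp_zero, exp_lt_exp]
    norm_num
  · unfold ps
    rw [exp_zero] at u3'
    rw [sg_small u3', sg_small, one_mul]
    rw [vz, map_div₀]
    change vz _ / vz T0 < 1
    rw [vz_T0, div_lt_one₀ exp_pos]
    exact u4'

theorem phi_smooth : phi ∈ smoothV := by
  refine ⟨Uphi, Uphi_open, ?_⟩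
  rintro u ⟨u1, u2, u3⟩
  funext g
  rw [rightReg_apply]
  have e : u = inclInf u.1 * inclFin u.2 := by
    refine Prod.ext ?_ ?_
    · change u.1 = u.1 * 1
      rw [mul_one]
    · change u.2 = 1 * u.2
      rw [one_mul]
  rw [e, ← mul_assoc, phi_U0 u2, phi_Si u1, u3, one_mul]

theorem Dp_smooth (f : PF) : Dp f ∈ smoothV := Dp_induction (fun _ => smoothV_rightReg _ phi_smooth) f

/-! ### the translation operators -/

/-- the adelic unipotent matrix -/
def nA (x : Adele) : GA := (unip x.1, unip x.2)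

theorem unip_add {R : Type} [CommRing R] (x y : R) : (unip (x + y) : GL (Fin 2) R) = unip x * unip y := by
  refine GL_ext ?_ ?_ ?_ ?_ <;> rw [mul_apply_two] <;> simp [unip, add_comm]

theorem nA_add (x y : Adele) : nA (x + y) = nA x * nA y := by
  unfold nA
  rw [Prod.fst_add, Prod.snd_add, unip_add, unip_add]
  rfl

/-- translations of functions on the adeles -/
def trA : Multiplicative Adele →* Module.End ℂ (Adele → ℂ) where
  toFun y := { toFun := fun f x => f (x + y.toAdd), map_add' := fun _ _ => rfl, map_smul' := fun _ _ => rfl }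
  map_one' := by
    ext f x
    simp
  map_mul' y z := by
    ext f x
    simp only [toAdd_mul, Module.End.mul_apply, LinearMap.coe_mk, AddHom.coe_mk]
    congr 1
    abel

/-- the action of the group algebra of the adeles by translations -/
def actA : AddMonoidAlgebra ℂ Adele →ₐ[ℂ] Module.End ℂ (Adele → ℂ) := AddMonoidAlgebra.lift ℂ _ Adele trA

theorem actA_single (y : Adele) (c : ℂ) (f : Adele → ℂ) (x : Adele) :
    actA (AddMonoidAlgebra.single y c) f x = c * f (x + y) := by
  unfold actA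
  rw [AddMonoidAlgebra.lift_single]
  rfl

/-- the augmentation -/
def augA : AddMonoidAlgebra ℂ Adele →ₐ[ℂ] ℂ := AddMonoidAlgebra.lift ℂ _ Adele 1

theorem augA_single (y : Adele) (c : ℂ) : augA (AddMonoidAlgebra.single y c) = c := by
  unfold augA
  rw [AddMonoidAlgebra.lift_single]
  simp

/-- functions killed by an element of the group algebra of nonzero augmentation -/
def Killed : Submodule ℂ (Adele → ℂ) where
  carrier := {f | ∃ p : AddMonoidAlgebra ℂ Adele, augA p ≠ 0 ∧ actA p f = 0}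
  add_mem' := by
    rintro f h ⟨p, hp, hpf⟩ ⟨q, hq, hqh⟩
    refine ⟨p * q, by rw [map_mul]; exact mul_ne_zero hp hq, ?_⟩
    rw [map_add]
    have e1 : actA (p * q) f = 0 := by
      rw [mul_comm, map_mul, Module.End.mul_apply, hpf, map_zero]
    have e2 : actA (p * q) h = 0 := by
      rw [map_mul, Module.End.mul_apply, hqh, map_zero]
    rw [e1, e2, add_zero]
  zero_mem' := ⟨1, by rw [map_one]; exact one_ne_zero, map_zero _⟩
  smul_mem' := by
    rintro c f ⟨p, hp, hpf⟩
    exact ⟨p, hp, by rw [map_smul, hpf, smul_zero]⟩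

theorem killed_of_sign {f : Adele → ℂ} {y : Adele} (h : ∀ x, f (x + y) = -f x) : f ∈ Killed := by
  refine ⟨AddMonoidAlgebra.single 0 1 + AddMonoidAlgebra.single y 1, ?_, ?_⟩
  · rw [map_add, augA_single, augA_single]
    norm_num
  · funext x
    rw [map_add, LinearMap.add_apply, Pi.add_apply, actA_single, actA_single, h]
    simp

/-- functions all of whose translates have killed constant terms -/
def cuspKilled : Submodule ℂ (GA → ℂ) where
  carrier := {φ | ∀ g : GA, (fun x : Adele => φ (nA x * g)) ∈ Killed}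
  add_mem' ha hb g := Killed.add_mem (ha g) (hb g)
  zero_mem' _ := Killed.zero_mem
  smul_mem' c _ hx g := Killed.smul_mem c (hx g)

theorem cuspKilled_right {φ : GA → ℂ} (h : φ ∈ cuspKilled) (y : GA) : rightReg y φ ∈ cuspKilled := by
  intro g
  have := h (g * y)
  simp only [← mul_assoc] at this
  exact this

theorem integral_killed {f : Adele → ℂ} (hf : f ∈ Killed) {F : Adele ⧸ Kdiag → ℂ}
    (hF : ∀ x : Adele, F (QuotientAddGroup.mk x) = f x) (μ : Measure (Adele ⧸ Kdiag)) [μ.IsAddHaarMeasure] :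
    ∫ x, F x ∂μ = 0 := by
  by_cases hint : Integrable F μ
  · obtain ⟨p, hp, hpf⟩ := hf
    have key : ∀ p : AddMonoidAlgebra ℂ Adele, ∃ G : Adele ⧸ Kdiag → ℂ,
        (∀ x : Adele, G (QuotientAddGroup.mk x) = actA p f x) ∧ Integrable G μ ∧
          ∫ x, G x ∂μ = augA p * ∫ x, F x ∂μ := by
      intro p
      induction p using AddMonoidAlgebra.induction_linear with
      | zero =>
        refine ⟨0, fun x => ?_, integrable_zero _ _ _, ?_⟩
        · rw [map_zero]
          rfl
        · rw [map_zero, zero_mul]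
          simp
      | add p q hp hq =>
        obtain ⟨G, g1, g2, g3⟩ := hp
        obtain ⟨H, h1, h2, h3⟩ := hq
        refine ⟨G + H, fun x => ?_, g2.add h2, ?_⟩
        · rw [Pi.add_apply, g1, h1, map_add]
          rfl
        · rw [map_add, add_mul, ← g3, ← h3]
          exact integral_add g2 h2
      | single y c =>
        refine ⟨fun x => c * F (x + QuotientAddGroup.mk y), fun x => ?_, ?_, ?_⟩
        · rw [actA_single, ← hF]
          rfl
        · exact (hint.comp_add_right _).const_mul c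
        · rw [augA_single, integral_const_mul, integral_add_right_eq_self F]
    obtain ⟨G, g1, _, g3⟩ := key p
    have hG : G = 0 := by
      funext x
      obtain ⟨y, rfl⟩ := QuotientAddGroup.mk_surjective x
      rw [g1, hpf]
      rfl
    rw [hG] at g3
    have h0 : ∫ x, (0 : Adele ⧸ Kdiag → ℂ) x ∂μ = 0 := by simp
    rw [h0] at g3
    exact (mul_eq_zero.1 g3.symm).resolve_left hp
  · exact integral_undef hint

/-! ### the sign of translations at the place `T = 0` -/

open Classical in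
/-- the adele with a given component at `T = 0`, and zero components elsewhere -/
def sgl (x : K0) : Afin :=
  (RestrictedProduct.single (fun v : HS => v.adicCompletionIntegers K) v0 x :)

theorem sgl_same (x : K0) : proj v0 (sgl x) = x := by
  classical
  have h := RestrictedProduct.single_eq_same (fun v : HS => v.adicCompletionIntegers K) v0 x
  exact h

theorem sgl_ne (x : K0) {v : HS} (hv : v ≠ v0) : proj v (sgl x) = 0 := by
  classical
  have h := RestrictedProduct.single_eq_of_ne (fun v : HS => v.adicCompletionIntegers K) x hv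
  exact h

theorem char2A (x : Afin) : x + x = 0 := by
  have : (2 : Afin) = 0 := by
    have := congrArg (algebraMap K Afin) (CharTwo.two_eq_zero (R := K))
    rwa [map_ofNat, map_zero] at this
  rw [← two_mul, this, zero_mul]

theorem negA (x : Afin) : -x = x := by
  rw [neg_eq_iff_add_eq_zero, char2A]

/-- the conjugate of the unipotent matrix -/
def kap (g : Gfin) (σ : Afin) : Gfin := g⁻¹ * unip σ * g

theorem kap_sq (g : Gfin) (σ : Afin) : kap g σ * kap g σ = 1 := by
  have h : (unip σ : Gfin) * unip σ = 1 := by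
    rw [← unip_add, char2A]
    refine GL_ext ?_ ?_ ?_ ?_ <;> simp [unip]
  have e : kap g σ * kap g σ = g⁻¹ * (unip σ * unip σ) * g := by
    unfold kap
    group
  rw [e, h, mul_one, inv_mul_cancel]

theorem kap_apply (g : Gfin) (σ : Afin) :
    (kap g σ).1 0 0 = 1 + σ * dt g⁻¹ * (g.1 1 0 * g.1 1 1) ∧
    (kap g σ).1 0 1 = σ * dt g⁻¹ * (g.1 1 1 * g.1 1 1) ∧
    (kap g σ).1 1 0 = -(σ * dt g⁻¹ * (g.1 1 0 * g.1 1 0)) ∧
    (kap g σ).1 1 1 = 1 - σ * dt g⁻¹ * (g.1 1 0 * g.1 1 1) := by
  have hd := dt_mul_inv g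
  have hd' : (g.1 0 0 * g.1 1 1 - g.1 0 1 * g.1 1 0) * dt g⁻¹ = 1 := hd
  set M : Matrix (Fin 2) (Fin 2) Afin := !![1 + σ * dt g⁻¹ * (g.1 1 0 * g.1 1 1), σ * dt g⁻¹ * (g.1 1 1 * g.1 1 1);
    -(σ * dt g⁻¹ * (g.1 1 0 * g.1 1 0)), 1 - σ * dt g⁻¹ * (g.1 1 0 * g.1 1 1)] with hM
  have h1 : g.1 * M = (unip σ : Gfin).1 * g.1 := by
    refine Matrix.ext fun i j => ?_
    rw [Matrix.mul_apply, Matrix.mul_apply, Fin.sum_univ_two, Fin.sum_univ_two, hM]
    fin_cases i <;> fin_cases j
    · change g.1 0 0 * (1 + σ * dt g⁻¹ * (g.1 1 0 * g.1 1 1)) + g.1 0 1 * (-(σ * dt g⁻¹ * (g.1 1 0 * g.1 1 0))) =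
        1 * g.1 0 0 + σ * g.1 1 0
      linear_combination (σ * g.1 1 0) * hd'
    · change g.1 0 0 * (σ * dt g⁻¹ * (g.1 1 1 * g.1 1 1)) + g.1 0 1 * (1 - σ * dt g⁻¹ * (g.1 1 0 * g.1 1 1)) =
        1 * g.1 0 1 + σ * g.1 1 1
      linear_combination (σ * g.1 1 1) * hd'
    · change g.1 1 0 * (1 + σ * dt g⁻¹ * (g.1 1 0 * g.1 1 1)) + g.1 1 1 * (-(σ * dt g⁻¹ * (g.1 1 0 * g.1 1 0))) =
        0 * g.1 0 0 + 1 * g.1 1 0
      ring
    · change g.1 1 0 * (σ * dt g⁻¹ * (g.1 1 1 * g.1 1 1)) + g.1 1 1 * (1 - σ * dt g⁻¹ * (g.1 1 0 * g.1 1 1)) =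
        0 * g.1 0 1 + 1 * g.1 1 1
      ring
  have h2 : (kap g σ).1 = M := by
    have e1 : (kap g σ).1 = g⁻¹.1 * ((unip σ : Gfin).1 * g.1) := by
      unfold kap
      rw [← mul_assoc]
      rfl
    have e2 : g⁻¹.1 * g.1 = 1 := g.inv_mul
    rw [e1, ← h1, ← mul_assoc, e2, one_mul]
  rw [h2, hM]
  simp

theorem exists_sign (g : Gfin) : ∃ σ : Afin, kap g σ ∈ U0 ∧ ps (kap g σ) = -1 := by
  set c := proj v0 (g.1 1 0) with hc
  set d := proj v0 (g.1 1 1) with hd
  have hdet : proj v0 (dt g) * proj v0 (dt g⁻¹) = 1 := by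
    rw [← map_mul, dt_mul_inv, map_one]
  have hdg : proj v0 (dt g) = proj v0 (g.1 0 0) * d - proj v0 (g.1 0 1) * c := by
    unfold dt
    rw [map_sub, map_mul, map_mul]
  -- the general statement
  have main : ∀ s : K0, vz (s * (c * d)) ≤ 1 → vz (s * (d * d)) ≤ 1 → vz (s * (c * c)) < 1 →
      sg (s * (d * d)) * sg (-(s * (c * c)) / T0) = -1 →
      ∃ σ : Afin, kap g σ ∈ U0 ∧ ps (kap g σ) = -1 := by
    intro s h1 h2 h3 h4
    set σ := sgl (s * proj v0 (dt g)) with hσ
    obtain ⟨k1, k2, k3, k4⟩ := kap_apply g σ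
    have hs : proj v0 (σ * dt g⁻¹) = s := by
      rw [map_mul, hσ, sgl_same, mul_assoc, hdet, mul_one]
    have p1 : proj v0 ((kap g σ).1 0 0) = 1 + s * (c * d) := by
      rw [k1, map_add, map_one, map_mul _ (σ * dt g⁻¹), hs, map_mul]
    have p2 : proj v0 ((kap g σ).1 0 1) = s * (d * d) := by
      rw [k2, map_mul _ (σ * dt g⁻¹), hs, map_mul]
    have p3 : proj v0 ((kap g σ).1 1 0) = -(s * (c * c)) := by
      rw [k3, map_neg, map_mul _ (σ * dt g⁻¹), hs, map_mul]
    have p4 : proj v0 ((kap g σ).1 1 1) = 1 - s * (c * d) := by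
      rw [k4, map_sub, map_one, map_mul _ (σ * dt g⁻¹), hs, map_mul]
    have hint : ∀ i j, (kap g σ).1 i j ∈ Oh := by
      intro i j v
      by_cases hv : v = v0
      · subst hv
        change vz (proj v0 ((kap g σ).1 i j)) ≤ 1
        fin_cases i <;> fin_cases j
        · change vz (proj v0 ((kap g σ).1 0 0)) ≤ 1
          rw [p1]
          exact vz_add_le vz_one.le h1
        · change vz (proj v0 ((kap g σ).1 0 1)) ≤ 1
          rw [p2]
          exact h2
        · change vz (proj v0 ((kap g σ).1 1 0)) ≤ 1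
          rw [p3, vz_neg]
          exact h3.le
        · change vz (proj v0 ((kap g σ).1 1 1)) ≤ 1
          rw [p4, sub_eq_add_neg]
          exact vz_add_le vz_one.le (by rw [vz_neg]; exact h1)
      · have hz : proj v σ = 0 := sgl_ne _ hv
        have hz' : ∀ y : Afin, proj v (σ * dt g⁻¹ * y) = 0 := fun y => by
          rw [map_mul (proj v) (σ * dt g⁻¹), map_mul (proj v) σ, hz, zero_mul, zero_mul]
        change Valued.v (proj v ((kap g σ).1 i j)) ≤ 1
        fin_cases i <;> fin_cases j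
        · change Valued.v (proj v ((kap g σ).1 0 0)) ≤ 1
          rw [k1, map_add (proj v), map_one (proj v), hz', add_zero, map_one]
        · change Valued.v (proj v ((kap g σ).1 0 1)) ≤ 1
          rw [k2, hz', map_zero]
          exact zero_le_one
        · change Valued.v (proj v ((kap g σ).1 1 0)) ≤ 1
          rw [k3, map_neg (proj v), hz', neg_zero, map_zero]
          exact zero_le_one
        · change Valued.v (proj v ((kap g σ).1 1 1)) ≤ 1
          rw [k4, map_sub (proj v), map_one (proj v), hz', sub_zero, map_one]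
    have hinv : (kap g σ)⁻¹ = kap g σ := (eq_inv_of_mul_eq_one_left (kap_sq g σ)).symm
    refine ⟨σ, ⟨⟨hint, by rw [hinv]; exact hint⟩, by rw [p3, vz_neg]; exact h3⟩, ?_⟩
    unfold ps
    rw [p2, p3]
    exact h4
  have hexp : ∀ r : K0, vz r < 1 → vz r ≤ exp (-1 : ℤ) := by
    intro r hr
    rcases eq_or_ne (vz r) 0 with h0 | h0
    · rw [h0]
      exact zero_le
    rw [← exp_log h0] at hr ⊢
    rw [← exp_zero, exp_lt_exp] at hr
    rw [exp_le_exp]
    omega
  rcases lt_or_ge (vz c) (vz d) with hlt | hge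
  · have hd0 : d ≠ 0 := by
      intro h0
      rw [h0, vz_zero] at hlt
      exact absurd hlt (by simp)
    have hdpos : 0 < vz d := lt_of_le_of_lt zero_le hlt
    set r := c / d with hr
    have hr1 : vz r < 1 := by
      rw [hr, vz, map_div₀]
      exact (div_lt_one₀ hdpos).2 hlt
    have e1 : (d * d)⁻¹ * (c * d) = r := by
      rw [hr]
      field_simp
    have e2 : (d * d)⁻¹ * (d * d) = 1 := inv_mul_cancel₀ (mul_ne_zero hd0 hd0)
    have e3 : (d * d)⁻¹ * (c * c) = r * r := by
      rw [hr]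
      field_simp
    refine main (d * d)⁻¹ ?_ ?_ ?_ ?_
    · rw [e1]
      exact hr1.le
    · rw [e2, vz_one]
    · rw [e3, vz_mul]
      exact mul_lt_one_right hr1.le hr1
    · rw [e2, e3, sg_unit vz_one, sg_small, mul_one]
      rw [neg_div, vz_neg, vz, map_div₀]
      change vz _ / vz T0 < 1
      rw [vz_T0, div_lt_one₀ exp_pos, vz_mul]
      calc vz r * vz r ≤ exp (-1 : ℤ) * exp (-1 : ℤ) := mul_le_mul' (hexp r hr1) (hexp r hr1)
        _ < exp (-1 : ℤ) := by
          rw [← exp_add, exp_lt_exp]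
          norm_num
  · have hc0 : c ≠ 0 := by
      intro h0
      rw [h0, vz_zero, le_zero_iff, vz, map_eq_zero] at hge
      rw [hdg, h0, hge, mul_zero, mul_zero, sub_zero, zero_mul] at hdet
      exact zero_ne_one hdet
    have hcpos : 0 < vz c := by
      rw [vz, Valuation.pos_iff]
      exact hc0
    set r := d / c with hr
    have hr1 : vz r ≤ 1 := by
      rw [hr, vz, map_div₀]
      exact (div_le_one₀ hcpos).2 hge
    have hT1 : vz T0 < 1 := by
      rw [vz_T0, ← exp_zero, exp_lt_exp]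
      norm_num
    have e1 : T0 * (c * c)⁻¹ * (c * d) = T0 * r := by
      rw [hr]
      field_simp
    have e2 : T0 * (c * c)⁻¹ * (d * d) = T0 * (r * r) := by
      rw [hr]
      field_simp
    have e3 : T0 * (c * c)⁻¹ * (c * c) = T0 := by
      field_simp
    refine main (T0 * (c * c)⁻¹) ?_ ?_ ?_ ?_
    · rw [e1, vz_mul]
      exact mul_le_one' hT1.le hr1
    · rw [e2, vz_mul, vz_mul]
      exact mul_le_one' hT1.le (mul_le_one' hr1 hr1)
    · rw [e3]
      exact hT1
    · rw [e2, e3, neg_div, div_self T0_ne, sg_small, sg_unit, one_mul]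
      · rw [vz_neg, vz_one]
      · rw [vz_mul, vz_mul]
        exact mul_lt_one_of_lt_of_le hT1 (mul_le_one' hr1 hr1)

theorem phi_killed : phi ∈ cuspKilled := by
  intro g
  obtain ⟨σ, h1, h2⟩ := exists_sign g.2
  apply killed_of_sign (y := ((0, σ) : Adele))
  intro x
  have e : nA (x + (0, σ)) * g = nA x * g * inclFin (kap g.2 σ) := by
    rw [nA_add, mul_assoc, mul_assoc]
    congr 1
    refine Prod.ext ?_ ?_
    · change unip 0 * g.1 = g.1 * 1
      have : (unip 0 : Ginf) = 1 := by
        refine GL_ext ?_ ?_ ?_ ?_ <;> simp [unip]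
      rw [this, one_mul, mul_one]
    · change unip σ * g.2 = g.2 * (g.2⁻¹ * unip σ * g.2)
      group
  rw [e, phi_U0 h1, h2]
  ring

theorem Dp_killed (f : PF) : Dp f ∈ cuspKilled := Dp_induction (fun _ => cuspKilled_right phi_killed _) f

/-- the elements of the space generated by `phi` are cusp forms -/
theorem VD_cusp {φ : GA → ℂ} (hφ : φ ∈ VD Dp_equivar) : IsCuspForm φ := by
  refine ⟨VD_automorphic Dp_equivar Dp_smooth Dp_left hφ, ?_⟩
  intro g F hF μ _
  have hk : φ ∈ cuspKilled := by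
    obtain ⟨x, rfl⟩ := hφ
    rw [Psi_apply]
    exact Submodule.sum_mem _ fun h _ => cuspKilled_right (Dp_killed _) _
  exact integral_killed (hk g) hF μ

end

end Pool.Agent.X290
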