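import Mathlib

set_option autoImplicit false

/-!
# Common eigenvectors of commuting families
-/

namespace Pool.Agent.X290.Cev

theorem exists_common {ι : Type*} {E : Type*} [AddCommGroup E] [Module ℂ E]
    [FiniteDimensional ℂ E] [Nontrivial E] (f : ι → Module.End ℂ E)
    (hc : ∀ i j x, f i (f j x) = f j (f i x)) :
    ∃ v : E, v ≠ 0 ∧ ∀ i, ∃ c : ℂ, f i v = c • v := by
  set S : Set (Submodule ℂ E) := {W | W ≠ ⊥ ∧ ∀ i, ∀ x ∈ W, f i x ∈ W} with hS
  have hne : S.Nonempty := ⟨⊤, top_ne_bot, fun i x _ => Submodule.mem_top⟩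
  have wf : WellFounded ((· < ·) : Submodule ℂ E → Submodule ℂ E → Prop) := wellFounded_lt
  set W := wf.min S hne with hW
  have hWS : W ∈ S := wf.min_mem S hne
  have hmin : ∀ W' ∈ S, ¬ W' < W := fun W' hW' => wf.not_lt_min S hW'
  have key : ∀ i, ∃ c : ℂ, ∀ x ∈ W, f i x = c • x := by
    intro i
    have hnt : Nontrivial W := Submodule.nontrivial_iff_ne_bot.mpr hWS.1
    set g : Module.End ℂ W := (f i).restrict (hWS.2 i) with hg
    obtain ⟨c, hc'⟩ := Module.End.exists_eigenvalue g
    obtain ⟨v, hv⟩ := hc'.exists_hasEigenvector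
    refine ⟨c, fun x hx => ?_⟩
    set W' : Submodule ℂ E := W ⊓ Module.End.eigenspace (f i) c with hW'
    have hW'S : W' ∈ S := by
      refine ⟨fun h0 => ?_, fun j y hy => ?_⟩
      · have h1 : (v : E) ∈ W' := by
          refine ⟨v.2, ?_⟩
          rw [SetLike.mem_coe, Module.End.mem_eigenspace_iff]
          have := hv.apply_eq_smul
          have h2 := congrArg Subtype.val this
          exact h2
        rw [h0, Submodule.mem_bot] at h1
        exact hv.2 (Subtype.ext h1)
      · refine ⟨hWS.2 j y hy.1, ?_⟩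
        have h1 := hy.2
        rw [SetLike.mem_coe, Module.End.mem_eigenspace_iff] at h1 ⊢
        rw [hc, h1, map_smul]
    have hle : W' ≤ W := inf_le_left
    have heq : W' = W := by
      rcases hle.lt_or_eq with h | h
      · exact absurd h (hmin W' hW'S)
      · exact h
    have hx' : x ∈ W' := by rw [heq]; exact hx
    have := hx'.2
    rw [SetLike.mem_coe, Module.End.mem_eigenspace_iff] at this
    exact this
  obtain ⟨v, hv, hv0⟩ := (Submodule.ne_bot_iff W).mp hWS.1
  exact ⟨v, hv0, fun i => by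
    obtain ⟨c, hc⟩ := key i
    exact ⟨c, hc v hv⟩⟩

end Pool.Agent.X290.Cev
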