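import Mathlib

set_option autoImplicit false

/-!
# Fourier coefficients along horocycles of functions on the upper half plane
-/

namespace Pool.Agent.X290.Fou

open Complex MeasureTheory Set Filter Topology intervalIntegral

/-- `e(x) = exp(2πi x)` -/
noncomputable def e (x : ℝ) : ℂ := Complex.exp (2 * Real.pi * I * x)

lemma e_add (x y : ℝ) : e (x + y) = e x * e y := by
  unfold e; rw [← Complex.exp_add]; push_cast; ring_nf

lemma e_int (n : ℤ) : e n = 1 := by
  unfold e
  rw [Complex.exp_eq_one_iff]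
  exact ⟨n, by push_cast; ring⟩

lemma e_zero : e 0 = 1 := by simp [e]

lemma continuous_e : Continuous e := by unfold e; fun_prop

lemma norm_e (x : ℝ) : ‖e x‖ = 1 := by
  unfold e
  rw [show (2 : ℂ) * Real.pi * I * x = ((2 * Real.pi * x : ℝ) : ℂ) * I by push_cast; ring]
  exact Complex.norm_exp_ofReal_mul_I _

lemma e_ne_zero (x : ℝ) : e x ≠ 0 := Complex.exp_ne_zero _

lemma e_eq_one_iff (x : ℝ) : e x = 1 ↔ ∃ n : ℤ, x = n := by
  unfold e
  rw [Complex.exp_eq_one_iff]
  constructor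
  · rintro ⟨n, hn⟩
    refine ⟨n, ?_⟩
    have hI : (2 * (Real.pi : ℂ) * I) ≠ 0 := by
      simp [Real.pi_ne_zero, I_ne_zero]
    have h2 : (2 * (Real.pi : ℂ) * I) * (x : ℂ) = (2 * (Real.pi : ℂ) * I) * (n : ℂ) := by
      rw [hn]; ring
    exact_mod_cast mul_left_cancel₀ hI h2
  · rintro ⟨n, rfl⟩
    exact ⟨n, by push_cast; ring⟩

lemma hasDerivAt_e (c : ℝ) (x : ℝ) :
    HasDerivAt (fun x : ℝ => e (c * x)) (2 * Real.pi * I * c * e (c * x)) x := by
  unfold e
  have h1 : HasDerivAt (fun x : ℝ => (2 * Real.pi * I * ((c * x : ℝ) : ℂ))) (2 * Real.pi * I * c) x := by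
    have h0 : HasDerivAt (fun x : ℝ => c * x) c x := by
      simpa using (hasDerivAt_id x).const_mul c
    simpa using h0.ofReal_comp.const_mul (2 * Real.pi * I)
  have h2 := h1.cexp
  refine h2.congr_deriv ?_
  ring

/-- Fourier coefficient along the horocycle of height `y`. -/
noncomputable def co (f : ℂ → ℂ) (n : ℤ) (y : ℝ) : ℂ :=
  ∫ x in (0 : ℝ)..1, f (x + y * I) * e (-n * x)

/-- the upper half plane -/
def Hs : Set ℂ := {z : ℂ | 0 < z.im}

lemma isOpen_Hs : IsOpen Hs := isOpen_lt continuous_const Complex.continuous_im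

lemma mem_Hs (x : ℝ) {y : ℝ} (hy : 0 < y) : (x : ℂ) + y * I ∈ Hs := by
  simp [Hs, hy]

/-- 1-periodicity on the upper half plane -/
def Per (f : ℂ → ℂ) : Prop := ∀ z : ℂ, 0 < z.im → f (z + 1) = f z

lemma Per.periodic {f : ℂ → ℂ} (hf : Per f) {y : ℝ} (hy : 0 < y) :
    Function.Periodic (fun x : ℝ => f (x + y * I)) 1 := by
  intro x
  have := hf (x + y * I) (by simpa using hy)
  simp only
  rw [← this]
  congr 1
  push_cast
  ring

lemma cont_line {f : ℂ → ℂ} (hf : ContinuousOn f Hs) {y : ℝ} (hy : 0 < y) :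
    Continuous (fun x : ℝ => f (x + y * I)) :=
  hf.comp_continuous (by fun_prop) fun x => mem_Hs x hy

/-- Fourier inversion -/
theorem hasSum_fourier {g : ℝ → ℂ} (hg : Continuous g) (hp : Function.Periodic g 1)
    (hs : Summable fun n : ℤ => ∫ x in (0 : ℝ)..1, g x * e (-n * x)) (x : ℝ) :
    HasSum (fun n : ℤ => (∫ x in (0 : ℝ)..1, g x * e (-n * x)) * e (n * x)) (g x) := by
  have : Fact ((0 : ℝ) < 1) := ⟨one_pos⟩
  let G : C(AddCircle (1 : ℝ), ℂ) := ⟨hp.lift, by
    rw [continuous_coinduced_dom (f := ((↑) : ℝ → AddCircle (1 : ℝ)))] 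
    simpa [Function.comp_def] using hg⟩
  have hG : ∀ t : ℝ, G (t : AddCircle (1 : ℝ)) = g t := fun t => rfl
  have hf : ∀ (n : ℤ) (t : ℝ), (fourier n (t : AddCircle (1 : ℝ)) : ℂ) = e (n * t) := by
    intro n t
    rw [fourier_coe_apply, e]
    congr 1
    push_cast
    ring
  have hc : ∀ n : ℤ, fourierCoeff G n = ∫ x in (0 : ℝ)..1, g x * e (-n * x) := by
    intro n
    rw [fourierCoeff_eq_intervalIntegral G n 0]
    simp only [one_div, inv_one, one_smul, zero_add, smul_eq_mul]
    refine intervalIntegral.integral_congr fun t _ => ?_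
    simp only [hf, hG]
    rw [mul_comm]
    push_cast
    ring_nf
  have hs' : Summable (fourierCoeff G) := by
    rw [show (fourierCoeff G) = fun n : ℤ => ∫ x in (0 : ℝ)..1, g x * e (-n * x) from funext hc]
    exact hs
  have := has_pointwise_sum_fourier_series_of_summable hs' (x : AddCircle (1 : ℝ))
  simpa only [hc, hf, hG, smul_eq_mul] using this

/-- directional derivative -/
noncomputable def D (v : ℂ) (f : ℂ → ℂ) (z : ℂ) : ℂ := fderiv ℝ f z v

lemma D_smooth {f : ℂ → ℂ} (hf : ContDiffOn ℝ (⊤ : ℕ∞) f Hs) (v : ℂ) :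
    ContDiffOn ℝ (⊤ : ℕ∞) (D v f) Hs := by
  have h := hf.fderiv_of_isOpen isOpen_Hs (m := (⊤ : ℕ∞)) (by exact_mod_cast le_rfl)
  exact h.clm_apply contDiffOn_const

lemma smooth_cont {f : ℂ → ℂ} (hf : ContDiffOn ℝ (⊤ : ℕ∞) f Hs) : ContinuousOn f Hs :=
  hf.continuousOn

lemma smooth_hasFDerivAt {f : ℂ → ℂ} (hf : ContDiffOn ℝ (⊤ : ℕ∞) f Hs) {z : ℂ} (hz : z ∈ Hs) :
    HasFDerivAt f (fderiv ℝ f z) z :=
  ((hf.differentiableOn (by simp)).differentiableAt (isOpen_Hs.mem_nhds hz)).hasFDerivAt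

lemma hasDerivAt_x {f : ℂ → ℂ} (hf : ContDiffOn ℝ (⊤ : ℕ∞) f Hs) (x : ℝ) {y : ℝ} (hy : 0 < y) :
    HasDerivAt (fun x : ℝ => f (x + y * I)) (D 1 f (x + y * I)) x := by
  have h1 := smooth_hasFDerivAt hf (mem_Hs x hy)
  have h2 : HasDerivAt (fun x : ℝ => (x : ℂ) + y * I) 1 x := by
    simpa using (Complex.ofRealCLM.hasDerivAt (x := x)).add_const ((y : ℂ) * I)
  exact h1.comp_hasDerivAt x h2

lemma hasDerivAt_y {f : ℂ → ℂ} (hf : ContDiffOn ℝ (⊤ : ℕ∞) f Hs) (x : ℝ) {y : ℝ} (hy : 0 < y) :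
    HasDerivAt (fun y : ℝ => f (x + y * I)) (D I f (x + y * I)) y := by
  have h1 := smooth_hasFDerivAt hf (mem_Hs x hy)
  have h2 : HasDerivAt (fun y : ℝ => (x : ℂ) + y * I) I y := by
    have := ((Complex.ofRealCLM.hasDerivAt (x := y)).mul_const I).const_add (x : ℂ)
    simpa using this
  exact h1.comp_hasDerivAt y h2

lemma D_per {f : ℂ → ℂ} (hp : Per f) (v : ℂ) : Per (D v f) := by
  intro z hz
  have h : f =ᶠ[𝓝 z] fun w => f (w + 1) := by
    filter_upwards [isOpen_Hs.mem_nhds (show z ∈ Hs from hz)] with w hw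
    exact (hp w hw).symm
  unfold D
  rw [h.fderiv_eq, fderiv_comp_add_right]

/-- derivative in `y` of the Fourier coefficient -/
theorem hasDerivAt_co {f : ℂ → ℂ} (hf : ContDiffOn ℝ (⊤ : ℕ∞) f Hs) (n : ℤ) {y : ℝ}
    (hy : 0 < y) : HasDerivAt (co f n) (co (D I f) n y) y := by
  have hcont : ContinuousOn (D I f) Hs := (D_smooth hf I).continuousOn
  -- bound on a compact rectangle
  have hK : IsCompact (Icc (0 : ℝ) 1 ×ˢ Icc (y / 2) (2 * y)) := isCompact_Icc.prod isCompact_Icc
  have hcont2 : ContinuousOn (fun p : ℝ × ℝ => D I f ((p.1 : ℂ) + (p.2 : ℂ) * I))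
      (Icc (0 : ℝ) 1 ×ˢ Icc (y / 2) (2 * y)) := by
    refine hcont.comp (by fun_prop) ?_
    rintro ⟨x, t⟩ ⟨_, ht⟩
    exact mem_Hs x (by have := ht.1; simp only at this; linarith)
  obtain ⟨C, hC⟩ := hK.exists_bound_of_continuousOn hcont2
  have key := intervalIntegral.hasDerivAt_integral_of_dominated_loc_of_deriv_le (𝕜 := ℝ)
    (μ := volume) (a := (0 : ℝ)) (b := 1) (x₀ := y) (s := Ioo (y / 2) (2 * y))
    (F := fun t x => f (x + t * I) * e (-n * x))
    (F' := fun t x => D I f (x + t * I) * e (-n * x)) (bound := fun _ => C)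
    (Ioo_mem_nhds (by linarith) (by linarith)) ?_ ?_ ?_ ?_ ?_ ?_
  · exact key.2
  · filter_upwards [Ioi_mem_nhds hy] with t ht
    exact ((cont_line hf.continuousOn ht).mul
      (continuous_e.comp (by fun_prop))).aestronglyMeasurable
  · exact ((cont_line hf.continuousOn hy).mul
      (continuous_e.comp (by fun_prop))).intervalIntegrable _ _
  · exact ((cont_line hcont hy).mul (continuous_e.comp (by fun_prop))).aestronglyMeasurable
  · refine Filter.Eventually.of_forall fun x hx t ht => ?_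
    rw [uIoc_of_le zero_le_one] at hx
    rw [norm_mul, norm_e, mul_one]
    exact hC (x, t) ⟨⟨hx.1.le, hx.2⟩, ⟨ht.1.le, ht.2.le⟩⟩
  · simp
  · refine Filter.Eventually.of_forall fun x _ t ht => ?_
    exact (hasDerivAt_y hf x (by have := ht.1; linarith)).mul_const _

/-- Fourier coefficient of the `x`-derivative -/
theorem co_Dx {f : ℂ → ℂ} (hf : ContDiffOn ℝ (⊤ : ℕ∞) f Hs) (hp : Per f) (n : ℤ) {y : ℝ}
    (hy : 0 < y) : co (D 1 f) n y = 2 * Real.pi * I * n * co f n y := by
  have h := intervalIntegral.integral_deriv_mul_eq_sub (a := (0 : ℝ)) (b := 1)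
    (u := fun x : ℝ => f (x + y * I)) (v := fun x : ℝ => e (-n * x))
    (u' := fun x : ℝ => D 1 f (x + y * I)) (v' := fun x => 2 * Real.pi * I * (-n : ℝ) * e (-n * x))
    (fun x _ => hasDerivAt_x hf x hy) (fun x _ => hasDerivAt_e (-n) x)
    ((cont_line (D_smooth hf 1).continuousOn hy).intervalIntegrable _ _)
    ((continuous_const.mul (continuous_e.comp (by fun_prop))).intervalIntegrable _ _)
  have h1 : f (((1 : ℝ) : ℂ) + y * I) = f (((0 : ℝ) : ℂ) + y * I) := by
    have := hp ((0 : ℝ) + y * I) (by simpa using hy)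
    rw [← this]; congr 1; push_cast; ring
  have h2 : e (-n * 1) = 1 := by
    have := e_int (-n)
    rw [mul_one]; exact_mod_cast this
  have h3 : e (-n * 0) = 1 := by rw [mul_zero, e_zero]
  rw [h1, h2, h3, sub_self] at h
  have i1 : IntervalIntegrable (fun x : ℝ => D 1 f (x + y * I) * e (-n * x)) volume 0 1 :=
    ((cont_line (D_smooth hf 1).continuousOn hy).mul
      (continuous_e.comp (by fun_prop))).intervalIntegrable _ _
  have i2 : IntervalIntegrable (fun x : ℝ => f (x + y * I) *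
      (2 * Real.pi * I * (-n : ℝ) * e (-n * x))) volume 0 1 :=
    ((cont_line hf.continuousOn hy).mul
      (continuous_const.mul (continuous_e.comp (by fun_prop)))).intervalIntegrable _ _
  rw [intervalIntegral.integral_add i1 i2] at h
  have h4 : ∫ x in (0 : ℝ)..1, f (x + y * I) * (2 * Real.pi * I * (-n : ℝ) * e (-n * x))
      = -(2 * Real.pi * I * n) * co f n y := by
    unfold co
    rw [← intervalIntegral.integral_const_mul]
    refine intervalIntegral.integral_congr fun x _ => ?_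
    push_cast
    ring
  rw [h4] at h
  unfold co at h ⊢
  linear_combination h

lemma co_congr {f g : ℂ → ℂ} (h : ∀ z : ℂ, 0 < z.im → f z = g z) (n : ℤ) {y : ℝ} (hy : 0 < y) :
    co f n y = co g n y := by
  unfold co
  refine intervalIntegral.integral_congr fun x _ => ?_
  change f _ * _ = g _ * _
  rw [h _ (mem_Hs x hy)]

lemma norm_co_le {f : ℂ → ℂ} {C : ℝ} (h : ∀ z : ℂ, 0 < z.im → ‖f z‖ ≤ C) (n : ℤ) {y : ℝ}
    (hy : 0 < y) : ‖co f n y‖ ≤ C := by
  unfold co
  have := intervalIntegral.norm_integral_le_of_norm_le_const (a := (0 : ℝ)) (b := 1) (C := C)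
    (f := fun x : ℝ => f (x + y * I) * e (-n * x)) (fun x _ => by
      rw [norm_mul, norm_e, mul_one]; exact h _ (mem_Hs x hy))
  simpa using this

/-- the integral of a 1-periodic function scaled by `p` -/
lemma integral_scale {h : ℝ → ℂ} (hp : Function.Periodic h 1) (hc : Continuous h) {p : ℕ}
    (p0 : 0 < p) : ∫ x in (0 : ℝ)..1, h (p * x) = ∫ x in (0 : ℝ)..1, h x := by
  have hpR : (p : ℝ) ≠ 0 := by exact_mod_cast p0.ne'
  rw [intervalIntegral.integral_comp_mul_left (f := h) hpR]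
  simp only [mul_zero, mul_one]
  have h1 := hp.intervalIntegral_add_zsmul_eq p 0 (fun a b => hc.intervalIntegrable a b)
  simp only [zero_add, zsmul_eq_mul, mul_one] at h1
  have h2 : ((p : ℤ) : ℝ) = (p : ℝ) := by push_cast; rfl
  rw [h2] at h1
  rw [h1, Complex.real_smul]
  have hpC : (p : ℂ) ≠ 0 := by exact_mod_cast p0.ne'
  push_cast
  field_simp

/-- coefficient of `f (p z)` -/
theorem co_scale {f : ℂ → ℂ} (hf : ContinuousOn f Hs) (hp : Per f) {p : ℕ} (p0 : 0 < p) (m : ℤ)
    {y : ℝ} (hy : 0 < y) :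
    co (fun z => f (p * z)) (p * m) y = co f m (p * y) := by
  have hpR : (0 : ℝ) < p := by exact_mod_cast p0
  have hpy : 0 < (p : ℝ) * y := by positivity
  have key := integral_scale (h := fun x : ℝ => f (x + ((p * y : ℝ) : ℂ) * I) * e (-m * x))
    (p := p) ?_ ?_ p0
  · unfold co
    rw [← key]
    refine intervalIntegral.integral_congr fun x _ => ?_
    simp only
    congr 2
    · push_cast; ring
    · push_cast; ring
  · have h1 := hp.periodic hpy
    have h2 : Function.Periodic (fun x : ℝ => e (-m * x)) 1 := by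
      intro x
      simp only
      rw [mul_add, e_add, mul_one]
      have : e (-(m : ℝ)) = 1 := by have := e_int (-m); exact_mod_cast this
      rw [this, mul_one]
    exact h1.mul h2
  · exact (cont_line hf hpy).mul (continuous_e.comp (by fun_prop))

/-- coefficient of `f (p z)` at frequencies not divisible by `p` -/
theorem co_scale_zero {f : ℂ → ℂ} (hp : Per f) {p : ℕ} (p0 : 0 < p)
    {n : ℤ} (hn : ¬ (p : ℤ) ∣ n) {y : ℝ} (hy : 0 < y) :
    co (fun z => f (p * z)) n y = 0 := by
  have hpR : (0 : ℝ) < p := by exact_mod_cast p0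
  have hpy : 0 < (p : ℝ) * y := by positivity
  set h : ℝ → ℂ := fun x => f (p * (x + y * I)) * e (-n * x) with hh
  have hper : Function.Periodic h 1 := by
    intro x
    simp only [hh]
    have h1 : f (p * (((x + 1 : ℝ) : ℂ) + y * I)) = f (p * ((x : ℂ) + y * I)) := by
      have h2 := (hp.periodic hpy).nat_mul p (p * x)
      simp only [mul_one] at h2
      have e1 : (p : ℂ) * (((x + 1 : ℝ) : ℂ) + y * I)
          = ((p * x + p : ℝ) : ℂ) + ((p * y : ℝ) : ℂ) * I := by push_cast; ring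
      have e2 : (p : ℂ) * ((x : ℂ) + y * I)
          = ((p * x : ℝ) : ℂ) + ((p * y : ℝ) : ℂ) * I := by push_cast; ring
      rw [e1, e2]
      exact h2
    rw [h1, show -(n : ℝ) * (x + 1) = -(n : ℝ) * x + -(n : ℝ) by ring, e_add]
    have : e (-(n : ℝ)) = 1 := by have := e_int (-n); exact_mod_cast this
    rw [this, mul_one]
  have hshift : ∀ x : ℝ, h (x + 1 / p) = e (-(n : ℝ) / p) * h x := by
    intro x
    simp only [hh]
    have h1 : f (p * (((x + 1 / p : ℝ) : ℂ) + y * I)) = f (p * ((x : ℂ) + y * I)) := by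
      have h2 := hp (p * ((x : ℂ) + y * I)) (by simp; positivity)
      rw [← h2]
      congr 1
      have : (p : ℂ) ≠ 0 := by exact_mod_cast hpR.ne'
      push_cast
      field_simp
      ring
    rw [h1, show -(n : ℝ) * (x + 1 / p) = -(n : ℝ) * x + -(n : ℝ) / p by ring, e_add]
    ring
  have h1 : ∫ x in (0 : ℝ)..1, h (x + 1 / p) = ∫ x in (0 : ℝ)..1, h x := by
    rw [intervalIntegral.integral_comp_add_right (f := h)]
    have := hper.intervalIntegral_add_eq (0 + 1 / p) 0
    rw [show (1 : ℝ) + 1 / p = (0 + 1 / p) + 1 by ring, this]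
    simp
  have h2 : ∫ x in (0 : ℝ)..1, h (x + 1 / p) = e (-(n : ℝ) / p) * ∫ x in (0 : ℝ)..1, h x := by
    rw [← intervalIntegral.integral_const_mul]
    exact intervalIntegral.integral_congr fun x _ => hshift x
  have h3 : e (-(n : ℝ) / p) ≠ 1 := by
    intro hc
    rw [e_eq_one_iff] at hc
    obtain ⟨k, hk⟩ := hc
    apply hn
    refine ⟨-k, ?_⟩
    have : (n : ℝ) = p * (-k : ℝ) := by
      field_simp at hk
      linarith
    exact_mod_cast this
  have h4 : (e (-(n : ℝ) / p) - 1) * ∫ x in (0 : ℝ)..1, h x = 0 := by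
    rw [sub_mul, one_mul, ← h2, h1, sub_self]
  rcases mul_eq_zero.mp h4 with h5 | h5
  · exact absurd (sub_eq_zero.mp h5) h3
  · exact h5

/-- coefficient of `∑ f ((z+b)/p)` -/
theorem co_avg {f : ℂ → ℂ} (hf : ContinuousOn f Hs) {p : ℕ} (p0 : 0 < p) (n : ℤ)
    {y : ℝ} (hy : 0 < y) :
    co (fun z => ∑ b ∈ Finset.range p, f ((z + (b : ℂ)) / (p : ℂ))) n y
      = p * co f (p * n) (y / p) := by
  have hpR : (0 : ℝ) < p := by exact_mod_cast p0
  have hyp : 0 < y / p := by positivity
  have hpC : (p : ℂ) ≠ 0 := by exact_mod_cast hpR.ne'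
  set k : ℝ → ℂ := fun x => f (((x / p : ℝ) : ℂ) + ((y / p : ℝ) : ℂ) * I) * e (-n * x) with hk
  have hkc : Continuous k := by
    refine Continuous.mul ?_ (continuous_e.comp (by fun_prop))
    exact (cont_line hf hyp).comp (by fun_prop : Continuous fun x : ℝ => x / p)
  have h1 : co (fun z => ∑ b ∈ Finset.range p, f ((z + (b : ℂ)) / (p : ℂ))) n y
      = ∑ b ∈ Finset.range p, ∫ x in (b : ℝ)..((b + 1 : ℕ) : ℝ), k x := by
    unfold co
    simp only [Finset.sum_mul]
    rw [intervalIntegral.integral_finsetSum]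
    · refine Finset.sum_congr rfl fun b _ => ?_
      have h2 : ∫ x in (0 : ℝ)..1, k (x + b) = ∫ x in (b : ℝ)..((b + 1 : ℕ) : ℝ), k x := by
        rw [intervalIntegral.integral_comp_add_right (f := k)]
        push_cast
        rw [zero_add, add_comm (1 : ℝ)]
      rw [← h2]
      refine intervalIntegral.integral_congr fun x _ => ?_
      simp only [hk]
      rw [mul_add, e_add]
      have h3 : e (-(n : ℝ) * b) = 1 := by
        have := e_int (-n * b); push_cast at this; exact this
      rw [h3, mul_one]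
      congr 2
      push_cast
      field_simp
      ring
    · intro b _
      refine Continuous.intervalIntegrable ?_ _ _
      refine Continuous.mul ?_ (continuous_e.comp (by fun_prop))
      refine hf.comp_continuous (by fun_prop) fun x => ?_
      change 0 < ((((x : ℂ) + y * I) + (b : ℂ)) / (p : ℂ)).im
      rw [show (((x : ℂ) + y * I) + (b : ℂ)) / (p : ℂ)
        = (((x + b) / p : ℝ) : ℂ) + ((y / p : ℝ) : ℂ) * I by push_cast; field_simp; ring]
      simpa using hyp
  rw [h1, intervalIntegral.sum_integral_adjacent_intervals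
    (fun b _ => hkc.intervalIntegrable _ _)]
  have h4 : ∫ x in (((0 : ℕ) : ℝ))..((p : ℕ) : ℝ), k x
      = p * ∫ x in (0 : ℝ)..1, k (p * x) := by
    rw [intervalIntegral.integral_comp_mul_left (f := k) hpR.ne']
    simp only [mul_zero, mul_one, Nat.cast_zero]
    rw [Complex.real_smul]
    push_cast
    field_simp
  rw [h4]
  congr 1
  unfold co
  refine intervalIntegral.integral_congr fun x _ => ?_
  simp only [hk]
  congr 2
  · field_simp
  · push_cast; ring

end Pool.Agent.X290.Fou
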