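import Mathlib

set_option autoImplicit false

/-!
# Functions on the upper half plane invariant under `z ↦ z+1` and `z ↦ -1/z`
-/

namespace Pool.Agent.X290.Modu

open UpperHalfPlane MatrixGroups

variable {f : ℂ → ℂ}

/-- invariance under the two generators -/
def Inv (f : ℂ → ℂ) : Prop :=
  (∀ z : ℂ, 0 < z.im → f (z + 1) = f z) ∧ (∀ z : ℂ, 0 < z.im → f (-1 / z) = f z)

theorem Inv.smul (hf : Inv f) (g : SL(2, ℤ)) (t : ℍ) : f ((g • t : ℍ) : ℂ) = f (t : ℂ) := by
  have hg : g ∈ Subgroup.closure {ModularGroup.S, ModularGroup.T} := by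
    simp [SpecialLinearGroup.SL2Z_generators]
  induction hg using Subgroup.closure_induction generalizing t with
  | mem x hx =>
    rcases hx with rfl | rfl
    · rw [modular_S_smul, coe_mk, ← hf.2 t t.im_pos]
      congr 1
      rw [neg_div, one_div, inv_neg]
    · rw [modular_T_smul, coe_vadd, ← hf.1 t t.im_pos]
      congr 1
      push_cast
      ring
  | one => rw [one_smul]
  | mul x y _ _ hx hy => rw [mul_smul, hx, hy]
  | inv x _ hx => rw [← hx (x⁻¹ • t), smul_inv_smul]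

theorem Inv.add_int (hf : Inv f) {z : ℂ} (hz : 0 < z.im) (n : ℤ) : f (z + n) = f z := by
  have h := hf.smul (ModularGroup.T ^ n) ⟨z, hz⟩
  rw [modular_T_zpow_smul, coe_vadd, coe_mk] at h
  rw [← h]
  congr 1
  push_cast
  ring

theorem Inv.mobius (hf : Inv f) {z : ℂ} (hz : 0 < z.im) {a b c d : ℤ} (h : a * d - b * c = 1) :
    f ((a * z + b) / (c * z + d)) = f z := by
  have h1 := hf.smul ⟨!![a, b; c, d], by rw [Matrix.det_fin_two_of, h]⟩ ⟨z, hz⟩
  have h2 := coe_specialLinearGroup_apply (R := ℤ)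
    (⟨!![a, b; c, d], by rw [Matrix.det_fin_two_of, h]⟩ : SL(2, ℤ)) ⟨z, hz⟩
  rw [h2] at h1
  simpa using h1

/-- the twisted relation -/
theorem Inv.twist (hf : Inv f) {q : ℕ} (hq : 0 < q) {u v : ℤ} (huv : (q : ℤ) ∣ u * v + 1)
    {z : ℂ} (hz : 0 < z.im) :
    f ((u : ℂ) / q - 1 / ((q : ℂ) ^ 2 * z)) = f (z + (v : ℂ) / q) := by
  obtain ⟨m, hm⟩ := huv
  have hqC : (q : ℂ) ≠ 0 := by exact_mod_cast hq.ne'
  have hz' : 0 < (z + (v : ℂ) / q).im := by
    have : ((v : ℂ) / q).im = 0 := by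
      rw [show (v : ℂ) / q = (((v : ℝ) / (q : ℝ) : ℝ) : ℂ) by push_cast; ring, Complex.ofReal_im]
    rw [Complex.add_im, this]; linarith
  have key := hf.mobius hz' (a := u) (b := -m) (c := q) (d := -v) (by linarith)
  rw [← key]
  congr 1
  have hz0 : z ≠ 0 := by rintro rfl; simp at hz
  have hm' : (u : ℂ) * v + 1 = q * m := by exact_mod_cast hm
  have hden : (q : ℂ) * (z + (v : ℂ) / q) + -v = q * z := by field_simp; ring
  push_cast
  rw [hden]
  field_simp
  linear_combination (-1 : ℂ) * hm'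

end Pool.Agent.X290.Modu
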