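import Pool.Agent.X290.BesM

set_option autoImplicit false

/-!
# Uniqueness of the bounded solution of the Whittaker equation
-/

namespace Pool.Agent.X290.Bes

open Real MeasureTheory Set Filter Topology

/-- `√y K_ν`-type function. -/
noncomputable def B (nu : ℂ) (y : ℝ) : ℂ := ((Real.sqrt y : ℝ) : ℂ) * K 0 nu y

/-- its derivative -/
noncomputable def B1 (nu : ℂ) (y : ℝ) : ℂ :=
  ((1 / (2 * Real.sqrt y) : ℝ) : ℂ) * K 0 nu y - (2 * π * Real.sqrt y : ℝ) * K 1 nu y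

lemma hasDerivAt_B (nu : ℂ) {y : ℝ} (hy : 0 < y) : HasDerivAt (B nu) (B1 nu y) y := by
  have h1 := (Real.hasDerivAt_sqrt hy.ne').ofReal_comp
  have h2 := h1.fun_mul (hasDerivAt_K 0 nu hy)
  refine h2.congr_deriv ?_
  rw [B1]; push_cast; ring

lemma hasDerivAt_B1 {mu nu : ℂ} (hnu : nu ^ 2 = 1 / 4 - mu) {y : ℝ} (hy : 0 < y) :
    HasDerivAt (B1 nu) ((4 * (π : ℂ) ^ 2 - mu / (y : ℂ) ^ 2) * B nu y) y := by
  have hs : 0 < Real.sqrt y := Real.sqrt_pos.mpr hy
  have h1 : HasDerivAt (fun y : ℝ => 1 / (2 * Real.sqrt y)) (-(1 / (4 * (y * Real.sqrt y)))) y := by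
    have h := ((Real.hasDerivAt_sqrt hy.ne').const_mul 2).inv (by positivity)
    have e : (fun y : ℝ => 2 * Real.sqrt y)⁻¹ = fun y : ℝ => 1 / (2 * Real.sqrt y) := by
      ext t; simp
    rw [e] at h
    refine h.congr_deriv ?_
    have hq : Real.sqrt y ^ 2 = y := Real.sq_sqrt hy.le
    field_simp
    nlinarith [hq]
  have h2 : HasDerivAt (fun y : ℝ => 2 * π * Real.sqrt y) (π / Real.sqrt y) y := by
    have h := (Real.hasDerivAt_sqrt hy.ne').const_mul (2 * π)
    refine h.congr_deriv ?_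
    field_simp
  have h3 := (h1.ofReal_comp.fun_mul (hasDerivAt_K 0 nu hy)).fun_sub
    (h2.ofReal_comp.fun_mul (hasDerivAt_K 1 nu hy))
  refine h3.congr_deriv ?_
  have hrel := rel nu hy
  have hsC : ((Real.sqrt y : ℝ) : ℂ) ≠ 0 := by exact_mod_cast hs.ne'
  have hyC : (y : ℂ) ≠ 0 := by exact_mod_cast hy.ne'
  have hq : ((Real.sqrt y : ℝ) : ℂ) ^ 2 = y := by exact_mod_cast Real.sq_sqrt hy.le
  rw [hnu] at hrel
  rw [B]
  push_cast
  set S : ℂ := ((Real.sqrt y : ℝ) : ℂ) with hS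
  have e1 : (y : ℂ) = S ^ 2 := hq.symm
  rw [e1] at hrel ⊢
  field_simp
  linear_combination (4 : ℂ) * hrel

lemma K_bound (j : ℕ) (nu : ℂ) {y : ℝ} (hy : 1 ≤ y) :
    ‖K j nu y‖ ≤ (∫ x, ‖ker j nu 1 x‖) * Real.exp (-(2 * π * (y - 1))) := by
  unfold K
  rw [← integral_mul_const]
  refine norm_integral_le_of_norm_le ((int_ker j nu one_pos).norm.mul_const _) ?_
  refine Filter.Eventually.of_forall fun x => ?_
  rw [norm_ker, norm_ker, mul_assoc (Real.cosh x ^ j), ← Real.exp_add]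
  refine mul_le_mul_of_nonneg_left (Real.exp_le_exp.mpr ?_) (by have := Real.cosh_pos x; positivity)
  have h1 := Real.one_le_cosh x
  have h2 : 0 ≤ 2 * π * (y - 1) * (Real.cosh x - 1) := by
    have := Real.pi_pos
    apply mul_nonneg (mul_nonneg (by positivity) (by linarith)) (by linarith)
  nlinarith

lemma exists_B_ne (nu : ℂ) : ∃ y : ℝ, 0 < y ∧ B nu y ≠ 0 := by
  by_contra hcon
  push Not at hcon
  have h0 : ∀ y : ℝ, 0 < y → K 0 nu y = 0 := by
    intro y hy
    have := hcon y hy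
    rw [B, mul_eq_zero] at this
    rcases this with h | h
    · exact absurd h (by exact_mod_cast (Real.sqrt_pos.mpr hy).ne')
    · exact h
  have hs : |nu.re| < ((|nu.re| + 1 : ℝ) : ℂ).re := by rw [Complex.ofReal_re]; linarith
  have h1 := (mellin_K hs).2
  have h2 : mellin (K 0 nu) ((|nu.re| + 1 : ℝ) : ℂ) = 0 := by
    unfold mellin
    rw [setIntegral_congr_fun (g := fun _ => (0 : ℂ)) measurableSet_Ioi]
    · simp
    · intro y hy
      simp [h0 y hy]
  rw [h2] at h1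
  have g1 : Complex.Gamma ((((|nu.re| + 1 : ℝ) : ℂ) + nu) / 2) ≠ 0 := by
    apply Complex.Gamma_ne_zero_of_re_pos
    have := neg_abs_le nu.re
    have e : ((((|nu.re| + 1 : ℝ) : ℂ) + nu) / 2).re = (|nu.re| + 1 + nu.re) / 2 := by simp
    rw [e]; linarith
  have g2 : Complex.Gamma ((((|nu.re| + 1 : ℝ) : ℂ) - nu) / 2) ≠ 0 := by
    apply Complex.Gamma_ne_zero_of_re_pos
    have := le_abs_self nu.re
    have e : ((((|nu.re| + 1 : ℝ) : ℂ) - nu) / 2).re = (|nu.re| + 1 - nu.re) / 2 := by simp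
    rw [e]; linarith
  have g3 : (π : ℂ) ^ (-((|nu.re| + 1 : ℝ) : ℂ)) ≠ 0 := by
    rw [Complex.cpow_ne_zero_iff]; left; exact_mod_cast Real.pi_pos.ne'
  exact (mul_ne_zero (mul_ne_zero (by norm_num) g3) (mul_ne_zero g1 g2)) h1.symm

/-- Uniqueness for the linear second order equation. -/
lemma ode_zero {mu : ℂ} {E E1 : ℝ → ℂ}
    (h1 : ∀ y : ℝ, 0 < y → HasDerivAt E (E1 y) y)
    (h2 : ∀ y : ℝ, 0 < y → HasDerivAt E1 ((4 * (π : ℂ) ^ 2 - mu / (y : ℂ) ^ 2) * E y) y)
    {y1 : ℝ} (hy1 : 0 < y1) (z0 : E y1 = 0) (z1 : E1 y1 = 0) {y : ℝ} (hy : 0 < y) : E y = 0 := by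
  set a := min y y1 / 2 with ha
  set b := max y y1 + 1 with hb
  have ha0 : 0 < a := by rw [ha]; have := lt_min hy hy1; positivity
  set q : ℝ → ℂ := fun t => 4 * (π : ℂ) ^ 2 - mu / (t : ℂ) ^ 2 with hq
  set v : ℝ → ℂ × ℂ → ℂ × ℂ := fun t p => (p.2, q t * p.1) with hv
  have hM : ∀ t ∈ Ioo a b, ‖q t‖ ≤ 4 * π ^ 2 + ‖mu‖ / a ^ 2 := by
    intro t ht
    have ht0 : 0 < t := ha0.trans ht.1
    refine (norm_sub_le _ _).trans ?_
    have e1 : ‖4 * (π : ℂ) ^ 2‖ = 4 * π ^ 2 := by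
      rw [norm_mul, norm_pow, Complex.norm_real, Real.norm_of_nonneg Real.pi_pos.le]; norm_num
    have e2 : ‖mu / (t : ℂ) ^ 2‖ = ‖mu‖ / t ^ 2 := by
      rw [norm_div, norm_pow, Complex.norm_real, Real.norm_of_nonneg ht0.le]
    rw [e1, e2]
    have : a ^ 2 ≤ t ^ 2 := pow_le_pow_left₀ ha0.le ht.1.le 2
    gcongr
  set Kc : ℝ := max 1 (4 * π ^ 2 + ‖mu‖ / a ^ 2) with hKc
  have hK0 : 0 ≤ Kc := zero_le_one.trans (le_max_left _ _)
  have hlip : ∀ t ∈ Ioo a b, LipschitzOnWith Kc.toNNReal (v t) univ := by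
    intro t ht
    rw [lipschitzOnWith_univ]
    refine LipschitzWith.of_dist_le_mul fun p p' => ?_
    rw [Real.coe_toNNReal _ hK0, Prod.dist_eq, Prod.dist_eq]
    apply max_le
    · calc dist (v t p).1 (v t p').1 = dist p.2 p'.2 := rfl
        _ ≤ max (dist p.1 p'.1) (dist p.2 p'.2) := le_max_right _ _
        _ = 1 * max (dist p.1 p'.1) (dist p.2 p'.2) := (one_mul _).symm
        _ ≤ _ := mul_le_mul_of_nonneg_right (le_max_left _ _)
          (le_max_of_le_left dist_nonneg)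
    · calc dist (v t p).2 (v t p').2 = ‖q t * p.1 - q t * p'.1‖ := by rw [dist_eq_norm]
        _ = ‖q t‖ * dist p.1 p'.1 := by rw [← mul_sub, norm_mul, dist_eq_norm]
        _ ≤ Kc * max (dist p.1 p'.1) (dist p.2 p'.2) := by
          refine mul_le_mul ((hM t ht).trans (le_max_right _ _)) (le_max_left _ _) dist_nonneg hK0
  have hmem1 : y1 ∈ Ioo a b := by
    constructor
    · rw [ha]; have := min_le_right y y1; have := lt_min hy hy1; linarith
    · rw [hb]; have := le_max_right y y1; linarith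
  have hmem : y ∈ Ioo a b := by
    constructor
    · rw [ha]; have := min_le_left y y1; have := lt_min hy hy1; linarith
    · rw [hb]; have := le_max_left y y1; linarith
  have key := ODE_solution_unique_of_mem_Ioo (v := v) (s := fun _ => univ) (K := Kc.toNNReal)
    (f := fun t => (E t, E1 t)) (g := fun _ => (0, 0)) (a := a) (b := b) (t₀ := y1)
    hlip hmem1
    (fun t ht => ⟨(h1 t (ha0.trans ht.1)).prodMk (h2 t (ha0.trans ht.1)), mem_univ _⟩)
    (fun t ht => ⟨(hasDerivAt_const t ((0 : ℂ), (0 : ℂ))).congr_deriv (by simp [hv]; rfl), mem_univ _⟩)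
    (by simp [z0, z1])
  have := key hmem
  simpa using congrArg Prod.fst this

lemma norm_B_le (nu : ℂ) : ∃ C : ℝ, 0 ≤ C ∧ ∀ y : ℝ, 1 ≤ y →
    ‖B nu y‖ ≤ C * (Real.sqrt y * Real.exp (-(2 * π * y))) := by
  refine ⟨(∫ x, ‖ker 0 nu 1 x‖) * Real.exp (2 * π), ?_, fun y hy => ?_⟩
  · exact mul_nonneg (integral_nonneg fun x => norm_nonneg _) (Real.exp_pos _).le
  · rw [B, norm_mul, Complex.norm_real, Real.norm_of_nonneg (Real.sqrt_nonneg _)]
    have h := K_bound 0 nu hy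
    calc Real.sqrt y * ‖K 0 nu y‖
        ≤ Real.sqrt y * ((∫ x, ‖ker 0 nu 1 x‖) * Real.exp (-(2 * π * (y - 1)))) := by gcongr
      _ = _ := by
        rw [show -(2 * π * (y - 1)) = 2 * π + -(2 * π * y) by ring, Real.exp_add]; ring

lemma norm_B1_le (nu : ℂ) : ∃ C : ℝ, 0 ≤ C ∧ ∀ y : ℝ, 1 ≤ y →
    ‖B1 nu y‖ ≤ C * (Real.sqrt y * Real.exp (-(2 * π * y))) := by
  refine ⟨((∫ x, ‖ker 0 nu 1 x‖) + 2 * π * ∫ x, ‖ker 1 nu 1 x‖) * Real.exp (2 * π), ?_,
    fun y hy => ?_⟩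
  · have h0 : 0 ≤ ∫ x, ‖ker 0 nu 1 x‖ := integral_nonneg fun x => norm_nonneg _
    have h1 : 0 ≤ ∫ x, ‖ker 1 nu 1 x‖ := integral_nonneg fun x => norm_nonneg _
    positivity
  · have hs1 : 1 ≤ Real.sqrt y := by rw [Real.one_le_sqrt]; exact hy
    have h0 := K_bound 0 nu hy
    have h1 := K_bound 1 nu hy
    have i0 : 0 ≤ ∫ x, ‖ker 0 nu 1 x‖ := integral_nonneg fun x => norm_nonneg _
    have i1 : 0 ≤ ∫ x, ‖ker 1 nu 1 x‖ := integral_nonneg fun x => norm_nonneg _
    have hE : Real.exp (-(2 * π * (y - 1))) = Real.exp (2 * π) * Real.exp (-(2 * π * y)) := by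
      rw [← Real.exp_add]; ring_nf
    rw [hE] at h0 h1
    rw [B1]
    refine (norm_sub_le _ _).trans ?_
    rw [norm_mul, norm_mul, Complex.norm_real, Complex.norm_real,
      Real.norm_of_nonneg (by positivity), Real.norm_of_nonneg (by positivity)]
    have e1 : 1 / (2 * Real.sqrt y) ≤ Real.sqrt y := by
      rw [div_le_iff₀ (by positivity)]; nlinarith
    calc 1 / (2 * Real.sqrt y) * ‖K 0 nu y‖ + 2 * π * Real.sqrt y * ‖K 1 nu y‖
        ≤ Real.sqrt y * ((∫ x, ‖ker 0 nu 1 x‖) * (Real.exp (2 * π) * Real.exp (-(2 * π * y))))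
          + 2 * π * Real.sqrt y *
            ((∫ x, ‖ker 1 nu 1 x‖) * (Real.exp (2 * π) * Real.exp (-(2 * π * y)))) := by
          gcongr
      _ = _ := by ring

lemma tendsto_aux (k : ℕ) : Tendsto (fun y : ℝ => y ^ k * (Real.sqrt y * Real.exp (-(2 * π * y))))
    atTop (𝓝 0) := by
  have h := tendsto_rpow_mul_exp_neg_mul_atTop_nhds_zero ((k : ℝ) + 1 / 2) (2 * π) (by positivity)
  refine h.congr' ?_
  filter_upwards [eventually_gt_atTop 0] with y hy
  rw [Real.rpow_add hy, Real.rpow_natCast, ← Real.sqrt_eq_rpow, mul_assoc, neg_mul]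

/-- Bounded solutions of the Whittaker equation are multiples of `B`. -/
theorem whit_unique {mu nu : ℂ} (hnu : nu ^ 2 = 1 / 4 - mu) {W W1 : ℝ → ℂ}
    (h1 : ∀ y : ℝ, 0 < y → HasDerivAt W (W1 y) y)
    (h2 : ∀ y : ℝ, 0 < y → HasDerivAt W1 ((4 * (π : ℂ) ^ 2 - mu / (y : ℂ) ^ 2) * W y) y)
    {C : ℝ} (hb : ∀ y : ℝ, 0 < y → ‖W y‖ ≤ C) :
    ∃ c : ℂ, ∀ y : ℝ, 0 < y → W y = c * B nu y := by
  have hC : 0 ≤ C := (norm_nonneg _).trans (hb 1 one_pos)
  -- growth of the derivative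
  set C' : ℝ := (4 * π ^ 2 + ‖mu‖) * C with hC'
  have hgrow : ∀ y : ℝ, 1 ≤ y → ‖W1 y‖ ≤ ‖W1 1‖ + C' * (y - 1) := by
    intro y hy
    have key := Convex.norm_image_sub_le_of_norm_hasDerivWithin_le (f := W1)
      (f' := fun y => (4 * (π : ℂ) ^ 2 - mu / (y : ℂ) ^ 2) * W y) (C := C') (s := Ici (1 : ℝ))
      (x := 1) (y := y)
      (fun x hx => (h2 x (zero_lt_one.trans_le hx)).hasDerivWithinAt) ?_ (convex_Ici 1)
      self_mem_Ici hy
    · rw [Real.norm_of_nonneg (by linarith)] at key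
      have := norm_le_norm_add_norm_sub' (W1 y) (W1 1)
      linarith
    · intro x hx
      have hx1 : 1 ≤ x := hx
      have hx0 : 0 < x := zero_lt_one.trans_le hx1
      rw [norm_mul, hC']
      refine mul_le_mul ?_ (hb x hx0) (norm_nonneg _) (by positivity)
      refine (norm_sub_le _ _).trans ?_
      have e1 : ‖4 * (π : ℂ) ^ 2‖ = 4 * π ^ 2 := by
        rw [norm_mul, norm_pow, Complex.norm_real, Real.norm_of_nonneg Real.pi_pos.le]; norm_num
      have e2 : ‖mu / (x : ℂ) ^ 2‖ ≤ ‖mu‖ := by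
        rw [norm_div, norm_pow, Complex.norm_real, Real.norm_of_nonneg hx0.le]
        exact div_le_self (norm_nonneg _) (by nlinarith)
      rw [e1]; linarith
  -- the Wronskian
  set D : ℝ → ℂ := fun y => W y * B1 nu y - W1 y * B nu y with hD
  have hDconst : ∀ x : ℝ, 0 < x → ∀ y : ℝ, 0 < y → D y = D x := by
    intro x hx y hy
    have key := Convex.norm_image_sub_le_of_norm_hasDerivWithin_le (f := D)
      (f' := fun _ => 0) (C := 0) (s := Ioi (0 : ℝ)) (x := x) (y := y) ?_ ?_ (convex_Ioi 0) hx hy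
    · rw [zero_mul] at key
      exact sub_eq_zero.mp (norm_le_zero_iff.mp key)
    · intro t ht
      have ht0 : 0 < t := ht
      refine HasDerivAt.hasDerivWithinAt ?_
      have := ((h1 t ht0).fun_mul (hasDerivAt_B1 hnu ht0)).fun_sub
        ((h2 t ht0).fun_mul (hasDerivAt_B nu ht0))
      refine this.congr_deriv ?_
      ring
    · intro t _; simp
  have hDlim : Tendsto D atTop (𝓝 0) := by
    obtain ⟨c0, hc0, hB⟩ := norm_B_le nu
    obtain ⟨c1, hc1, hB1⟩ := norm_B1_le nu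
    have hlim : Tendsto (fun y : ℝ => (C * c1 + (‖W1 1‖ + C') * c0) *
        (y ^ 1 * (Real.sqrt y * Real.exp (-(2 * π * y))))) atTop (𝓝 0) := by
      simpa using (tendsto_aux 1).const_mul (C * c1 + (‖W1 1‖ + C') * c0)
    refine squeeze_zero_norm' ?_ hlim
    filter_upwards [eventually_ge_atTop 1] with y hy
    have hy0 : 0 < y := zero_lt_one.trans_le hy
    have hC'0 : 0 ≤ C' := by positivity
    set e : ℝ := Real.sqrt y * Real.exp (-(2 * π * y)) with he
    have he0 : 0 ≤ e := by positivity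
    calc ‖D y‖ ≤ ‖W y * B1 nu y‖ + ‖W1 y * B nu y‖ := norm_sub_le _ _
      _ ≤ C * (c1 * e) + (‖W1 1‖ + C' * (y - 1)) * (c0 * e) := by
        rw [norm_mul, norm_mul]
        refine add_le_add ?_ ?_
        · exact mul_le_mul (hb y hy0) (hB1 y hy) (norm_nonneg _) hC
        · refine mul_le_mul (hgrow y hy) (hB y hy) (norm_nonneg _) ?_
          have : 0 ≤ C' * (y - 1) := mul_nonneg hC'0 (by linarith)
          positivity
      _ ≤ C * (c1 * e) * y + (‖W1 1‖ * y + C' * y) * (c0 * e) := by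
        have hce : 0 ≤ C * (c1 * e) := by positivity
        refine add_le_add ?_ ?_
        · nlinarith
        · refine mul_le_mul_of_nonneg_right ?_ (by positivity)
          have := norm_nonneg (W1 1)
          nlinarith
      _ = _ := by ring
  have hD0 : ∀ y : ℝ, 0 < y → D y = 0 := by
    intro y hy
    have h : Tendsto D atTop (𝓝 (D y)) := by
      refine tendsto_const_nhds.congr' ?_
      filter_upwards [eventually_gt_atTop 0] with t ht
      exact hDconst t ht y hy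
    exact tendsto_nhds_unique h hDlim
  obtain ⟨y1, hy1, hBne⟩ := exists_B_ne nu
  refine ⟨W y1 / B nu y1, fun y hy => ?_⟩
  have key := ode_zero (mu := mu) (E := fun t => W t - W y1 / B nu y1 * B nu t)
    (E1 := fun t => W1 t - W y1 / B nu y1 * B1 nu t)
    (fun t ht => (h1 t ht).fun_sub ((hasDerivAt_B nu ht).const_mul _))
    (fun t ht => by
      refine ((h2 t ht).fun_sub ((hasDerivAt_B1 hnu ht).const_mul _)).congr_deriv ?_
      ring)
    hy1 (by field_simp; ring) (by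
      have := hD0 y1 hy1
      simp only [hD] at this
      field_simp
      linear_combination -this) hy
  exact sub_eq_zero.mp key

end Pool.Agent.X290.Bes
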