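import Pool.Agent.X290.MaassDef
import Pool.Agent.X290.Fou
import Pool.Agent.X290.Whit
import Pool.Agent.X290.Modu

set_option autoImplicit false

/-!
# Fourier coefficients of odd Hecke-Maass forms
-/

namespace Pool.Agent.X290.Coef

open Complex MeasureTheory Set Filter Topology Fou Bes

variable {f : ℂ → ℂ} {mu : ℂ} {a : ℕ → ℂ}

lemma per (h : OddHM f mu a) : Per f := h.T

lemma lap' (h : OddHM f mu a) (x : ℝ) {y : ℝ} (hy : 0 < y) :
    D I (D I f) (x + y * I) = -(mu / (y : ℂ) ^ 2) * f (x + y * I) - D 1 (D 1 f) (x + y * I) := by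
  have hz : 0 < ((x : ℂ) + y * I).im := by simpa using hy
  have hre : ((x : ℂ) + y * I).re = x := by simp
  have him : ((x : ℂ) + y * I).im = y := by simp
  have h1 := h.lap _ hz
  rw [hre, him] at h1
  have e1 : (fun s : ℝ => deriv (fun t : ℝ => f ((t : ℂ) + (y : ℂ) * I)) s)
      = fun s : ℝ => D 1 f (s + y * I) := by
    funext s
    exact (hasDerivAt_x h.smooth s hy).deriv
  have e2 : (fun s : ℝ => deriv (fun t : ℝ => f ((x : ℂ) + (t : ℂ) * I)) s)
      =ᶠ[𝓝 y] fun s : ℝ => D I f (x + s * I) := by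
    filter_upwards [Ioi_mem_nhds hy] with s hs
    exact (hasDerivAt_y h.smooth x hs).deriv
  rw [e1, e2.deriv_eq, (hasDerivAt_x (D_smooth h.smooth 1) x hy).deriv,
    (hasDerivAt_y (D_smooth h.smooth I) x hy).deriv] at h1
  have hyC : (y : ℂ) ≠ 0 := by exact_mod_cast hy.ne'
  have h2 : (y : ℂ) ^ 2 * D I (D I f) (x + y * I)
      = (y : ℂ) ^ 2 * (-(mu / (y : ℂ) ^ 2) * f (x + y * I) - D 1 (D 1 f) (x + y * I)) := by
    have e3 : (y : ℂ) ^ 2 * (-(mu / (y : ℂ) ^ 2) * f (x + y * I) - D 1 (D 1 f) (x + y * I))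
      = - mu * f (x + y * I) - (y : ℂ) ^ 2 * D 1 (D 1 f) (x + y * I) := by
      field_simp
    rw [e3]
    linear_combination -h1
  exact mul_left_cancel₀ (pow_ne_zero 2 hyC) h2

lemma co_ode (h : OddHM f mu a) (n : ℤ) {y : ℝ} (hy : 0 < y) :
    HasDerivAt (co (D I f) n) ((4 * (Real.pi : ℂ) ^ 2 * (n : ℂ) ^ 2 - mu / (y : ℂ) ^ 2)
      * co f n y) y := by
  have h1 := hasDerivAt_co (D_smooth h.smooth I) n hy
  refine h1.congr_deriv ?_
  have h2 : co (D I (D I f)) n y
      = -(mu / (y : ℂ) ^ 2) * co f n y - co (D 1 (D 1 f)) n y := by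
    unfold co
    rw [← intervalIntegral.integral_const_mul, ← intervalIntegral.integral_sub]
    · refine intervalIntegral.integral_congr fun x _ => ?_
      rw [lap' h x hy]
      ring
    · exact ((continuous_const.mul ((cont_line h.smooth.continuousOn hy).mul
        (continuous_e.comp (by fun_prop))))).intervalIntegrable _ _
    · exact ((cont_line (D_smooth (D_smooth h.smooth 1) 1).continuousOn hy).mul
        (continuous_e.comp (by fun_prop))).intervalIntegrable _ _
  rw [h2, co_Dx (D_smooth h.smooth 1) (D_per (per h) 1) n hy, co_Dx h.smooth (per h) n hy]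
  linear_combination (-4 * (Real.pi : ℂ) ^ 2 * (n : ℂ) ^ 2 * co f n y) * I_sq

lemma exists_nu (mu : ℂ) : ∃ nu : ℂ, nu ^ 2 = 1 / 4 - mu := by
  obtain ⟨z, hz⟩ := IsAlgClosed.exists_pow_nat_eq (1 / 4 - mu) (n := 2) (by norm_num)
  exact ⟨z, hz⟩

/-- the first coefficient is a multiple of the Bessel function -/
theorem co_one (h : OddHM f mu a) {nu : ℂ} (hnu : nu ^ 2 = 1 / 4 - mu) :
    ∃ c : ℂ, ∀ y : ℝ, 0 < y → co f 1 y = c * B nu y := by
  obtain ⟨C, hC⟩ := h.bdd
  refine whit_unique hnu (W := co f 1) (W1 := co (D I f) 1)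
    (fun y hy => hasDerivAt_co h.smooth 1 hy) (fun y hy => ?_) (C := C)
    (fun y hy => norm_co_le hC 1 hy)
  have := co_ode h 1 hy
  simpa using this

lemma co_neg (h : OddHM f mu a) (n : ℤ) {y : ℝ} (hy : 0 < y) :
    co f (-n) y = - co f n y := by
  unfold co
  rw [← intervalIntegral.integral_neg]
  have h1 := intervalIntegral.integral_comp_sub_left
    (fun x : ℝ => f (x + y * I) * e (-((-n : ℤ) : ℝ) * x)) (a := 0) (b := 1) 1
  simp only [sub_self, sub_zero] at h1
  rw [← h1]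
  refine intervalIntegral.integral_congr fun x _ => ?_
  change f _ * e _ = -(f _ * e _)
  have e1 : f (((1 - x : ℝ) : ℂ) + y * I) = - f (x + y * I) := by
    have hz : 0 < ((x : ℂ) + y * I).im := by simpa using hy
    have h2 := h.odd _ hz
    rw [← h2, ← h.T (-(starRingEnd ℂ) (x + y * I)) (by simpa using hy)]
    congr 1
    simp
    ring
  have e2 : e (-((-n : ℤ) : ℝ) * (1 - x)) = e (-(n : ℝ) * x) := by
    rw [show -((-n : ℤ) : ℝ) * (1 - x) = (n : ℝ) + (-(n : ℝ) * x) by push_cast; ring, e_add, e_int,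
      one_mul]
  rw [e1, e2]
  ring

lemma co_zero (h : OddHM f mu a) {y : ℝ} (hy : 0 < y) : co f 0 y = 0 := by
  have h1 := co_neg h 0 hy
  rw [neg_zero] at h1
  exact self_eq_neg.mp h1

/-- Hecke relation for the coefficients -/
theorem co_hecke (h : OddHM f mu a) {p : ℕ} (hp : p.Prime) (n : ℤ) {y : ℝ} (hy : 0 < y) :
    (if (p : ℤ) ∣ n then co f (n / p) (p * y) else 0) + p * co f (p * n) (y / p)
      = (Real.sqrt p : ℂ) * a p * co f n y := by
  have hcont := h.smooth.continuousOn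
  have p0 := hp.pos
  have hpR : (0 : ℝ) < p := by exact_mod_cast p0
  have h1 : co (fun z => (Real.sqrt p : ℂ) * a p * f z) n y
      = (Real.sqrt p : ℂ) * a p * co f n y := by
    unfold co
    rw [← intervalIntegral.integral_const_mul]
    exact intervalIntegral.integral_congr fun x _ => by ring
  rw [← h1, ← co_avg hcont p0 n hy]
  have h2 : co (fun z => (Real.sqrt p : ℂ) * a p * f z) n y
      = co (fun z => f ((p : ℂ) * z) + ∑ b ∈ Finset.range p, f ((z + (b : ℂ)) / (p : ℂ))) n y :=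
    co_congr (fun z hz => (h.hecke p hp z hz).symm) n hy
  rw [h2]
  have c1 : Continuous fun x : ℝ => f ((p : ℂ) * (x + y * I)) := by
    refine hcont.comp_continuous (by fun_prop) fun x => ?_
    change 0 < ((p : ℂ) * (x + y * I)).im
    simp
    positivity
  have c2 : Continuous fun x : ℝ => ∑ b ∈ Finset.range p, f (((x : ℂ) + y * I + (b : ℂ)) / (p : ℂ)) := by
    refine continuous_finsetSum _ fun b _ => ?_
    refine hcont.comp_continuous (by fun_prop) fun x => ?_
    change 0 < ((((x : ℂ) + y * I) + (b : ℂ)) / (p : ℂ)).im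
    have hpC : (p : ℂ) ≠ 0 := by exact_mod_cast hpR.ne'
    rw [show (((x : ℂ) + y * I) + (b : ℂ)) / (p : ℂ)
      = (((x + b) / p : ℝ) : ℂ) + ((y / p : ℝ) : ℂ) * I by push_cast; field_simp; ring]
    simp
    positivity
  have h3 : co (fun z => f ((p : ℂ) * z) + ∑ b ∈ Finset.range p, f ((z + (b : ℂ)) / (p : ℂ))) n y
      = co (fun z => f ((p : ℂ) * z)) n y
        + co (fun z => ∑ b ∈ Finset.range p, f ((z + (b : ℂ)) / (p : ℂ))) n y := by
    unfold co
    rw [← intervalIntegral.integral_add]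
    · exact intervalIntegral.integral_congr fun x _ => by ring
    · exact (c1.mul (continuous_e.comp (by fun_prop))).intervalIntegrable _ _
    · exact (c2.mul (continuous_e.comp (by fun_prop))).intervalIntegrable _ _
  rw [h3]
  congr 1
  split_ifs with hd
  · obtain ⟨m, rfl⟩ := hd
    rw [Int.mul_ediv_cancel_left _ (by exact_mod_cast p0.ne'), co_scale hcont (per h) p0 m hy]
  · rw [co_scale_zero (per h) p0 hd hy]

theorem exists_form (h : OddHM f mu a) (n : ℕ) (hn : 0 < n) :
    ∃ c : ℂ, ∀ y : ℝ, 0 < y → co f n y = ((Real.sqrt n : ℝ) : ℂ)⁻¹ * c * co f 1 (n * y) := by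
  induction n using Nat.strong_induction_on with
  | _ n ih =>
    rcases Nat.lt_or_ge n 2 with h2 | h2
    · have : n = 1 := by omega
      subst this
      exact ⟨1, fun y _ => by simp⟩
    · obtain ⟨p, hp, m, rfl⟩ := Nat.exists_prime_and_dvd (show n ≠ 1 by omega)
      have p0 := hp.pos
      have m0 : 0 < m := Nat.pos_of_mul_pos_left hn |> fun _ => by
        rcases Nat.eq_zero_or_pos m with h0 | h0
        · subst h0; omega
        · exact h0
      have hpR : (0 : ℝ) < p := by exact_mod_cast p0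
      have hpC : (p : ℂ) ≠ 0 := by exact_mod_cast hpR.ne'
      have hsp : ((Real.sqrt p : ℝ) : ℂ) ≠ 0 := by exact_mod_cast (Real.sqrt_pos.mpr hpR).ne'
      have hsp2 : ((Real.sqrt p : ℝ) : ℂ) * ((Real.sqrt p : ℝ) : ℂ) = p := by
        rw [← Complex.ofReal_mul, Real.mul_self_sqrt hpR.le]; simp
      have hmR : (0 : ℝ) < m := by exact_mod_cast m0
      have hsm : ((Real.sqrt m : ℝ) : ℂ) ≠ 0 := by exact_mod_cast (Real.sqrt_pos.mpr hmR).ne'
      obtain ⟨cm, hcm⟩ := ih m (by nlinarith [hp.two_le]) m0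
      have hpm : ((Real.sqrt ((p * m : ℕ) : ℝ) : ℝ) : ℂ)
          = ((Real.sqrt p : ℝ) : ℂ) * ((Real.sqrt m : ℝ) : ℂ) := by
        rw [Nat.cast_mul, Real.sqrt_mul hpR.le]; push_cast; rfl
      by_cases hd : p ∣ m
      · obtain ⟨k, rfl⟩ := hd
        have k0 : 0 < k := by
          rcases Nat.eq_zero_or_pos k with h0 | h0
          · subst h0; omega
          · exact h0
        have hkR : (0 : ℝ) < k := by exact_mod_cast k0
        have hsk : ((Real.sqrt k : ℝ) : ℂ) ≠ 0 := by exact_mod_cast (Real.sqrt_pos.mpr hkR).ne'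
        obtain ⟨ck, hck⟩ := ih k (by nlinarith [hp.two_le]) k0
        have hpk : ((Real.sqrt ((p * k : ℕ) : ℝ) : ℝ) : ℂ)
            = ((Real.sqrt p : ℝ) : ℂ) * ((Real.sqrt k : ℝ) : ℂ) := by
          rw [Nat.cast_mul, Real.sqrt_mul hpR.le]; push_cast; rfl
        refine ⟨a p * cm - ck, fun y hy => ?_⟩
        have hpy : 0 < (p : ℝ) * y := by positivity
        have h1 := co_hecke h hp ((p * k : ℕ) : ℤ) hpy
        rw [if_pos (by push_cast; exact dvd_mul_right _ _)] at h1
        have e1 : (((p * k : ℕ) : ℤ)) / (p : ℤ) = (k : ℤ) := by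
          push_cast
          exact Int.mul_ediv_cancel_left _ (by exact_mod_cast p0.ne')
        rw [e1] at h1
        have e2 : (p : ℝ) * y / p = y := by field_simp
        rw [e2, hcm _ hpy, hck _ (by positivity)] at h1
        have e3 : ((p : ℤ) * ((p * k : ℕ) : ℤ)) = ((p * (p * k) : ℕ) : ℤ) := by push_cast; rfl
        rw [e3] at h1
        have e4 : ((p * k : ℕ) : ℝ) * ((p : ℝ) * y) = ((p * (p * k) : ℕ) : ℝ) * y := by
          push_cast; ring
        have e5 : (k : ℝ) * ((p : ℝ) * ((p : ℝ) * y)) = ((p * (p * k) : ℕ) : ℝ) * y := by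
          push_cast; ring
        rw [e4, e5, hpk] at h1
        rw [hpm, hpk]
        set V := co f 1 (((p * (p * k) : ℕ) : ℝ) * y)
        set X := co f ((p * (p * k) : ℕ) : ℤ) y
        have h2 : (p : ℂ) * X = (p : ℂ) * ((((Real.sqrt p : ℝ) : ℂ) *
          (((Real.sqrt p : ℝ) : ℂ) * ((Real.sqrt k : ℝ) : ℂ)))⁻¹ * (a p * cm - ck) * V) := by
          have h3 : (p : ℂ) * X = ((Real.sqrt p : ℝ) : ℂ) * a p *
            ((((Real.sqrt p : ℝ) : ℂ) * ((Real.sqrt k : ℝ) : ℂ))⁻¹ * cm * V)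
            - ((Real.sqrt k : ℝ) : ℂ)⁻¹ * ck * V := by linear_combination h1
          rw [h3, ← hsp2]
          field_simp
        exact mul_left_cancel₀ hpC h2
      · refine ⟨a p * cm, fun y hy => ?_⟩
        have hpy : 0 < (p : ℝ) * y := by positivity
        have h1 := co_hecke h hp (m : ℤ) hpy
        rw [if_neg (by exact_mod_cast hd), zero_add] at h1
        have e2 : (p : ℝ) * y / p = y := by field_simp
        rw [e2, hcm _ hpy] at h1
        have e3 : ((p : ℤ) * (m : ℤ)) = ((p * m : ℕ) : ℤ) := by push_cast; rfl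
        rw [e3] at h1
        have e4 : (m : ℝ) * ((p : ℝ) * y) = ((p * m : ℕ) : ℝ) * y := by
          push_cast; ring
        rw [e4] at h1
        rw [hpm]
        set V := co f 1 (((p * m : ℕ) : ℝ) * y)
        set X := co f ((p * m : ℕ) : ℤ) y
        have h2 : (p : ℂ) * X = (p : ℂ) * ((((Real.sqrt p : ℝ) : ℂ) *
          ((Real.sqrt m : ℝ) : ℂ))⁻¹ * (a p * cm) * V) := by
          rw [h1, ← hsp2]
          field_simp
        exact mul_left_cancel₀ hpC h2

theorem exists_ne (h : OddHM f mu a) : ∃ y : ℝ, 0 < y ∧ co f 1 y ≠ 0 := by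
  by_contra hcon
  push Not at hcon
  obtain ⟨z, hz, hne⟩ := h.ne
  apply hne
  have hall : ∀ n : ℤ, co f n z.im = 0 := by
    have hpos : ∀ n : ℕ, 0 < n → co f n z.im = 0 := by
      intro n hn
      obtain ⟨c, hc⟩ := exists_form h n hn
      rw [hc _ hz, hcon _ (by positivity)]
      simp
    intro n
    rcases lt_trichotomy n 0 with h0 | h0 | h0
    · have h1 := co_neg h (-n) hz
      rw [neg_neg] at h1
      rw [h1]
      have h2 := hpos (-n).toNat (by omega)
      rw [Int.toNat_of_nonneg (by omega)] at h2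
      rw [h2, neg_zero]
    · subst h0; exact co_zero h hz
    · have h2 := hpos n.toNat (by omega)
      rw [Int.toNat_of_nonneg (by omega)] at h2
      exact h2
  have h1 := hasSum_fourier (g := fun x : ℝ => f (x + z.im * I))
    (cont_line h.smooth.continuousOn hz) ((per h).periodic hz)
    (by
      have : (fun n : ℤ => ∫ x in (0 : ℝ)..1, f (x + z.im * I) * e (-n * x)) = fun _ => 0 := by
        funext n; exact hall n
      rw [this]; exact summable_zero) z.re
  have h2 : (fun n : ℤ => (∫ x in (0 : ℝ)..1, f (x + z.im * I) * e (-n * x)) * e (n * z.re))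
      = fun _ => 0 := by
    funext n
    have := hall n
    unfold co at this
    rw [this, zero_mul]
  rw [h2] at h1
  have h3 := h1.unique hasSum_zero
  rw [← h3, Complex.re_add_im]

theorem exists_coef (h : OddHM f mu a) : ∃ c : ℕ → ℂ, c 0 = 0 ∧ c 1 = 1 ∧
    (∀ p m : ℕ, p.Prime → 0 < m → c (p * m) = a p * c m - if p ∣ m then c (m / p) else 0) ∧
    (∃ C : ℝ, 0 ≤ C ∧ ∀ n : ℕ, ‖c n‖ ≤ C * Real.sqrt n) ∧
    ∀ n : ℕ, 0 < n → ∀ y : ℝ, 0 < y →
      co f n y = ((Real.sqrt n : ℝ) : ℂ)⁻¹ * c n * co f 1 (n * y) := by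
  obtain ⟨y0, hy0, hW⟩ := exists_ne h
  set c : ℕ → ℂ := fun n => ((Real.sqrt n : ℝ) : ℂ) * co f n (y0 / n) / co f 1 y0 with hc
  have hform : ∀ n : ℕ, 0 < n → ∀ y : ℝ, 0 < y →
      co f n y = ((Real.sqrt n : ℝ) : ℂ)⁻¹ * c n * co f 1 (n * y) := by
    intro n hn y hy
    obtain ⟨d, hd⟩ := exists_form h n hn
    have hnR : (0 : ℝ) < n := by exact_mod_cast hn
    have hsn : ((Real.sqrt n : ℝ) : ℂ) ≠ 0 := by exact_mod_cast (Real.sqrt_pos.mpr hnR).ne'
    have h1 : c n = d := by
      simp only [hc]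
      rw [hd _ (by positivity), show (n : ℝ) * (y0 / n) = y0 by field_simp]
      field_simp
    rw [h1, hd y hy]
  obtain ⟨Cb, hCb⟩ := h.bdd
  have hCb0 : 0 ≤ Cb := (norm_nonneg _).trans (hCb I (by simp))
  refine ⟨c, by simp [hc], ?_, ?_, ⟨Cb / ‖co f 1 y0‖, by positivity, fun n => ?_⟩, hform⟩
  · simp only [hc]
    simp [hW]
  · intro p m hp m0
    have p0 := hp.pos
    have hpR : (0 : ℝ) < p := by exact_mod_cast p0
    have hpC : (p : ℂ) ≠ 0 := by exact_mod_cast hpR.ne'
    have hsp : ((Real.sqrt p : ℝ) : ℂ) ≠ 0 := by exact_mod_cast (Real.sqrt_pos.mpr hpR).ne'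
    have hsp2 : ((Real.sqrt p : ℝ) : ℂ) * ((Real.sqrt p : ℝ) : ℂ) = p := by
      rw [← Complex.ofReal_mul, Real.mul_self_sqrt hpR.le]; simp
    have hmR : (0 : ℝ) < m := by exact_mod_cast m0
    have hsm : ((Real.sqrt m : ℝ) : ℂ) ≠ 0 := by exact_mod_cast (Real.sqrt_pos.mpr hmR).ne'
    have hpm : ((Real.sqrt ((p * m : ℕ) : ℝ) : ℝ) : ℂ)
        = ((Real.sqrt p : ℝ) : ℂ) * ((Real.sqrt m : ℝ) : ℂ) := by
      rw [Nat.cast_mul, Real.sqrt_mul hpR.le]; push_cast; rfl
    have h1 := co_hecke h hp (m : ℤ) (y := y0 / m) (by positivity)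
    rw [hform m m0 _ (by positivity), show (m : ℝ) * (y0 / m) = y0 by field_simp] at h1
    have e3 : ((p : ℤ) * (m : ℤ)) = ((p * m : ℕ) : ℤ) := by push_cast; rfl
    rw [e3, hform (p * m) (Nat.mul_pos p0 m0) _ (by positivity),
      show ((p * m : ℕ) : ℝ) * (y0 / m / p) = y0 by push_cast; field_simp, hpm] at h1
    by_cases hd : p ∣ m
    · rw [if_pos (by exact_mod_cast hd)] at h1
      rw [if_pos hd]
      obtain ⟨k, rfl⟩ := hd
      have k0 : 0 < k := by
        rcases Nat.eq_zero_or_pos k with h0 | h0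
        · subst h0; omega
        · exact h0
      have hkR : (0 : ℝ) < k := by exact_mod_cast k0
      have hsk : ((Real.sqrt k : ℝ) : ℂ) ≠ 0 := by exact_mod_cast (Real.sqrt_pos.mpr hkR).ne'
      have hpk : ((Real.sqrt ((p * k : ℕ) : ℝ) : ℝ) : ℂ)
          = ((Real.sqrt p : ℝ) : ℂ) * ((Real.sqrt k : ℝ) : ℂ) := by
        rw [Nat.cast_mul, Real.sqrt_mul hpR.le]; push_cast; rfl
      have e1 : (((p * k : ℕ) : ℤ)) / (p : ℤ) = (k : ℤ) := by
        push_cast
        exact Int.mul_ediv_cancel_left _ (by exact_mod_cast p0.ne')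
      rw [e1, hform k k0 _ (by positivity),
        show (k : ℝ) * ((p : ℝ) * (y0 / ((p * k : ℕ) : ℝ))) = y0 by push_cast; field_simp,
        hpk] at h1
      rw [Nat.mul_div_cancel_left _ p0]
      rw [← hsp2] at h1
      field_simp at h1
      linear_combination h1
    · rw [if_neg (by exact_mod_cast hd)] at h1
      rw [if_neg hd]
      rw [← hsp2, zero_add] at h1
      rw [sub_zero]
      field_simp at h1
      exact h1
  · simp only [hc]
    rcases Nat.eq_zero_or_pos n with h0 | h0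
    · subst h0; simp
    · have hnR : (0 : ℝ) < n := by exact_mod_cast h0
      rw [norm_div, norm_mul, Complex.norm_real, Real.norm_of_nonneg (Real.sqrt_nonneg _)]
      have := norm_co_le hCb n (y := y0 / n) (by positivity)
      have hW' : 0 < ‖co f 1 y0‖ := norm_pos_iff.mpr hW
      rw [div_mul_eq_mul_div, mul_comm Cb]
      gcongr

end Pool.Agent.X290.Coef
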