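import Mathlib

set_option autoImplicit false

/-!
# Compactness of integral operators with bounded kernel on a finite measure space
-/

namespace Pool.Agent.X290.Cpt

open MeasureTheory Set Filter Topology
open scoped InnerProductSpace ENNReal

variable {α : Type*} [MeasurableSpace α] {ν : Measure α}

/-- the Hilbert space -/
noncomputable abbrev HH (ν : Measure α) := Lp ℂ 2 ν

lemma memLp_T (κ : Lp (HH ν) 2 ν) (f : HH ν) : MemLp (fun z => ⟪κ z, f⟫_ℂ) 2 ν := by
  refine MemLp.of_le_mul (c := ‖f‖) (Lp.memLp κ)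
    ((Lp.aestronglyMeasurable κ).inner aestronglyMeasurable_const) ?_
  refine Filter.Eventually.of_forall fun z => ?_
  rw [mul_comm]
  exact norm_inner_le_norm _ _

/-- the operator attached to `κ` -/
noncomputable def T (κ : Lp (HH ν) 2 ν) : HH ν →L[ℂ] HH ν :=
  LinearMap.mkContinuous
    { toFun := fun f => (memLp_T κ f).toLp _
      map_add' := fun f g => by
        rw [← MemLp.toLp_add]
        exact MemLp.toLp_congr _ _ (Filter.Eventually.of_forall fun z => by
          simp [inner_add_right])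
      map_smul' := fun c f => by
        rw [← MemLp.toLp_const_smul]
        exact MemLp.toLp_congr _ _ (Filter.Eventually.of_forall fun z => by
          simp [inner_smul_right]) }
    ‖κ‖ (fun f => by
      rw [mul_comm]
      refine Lp.norm_le_mul_norm_of_ae_le_mul (g := κ) ?_
      filter_upwards [(memLp_T κ f).coeFn_toLp] with z hz
      simp only [LinearMap.coe_mk, AddHom.coe_mk]
      rw [hz, mul_comm]
      exact norm_inner_le_norm _ _)

lemma T_apply (κ : Lp (HH ν) 2 ν) (f : HH ν) : T κ f = (memLp_T κ f).toLp _ := rfl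

lemma T_coe (κ : Lp (HH ν) 2 ν) (f : HH ν) : (T κ f : α → ℂ) =ᵐ[ν] fun z => ⟪κ z, f⟫_ℂ := by
  rw [T_apply]; exact (memLp_T κ f).coeFn_toLp

lemma norm_T_le (κ : Lp (HH ν) 2 ν) : ‖T κ‖ ≤ ‖κ‖ :=
  LinearMap.mkContinuous_norm_le _ (norm_nonneg _) _

lemma T_add (κ κ' : Lp (HH ν) 2 ν) : T (κ + κ') = T κ + T κ' := by
  ext1 f
  apply Lp.ext
  rw [add_apply]
  filter_upwards [T_coe (κ + κ') f, T_coe κ f, T_coe κ' f, Lp.coeFn_add (T κ f) (T κ' f),
    Lp.coeFn_add κ κ'] with z h1 h2 h3 h4 h5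
  rw [h1, h4, Pi.add_apply, h2, h3, h5, Pi.add_apply, inner_add_left]

lemma T_sub (κ κ' : Lp (HH ν) 2 ν) : T (κ - κ') = T κ - T κ' := by
  have := T_add (κ - κ') κ'
  rw [sub_add_cancel] at this
  rw [this, add_sub_cancel_right]

lemma continuous_T : Continuous (T : Lp (HH ν) 2 ν → (HH ν →L[ℂ] HH ν)) := by
  refine LipschitzWith.continuous (K := 1) (LipschitzWith.of_dist_le_mul fun κ κ' => ?_)
  rw [dist_eq_norm, dist_eq_norm, ← T_sub, NNReal.coe_one, one_mul]
  exact norm_T_le _

/-- **Compactness.** -/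
theorem compact_T (κ : Lp (HH ν) 2 ν) : IsCompactOperator (T κ) := by
  refine Lp.induction (p := 2) (by norm_num) (motive := fun κ => IsCompactOperator (T κ))
    ?_ ?_ ?_ κ
  · intro c s hs hμs
    rw [Lp.simpleFunc.coe_indicatorConst]
    set e : HH ν := indicatorConstLp 2 hs hμs.ne (1 : ℂ) with he
    have h1 : T (indicatorConstLp 2 hs hμs.ne c)
        = (ContinuousLinearMap.toSpanSingleton ℂ e).comp (innerSL ℂ c) := by
      ext1 f
      apply Lp.ext
      rw [ContinuousLinearMap.comp_apply, ContinuousLinearMap.toSpanSingleton_apply,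
        innerSL_apply_apply]
      filter_upwards [T_coe (indicatorConstLp 2 hs hμs.ne c) f,
        Lp.coeFn_smul (⟪c, f⟫_ℂ) e,
        (indicatorConstLp_coeFn : (indicatorConstLp 2 hs hμs.ne c : α → HH ν) =ᵐ[ν] _),
        (indicatorConstLp_coeFn : (indicatorConstLp 2 hs hμs.ne (1 : ℂ) : α → ℂ) =ᵐ[ν] _)]
        with z h1 h2 h3 h4
      rw [h1, h2, Pi.smul_apply, h3, h4]
      by_cases hz : z ∈ s
      · simp [hz]
      · simp [hz]
    rw [h1]
    have h2 : IsCompactOperator (innerSL ℂ c : HH ν →L[ℂ] ℂ) :=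
      isCompactOperator_of_locallyCompactSpace_dom _
    change IsCompactOperator ((ContinuousLinearMap.toSpanSingleton ℂ e) ∘ (innerSL ℂ c))
    exact h2.clm_comp (ContinuousLinearMap.toSpanSingleton ℂ e)
  · intro f g hf hg _ h1 h2
    rw [T_add]
    exact h1.add h2
  · exact (isClosed_setOfPred_isCompactOperator (M₁ := HH ν) (M₂ := HH ν) (σ₁₂ := RingHom.id ℂ)).preimage
      continuous_T

/-- kernels -/
structure Kern [TopologicalSpace α] (k : α → α → ℝ) : Prop where
  meas : Measurable fun p : α × α => k p.1 p.2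
  bdd : ∃ M : ℝ, 0 ≤ M ∧ ∀ z w, |k z w| ≤ M
  symm : ∀ z w, k z w = k w z
  cont : ∀ w, Continuous fun z => k z w

variable [TopologicalSpace α] {k : α → α → ℝ}

lemma Kern.meas_right (hk : Kern k) (z : α) : Measurable (k z) :=
  hk.meas.comp measurable_prodMk_left

variable [IsFiniteMeasure ν]

lemma Kern.memLp (hk : Kern k) (z : α) : MemLp (fun w => (k z w : ℂ)) 2 ν := by
  obtain ⟨M, hM0, hM⟩ := hk.bdd
  refine MemLp.of_bound (Complex.measurable_ofReal.comp (hk.meas_right z)).aestronglyMeasurable M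
    (Filter.Eventually.of_forall fun w => ?_)
  rw [Complex.norm_real]
  exact hM z w

/-- the vector attached to a point -/
noncomputable def kap (ν : Measure α) [IsFiniteMeasure ν] (hk : Kern k) (z : α) : HH ν :=
  (hk.memLp z).toLp _

lemma kap_coe (hk : Kern k) (z : α) : (kap ν hk z : α → ℂ) =ᵐ[ν] fun w => (k z w : ℂ) :=
  (hk.memLp z).coeFn_toLp

lemma inner_kap (hk : Kern k) (z : α) (f : HH ν) :
    ⟪kap ν hk z, f⟫_ℂ = ∫ w, (k z w : ℂ) * f w ∂ν := by
  rw [L2.inner_def]
  refine integral_congr_ae ?_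
  filter_upwards [kap_coe hk z] with w hw
  rw [hw, RCLike.inner_apply, Complex.conj_ofReal, mul_comm]

lemma norm_sub_kap (hk : Kern k) (z z' : α) :
    ‖kap ν hk z - kap ν hk z'‖ ^ 2 = ∫ w, (k z w - k z' w) ^ 2 ∂ν := by
  have h1 : ((‖kap ν hk z - kap ν hk z'‖ ^ 2 : ℝ) : ℂ)
      = ((∫ w, (k z w - k z' w) ^ 2 ∂ν : ℝ) : ℂ) := by
    have h2 := inner_self_eq_norm_sq_to_K (𝕜 := ℂ) (kap ν hk z - kap ν hk z')
    rw [L2.inner_def] at h2
    push_cast
    rw [← integral_complex_ofReal]
    refine h2.symm.trans (integral_congr_ae ?_)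
    filter_upwards [kap_coe hk z, kap_coe hk z', Lp.coeFn_sub (kap ν hk z) (kap ν hk z')]
      with w h3 h4 h5
    rw [h5, Pi.sub_apply, h3, h4, RCLike.inner_apply, map_sub, Complex.conj_ofReal,
      Complex.conj_ofReal]
    push_cast
    ring
  exact_mod_cast h1

lemma continuous_kap [SequentialSpace α] (hk : Kern k) : Continuous (kap ν hk) := by
  rw [continuous_iff_seqContinuous]
  intro u z hu
  obtain ⟨M, hM0, hM⟩ := hk.bdd
  rw [tendsto_iff_norm_sub_tendsto_zero]
  have h1 : Tendsto (fun n => ‖kap ν hk (u n) - kap ν hk z‖ ^ 2) atTop (𝓝 0) := by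
    simp only [norm_sub_kap]
    have h2 : Tendsto (fun n => ∫ w, (k (u n) w - k z w) ^ 2 ∂ν) atTop (𝓝 (∫ _w, (0 : ℝ) ∂ν)) := by
      refine tendsto_integral_of_dominated_convergence (fun _ => (2 * M) ^ 2) (fun n => ?_)
        (integrable_const _) (fun n => ?_) ?_
      · exact (((hk.meas_right (u n)).sub (hk.meas_right z)).pow_const 2).aestronglyMeasurable
      · refine Filter.Eventually.of_forall fun w => ?_
        rw [Real.norm_of_nonneg (sq_nonneg _), sq_le_sq, abs_of_nonneg (by positivity : 0 ≤ 2 * M)]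
        have := abs_sub (k (u n) w) (k z w)
        linarith [hM (u n) w, hM z w]
      · refine Filter.Eventually.of_forall fun w => ?_
        have h3 : Tendsto (fun n => k (u n) w) atTop (𝓝 (k z w)) :=
          ((hk.cont w).tendsto z).comp hu
        have h4 := (h3.sub_const (k z w)).pow 2
        simpa using h4
    simpa using h2
  have h5 := h1.sqrt
  simpa [Real.sqrt_sq] using h5

lemma norm_kap_le (hk : Kern k) : ∃ M : ℝ, ∀ z, ‖kap ν hk z‖ ≤ M := by
  obtain ⟨M, hM0, hM⟩ := hk.bdd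
  refine ⟨_, fun z => (Lp.norm_le_of_ae_bound (C := M) hM0 ?_)⟩
  filter_upwards [kap_coe hk z] with w hw
  rw [hw, Complex.norm_real]
  exact hM z w

lemma memLp_kap [SequentialSpace α] [OpensMeasurableSpace α] [SecondCountableTopology α]
    (hk : Kern k) : MemLp (kap ν hk) 2 ν := by
  obtain ⟨M, hM⟩ := norm_kap_le (ν := ν) hk
  exact MemLp.of_bound (continuous_kap hk).aestronglyMeasurable M (Filter.Eventually.of_forall hM)

/-- the integral operator -/
noncomputable def KO (ν : Measure α) [IsFiniteMeasure ν] [SequentialSpace α]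
    [OpensMeasurableSpace α] [SecondCountableTopology α] (hk : Kern k) : HH ν →L[ℂ] HH ν :=
  T ((memLp_kap hk).toLp _)

variable [SequentialSpace α] [OpensMeasurableSpace α] [SecondCountableTopology α]

lemma KO_compact (hk : Kern k) : IsCompactOperator (KO ν hk) := compact_T _

lemma KO_coe (hk : Kern k) (f : HH ν) :
    (KO ν hk f : α → ℂ) =ᵐ[ν] fun z => ∫ w, (k z w : ℂ) * f w ∂ν := by
  filter_upwards [T_coe ((memLp_kap (ν := ν) hk).toLp _) f, (memLp_kap (ν := ν) hk).coeFn_toLp]
    with z h1 h2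
  rw [KO, h1, h2, inner_kap]

lemma KO_symm (hk : Kern k) : (KO ν hk : HH ν →ₗ[ℂ] HH ν).IsSymmetric := by
  intro f g
  obtain ⟨M, hM0, hM⟩ := hk.bdd
  change ⟪KO ν hk f, g⟫_ℂ = ⟪f, KO ν hk g⟫_ℂ
  rw [L2.inner_def, L2.inner_def]
  have hf1 : Integrable f ν := (Lp.memLp f).integrable (by norm_num)
  have hg1 : Integrable g ν := (Lp.memLp g).integrable (by norm_num)
  have hf2 : Integrable (fun w => (starRingEnd ℂ) (f w)) ν :=
    hf1.norm.mono' (Complex.continuous_conj.comp_aestronglyMeasurable hf1.1) (by simp)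
  have hint : Integrable (fun p : α × α => (k p.1 p.2 : ℂ) * (g p.1 * (starRingEnd ℂ) (f p.2)))
      (ν.prod ν) := by
    refine (hg1.mul_prod hf2).bdd_mul (c := M)
      (Complex.measurable_ofReal.comp hk.meas).aestronglyMeasurable ?_
    exact Filter.Eventually.of_forall fun p => by
      change ‖((k p.1 p.2 : ℝ) : ℂ)‖ ≤ M
      rw [Complex.norm_real]; exact hM _ _
  have e1 : (∫ z, ⟪(KO ν hk f) z, g z⟫_ℂ ∂ν)
      = ∫ z, ∫ w, (k z w : ℂ) * (g z * (starRingEnd ℂ) (f w)) ∂ν ∂ν := by
    refine integral_congr_ae ?_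
    filter_upwards [KO_coe (ν := ν) hk f] with z hz
    rw [hz, RCLike.inner_apply, ← integral_conj, ← integral_const_mul]
    refine integral_congr_ae (Filter.Eventually.of_forall fun w => ?_)
    simp only [map_mul, Complex.conj_ofReal]
    ring
  have e2 : (∫ w, ⟪f w, (KO ν hk g) w⟫_ℂ ∂ν)
      = ∫ w, ∫ z, (k z w : ℂ) * (g z * (starRingEnd ℂ) (f w)) ∂ν ∂ν := by
    refine integral_congr_ae ?_
    filter_upwards [KO_coe (ν := ν) hk g] with w hw
    rw [hw, RCLike.inner_apply, ← integral_mul_const]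
    refine integral_congr_ae (Filter.Eventually.of_forall fun z => ?_)
    simp only
    rw [hk.symm z w]
    ring
  rw [e1, e2]
  exact integral_integral_swap hint

end Pool.Agent.X290.Cpt
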