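import Pool.Agent.X290.Cz

/-! The cusp form `phi` with Steinberg component at `∞`. -/

set_option autoImplicit false

namespace Pool.Agent.X290

open Polynomial WithZero Matrix IsDedekindDomain

noncomputable section

theorem pol_small {p : (ZMod 2)[X]} (h : vi (pol p) ≤ 1) : p = 0 ∨ p = 1 := by
  rcases eq_or_ne p 0 with h0 | h0
  · exact Or.inl h0
  right
  rw [vi_pol h0, ← exp_zero, exp_le_exp] at h
  have h2 : p.natDegree = 0 := by omega
  rw [natDegree_eq_zero] at h2
  obtain ⟨c, rfl⟩ := h2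
  have hc0 : c ≠ 0 := by
    rintro rfl
    simp at h0
  have key : ∀ c : ZMod 2, c ≠ 0 → c = 1 := by decide
  rw [key c hc0, map_one]

theorem unit_poly {P Q : (ZMod 2)[X]} (h : P * Q = 1) : P = 1 := by
  have hu : IsUnit P := IsUnit.of_mul_eq_one _ h
  rw [Polynomial.isUnit_iff] at hu
  obtain ⟨r, hr, rfl⟩ := hu
  have key : ∀ r : ZMod 2, IsUnit r → r = 1 := by decide
  rw [key r hr, map_one]

theorem dt_of_Khat {γ : GL (Fin 2) K} (h : gF γ ∈ Khat) : dt γ = 1 := by
  choose p hp using fun i j => exists_poly (y := γ.1 i j) (h.1 i j)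
  choose q hq using fun i j => exists_poly (y := γ⁻¹.1 i j) (by
    have := h.2 i j
    have e : (gF γ)⁻¹ = gF γ⁻¹ := (map_inv (Matrix.GeneralLinearGroup.map (algebraMap K Afin)) γ).symm
    rw [e] at this
    exact this)
  have h1 : dt γ = algebraMap (ZMod 2)[X] K (p 0 0 * p 1 1 - p 0 1 * p 1 0) := by
    unfold dt
    rw [map_sub, map_mul, map_mul, hp, hp, hp, hp]
  have h2 : dt γ⁻¹ = algebraMap (ZMod 2)[X] K (q 0 0 * q 1 1 - q 0 1 * q 1 0) := by
    unfold dt
    rw [map_sub, map_mul, map_mul, hq, hq, hq, hq]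
  have h3 := dt_mul_inv γ
  rw [h1, h2, ← map_mul, ← map_one (algebraMap (ZMod 2)[X] K)] at h3
  have h4 := unit_poly (IsFractionRing.injective (ZMod 2)[X] K h3)
  rw [h1, h4, map_one]

theorem dt_gK (γ : GL (Fin 2) K) : dt (gK γ) = algebraMap K Kinf (dt γ) := by
  unfold dt
  rw [map_sub, map_mul, map_mul]
  rfl

/-- **discreteness** -/
theorem disc {γ : GL (Fin 2) K} (h1 : gK γ ∈ Si) (h2 : gF γ ∈ U0) : γ = 1 := by
  have hd := dt_of_Khat h2.1
  choose p hp using fun i j => exists_poly (y := γ.1 i j) (h2.1.1 i j)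
  have hK : ∀ i j, (gK γ).1 i j = pol (p i j) := by
    intro i j
    rw [gK_apply, ← hp]
    rfl
  have hv := vi_dt_of_InS h1
  rw [dt_gK, hd, map_one] at hv
  obtain ⟨g1, g2, g3⟩ := h1
  rw [hK, hK] at g1
  rw [hK, hK] at g2
  rw [hK, hK] at g3
  rw [hK, vi, map_one] at hv
  change 1 = vi (pol (p 0 0)) * vi (pol (p 0 0)) at hv
  have hp0 : p 0 0 ≠ 0 := by
    intro h0
    rw [h0, map_zero, vi, map_zero, mul_zero] at hv
    exact one_ne_zero hv
  have hone : vi (pol (p 0 0)) = 1 := by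
    rw [vi_pol hp0, ← exp_add, ← exp_zero] at hv
    have h3 := exp_injective hv
    rw [vi_pol hp0, ← exp_zero]
    congr 1
    omega
  have q01 : p 0 1 = 0 := pol_eq_zero (by rw [← hone]; exact g1)
  have q00 : p 0 0 = 1 := (pol_small hone.le).resolve_left hp0
  have q11 : p 1 1 = 1 := by
    refine (pol_small (by rw [← g3, hone])).resolve_left ?_
    intro h0
    rw [h0, hone, map_zero, vi, map_zero] at g3
    exact one_ne_zero g3
  have q10 : p 1 0 = 0 := by
    refine (pol_small (g2.trans (by rw [← g3, hone]))).resolve_right ?_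
    intro h0
    have h3 := h2.2
    rw [gF_apply, ← hp, h0, map_one, map_one, map_one, vz_one] at h3
    exact lt_irrefl _ h3
  refine GL_ext ?_ ?_ ?_ ?_
  · rw [← hp, q00, map_one]
    simp
  · rw [← hp, q01, map_zero]
    simp
  · rw [← hp, q10, map_zero]
    simp
  · rw [← hp, q11, map_one]
    simp

open Classical in
/-- the function on `GL₂(𝔸)` supported in the level structure -/
def FP (g : GA) : ℂ := if g.1 ∈ Si then P0 g.2 else 0

theorem FP_ne {g : GA} (h : FP g ≠ 0) : g.1 ∈ Si ∧ g.2 ∈ U0 := by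
  unfold FP P0 at h
  by_cases h1 : g.1 ∈ Si
  · rw [if_pos h1] at h
    by_cases h2 : g.2 ∈ U0
    · exact ⟨h1, h2⟩
    · rw [if_neg h2] at h
      exact absurd rfl h
  · rw [if_neg h1] at h
    exact absurd rfl h

theorem FP_unique {g : GA} {γ γ' : GL (Fin 2) K} (h : FP (diag γ * g) ≠ 0) (h' : FP (diag γ' * g) ≠ 0) : γ = γ' := by
  obtain ⟨a1, a2⟩ := FP_ne h
  obtain ⟨b1, b2⟩ := FP_ne h'
  have e1 : gK (γ * γ'⁻¹) = (diag γ * g).1 * ((diag γ' * g).1)⁻¹ := by
    rw [← Prod.fst_inv, ← Prod.fst_mul, _root_.mul_inv_rev, mul_assoc, mul_inv_cancel_left, ← map_inv, ← map_mul]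
    rfl
  have e2 : gF (γ * γ'⁻¹) = (diag γ * g).2 * ((diag γ' * g).2)⁻¹ := by
    rw [← Prod.snd_inv, ← Prod.snd_mul, _root_.mul_inv_rev, mul_assoc, mul_inv_cancel_left, ← map_inv, ← map_mul]
    rfl
  have := disc (γ := γ * γ'⁻¹) (by rw [e1]; exact Si.mul_mem a1 (Si.inv_mem b1))
    (by rw [e2]; exact U0.mul_mem a2 (U0.inv_mem b2))
  exact mul_inv_eq_one.1 this

theorem FP_finite (g : GA) : Function.HasFiniteSupport fun γ : GL (Fin 2) K => FP (diag γ * g) := by
  have : (Function.support fun γ : GL (Fin 2) K => FP (diag γ * g)).Subsingleton :=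
    fun γ h γ' h' => FP_unique h h'
  exact this.finite

/-- the Poincaré series -/
def EP (g : GA) : ℂ := ∑ᶠ γ : GL (Fin 2) K, FP (diag γ * g)

theorem EP_left (δ : GL (Fin 2) K) (g : GA) : EP (diag δ * g) = EP g := by
  unfold EP
  rw [← finsum_comp_equiv (Equiv.mulRight δ) (f := fun γ => FP (diag γ * g))]
  refine finsum_congr fun γ => ?_
  rw [Equiv.coe_mulRight, map_mul, mul_assoc]

theorem FP_Si {s : Ginf} (hs : s ∈ Si) (g : GA) : FP (g * inclInf s) = FP g := by
  unfold FP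
  have e1 : (g * inclInf s).1 = g.1 * s := rfl
  have e2 : (g * inclInf s).2 = g.2 := mul_one _
  rw [e1, e2]
  by_cases h : g.1 ∈ Si
  · rw [if_pos h, if_pos (Si.mul_mem h hs)]
  · rw [if_neg h, if_neg (fun h' => h ((Subgroup.mul_mem_cancel_right Si hs).1 h'))]

theorem EP_Si {s : Ginf} (hs : s ∈ Si) (g : GA) : EP (g * inclInf s) = EP g := by
  unfold EP
  refine finsum_congr fun γ => ?_
  rw [← mul_assoc, FP_Si hs]

theorem FP_U0 {k : Gfin} (hk : k ∈ U0) (g : GA) : FP (g * inclFin k) = ps k * FP g := by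
  unfold FP
  have e1 : (g * inclFin k).1 = g.1 := mul_one _
  have e2 : (g * inclFin k).2 = g.2 * k := rfl
  rw [e1, e2, P0_right hk]
  split_ifs
  · rfl
  · rw [mul_zero]

theorem EP_U0 {k : Gfin} (hk : k ∈ U0) (g : GA) : EP (g * inclFin k) = ps k * EP g := by
  unfold EP
  rw [mul_finsum]
  refine finsum_congr fun γ => ?_
  rw [← mul_assoc, FP_U0 hk]

/-- antisymmetric functions have no Poincaré series -/
theorem antisym {F : GA → ℂ} {δ : GL (Fin 2) K} (h : ∀ x, F (diag δ * x) = -F x) (g : GA) :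
    ∑ᶠ γ : GL (Fin 2) K, F (diag γ * g) = 0 := by
  have h1 : ∑ᶠ γ : GL (Fin 2) K, F (diag γ * g) = -∑ᶠ γ : GL (Fin 2) K, F (diag γ * g) := by
    conv_lhs => rw [← finsum_comp_equiv (Equiv.mulLeft δ) (f := fun γ => F (diag γ * g))]
    rw [← finsum_neg_distrib]
    refine finsum_congr fun γ => ?_
    rw [Equiv.coe_mulLeft, map_mul, mul_assoc, h]
  exact self_eq_neg.1 h1

/-- the unipotent matrix with entry `1` at `∞` -/
def uI : GA := inclInf (unip 1)

/-- the permutation matrix at `∞` -/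
def wI : GA := inclInf sw

/-- the Atkin-Lehner matrix at `∞` -/
def oI : GA := inclInf om

theorem gK_unip (x : K) : gK (unip x) = unip (algebraMap K Kinf x) := by
  refine GL_ext ?_ ?_ ?_ ?_ <;> rw [gK_apply] <;> simp [unip]

theorem gF_unip (x : K) : gF (unip x) = unip (algebraMap K Afin x) := by
  refine GL_ext ?_ ?_ ?_ ?_ <;> rw [gF_apply] <;> simp [unip]

theorem gK_lunip (x : K) : gK (lunip x) = lunip (algebraMap K Kinf x) := by
  refine GL_ext ?_ ?_ ?_ ?_ <;> rw [gK_apply] <;> simp [lunip]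

theorem gF_lunip (x : K) : gF (lunip x) = lunip (algebraMap K Afin x) := by
  refine GL_ext ?_ ?_ ?_ ?_ <;> rw [gF_apply] <;> simp [lunip]

theorem unip_U0 {x : Afin} (hx : x ∈ Oh) : (unip x : Gfin) ∈ U0 := by
  refine ⟨⟨?_, ?_⟩, ?_⟩
  · intro i j
    fin_cases i <;> fin_cases j
    · exact Oh.one_mem
    · exact hx
    · exact Oh.zero_mem
    · exact Oh.one_mem
  · intro i j
    fin_cases i <;> fin_cases j
    · exact Oh.one_mem
    · exact Oh.neg_mem hx
    · exact Oh.zero_mem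
    · exact Oh.one_mem
  · have : (unip x : Gfin).1 1 0 = 0 := rfl
    rw [this, map_zero, vz_zero]
    exact zero_lt_one

theorem lunip_U0 {x : Afin} (hx : x ∈ Oh) (hx' : vz (proj v0 x) < 1) : (lunip x : Gfin) ∈ U0 := by
  refine ⟨⟨?_, ?_⟩, ?_⟩
  · intro i j
    fin_cases i <;> fin_cases j
    · exact Oh.one_mem
    · exact Oh.zero_mem
    · exact hx
    · exact Oh.one_mem
  · intro i j
    fin_cases i <;> fin_cases j
    · exact Oh.one_mem
    · exact Oh.zero_mem
    · exact Oh.neg_mem hx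
    · exact Oh.one_mem
  · exact hx'

theorem ps_unip_one : ps (gF (unip 1)) = -1 := by
  rw [gF_unip, map_one]
  unfold ps
  have h1 : (unip (1 : Afin) : Gfin).1 0 1 = 1 := rfl
  have h2 : (unip (1 : Afin) : Gfin).1 1 0 = 0 := rfl
  rw [h1, h2, map_one, map_zero, zero_div, sg_unit vz_one, sg_small (by rw [vz_zero]; exact zero_lt_one), mul_one]

theorem unip_one_U0 : gF (unip 1) ∈ U0 := by
  rw [gF_unip, map_one]
  exact unip_U0 Oh.one_mem

theorem X_Oh : algebraMap K Afin RatFunc.X ∈ Oh := by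
  rw [← RatFunc.algebraMap_X]
  exact poly_mem_Oh X

theorem ps_lunip : ps (gF (lunip RatFunc.X)) = -1 := by
  rw [gF_lunip]
  unfold ps
  have h1 : (lunip (algebraMap K Afin RatFunc.X) : Gfin).1 0 1 = 0 := rfl
  have h2 : (lunip (algebraMap K Afin RatFunc.X) : Gfin).1 1 0 = algebraMap K Afin RatFunc.X := rfl
  have h3 : proj v0 (algebraMap K Afin RatFunc.X) = T0 := rfl
  rw [h1, h2, h3, map_zero, div_self T0_ne, sg_unit vz_one, sg_small (by rw [vz_zero]; exact zero_lt_one), one_mul]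

theorem lunip_X_U0 : gF (lunip RatFunc.X) ∈ U0 := by
  rw [gF_lunip]
  refine lunip_U0 X_Oh ?_
  change vz T0 < 1
  rw [vz_T0, ← exp_zero, exp_lt_exp]
  norm_num

/-- **the harmonicity at a vertex** -/
theorem EP_sum (g : GA) : EP g + EP (g * uI) + EP (g * wI) = 0 := by
  classical
  unfold EP
  rw [← finsum_add_distrib (FP_finite g) (FP_finite _), ← finsum_add_distrib ((FP_finite g).fun_add (FP_finite _)) (FP_finite _)]
  have h1 : ∀ x : GA, FP x + FP (x * uI) + FP (x * wI) = if InY x.1 then P0 x.2 else 0 := by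
    intro x
    have e1 : (x * uI).1 = x.1 * unip 1 := rfl
    have e2 : (x * uI).2 = x.2 := mul_one _
    have e3 : (x * wI).1 = x.1 * sw := rfl
    have e4 : (x * wI).2 = x.2 := mul_one _
    have h2 := count x.1
    have h3 := congrArg (fun z => z * P0 x.2) h2
    simp only [add_mul, ite_mul, one_mul, zero_mul] at h3
    unfold FP
    rw [e1, e2, e3, e4]
    exact h3
  have h2 : ∀ γ : GL (Fin 2) K, FP (diag γ * g) + FP (diag γ * (g * uI)) + FP (diag γ * (g * wI)) =
      (fun x : GA => if InY x.1 then P0 x.2 else 0) (diag γ * g) := by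
    intro γ
    rw [← mul_assoc, ← mul_assoc]
    exact h1 _
  rw [finsum_congr h2]
  refine antisym (F := fun x : GA => if InY x.1 then P0 x.2 else 0) (δ := unip 1) (fun x => ?_) g
  have e1 : (diag (unip 1) * x).1 = unip 1 * x.1 := by
    rw [diag_eq, gK_unip, map_one]
    rfl
  have e2 : (diag (unip 1) * x).2 = gF (unip 1) * x.2 := rfl
  simp only [e1, e2, InY_unip_mul, P0_left unip_one_U0, ps_unip_one]
  split_ifs
  · ring
  · ring

theorem om_lunip : om⁻¹ * lunip T = unip 1 * om⁻¹ := by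
  obtain ⟨p1, p2, p3, p4⟩ := om_inv_apply
  have hT := T_ne
  refine GL_ext ?_ ?_ ?_ ?_ <;> rw [mul_apply_two, mul_apply_two] <;> simp only [p1, p2, p3, p4] <;>
    simp [unip, lunip, hT]

theorem FP_om {x : GA} : FP (x * oI⁻¹) = (open Classical in if om⁻¹ * x.1 ∈ Si then P0 x.2 else 0) := by
  classical
  unfold FP
  have e1 : (x * oI⁻¹).1 = x.1 * om⁻¹ := rfl
  have e2 : (x * oI⁻¹).2 = x.2 := by
    change x.2 * (1 : Gfin)⁻¹ = x.2
    rw [inv_one, mul_one]
  have e3 : x.1 * om⁻¹ ∈ Si ↔ om⁻¹ * x.1 ∈ Si := by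
    constructor
    · intro h
      have := om_conj' h
      have e : om⁻¹ * (x.1 * om⁻¹) * om = om⁻¹ * x.1 := by group
      rwa [e] at this
    · intro h
      have := om_conj h
      have e : om * (om⁻¹ * x.1) * om⁻¹ = x.1 * om⁻¹ := by group
      rwa [e] at this
  rw [e1, e2]
  simp only [e3]

theorem EP_sum' (g : GA) : EP (g * oI⁻¹) + EP (g * uI * oI⁻¹) + EP (g * wI * oI⁻¹) = 0 := by
  classical
  unfold EP
  rw [← finsum_add_distrib (FP_finite _) (FP_finite _),
    ← finsum_add_distrib ((FP_finite _).fun_add (FP_finite _)) (FP_finite _)]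
  have h1 : ∀ x : GA, FP (x * oI⁻¹) + FP (x * uI * oI⁻¹) + FP (x * wI * oI⁻¹) =
      if InY (om⁻¹ * x.1) then P0 x.2 else 0 := by
    intro x
    have e1 : (x * uI).1 = x.1 * unip 1 := rfl
    have e2 : (x * uI).2 = x.2 := mul_one _
    have e3 : (x * wI).1 = x.1 * sw := rfl
    have e4 : (x * wI).2 = x.2 := mul_one _
    have h2 := count (om⁻¹ * x.1)
    have h3 := congrArg (fun z => z * P0 x.2) h2
    simp only [add_mul, ite_mul, one_mul, zero_mul, mul_assoc] at h3
    rw [FP_om, FP_om, FP_om, e1, e2, e3, e4]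
    exact h3
  have h2 : ∀ γ : GL (Fin 2) K, FP (diag γ * (g * oI⁻¹)) + FP (diag γ * (g * uI * oI⁻¹)) +
      FP (diag γ * (g * wI * oI⁻¹)) = (fun x : GA => if InY (om⁻¹ * x.1) then P0 x.2 else 0) (diag γ * g) := by
    intro γ
    have := h1 (diag γ * g)
    simp only [mul_assoc] at this ⊢
    exact this
  rw [finsum_congr h2]
  refine antisym (F := fun x : GA => if InY (om⁻¹ * x.1) then P0 x.2 else 0) (δ := lunip RatFunc.X) (fun x => ?_) g
  have e1 : om⁻¹ * (diag (lunip RatFunc.X) * x).1 = unip 1 * (om⁻¹ * x.1) := by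
    have : (diag (lunip RatFunc.X) * x).1 = lunip T * x.1 := by
      rw [diag_eq, gK_lunip]
      rfl
    rw [this, ← mul_assoc, om_lunip, mul_assoc]
  have e2 : (diag (lunip RatFunc.X) * x).2 = gF (lunip RatFunc.X) * x.2 := rfl
  simp only [e1, e2, InY_unip_mul, P0_left lunip_X_U0, ps_lunip]
  split_ifs
  · ring
  · ring

/-- **the cusp form** -/
def phi (g : GA) : ℂ := EP g - EP (g * oI⁻¹)

theorem phi_left (δ : GL (Fin 2) K) (g : GA) : phi (diag δ * g) = phi g := by
  unfold phi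
  rw [mul_assoc, EP_left, EP_left]

theorem phi_Si {s : Ginf} (hs : s ∈ Si) (g : GA) : phi (g * inclInf s) = phi g := by
  unfold phi
  have e : g * inclInf s * oI⁻¹ = g * oI⁻¹ * inclInf (om * s * om⁻¹) := by
    rw [map_mul, map_mul, map_inv]
    unfold oI
    group
  rw [e, EP_Si hs, EP_Si (om_conj hs)]

theorem phi_U0 {k : Gfin} (hk : k ∈ U0) (g : GA) : phi (g * inclFin k) = ps k * phi g := by
  unfold phi
  have e : g * inclFin k * oI⁻¹ = g * oI⁻¹ * inclFin k := by
    rw [mul_assoc, mul_assoc]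
    congr 1
    refine Prod.ext ?_ ?_
    · change 1 * om⁻¹ = om⁻¹ * 1
      rw [one_mul, mul_one]
    · change k * (1 : Gfin)⁻¹ = (1 : Gfin)⁻¹ * k
      rw [inv_one, one_mul, mul_one]
  rw [e, EP_U0 hk, EP_U0 hk]
  ring

theorem phi_om (g : GA) : phi (g * oI) = -phi g := by
  unfold phi
  have e1 : g * oI * oI⁻¹ = g := by group
  have e2 : g * oI = g * oI⁻¹ * inclInf (om * om) := by
    rw [map_mul]
    unfold oI
    group
  rw [e1, e2, EP_Si om_sq]
  ring

theorem phi_sum (g : GA) : phi g + phi (g * uI) + phi (g * wI) = 0 := by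
  unfold phi
  linear_combination EP_sum g - EP_sum' g

theorem phi_one : phi 1 = 1 := by
  classical
  unfold phi EP
  have h1 : ∑ᶠ γ : GL (Fin 2) K, FP (diag γ * 1) = 1 := by
    have hF1 : FP (diag 1 * 1) = 1 := by
      rw [map_one, mul_one]
      unfold FP
      have e1 : (1 : GA).1 ∈ Si := Si.one_mem
      rw [if_pos e1]
      exact P0_one
    rw [finsum_eq_single _ (1 : GL (Fin 2) K), hF1]
    intro γ hγ
    by_contra hne
    exact hγ (FP_unique hne (by rw [hF1]; exact one_ne_zero))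
  have h2 : ∀ γ : GL (Fin 2) K, FP (diag γ * (1 * oI⁻¹)) = 0 := by
    intro γ
    by_contra hne
    obtain ⟨a1, a2⟩ := FP_ne hne
    rw [one_mul] at a1 a2
    have e1 : (diag γ * oI⁻¹).1 = gK γ * om⁻¹ := rfl
    have e2 : (diag γ * oI⁻¹).2 = gF γ := by
      change gF γ * (1 : Gfin)⁻¹ = gF γ
      rw [inv_one, mul_one]
    rw [e1] at a1
    rw [e2] at a2
    have h3 := vi_dt_of_InS a1
    rw [dt_mul, dt_gK, dt_of_Khat a2.1, map_one, one_mul] at h3
    obtain ⟨p1, p2, p3, p4⟩ := om_inv_apply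
    have h4 : dt (om⁻¹) = -T⁻¹ := by
      unfold dt
      rw [p1, p2, p3]
      ring
    rw [h4, vi_neg, vi_T_inv] at h3
    have hne0 : vi ((gK γ * om⁻¹).1 0 0) ≠ 0 := by
      intro h0
      rw [h0, mul_zero] at h3
      exact exp_ne_zero h3
    rw [← exp_log hne0, ← exp_add] at h3
    have h5 := exp_injective h3
    omega
  rw [h1, finsum_congr h2, finsum_zero, sub_zero]

/-- the cochain attached to `phi` -/
def cphi (x : Ginf) : GA → ℂ := rightReg (inclInf x) phi

theorem cphi_apply (x : Ginf) (g : GA) : cphi x g = phi (g * inclInf x) := rfl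

theorem dgT_Si : dg Tu Tu ∈ Si := by
  have hT : (Tu : Kinf) = T := rfl
  refine ⟨?_, ?_, ?_⟩
  · have : vi 0 < vi T := by
      rw [vi_T, vi, map_zero]
      exact exp_pos
    simpa [dg, hT] using this
  · simp [dg, hT, vi]
  · simp [dg]

theorem om_sw : om * sw = gd 0 1 * dg Tu Tu := by
  obtain ⟨o1, o2, o3, o4⟩ := om_apply
  obtain ⟨r1, r2, r3, r4⟩ := gd_coe 0 1
  have hT : (Tu : Kinf) = T := rfl
  have hT' := T_ne
  refine GL_ext ?_ ?_ ?_ ?_ <;> rw [mul_apply_two, mul_apply_two]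
  · rw [o1, o2, r1, r2]
    simp [sw, dg, hT, hT']
  · rw [o1, o2, r1, r2]
    simp [sw, dg]
  · rw [o3, o4, r3, r4]
    simp [sw, dg]
  · rw [o3, o4, r3, r4]
    simp [sw, dg, hT]

theorem om_sw_unip : om * sw * unip 1 = gd (T ^ (-1 : ℤ)) 1 * dg Tu Tu := by
  obtain ⟨o1, o2, o3, o4⟩ := om_apply
  obtain ⟨r1, r2, r3, r4⟩ := gd_coe (T ^ (-1 : ℤ)) 1
  have hT : (Tu : Kinf) = T := rfl
  have hT' := T_ne
  have hneg : -(1 : Kinf) = 1 := neg_eq' 1
  refine GL_ext ?_ ?_ ?_ ?_ <;> rw [mul_apply_two, mul_apply_two, mul_apply_two, mul_apply_two]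
  · rw [o1, o2, r1, r2]
    simp [sw, dg, unip, hT, hT']
  · rw [o1, o2, r1, r2]
    simp [sw, dg, unip, hT, hT', hneg]
  · rw [o3, o4, r3, r4]
    simp [sw, dg, unip]
  · rw [o3, o4, r3, r4]
    simp [sw, dg, unip, hT]

theorem phi_split (g : GA) : phi g = phi (g * inclInf (gd 0 1)) + phi (g * inclInf (gd (T ^ (-1 : ℤ)) 1)) := by
  have h := phi_sum (g * oI * wI)
  have e1 : g * oI * wI = g * inclInf (gd 0 1) * inclInf (dg Tu Tu) := by
    rw [mul_assoc, mul_assoc]
    congr 1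
    unfold oI wI
    rw [← map_mul, ← map_mul, om_sw]
  have e2 : g * oI * wI * uI = g * inclInf (gd (T ^ (-1 : ℤ)) 1) * inclInf (dg Tu Tu) := by
    rw [mul_assoc, mul_assoc, mul_assoc]
    congr 1
    unfold oI wI uI
    rw [← mul_assoc, ← map_mul, ← map_mul, ← map_mul, om_sw_unip]
  have e3 : g * oI * wI * wI = g * oI := by
    rw [mul_assoc (g * oI)]
    unfold wI
    rw [← map_mul, sw_sq, map_one, mul_one]
  rw [e3, e2, e1, phi_Si dgT_Si, phi_Si dgT_Si, phi_om] at h
  linear_combination -h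

theorem cphi_harm : Harm cphi where
  c0 x s hs := by
    funext g
    rw [cphi_apply, cphi_apply, map_mul, ← mul_assoc, phi_Si hs]
  c1 x := by
    funext g
    rw [Pi.add_apply, cphi_apply, cphi_apply, cphi_apply, phi_split, map_mul, map_mul, mul_assoc, mul_assoc]
  c2 x := by
    funext g
    rw [Pi.neg_apply, cphi_apply, cphi_apply, map_mul, ← mul_assoc]
    exact phi_om _

/-- the equivariant map attached to `phi` -/
def Dp : PF →ₗ[ℂ] (GA → ℂ) := cphi_harm.D

theorem Dp_rP (x : Ginf) : Dp (rP x B0) = rightReg (inclInf x) phi := cphi_harm.D_rP x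

theorem Dp_B0 : Dp B0 = phi := by
  have h := Dp_rP 1
  rw [map_one, map_one, map_one, Module.End.one_apply, Module.End.one_apply] at h
  exact h

theorem Dp_one0 : Dp one0 = 0 := cphi_harm.D_one0

theorem Dp_equivar : Equivar Dp := by
  intro g f
  have hf : f ∈ Submodule.span ℂ (Set.range fun g : Ginf => rP g B0) := by
    rw [span_B0]
    trivial
  induction hf using Submodule.span_induction with
  | mem y hy =>
    obtain ⟨x, rfl⟩ := hy
    change Dp (rP g (rP x B0)) = rightReg (inclInf g) (Dp (rP x B0))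
    rw [← Module.End.mul_apply, ← map_mul, Dp_rP, Dp_rP, map_mul, map_mul, Module.End.mul_apply]
  | zero => simp
  | add y z _ _ hy hz => rw [map_add, map_add, map_add, map_add, hy, hz]
  | smul a y _ hy => rw [map_smul, map_smul, map_smul, map_smul, hy]

/-- an induction principle for the image of `Dp` -/
theorem Dp_induction {N : Submodule ℂ (GA → ℂ)} (h : ∀ x : Ginf, rightReg (inclInf x) phi ∈ N) (f : PF) : Dp f ∈ N := by
  have hf : f ∈ Submodule.span ℂ (Set.range fun g : Ginf => rP g B0) := by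
    rw [span_B0]
    trivial
  have hle : Submodule.span ℂ (Set.range fun g : Ginf => rP g B0) ≤ N.comap Dp := by
    rw [Submodule.span_le]
    rintro _ ⟨x, rfl⟩
    change Dp (rP x B0) ∈ N
    rw [Dp_rP]
    exact h x
  exact hle hf

end

end Pool.Agent.X290
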