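import Pool.Agent.X290.Harm

/-! The place `T = 0` and the character of the level structure. -/

set_option autoImplicit false

namespace Pool.Agent.X290

open Polynomial WithZero Matrix IsDedekindDomain

noncomputable section

/-- the place `T = 0` -/
def v0 : HS := ⟨Ideal.span {X}, (Ideal.span_singleton_prime X_ne_zero).2 prime_X, by
  rw [Ne, Ideal.span_singleton_eq_bot]
  exact X_ne_zero⟩

/-- the completion at `T = 0` -/
abbrev K0 : Type := v0.adicCompletion K

/-- the valuation at `T = 0` -/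
abbrev vz (x : K0) : WithZero (Multiplicative ℤ) := Valued.v x

/-- the embedding of `K` in the completion at `T = 0` -/
def e0 : K →+* K0 := (proj v0).comp (algebraMap K Afin)

theorem vz_e0 (y : K) : vz (e0 y) = v0.valuation K y := val_K v0 y

theorem vz_poly (p : (ZMod 2)[X]) : vz (e0 (algebraMap (ZMod 2)[X] K p)) = v0.intValuation p := by
  rw [vz_e0, HeightOneSpectrum.valuation_of_algebraMap]

/-- `T` in the completion at `T = 0` -/
def T0 : K0 := e0 RatFunc.X

theorem vz_T0 : vz T0 = exp (-1 : ℤ) := by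
  have h := vz_poly X
  rw [HeightOneSpectrum.intValuation_singleton v0 X_ne_zero rfl] at h
  rw [← h]
  unfold T0
  rw [RatFunc.algebraMap_X]

theorem vz_mul (x y : K0) : vz (x * y) = vz x * vz y := map_mul _ _ _

theorem vz_add_lt {x y : K0} {c : WithZero (Multiplicative ℤ)} (hx : vz x < c) (hy : vz y < c) :
    vz (x + y) < c := Valuation.map_add_lt _ hx hy

theorem vz_add_le {x y : K0} {c : WithZero (Multiplicative ℤ)} (hx : vz x ≤ c) (hy : vz y ≤ c) :
    vz (x + y) ≤ c := (Valuation.map_add _ _ _).trans (max_le hx hy)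

theorem vz_one : vz 1 = 1 := map_one _

theorem vz_zero : vz 0 = 0 := map_zero _

theorem vz_neg (x : K0) : vz (-x) = vz x := Valuation.map_neg _ _

theorem T0_ne : T0 ≠ 0 := by
  intro h
  have := vz_T0
  rw [h, vz_zero] at this
  exact absurd this.symm exp_ne_zero

theorem ball0_nhds (n : ℤ) : {x : K0 | vz x < exp n} ∈ nhds (0 : K0) := by
  rw [Valued.mem_nhds_zero]
  have hT : vz (T0 ^ (-n)) = exp n := by
    have h := vz_T0
    rw [vz] at h ⊢
    rw [map_zpow₀, h, ← WithZero.exp_zsmul]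
    congr 1
    simp
  have h0 : Valued.v.restrict (T0 ^ (-n)) ≠ 0 := by
    rw [Ne, Valuation.restrict_eq_zero_iff]
    rw [vz] at hT
    rw [hT]
    exact exp_ne_zero
  refine ⟨Units.mk0 _ h0, fun x hx => ?_⟩
  rw [Set.mem_ofPred_eq, Units.val_mk0, Valuation.restrict_lt_iff] at hx
  rw [vz] at hT
  rw [hT] at hx
  exact hx

theorem dense0 (x : K0) : ∃ y : K, vz (x - e0 y) < 1 := by
  have hd : DenseRange (algebraMap K K0) := HeightOneSpectrum.denseRange_algebraMap K v0
  have h1 : {z : K0 | vz (x - z) < 1} ∈ nhds x := by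
    have : Filter.Tendsto (fun z : K0 => x - z) (nhds x) (nhds (x - x)) :=
      (continuous_const.sub continuous_id).tendsto x
    rw [sub_self] at this
    have h2 := this (ball0_nhds 0)
    rw [exp_zero] at h2
    exact h2
  obtain ⟨z, hz, y, rfl⟩ := mem_closure_iff_nhds.1 (hd x) _ h1
  exact ⟨y, hz⟩

theorem residue0 {x : K0} (hx : vz x ≤ 1) : vz x < 1 ∨ vz (x - 1) < 1 := by
  obtain ⟨y, hy⟩ := dense0 x
  have h1 : v0.valuation K y ≤ 1 := by
    rw [← vz_e0]
    have e : e0 y = x + -(x - e0 y) := by ring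
    rw [e]
    exact vz_add_le hx (by rw [vz_neg]; exact hy.le)
  obtain ⟨a, ha⟩ := HeightOneSpectrum.exists_valuation_sub_lt_of_integer v0 h1 1
  rw [Units.val_one] at ha
  have h2 : vz (x - e0 (algebraMap (ZMod 2)[X] K a)) < 1 := by
    have e : x - e0 (algebraMap (ZMod 2)[X] K a) = (x - e0 y) + -(e0 (algebraMap (ZMod 2)[X] K a - y)) := by
      rw [map_sub]
      ring
    rw [e]
    exact vz_add_lt hy (by rw [vz_neg, vz_e0]; exact ha)
  have h3 : vz (e0 (algebraMap (ZMod 2)[X] K (X * a.divX))) < 1 := by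
    rw [map_mul, map_mul, vz_mul, vz_poly, vz_poly, HeightOneSpectrum.intValuation_singleton v0 X_ne_zero rfl]
    calc _ ≤ exp (-1 : ℤ) * 1 := mul_le_mul_right (HeightOneSpectrum.intValuation_le_one _ _) _
      _ < 1 := by rw [mul_one, ← exp_zero, exp_lt_exp]; norm_num
  have h4 : vz (x - e0 (algebraMap (ZMod 2)[X] K (C (a.coeff 0)))) < 1 := by
    have e : x - e0 (algebraMap (ZMod 2)[X] K (C (a.coeff 0))) = (x - e0 (algebraMap (ZMod 2)[X] K a)) +
      e0 (algebraMap (ZMod 2)[X] K (X * a.divX)) := by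
      have e5 : e0 (algebraMap (ZMod 2)[X] K a) = e0 (algebraMap (ZMod 2)[X] K (X * a.divX)) +
          e0 (algebraMap (ZMod 2)[X] K (C (a.coeff 0))) := by
        rw [← map_add, ← map_add, X_mul_divX_add]
      rw [e5]
      ring
    rw [e]
    exact vz_add_lt h2 h3
  have key : ∀ c : ZMod 2, c = 0 ∨ c = 1 := by decide
  rcases key (a.coeff 0) with h | h
  · left
    rw [h, map_zero, map_zero, map_zero, sub_zero] at h4
    exact h4
  · right
    rw [h, map_one, map_one, map_one] at h4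
    exact h4

open Classical in
/-- the sign of the residue -/
def sg (x : K0) : ℂ := if vz x < 1 then 1 else -1

theorem sg_small {x : K0} (h : vz x < 1) : sg x = 1 := if_pos h

theorem sg_unit {x : K0} (h : vz x = 1) : sg x = -1 := if_neg (by rw [h]; exact lt_irrefl _)

theorem sg_add {x y : K0} (hx : vz x ≤ 1) (hy : vz y ≤ 1) : sg (x + y) = sg x * sg y := by
  have key : ∀ x y : K0, vz x < 1 → vz y = 1 → vz (x + y) = 1 := by
    intro x y h1 h2
    rw [add_comm, vz, Valuation.map_add_eq_of_lt_left _ (by rw [vz] at h1 h2; rw [h2]; exact h1)]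
    exact h2
  rcases lt_or_eq_of_le hx with h1 | h1
  · rcases lt_or_eq_of_le hy with h2 | h2
    · rw [sg_small h1, sg_small h2, sg_small (vz_add_lt h1 h2), one_mul]
    · rw [sg_small h1, sg_unit h2, sg_unit (key x y h1 h2), one_mul]
  · rcases lt_or_eq_of_le hy with h2 | h2
    · rw [sg_unit h1, sg_small h2, add_comm, sg_unit (key y x h2 h1), mul_one]
    · have h3 := (residue0 hx).resolve_left (by rw [h1]; exact lt_irrefl _)
      have h4 := (residue0 hy).resolve_left (by rw [h2]; exact lt_irrefl _)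
      have h5 : vz (x + y) < 1 := by
        have h6 : (2 : K0) = 0 := by
          have := congrArg e0 (CharTwo.two_eq_zero (R := K))
          rwa [map_ofNat, map_zero] at this
        have e : x + y = (x - 1) + (y - 1) := by
          have : (x - 1) + (y - 1) = x + y - 2 := by ring
          rw [this, h6, sub_zero]
        rw [e]
        exact vz_add_lt h3 h4
      rw [sg_unit h1, sg_unit h2, sg_small h5]
      norm_num

theorem sg_mul_unit {u : K0} (hu : vz u = 1) (x : K0) : sg (u * x) = sg x := by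
  unfold sg
  rw [vz_mul, hu, one_mul]

theorem mul_lt_one_right {a b : WithZero (Multiplicative ℤ)} (ha : a ≤ 1) (hb : b < 1) : a * b < 1 := by
  rw [mul_comm]
  exact mul_lt_one_of_lt_of_le hb ha

/-- the level structure: integral matrices which are upper triangular modulo `T` -/
def U0 : Subgroup Gfin where
  carrier := {k | k ∈ Khat ∧ vz (proj v0 (k.1 1 0)) < 1}
  mul_mem' := by
    rintro k l ⟨hk, hk'⟩ ⟨hl, hl'⟩
    refine ⟨Khat.mul_mem hk hl, ?_⟩
    rw [mul_apply_two, map_add, map_mul, map_mul]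
    refine vz_add_lt ?_ ?_
    · rw [vz_mul]
      exact mul_lt_one_of_lt_of_le hk' (hl.1 _ _ v0)
    · rw [vz_mul]
      exact mul_lt_one_right (hk.1 _ _ v0) hl'
  one_mem' := by
    refine ⟨Khat.one_mem, ?_⟩
    have : (1 : Gfin).1 1 0 = 0 := by simp
    rw [this, map_zero, vz_zero]
    exact zero_lt_one
  inv_mem' := by
    rintro k ⟨hk, hk'⟩
    refine ⟨Khat.inv_mem hk, ?_⟩
    by_contra hcon
    have h1 : vz (proj v0 (k⁻¹.1 1 0)) = 1 := le_antisymm (hk.2 1 0 v0) (not_lt.1 hcon)
    have e1 : (k * k⁻¹).1 1 0 = 0 := by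
      rw [mul_inv_cancel]
      simp
    have e2 : (k * k⁻¹).1 1 1 = 1 := by
      rw [mul_inv_cancel]
      simp
    rw [mul_apply_two] at e1 e2
    have f1 := congrArg (proj v0) e1
    have f2 := congrArg (proj v0) e2
    rw [map_add, map_mul, map_mul, map_zero] at f1
    rw [map_add, map_mul, map_mul, map_one] at f2
    have h2 : vz (proj v0 (k.1 1 1)) < 1 := by
      have h3 : proj v0 (k.1 1 1) * proj v0 (k⁻¹.1 1 0) = -(proj v0 (k.1 1 0) * proj v0 (k⁻¹.1 0 0)) :=
        (neg_eq_of_add_eq_zero_right f1).symm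
      have h4 := congrArg vz h3
      rw [vz_mul, h1, mul_one, vz_neg, vz_mul] at h4
      rw [h4]
      exact mul_lt_one_of_lt_of_le hk' (hk.2 0 0 v0)
    have h5 : vz (1 : K0) < 1 := by
      rw [← f2]
      refine vz_add_lt ?_ ?_
      · rw [vz_mul]
        exact mul_lt_one_of_lt_of_le hk' (hk.2 0 1 v0)
      · rw [vz_mul]
        exact mul_lt_one_of_lt_of_le h2 (hk.2 1 1 v0)
    rw [vz_one] at h5
    exact lt_irrefl _ h5

theorem mem_U0 {k : Gfin} : k ∈ U0 ↔ k ∈ Khat ∧ vz (proj v0 (k.1 1 0)) < 1 := Iff.rfl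

theorem U0_diag {k : Gfin} (hk : k ∈ U0) : vz (proj v0 (k.1 0 0)) = 1 ∧ vz (proj v0 (k.1 1 1)) = 1 := by
  have hki := U0.inv_mem hk
  constructor
  · apply le_antisymm (hk.1.1 0 0 v0)
    by_contra hcon
    rw [not_le] at hcon
    have e1 : (k⁻¹ * k).1 0 0 = 1 := by
      rw [inv_mul_cancel]
      simp
    rw [mul_apply_two] at e1
    have f1 := congrArg (proj v0) e1
    rw [map_add, map_mul, map_mul, map_one] at f1
    have h5 : vz (1 : K0) < 1 := by
      rw [← f1]
      refine vz_add_lt ?_ ?_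
      · rw [vz_mul]
        exact mul_lt_one_right (hk.1.2 0 0 v0) hcon
      · rw [vz_mul]
        exact mul_lt_one_right (hk.1.2 0 1 v0) hk.2
    rw [vz_one] at h5
    exact lt_irrefl _ h5
  · apply le_antisymm (hk.1.1 1 1 v0)
    by_contra hcon
    rw [not_le] at hcon
    have e1 : (k * k⁻¹).1 1 1 = 1 := by
      rw [mul_inv_cancel]
      simp
    rw [mul_apply_two] at e1
    have f1 := congrArg (proj v0) e1
    rw [map_add, map_mul, map_mul, map_one] at f1
    have h5 : vz (1 : K0) < 1 := by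
      rw [← f1]
      refine vz_add_lt ?_ ?_
      · rw [vz_mul]
        exact mul_lt_one_of_lt_of_le hk.2 (hk.1.2 0 1 v0)
      · rw [vz_mul]
        exact mul_lt_one_of_lt_of_le hcon (hk.1.2 1 1 v0)
    rw [vz_one] at h5
    exact lt_irrefl _ h5

/-- the character of the level structure -/
def ps (k : Gfin) : ℂ := sg (proj v0 (k.1 0 1)) * sg (proj v0 (k.1 1 0) / T0)

theorem div_T0 {x : K0} (h : vz x < 1) : vz (x / T0) ≤ 1 := by
  rw [vz, map_div₀]
  change vz x / vz T0 ≤ 1
  rw [vz_T0, div_le_one₀ exp_pos]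
  rcases eq_or_ne (vz x) 0 with h0 | h0
  · rw [h0]
    exact zero_le
  rw [← exp_log h0] at h ⊢
  rw [← exp_zero, exp_lt_exp] at h
  rw [exp_le_exp]
  omega

theorem ps_mul {k l : Gfin} (hk : k ∈ U0) (hl : l ∈ U0) : ps (k * l) = ps k * ps l := by
  obtain ⟨k0, k1⟩ := U0_diag hk
  obtain ⟨l0, l1⟩ := U0_diag hl
  have h1 : sg (proj v0 ((k * l).1 0 1)) = sg (proj v0 (k.1 0 1)) * sg (proj v0 (l.1 0 1)) := by
    rw [mul_apply_two, map_add, map_mul, map_mul, sg_add, sg_mul_unit k0, mul_comm (proj v0 (k.1 0 1)),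
      sg_mul_unit l1, mul_comm]
    · rw [vz_mul]
      exact mul_le_one' (hk.1.1 0 0 v0) (hl.1.1 0 1 v0)
    · rw [vz_mul]
      exact mul_le_one' (hk.1.1 0 1 v0) (hl.1.1 1 1 v0)
  have h2 : sg (proj v0 ((k * l).1 1 0) / T0) = sg (proj v0 (k.1 1 0) / T0) * sg (proj v0 (l.1 1 0) / T0) := by
    have e : proj v0 ((k * l).1 1 0) / T0 = proj v0 (l.1 0 0) * (proj v0 (k.1 1 0) / T0) +
      proj v0 (k.1 1 1) * (proj v0 (l.1 1 0) / T0) := by
      rw [mul_apply_two, map_add, map_mul, map_mul]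
      ring
    rw [e, sg_add, sg_mul_unit l0, sg_mul_unit k1]
    · rw [vz_mul, l0, one_mul]
      exact div_T0 hk.2
    · rw [vz_mul, k1, one_mul]
      exact div_T0 hl.2
  unfold ps
  rw [h1, h2]
  ring

theorem ps_one : ps 1 = 1 := by
  unfold ps
  have h1 : (1 : Gfin).1 0 1 = 0 := by simp
  have h2 : (1 : Gfin).1 1 0 = 0 := by simp
  rw [h1, h2, map_zero, zero_div, sg_small (by rw [vz_zero]; exact zero_lt_one), one_mul]

theorem ps_ne {k : Gfin} (hk : k ∈ U0) : ps k ≠ 0 := by
  intro h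
  have h1 := ps_mul hk (U0.inv_mem hk)
  rw [mul_inv_cancel, ps_one, h, zero_mul] at h1
  exact one_ne_zero h1

open Classical in
/-- the extension by zero of the character -/
def P0 (k : Gfin) : ℂ := if k ∈ U0 then ps k else 0

theorem P0_left {u : Gfin} (hu : u ∈ U0) (k : Gfin) : P0 (u * k) = ps u * P0 k := by
  unfold P0
  by_cases hk : k ∈ U0
  · rw [if_pos hk, if_pos (U0.mul_mem hu hk), ps_mul hu hk]
  · rw [if_neg hk, if_neg (fun h => hk ((Subgroup.mul_mem_cancel_left U0 hu).1 h)), mul_zero]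

theorem P0_right {u : Gfin} (hu : u ∈ U0) (k : Gfin) : P0 (k * u) = ps u * P0 k := by
  unfold P0
  by_cases hk : k ∈ U0
  · rw [if_pos hk, if_pos (U0.mul_mem hk hu), ps_mul hk hu, mul_comm]
  · rw [if_neg hk, if_neg (fun h => hk ((Subgroup.mul_mem_cancel_right U0 hu).1 h)), mul_zero]

theorem P0_one : P0 1 = 1 := by
  unfold P0
  rw [if_pos U0.one_mem, ps_one]

end

end Pool.Agent.X290
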