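import Pool.Agent.X290.Base

/-!
# Automorphic representations of `GL(2)` over the function field `K = F₂(T)`

The basic notions of the theory of automorphic representations of `GL₂` over the global field `K = F₂(T)`:
adeles, automorphic forms and cusp forms, automorphic and cuspidal representations, local components, Hecke
characters, Langlands sums (isobaric representations) and global liftings for the standard representation of the
dual group `GL₂(ℂ)`.
-/

set_option autoImplicit false

namespace Pool.Agent.X290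

open Polynomial IsDedekindDomain Representation

noncomputable section

/-! ### The global field, its completions and adeles -/

/-- the adele ring `𝔸` of `K` -/
abbrev Adele : Type := Kinf × Afin

/-- `GL₂(𝔸) = GL₂(K_∞) × GL₂(𝔸^∞)` -/
abbrev GA : Type := GL (Fin 2) Kinf × GL (Fin 2) Afin

/-- the diagonal embedding `GL₂(K) → GL₂(𝔸)` -/
def diag : GL (Fin 2) K →* GA :=
  (Matrix.GeneralLinearGroup.map (algebraMap K Kinf)).prod (Matrix.GeneralLinearGroup.map (algebraMap K Afin))

/-- the places of `K`: `none` is `∞`, the others are the nonzero primes of `F₂[T]` -/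
abbrev Place : Type := Option (HeightOneSpectrum (ZMod 2)[X])

/-- the projection `𝔸^∞ → K_v` -/
def proj (v : HeightOneSpectrum (ZMod 2)[X]) : Afin →+* v.adicCompletion K where
  toFun x := x v
  map_one' := rfl
  map_mul' _ _ := rfl
  map_zero' := rfl
  map_add' _ _ := rfl

/-- the subgroup `GL₂(K_v)` of `GL₂(𝔸)`, `v` a place: all components outside `v` are trivial -/
def localGroup : Place → Subgroup GA
  | none => (MonoidHom.snd (GL (Fin 2) Kinf) (GL (Fin 2) Afin)).ker
  | some v => (MonoidHom.fst (GL (Fin 2) Kinf) (GL (Fin 2) Afin)).ker ⊓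
      ⨅ w : {w // w ≠ v}, ((Matrix.GeneralLinearGroup.map (proj w.1)).comp
        (MonoidHom.snd (GL (Fin 2) Kinf) (GL (Fin 2) Afin))).ker

/-- `g` and `g⁻¹` have integral entries -/
def IntegralMat {F : Type} [Field F] (v : Valuation F (WithZero (Multiplicative ℤ))) (g : GL (Fin 2) F) : Prop :=
  (∀ i j, v (g.1 i j) ≤ 1) ∧ ∀ i j, v (g⁻¹.1 i j) ≤ 1

/-- the component of `g` at `v` lies in `GL₂(O_v)` -/
def IntegralAt (g : GA) : Place → Prop
  | none => IntegralMat Valued.v g.1
  | some v => IntegralMat Valued.v (Matrix.GeneralLinearGroup.map (proj v) g.2)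

/-! ### Smooth representations -/

/-- `σ` is the local component of `π` along `i : H → GL₂(𝔸)`: the restriction of `π` to `H` is a direct sum of
copies of `σ`. (If `π = ⊗ π_v` and `H = GL₂(K_v)`, this says that `π_v` is isomorphic to `σ`.) -/
def IsComponent {H : Type} [Group H] [TopologicalSpace H] (i : H →* GA) (σ : Irrep H) (π : Irrep GA) : Prop :=
  ∃ J : Type, Nonempty (Representation.Equiv (π.ρ.comp i) (σ.ρ.finsupp J))

/-- `π` and `τ` have isomorphic local components at the place `v` (every irreducible smooth representation of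
`GL₂(𝔸)` has exactly one local component at `v`, up to isomorphism) -/
def SameComponent (v : Place) (π τ : Irrep GA) : Prop :=
  ∀ σ : Irrep (localGroup v), IsComponent (localGroup v).subtype σ π ↔ IsComponent (localGroup v).subtype σ τ

/-- `π_v` is unramified: there is a nonzero vector fixed by `GL₂(O_v)` -/
def UnramifiedAt (v : Place) (π : Irrep GA) : Prop :=
  ∃ x : π.V, x ≠ 0 ∧ ∀ g ∈ localGroup v, IntegralAt g v → π.ρ g x = x

/-! ### Automorphic representations -/

/-- the right regular representation on all functions on `GL₂(𝔸)` -/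
def rightReg : Representation ℂ GA (GA → ℂ) where
  toFun h := { toFun := fun φ g => φ (g * h), map_add' := fun _ _ => rfl, map_smul' := fun _ _ => rfl }
  map_one' := by ext φ g; simp
  map_mul' h₁ h₂ := by ext φ g; simp [mul_assoc]

/-- the functions which are fixed by the elements of `U` -/
def fixedBy (U : Set GA) : Submodule ℂ (GA → ℂ) where
  carrier := {φ | ∀ u ∈ U, rightReg u φ = φ}
  add_mem' ha hb u hu := by rw [map_add, ha u hu, hb u hu]
  zero_mem' u _ := map_zero _
  smul_mem' c x hx u hu := by rw [map_smul, hx u hu]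

/-- automorphic forms on `GL₂(𝔸)` (Borel, Jacquet): left `GL₂(K)`-invariant, right invariant under an open subgroup,
and for some place `v` the representation of `GL₂(K_v)` generated by `φ` is admissible -/
def IsAutomorphicForm (φ : GA → ℂ) : Prop :=
  (∀ (γ : GL (Fin 2) K) (g : GA), φ (diag γ * g) = φ g) ∧
  (∃ U : Subgroup GA, IsOpen (U : Set GA) ∧ φ ∈ fixedBy U) ∧
  ∃ v : Place, ∀ U : Subgroup GA, IsOpen (U : Set GA) →
    FiniteDimensional ℂ ↥(Submodule.span ℂ {ψ | ∃ h ∈ localGroup v, ψ = rightReg h φ} ⊓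
      fixedBy {u | u ∈ U ∧ u ∈ localGroup v})

instance : MeasurableSpace (Adele ⧸ Kdiag) := borel _

instance : BorelSpace (Adele ⧸ Kdiag) := ⟨rfl⟩

/-- cusp forms: automorphic forms all of whose constant terms `∫_{K \ 𝔸} φ((1 x; 0 1) g) dx` vanish; here `F` is the
function `x ↦ φ((1 x; 0 1) g)` on the compact group `𝔸 / K` and `μ` a Haar measure -/
def IsCuspForm (φ : GA → ℂ) : Prop :=
  IsAutomorphicForm φ ∧ ∀ (g : GA) (F : Adele ⧸ Kdiag → ℂ),
    (∀ x : Adele, F (QuotientAddGroup.mk x) = φ ((unip x.1, unip x.2) * g)) →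
    ∀ (μ : MeasureTheory.Measure (Adele ⧸ Kdiag)) [μ.IsAddHaarMeasure], ∫ x, F x ∂μ = 0

/-- automorphic representations: the irreducible subquotients of the space of automorphic forms -/
def IsAutomorphic (π : Irrep GA) : Prop :=
  ∃ (V : Subrepresentation rightReg) (q : V.toRepresentation.IntertwiningMap π.ρ),
    (∀ φ ∈ V, IsAutomorphicForm φ) ∧ Function.Surjective q

/-- cuspidal automorphic representations: the irreducible subquotients of the space of cusp forms -/
def IsCuspidal (π : Irrep GA) : Prop :=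
  ∃ (V : Subrepresentation rightReg) (q : V.toRepresentation.IntertwiningMap π.ρ),
    (∀ φ ∈ V, IsCuspForm φ) ∧ Function.Surjective q

/-! ### Isobaric representations -/

/-- the ideles of `K` -/
abbrev Idele : Type := Kinfˣ × Afinˣ

/-- the absolute value `|x| = ∏_v |x_v|_v` of an idele -/
def absIdele (x : Idele) : ℝ :=
  (2 : ℝ) ^ (WithZero.log (Valued.v (x.1 : Kinf)) : ℤ) *
    ∏ᶠ v : HeightOneSpectrum (ZMod 2)[X],
      (Nat.card ((ZMod 2)[X] ⧸ v.asIdeal) : ℝ) ^ (WithZero.log (Valued.v ((x.2 : Afin) v)) : ℤ)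

/-- Hecke characters of `K`, i.e. the (cuspidal) automorphic representations of `GL₁` -/
def IsHecke (χ : Idele →* ℂˣ) : Prop :=
  Continuous χ ∧ ∀ a : Kˣ, χ (Units.map (algebraMap K Kinf).toMonoidHom a,
    Units.map (algebraMap K Afin).toMonoidHom a) = 1

/-- `f` lies in the space of the representation of `GL₂(𝔸)` induced (normalized) from the character
`(a *; 0 d) ↦ χ(a) χ'(d)` of the Borel subgroup -/
def InInduced (χ χ' : Idele →* ℂˣ) (f : GA → ℂ) : Prop :=
  (∃ U : Subgroup GA, IsOpen (U : Set GA) ∧ f ∈ fixedBy U) ∧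
  ∀ (b g : GA) (a d : Idele), b.1.1 0 0 = a.1 → b.1.1 1 0 = 0 → b.1.1 1 1 = d.1 →
    b.2.1 0 0 = a.2 → b.2.1 1 0 = 0 → b.2.1 1 1 = d.2 →
    f (b * g) = χ a * χ' d * ((absIdele a / absIdele d) ^ (1 / 2 : ℝ) : ℝ) * f g

/-- the Langlands sum `χ₁ ⊞ χ₂` of two Hecke characters with `|χ_i| = |.|^{s_i}`, `s₁ ≥ s₂`: all the local components
are the Langlands quotients, i.e. `π` is the unique irreducible subrepresentation of the representation induced
from `(χ₂, χ₁)` -/
def IsLanglandsSum (χ₁ χ₂ : Idele →* ℂˣ) (π : Irrep GA) : Prop :=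
  ∃ s₁ s₂ : ℝ, s₂ ≤ s₁ ∧ (∀ x, ‖(χ₁ x : ℂ)‖ = absIdele x ^ s₁) ∧ (∀ x, ‖(χ₂ x : ℂ)‖ = absIdele x ^ s₂) ∧
  ∃ j : π.ρ.IntertwiningMap rightReg, Function.Injective j ∧ ∀ x, InInduced χ₂ χ₁ (j x)

/-- isobaric automorphic representations `Π₁ ⊞ ... ⊞ Π_r` of `GL₂(𝔸)`: the cuspidal ones (`r = 1`) and the Langlands
sums of two Hecke characters (`r = 2`) -/
def IsIsobaric (π : Irrep GA) : Prop :=
  IsAutomorphic π ∧ (IsCuspidal π ∨ ∃ χ₁ χ₂ : Idele →* ℂˣ, IsHecke χ₁ ∧ IsHecke χ₂ ∧ IsLanglandsSum χ₁ χ₂ π)

/-- `τ` is the global lifting of `π` for the group `GL₂` and the standard representation of its dual group `GL₂(ℂ)`: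
`τ` is isobaric and `τ_v ≅ π_v` at all places at which `π_v` is unramified -/
def IsGlobalLifting (π τ : Irrep GA) : Prop :=
  IsIsobaric τ ∧ ∀ v : Place, UnramifiedAt v π → SameComponent v π τ

/-- the inclusion of `GL₂(K_∞)` in `GL₂(𝔸)` -/
def inclInf : GL (Fin 2) Kinf →* GA := MonoidHom.inl _ _

end

end Pool.Agent.X290
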