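import Pool.Agent.X290.Gen

/-! The automorphic representation `St ⊗ 1` of `GL₂(𝔸)`. -/

set_option autoImplicit false

namespace Pool.Agent.X290

open Polynomial WithZero Matrix IsDedekindDomain Representation

noncomputable section

/-! ### the Eisenstein map -/

/-- the regularized Eisenstein series -/
def Eis : PF →ₗ[ℂ] (GA → ℂ) where
  toFun f g := lg g.2 (rP g.1 f)
  map_add' f f' := by
    funext g
    simp
  map_smul' c f := by
    funext g
    simp

theorem Eis_apply (f : PF) (g : GA) : Eis f g = lg g.2 (rP g.1 f) := rfl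

theorem Eis_equivar : Equivar Eis := by
  intro x f
  funext g
  rw [rightReg_apply, Eis_apply, Eis_apply, ← Module.End.mul_apply, ← map_mul]
  have e1 : (g * inclInf x).1 = g.1 * x := rfl
  have e2 : (g * inclInf x).2 = g.2 := mul_one _
  rw [e1, e2]

theorem Eis_left (f : PF) (γ : GL (Fin 2) K) (g : GA) : Eis f (diag γ * g) = Eis f g := by
  rw [Eis_apply, Eis_apply, diag_eq]
  change lg (gF γ * g.2) (rP (gK γ * g.1) f) = _
  rw [map_mul, Module.End.mul_apply, lg_gF]

theorem Oh_open : IsOpen (Oh : Set Afin) := by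
  have h := RestrictedProduct.isOpen_forall_mem (R := fun v : HS => v.adicCompletion K)
    (A := fun v : HS => (v.adicCompletionIntegers K : Set (v.adicCompletion K)))
    (fun v => Valued.isOpen_valuationSubring _)
  exact h

theorem Khat_open : IsOpen (Khat : Set Gfin) := by
  have e : (Khat : Set Gfin) = (⋂ i : Fin 2, ⋂ j : Fin 2, {k : Gfin | k.1 i j ∈ Oh}) ∩
      ⋂ i : Fin 2, ⋂ j : Fin 2, {k : Gfin | k⁻¹.1 i j ∈ Oh} := by
    ext k
    simp only [Set.mem_inter_iff, Set.mem_iInter]
    rfl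
  rw [e]
  refine IsOpen.inter (isOpen_iInter_of_finite fun i => isOpen_iInter_of_finite fun j => ?_)
    (isOpen_iInter_of_finite fun i => isOpen_iInter_of_finite fun j => ?_)
  · exact Oh_open.preimage (Units.continuous_val.matrix_elem i j)
  · exact Oh_open.preimage ((Units.continuous_val.comp continuous_inv).matrix_elem i j)

theorem Eis_smooth (f : PF) : Eis f ∈ smoothV := by
  obtain ⟨m, hm⟩ := exists_fix f
  refine ⟨(Kn m).prod Khat, (Kn_open m).prod Khat_open, ?_⟩
  rintro ⟨u, k⟩ ⟨hu, hk⟩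
  funext g
  rw [rightReg_apply, Eis_apply, Eis_apply]
  change lg (g.2 * k) (rP (g.1 * u) f) = _
  rw [lg_Khat hk, map_mul, Module.End.mul_apply, hm u hu]

/-- the sum map -/
def Sm : (Gfin →₀ PF) →ₗ[ℂ] PF := Finsupp.lsum ℂ fun _ => LinearMap.id

theorem Sm_single (h : Gfin) (f : PF) : Sm (Finsupp.single h f) = f := by simp [Sm]

theorem Sm_act (g : GA) (x : Gfin →₀ PF) : Sm (act g x) = rP g.1 (Sm x) := by
  induction x using Finsupp.induction_linear with
  | zero => simp
  | add x y hx hy => rw [map_add, map_add, map_add, map_add, hx, hy]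
  | single h f => rw [act_single, Sm_single, Sm_single]

/-- apply an operator to all the coordinates -/
def Lo (A : PF →ₗ[ℂ] PF) : (Gfin →₀ PF) →ₗ[ℂ] (Gfin →₀ PF) := Finsupp.mapRange.linearMap A

theorem Lo_apply (A : PF →ₗ[ℂ] PF) (x : Gfin →₀ PF) (h : Gfin) : Lo A x h = A (x h) := rfl

theorem Lo_single (A : PF →ₗ[ℂ] PF) (h : Gfin) (f : PF) : Lo A (Finsupp.single h f) = Finsupp.single h (A f) := by
  simp [Lo]

theorem Sm_Lo (A : PF →ₗ[ℂ] PF) (x : Gfin →₀ PF) : Sm (Lo A x) = A (Sm x) := by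
  induction x using Finsupp.induction_linear with
  | zero => simp
  | add x y hx hy => rw [map_add, map_add, map_add, map_add, hx, hy]
  | single h f => rw [Lo_single, Sm_single, Sm_single]

theorem Lo_rP (g : Ginf) (x : Gfin →₀ PF) : Lo (rP g) x = act (inclInf g) x := by
  induction x using Finsupp.induction_linear with
  | zero => simp
  | add x y hx hy => rw [map_add, map_add, hx, hy]
  | single h f =>
    rw [Lo_single, act_single]
    have : (inclInf g).2 * h = h := one_mul _
    rw [this]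
    rfl

theorem ker_act {x : Gfin →₀ PF} (hx : Psi Eis x = 0) (g : GA) : Psi Eis (act g x) = 0 := by
  rw [Psi_act Eis_equivar, hx, map_zero]

theorem ker_Lo_rP {x : Gfin →₀ PF} (hx : Psi Eis x = 0) (g : Ginf) : Psi Eis (Lo (rP g) x) = 0 := by
  rw [Lo_rP]
  exact ker_act hx _

theorem Lo_Av (n : ℕ) (x : Gfin →₀ PF) : Lo (Av n) x = ((pfin n).card : ℂ)⁻¹ •
    ∑ p ∈ pfin n, Lo (rP (unip (pol p * T ^ (-(n : ℤ))))) x := by
  apply Finsupp.ext
  intro h
  rw [Lo_apply, Finsupp.smul_apply, Finsupp.finsetSum_apply, Av, LinearMap.smul_apply, LinearMap.sum_apply]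
  rfl

theorem ker_Lo_Av {x : Gfin →₀ PF} (hx : Psi Eis x = 0) (n : ℕ) : Psi Eis (Lo (Av n) x) = 0 := by
  rw [Lo_Av, map_smul, map_sum, Finset.sum_eq_zero fun p _ => ker_Lo_rP hx _, smul_zero]

theorem B0_10 : B0.1 ![1, 0] = 1 := by
  rw [B0_apply, if_pos]
  simp [vi]

theorem B0_01 : B0.1 ![0, 1] = 0 := by
  rw [B0_apply, if_neg]
  simp [vi]

theorem row10 : (![1, 0] : Row) ≠ 0 := by
  intro h
  simpa using congrFun h 0

theorem row01 : (![0, 1] : Row) ≠ 0 := by
  intro h
  simpa using congrFun h 1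

theorem indep {a b c d : ℂ} (h : a • B0 + b • one0 = c • B0 + d • one0) : a = c ∧ b = d := by
  have h1 := congrArg (fun F : PF => F.1 ![0, 1]) h
  have h2 := congrArg (fun F : PF => F.1 ![1, 0]) h
  simp only [Submodule.coe_add, Submodule.coe_smul, Pi.add_apply, Pi.smul_apply, smul_eq_mul, B0_10, B0_01,
    one0_apply row10, one0_apply row01, mul_zero, mul_one, zero_add] at h1 h2
  exact ⟨by linear_combination h2 - h1, h1⟩

/-- **the key fact**: the relations between the Eisenstein series -/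
theorem Eis_key {x : Gfin →₀ PF} (hx : Psi Eis x = 0) : Sm x ∈ Submodule.span ℂ {one0} := by
  classical
  by_contra hnot
  set W : Submodule ℂ PF := (LinearMap.ker (Psi Eis)).map Sm ⊔ Submodule.span ℂ {one0} with hW
  have hstab : ∀ g, ∀ f ∈ W, rP g f ∈ W := by
    intro g f hf
    rw [hW, Submodule.mem_sup] at hf ⊢
    obtain ⟨_, ⟨z, hz, rfl⟩, w, hw, rfl⟩ := hf
    rw [Submodule.mem_span_singleton] at hw
    obtain ⟨c, rfl⟩ := hw
    refine ⟨Sm (act (inclInf g) z), ⟨_, ker_act hz _, rfl⟩, c • one0,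
      Submodule.smul_mem _ _ (Submodule.mem_span_singleton_self _), ?_⟩
    rw [Sm_act, map_add, map_smul, rP_one0]
    rfl
  have hone : one0 ∈ W := Submodule.mem_sup_right (Submodule.mem_span_singleton_self _)
  have htop := eq_top_of_nonconst hstab hone (f := Sm x) (Submodule.mem_sup_left ⟨x, hx, rfl⟩) hnot
  have hB : B0 ∈ W := by
    rw [htop]
    trivial
  rw [hW, Submodule.mem_sup] at hB
  obtain ⟨_, ⟨z, hz, rfl⟩, w, hw, hBe⟩ := hB
  rw [Submodule.mem_span_singleton] at hw
  obtain ⟨c, rfl⟩ := hw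
  have hz0 : Psi Eis z = 0 := hz
  -- the levels
  choose l₁ hl₁ using fun h : Gfin => exists_level (z h)
  set n := z.support.sup l₁ with hn
  have hlev₁ : ∀ h, Level (z h) n := by
    intro h
    by_cases hh : h ∈ z.support
    · exact (hl₁ h).mono (Finset.le_sup (f := l₁) hh)
    · rw [Finsupp.notMem_support_iff.1 hh]
      exact ⟨fun _ _ _ => rfl, fun _ _ _ => rfl⟩
  choose l₂ hl₂ using fun h : Gfin => exists_level (rP om⁻¹ (Av n (z h)))
  set n' := z.support.sup l₂ with hn'
  have hlev₂ : ∀ h, Level (rP om⁻¹ (Av n (z h))) n' := by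
    intro h
    by_cases hh : h ∈ z.support
    · exact (hl₂ h).mono (Finset.le_sup (f := l₂) hh)
    · rw [Finsupp.notMem_support_iff.1 hh, map_zero, map_zero]
      exact ⟨fun _ _ _ => rfl, fun _ _ _ => rfl⟩
  set y := Lo (Av n') (Lo (rP om⁻¹) (Lo (Av n) z)) with hy
  have hy0 : Psi Eis y = 0 := ker_Lo_Av (ker_Lo_rP (ker_Lo_Av hz0 n) _) n'
  have hyh : ∀ h, y h = Av n' (rP om⁻¹ (Av n (z h))) := fun h => rfl
  choose α β hαβ using fun h => two_averages (hlev₁ h) (hlev₂ h)
  have hsupp : y.support ⊆ z.support := by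
    intro h hh
    rw [Finsupp.mem_support_iff] at hh ⊢
    intro h0
    apply hh
    rw [hyh, h0, map_zero, map_zero, map_zero]
  -- the sum
  have hS : Sm y = -B0 + (1 - c) • one0 := by
    rw [hy, Sm_Lo, Sm_Lo, Sm_Lo]
    have e : Sm z = B0 - c • one0 := eq_sub_of_add_eq hBe
    rw [e, map_sub, map_sub, map_sub, map_smul, map_smul, map_smul, two_averages_B0, two_averages_one0]
    module
  have hS2 : Sm y = (∑ h ∈ z.support, α h) • B0 + (∑ h ∈ z.support, β h) • one0 := by
    have e : Sm y = ∑ h ∈ z.support, y h := by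
      rw [Sm, Finsupp.lsum_apply, Finsupp.sum_of_support_subset _ hsupp _ (by simp)]
      rfl
    rw [e, Finset.sum_congr rfl fun h _ => (hyh h).trans (hαβ h), Finset.sum_add_distrib, Finset.sum_smul,
      Finset.sum_smul]
  obtain ⟨hα, hβ⟩ := indep (a := -1) (b := 1 - c) (c := ∑ h ∈ z.support, α h) (d := ∑ h ∈ z.support, β h) (by
    rw [← hS2, hS]
    module)
  -- the values
  have hval : ∀ g : Ginf, ∑ h ∈ z.support, α h * lg h (rP g B0) = -∑ h ∈ z.support, β h := by
    intro g
    have h1 := congrFun hy0 (g, 1)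
    have h2 : Psi Eis y = ∑ h ∈ z.support, rightReg (inclFin h) (Eis (y h)) := by
      rw [Psi, Finsupp.lsum_apply, Finsupp.sum_of_support_subset _ hsupp _ (by simp)]
      rfl
    rw [h2, Finset.sum_apply] at h1
    have h3 : ∀ h ∈ z.support, rightReg (inclFin h) (Eis (y h)) (g, 1) = α h * lg h (rP g B0) + β h := by
      intro h _
      rw [rightReg_apply, Eis_apply]
      have e1 : (((g, 1) : GA) * inclFin h).1 = g := mul_one _
      have e2 : (((g, 1) : GA) * inclFin h).2 = h := one_mul _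
      rw [e1, e2, hyh, hαβ]
      simp only [map_add, map_smul, rP_one0, lg_one0, smul_eq_mul, mul_one]
    rw [Finset.sum_congr rfl h3, Finset.sum_add_distrib] at h1
    exact eq_neg_of_add_eq_zero_left h1
  have v1 := hval 1
  have vo := hval om
  have va := hval (gd 0 1)
  have vb := hval (gd (T ^ (-1 : ℤ)) 1)
  have hsplit : ∑ h ∈ z.support, α h * lg h (rP 1 B0) = ∑ h ∈ z.support, α h * lg h (rP (gd 0 1) B0) +
      ∑ h ∈ z.support, α h * lg h (rP (gd (T ^ (-1 : ℤ)) 1) B0) := by
    rw [← Finset.sum_add_distrib]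
    refine Finset.sum_congr rfl fun h _ => ?_
    rw [← mul_add, ← map_add, ← B0_split, map_one, Module.End.one_apply]
  have hsum : ∑ h ∈ z.support, α h * lg h (rP 1 B0) + ∑ h ∈ z.support, α h * lg h (rP om B0) =
      ∑ h ∈ z.support, α h := by
    rw [← Finset.sum_add_distrib]
    refine Finset.sum_congr rfl fun h _ => ?_
    rw [← mul_add, ← map_add, map_one, Module.End.one_apply, rP_om_B0, add_sub_cancel, lg_one0, mul_one]
  rw [v1, va, vb] at hsplit
  rw [v1, vo, ← hα] at hsum
  have hb0 : ∑ h ∈ z.support, β h = 0 := by linear_combination hsplit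
  rw [hb0] at hsum
  norm_num at hsum

/-! ### the Steinberg representation -/

theorem span_le (g : Ginf) : Submodule.span ℂ {one0} ≤ (Submodule.span ℂ {one0}).comap (rP g) := by
  rw [Submodule.span_le, Set.singleton_subset_iff]
  change rP g one0 ∈ Submodule.span ℂ {one0}
  rw [rP_one0]
  exact Submodule.mem_span_singleton_self _

/-- the space of the Steinberg representation -/
abbrev StV : Type := PF ⧸ Submodule.span ℂ {one0}

/-- the Steinberg representation of `GL₂(K_∞)` -/
def stR : Representation ℂ Ginf StV := rP.quotient _ span_le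

theorem stR_mk (g : Ginf) (f : PF) : stR g (Submodule.Quotient.mk f) = Submodule.Quotient.mk (rP g f) := rfl

theorem B0_notMem : B0 ∉ Submodule.span ℂ {one0} := by
  intro h
  rw [Submodule.mem_span_singleton] at h
  obtain ⟨c, hc⟩ := h
  have := indep (a := 0) (b := c) (c := 1) (d := 0) (by rw [zero_smul, zero_add, hc]; simp)
  exact zero_ne_one this.1

theorem mkB0_ne : (Submodule.Quotient.mk B0 : StV) ≠ 0 := by
  rw [Ne, Submodule.Quotient.mk_eq_zero]
  exact B0_notMem

theorem st_submodule {N : Submodule ℂ StV} (hN : ∀ g, ∀ x ∈ N, stR g x ∈ N) : N = ⊥ ∨ N = ⊤ := by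
  by_cases h : N = ⊥
  · exact Or.inl h
  right
  obtain ⟨x, hx, hx0⟩ := (Submodule.ne_bot_iff _).1 h
  obtain ⟨f, rfl⟩ := Submodule.Quotient.mk_surjective _ x
  have htop : N.comap (Submodule.mkQ (Submodule.span ℂ {one0})) = ⊤ := by
    refine eq_top_of_nonconst (f := f) ?_ ?_ hx ?_
    · intro g F hF
      exact hN g _ hF
    · change Submodule.Quotient.mk one0 ∈ N
      rw [(Submodule.Quotient.mk_eq_zero _).2 (Submodule.mem_span_singleton_self _)]
      exact N.zero_mem
    · intro hmem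
      exact hx0 ((Submodule.Quotient.mk_eq_zero _).2 hmem)
  rw [eq_top_iff]
  intro y _
  obtain ⟨F, rfl⟩ := Submodule.Quotient.mk_surjective _ y
  have : F ∈ N.comap (Submodule.mkQ (Submodule.span ℂ {one0})) := by
    rw [htop]
    trivial
  exact this

/-- a representation is irreducible if it is nonzero and has no proper stable subspaces -/
theorem irreducible_of {G V : Type} [Group G] [AddCommGroup V] [Module ℂ V] (ρ : Representation ℂ G V)
    (hne : ∃ x : V, x ≠ 0) (h : ∀ N : Submodule ℂ V, (∀ g, ∀ x ∈ N, ρ g x ∈ N) → N = ⊥ ∨ N = ⊤) :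
    ρ.IsIrreducible := by
  have hnt : Nontrivial (Subrepresentation ρ) := by
    refine ⟨⊥, ⊤, fun he => ?_⟩
    obtain ⟨x, hx⟩ := hne
    have h1 : x ∈ (⊤ : Subrepresentation ρ).toSubmodule := (Submodule.mem_top : x ∈ (⊤ : Submodule ℂ V))
    rw [← he] at h1
    exact hx ((Submodule.mem_bot ℂ).1 h1)
  exact
    { eq_bot_or_eq_top := fun N => by
        rcases h N.toSubmodule (fun g x hx => N.apply_mem_toSubmodule g hx) with h1 | h1
        · left
          exact Subrepresentation.toSubmodule_injective h1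
        · right
          exact Subrepresentation.toSubmodule_injective h1 }

theorem st_smooth (x : StV) : ∃ m : ℕ, ∀ g ∈ Kn m, stR g x = x := by
  obtain ⟨f, rfl⟩ := Submodule.Quotient.mk_surjective _ x
  obtain ⟨m, hm⟩ := exists_fix f
  exact ⟨m, fun g hg => by rw [stR_mk, hm g hg]⟩

/-- the Steinberg representation -/
def st : Irrep Ginf where
  V := StV
  ρ := stR
  irreducible := irreducible_of _ ⟨_, mkB0_ne⟩ fun _ h => st_submodule h
  smooth x := by
    obtain ⟨m, hm⟩ := st_smooth x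
    exact ⟨Kn m, Kn_open m, hm⟩

/-- the representation `St ⊗ 1` of `GL₂(𝔸)` -/
def piE : Irrep GA where
  V := StV
  ρ := stR.comp (MonoidHom.fst _ _)
  irreducible := irreducible_of _ ⟨_, mkB0_ne⟩ fun N h => st_submodule fun g x hx => h (inclInf g) x hx
  smooth x := by
    obtain ⟨m, hm⟩ := st_smooth x
    refine ⟨(Kn m).prod ⊤, (Kn_open m).prod isOpen_univ, ?_⟩
    rintro ⟨g, k⟩ ⟨hg, _⟩
    exact hm g hg

theorem qwd {x y : Gfin →₀ PF} (h : Psi Eis x = Psi Eis y) :
    (Submodule.Quotient.mk (Sm x) : StV) = Submodule.Quotient.mk (Sm y) := by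
  rw [Submodule.Quotient.eq, ← map_sub]
  apply Eis_key
  rw [map_sub, h, sub_self]

/-- a preimage of an Eisenstein series -/
def preE (φ : (VD Eis_equivar).toSubmodule) : Gfin →₀ PF := ((mem_VD Eis_equivar).1 φ.2).choose

theorem Psi_preE (φ : (VD Eis_equivar).toSubmodule) : Psi Eis (preE φ) = φ.1 :=
  ((mem_VD Eis_equivar).1 φ.2).choose_spec

/-- the quotient map from the space of Eisenstein series -/
def qE : (VD Eis_equivar).toSubmodule →ₗ[ℂ] StV where
  toFun φ := Submodule.Quotient.mk (Sm (preE φ))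
  map_add' φ ψ := by
    rw [← Submodule.Quotient.mk_add, ← map_add]
    apply qwd
    rw [map_add, Psi_preE, Psi_preE, Psi_preE]
    rfl
  map_smul' c φ := by
    rw [RingHom.id_apply, ← Submodule.Quotient.mk_smul, ← map_smul]
    apply qwd
    rw [map_smul, Psi_preE, Psi_preE]
    rfl

theorem qE_of {x : Gfin →₀ PF} {φ : (VD Eis_equivar).toSubmodule} (h : Psi Eis x = φ.1) :
    qE φ = Submodule.Quotient.mk (Sm x) := by
  change (Submodule.Quotient.mk (Sm (preE φ)) : StV) = _
  apply qwd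
  rw [Psi_preE, h]

theorem piE_automorphic : IsAutomorphic piE := by
  refine ⟨VD Eis_equivar, ⟨qE, ?_⟩, fun φ hφ => VD_automorphic Eis_equivar Eis_smooth Eis_left hφ, ?_⟩
  · intro g
    apply LinearMap.ext
    rintro ⟨φ, hφ⟩
    obtain ⟨x, hx⟩ := (mem_VD Eis_equivar).1 hφ
    change qE ((VD Eis_equivar).toRepresentation g ⟨φ, hφ⟩) = stR g.1 (qE ⟨φ, hφ⟩)
    rw [qE_of (φ := ⟨φ, hφ⟩) hx, qE_of (x := act g x), Sm_act]
    · rfl
    · rw [Psi_act Eis_equivar, hx]
      rfl
  · intro y
    obtain ⟨f, rfl⟩ := Submodule.Quotient.mk_surjective _ y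
    refine ⟨⟨Psi Eis (Finsupp.single 1 f), ⟨_, rfl⟩⟩, ?_⟩
    change qE ⟨Psi Eis (Finsupp.single 1 f), _⟩ = _
    rw [qE_of (x := Finsupp.single 1 f) rfl, Sm_single]

theorem isComponent_of {H : Type} [Group H] [TopologicalSpace H] {i : H →* GA} {σ : Irrep H} {π : Irrep GA}
    (e : π.V ≃ₗ[ℂ] σ.V) (he : ∀ g x, e (π.ρ (i g) x) = σ.ρ g (e x)) : IsComponent i σ π := by
  let s : σ.V ≃ₗ[ℂ] (Unit →₀ σ.V) := LinearEquiv.ofLinearMap (Finsupp.lsingle ()) (Finsupp.lapply ())
    (by
      apply Finsupp.lhom_ext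
      intro a b
      simp) (by
      ext x
      simp)
  have hs : ∀ x, s x = Finsupp.single () x := fun _ => rfl
  refine ⟨Unit, ⟨Representation.Equiv.mk (e.trans s) ?_⟩⟩
  intro g
  apply LinearMap.ext
  intro x
  change s (e (π.ρ (i g) x)) = σ.ρ.finsupp Unit g (s (e x))
  rw [hs, hs, Representation.finsupp_single, he]

theorem piE_component : IsComponent inclInf st piE :=
  isComponent_of (LinearEquiv.refl ℂ StV) fun _ _ => rfl

end

end Pool.Agent.X290
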