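import Pool.Agent.X290.Lat

/-! The regularized number of lattice vectors as a distribution on the projective line. -/

set_option autoImplicit false

namespace Pool.Agent.X290

open Polynomial WithZero Matrix

noncomputable section

open Classical in
/-- `f` restricted to the ball `|ξ g| ≤ 1` -/
def PhiB (g : Ginf) (f : PF) (ξ : Row) : ℂ := if nrm (ξ ᵥ* g.1) ≤ 1 then f.1 ξ else 0

theorem nrm_vecMul_inv (g : Ginf) : ∃ C : ℕ, ∀ ξ : Row, nrm ξ ≤ exp (C : ℤ) * nrm (ξ ᵥ* g.1) := by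
  obtain ⟨C, hC⟩ := nrm_vecMul g⁻¹
  refine ⟨C, fun ξ => ?_⟩
  have := hC (ξ ᵥ* g.1)
  rw [Matrix.vecMul_vecMul] at this
  have e : g.1 * g⁻¹.1 = 1 := g.mul_inv
  rwa [e, Matrix.vecMul_one] at this

theorem PhiB_bdd (g : Ginf) : ∃ M : ℕ, ∀ (f : PF) (ξ : Row), PhiB g f ξ ≠ 0 → nrm ξ < exp (M : ℤ) := by
  obtain ⟨C, hC⟩ := nrm_vecMul_inv g
  refine ⟨C + 1, fun f ξ h => ?_⟩
  have h1 : nrm (ξ ᵥ* g.1) ≤ 1 := by
    by_contra hc
    exact h (by rw [PhiB, if_neg hc])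
  refine lt_of_le_of_lt ((hC ξ).trans (mul_le_mul_right h1 _)) ?_
  rw [mul_one, exp_lt_exp]
  push_cast
  omega

theorem Sch_diff (g h : Ginf) (f : PF) : Sch (fun ξ => PhiB g f ξ - PhiB h f ξ) := by
  classical
  constructor
  · obtain ⟨hf0, hf1, m, hf2⟩ := f.2
    obtain ⟨A, hA⟩ := nrm_vecMul g
    obtain ⟨B, hB⟩ := nrm_vecMul h
    obtain ⟨A', hA'⟩ := nrm_vecMul_inv g
    obtain ⟨B', hB'⟩ := nrm_vecMul_inv h
    refine ⟨m + 2 * A + 2 * B + A' + B', fun ξ η hlt => ?_⟩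
    -- near zero both indicator functions are one
    by_cases hs : nrm ξ ≤ exp (-((A + B : ℕ) : ℤ))
    · have hη : nrm η ≤ exp (-((A + B : ℕ) : ℤ)) := by
        have e : η = ξ + -(ξ - η) := by abel
        rw [e]
        refine (nrm_add_le _ _).trans (max_le hs ?_)
        rw [nrm_neg]
        refine hlt.le.trans ?_
        rw [exp_le_exp]
        push_cast
        omega
      have key : ∀ ζ : Row, nrm ζ ≤ exp (-((A + B : ℕ) : ℤ)) → PhiB g f ζ - PhiB h f ζ = 0 := by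
        intro ζ hζ
        have h1 : nrm (ζ ᵥ* g.1) ≤ 1 := by
          refine (hA ζ).trans ((mul_le_mul_right hζ _).trans ?_)
          rw [← exp_add, ← exp_zero, exp_le_exp]
          push_cast
          omega
        have h2 : nrm (ζ ᵥ* h.1) ≤ 1 := by
          refine (hB ζ).trans ((mul_le_mul_right hζ _).trans ?_)
          rw [← exp_add, ← exp_zero, exp_le_exp]
          push_cast
          omega
        rw [PhiB, PhiB, if_pos h1, if_pos h2, sub_self]
      rw [key ξ hs, key η hη]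
    · rw [not_le] at hs
      have hfe : f.1 η = f.1 ξ := by
        apply hf2
        refine lt_of_lt_of_le hlt ?_
        refine le_trans ?_ (mul_le_mul_right hs.le _)
        rw [← exp_add, exp_le_exp]
        push_cast
        omega
      have key : ∀ (g' : Ginf) (D D' : ℕ), (∀ ζ : Row, nrm (ζ ᵥ* g'.1) ≤ exp (D : ℤ) * nrm ζ) →
          (∀ ζ : Row, nrm ζ ≤ exp (D' : ℤ) * nrm (ζ ᵥ* g'.1)) → D + D' ≤ A + B + A' + B' →
          nrm (η ᵥ* g'.1) = nrm (ξ ᵥ* g'.1) := by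
        intro g' D D' hD hD' hle
        apply nrm_eq_of_sub_lt
        rw [← Matrix.sub_vecMul]
        refine lt_of_le_of_lt (hD _) ?_
        have h1 : exp (-((A + B : ℕ) : ℤ)) < exp (D' : ℤ) * nrm (ξ ᵥ* g'.1) := lt_of_lt_of_le hs (hD' ξ)
        have h2 : exp (-((A + B + D' : ℕ) : ℤ)) < nrm (ξ ᵥ* g'.1) := by
          have h3 := mul_lt_mul_of_pos_left h1 (exp_pos (a := -(D' : ℤ)))
          rw [← mul_assoc, ← exp_add, ← exp_add, neg_add_cancel, exp_zero, one_mul] at h3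
          refine lt_of_le_of_lt (le_of_eq ?_) h3
          congr 1
          push_cast
          ring
        refine lt_trans ?_ h2
        have h4 := mul_lt_mul_of_pos_left hlt (exp_pos (a := (D : ℤ)))
        refine lt_of_lt_of_le h4 ?_
        rw [← exp_add, exp_le_exp]
        push_cast
        omega
      have kg := key g A A' hA hA' (by omega)
      have kh := key h B B' hB hB' (by omega)
      simp only [PhiB, kg, kh, hfe]
  · obtain ⟨M, hM⟩ := PhiB_bdd g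
    obtain ⟨N, hN⟩ := PhiB_bdd h
    refine ⟨M + N, fun ξ hξ => ?_⟩
    by_cases h1 : PhiB g f ξ = 0
    · have h2 : PhiB h f ξ ≠ 0 := by
        intro h2
        exact hξ (by simp only [h1, h2, sub_self])
      refine lt_of_lt_of_le (hN f ξ h2) ?_
      rw [exp_le_exp]
      push_cast
      omega
    · refine lt_of_lt_of_le (hM f ξ h1) ?_
      rw [exp_le_exp]
      push_cast
      omega

/-- the number of lattice vectors in the balls, weighted with `f` -/
def NJ (L : Submodule (ZMod 2)[X] (Fin 2 → K)) (g : Ginf) (f : PF) (J : ℕ) : ℂ := SJ L (PhiB g f) J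

theorem SJ_sub {L : Submodule (ZMod 2)[X] (Fin 2 → K)} (hL : IsLat L) (g h : Ginf) (f : PF) (J : ℕ) :
    SJ L (fun ξ => PhiB g f ξ - PhiB h f ξ) J = NJ L g f J - NJ L h f J := by
  obtain ⟨M, hM⟩ := PhiB_bdd g
  obtain ⟨N, hN⟩ := PhiB_bdd h
  exact finsum_sub_distrib (finite_support hL (hM f) J) (finite_support hL (hN f) J)

theorem NJ_add {L : Submodule (ZMod 2)[X] (Fin 2 → K)} (hL : IsLat L) (g : Ginf) (f f' : PF) (J : ℕ) :
    NJ L g (f + f') J = NJ L g f J + NJ L g f' J := by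
  obtain ⟨M, hM⟩ := PhiB_bdd g
  unfold NJ SJ
  rw [← finsum_add_distrib (finite_support hL (hM f) J) (finite_support hL (hM f') J)]
  refine finsum_congr fun ξ => ?_
  unfold PhiB
  split_ifs
  · rfl
  · simp

theorem NJ_smul {L : Submodule (ZMod 2)[X] (Fin 2 → K)} (hL : IsLat L) (g : Ginf) (c : ℂ) (f : PF) (J : ℕ) :
    NJ L g (c • f) J = c * NJ L g f J := by
  obtain ⟨M, hM⟩ := PhiB_bdd g
  unfold NJ SJ
  rw [← smul_eq_mul, smul_finsum' _ (finite_support hL (hM f) J)]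
  refine finsum_congr fun ξ => ?_
  unfold PhiB
  split_ifs
  · rfl
  · simp

/-- the scalar matrix `T⁻¹` -/
def scT : Ginf := dg Tu⁻¹ Tu⁻¹

theorem scT_row (ξ : Row) : ξ ᵥ* scT.1 = T ^ (-1 : ℤ) • ξ := by
  ext i
  rw [vecMul_two]
  have hT : (Tu : Kinf) = T := rfl
  fin_cases i <;> simp [scT, dg, mul_comm, hT]

theorem NJ_succ (L : Submodule (ZMod 2)[X] (Fin 2 → K)) (f : PF) (J : ℕ) :
    NJ L 1 f (J + 1) = NJ L scT f J := by
  unfold NJ SJ
  refine finsum_congr fun ξ => ?_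
  have e : T ^ (-((J + 1 : ℕ) : ℤ)) • io ξ.1 = T ^ (-1 : ℤ) • (T ^ (-(J : ℤ)) • io ξ.1) := by
    rw [smul_smul, ← zpow_add₀ T_ne]
    congr 2
    push_cast
    ring
  rw [e]
  unfold PhiB
  rw [scT_row]
  have e1 : ∀ ζ : Row, ζ ᵥ* (1 : Ginf).1 = ζ := fun ζ => by simp
  rw [e1, f.2.2.1 _ _ (zpow_ne_zero _ T_ne)]

/-- `z` is the eventual value of `N_{J+1} - c N_J` -/
def IsVal (L : Submodule (ZMod 2)[X] (Fin 2 → K)) (f : PF) (z : ℂ) : Prop :=
  ∃ J₀ : ℕ, ∀ J : ℕ, J₀ ≤ J → NJ L 1 f (J + 1) - cX L * NJ L 1 f J = z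

theorem IsVal.unique {L : Submodule (ZMod 2)[X] (Fin 2 → K)} {f : PF} {z w : ℂ} (hz : IsVal L f z)
    (hw : IsVal L f w) : z = w := by
  obtain ⟨J₁, h₁⟩ := hz
  obtain ⟨J₂, h₂⟩ := hw
  rw [← h₁ (max J₁ J₂) (le_max_left _ _), ← h₂ (max J₁ J₂) (le_max_right _ _)]

theorem exists_val {L : Submodule (ZMod 2)[X] (Fin 2 → K)} (hL : IsLat L) (f : PF) : ∃ z, IsVal L f z := by
  obtain ⟨J₀, hJ₀⟩ := SJ_succ hL (Sch_diff scT 1 f)
  refine ⟨NJ L 1 f (J₀ + 1) - cX L * NJ L 1 f J₀, J₀, fun J hJ => ?_⟩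
  induction J, hJ using Nat.le_induction with
  | base => rfl
  | succ J hJ ih =>
    rw [← ih]
    have h1 := hJ₀ J hJ
    rw [SJ_sub hL, SJ_sub hL, ← NJ_succ, ← NJ_succ] at h1
    linear_combination h1

open Classical in
/-- the regularized number of lattice vectors, normalized -/
def ell (L : Submodule (ZMod 2)[X] (Fin 2 → K)) : PF →ₗ[ℂ] ℂ :=
  if hL : IsLat L then
    { toFun := fun f => ((cX L : ℂ) - 1)⁻¹ * (exists_val hL f).choose
      map_add' := fun f f' => by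
        rw [← mul_add]
        congr 1
        refine (exists_val hL (f + f')).choose_spec.unique ?_
        obtain ⟨J₁, h₁⟩ := (exists_val hL f).choose_spec
        obtain ⟨J₂, h₂⟩ := (exists_val hL f').choose_spec
        refine ⟨max J₁ J₂, fun J hJ => ?_⟩
        rw [NJ_add hL, NJ_add hL, ← h₁ J (le_of_max_le_left hJ), ← h₂ J (le_of_max_le_right hJ)]
        ring
      map_smul' := fun c f => by
        rw [RingHom.id_apply, smul_eq_mul, mul_left_comm]
        congr 1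
        refine (exists_val hL (c • f)).choose_spec.unique ?_
        obtain ⟨J₁, h₁⟩ := (exists_val hL f).choose_spec
        refine ⟨J₁, fun J hJ => ?_⟩
        rw [NJ_smul hL, NJ_smul hL, ← h₁ J hJ]
        ring }
  else 0

theorem ell_eq {L : Submodule (ZMod 2)[X] (Fin 2 → K)} (hL : IsLat L) {f : PF} {z : ℂ} (hz : IsVal L f z) :
    ell L f = ((cX L : ℂ) - 1)⁻¹ * z := by
  unfold ell
  rw [dif_pos hL]
  change ((cX L : ℂ) - 1)⁻¹ * (exists_val hL f).choose = _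
  rw [(exists_val hL f).choose_spec.unique hz]

theorem Sch_one (g : Ginf) : Sch (fun ξ => (open Classical in if nrm (ξ ᵥ* g.1) ≤ 1 then (1 : ℂ) else 0)) := by
  classical
  constructor
  · obtain ⟨A, hA⟩ := nrm_vecMul g
    refine ⟨A, fun ξ η h => ?_⟩
    have h1 : nrm ((ξ - η) ᵥ* g.1) ≤ 1 := by
      refine (hA _).trans ((mul_le_mul_right h.le _).trans ?_)
      rw [← exp_add, ← exp_zero, exp_le_exp]
      omega
    have h2 : nrm (η ᵥ* g.1) ≤ 1 ↔ nrm (ξ ᵥ* g.1) ≤ 1 := by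
      constructor
      · intro h3
        have e : ξ ᵥ* g.1 = η ᵥ* g.1 + (ξ - η) ᵥ* g.1 := by
          rw [Matrix.sub_vecMul]
          abel
        rw [e]
        exact (nrm_add_le _ _).trans (max_le h3 h1)
      · intro h3
        have e : η ᵥ* g.1 = ξ ᵥ* g.1 + -((ξ - η) ᵥ* g.1) := by
          rw [Matrix.sub_vecMul]
          abel
        rw [e]
        refine (nrm_add_le _ _).trans (max_le h3 ?_)
        rwa [nrm_neg]
    simp only [h2]
  · obtain ⟨C, hC⟩ := nrm_vecMul_inv g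
    refine ⟨C + 1, fun ξ h => ?_⟩
    have h1 : nrm (ξ ᵥ* g.1) ≤ 1 := by
      by_contra hc
      exact h (by simp only [if_neg hc])
    refine lt_of_le_of_lt ((hC ξ).trans (mul_le_mul_right h1 _)) ?_
    rw [mul_one, exp_lt_exp]
    push_cast
    omega

theorem one_row (ζ : Row) : ζ ᵥ* (1 : Ginf).1 = ζ := by simp

open Classical in
/-- the number of all lattice vectors in a ball -/
def MJ (L : Submodule (ZMod 2)[X] (Fin 2 → K)) (J : ℕ) : ℂ :=
  SJ L (fun ξ => if nrm (ξ ᵥ* (1 : Ginf).1) ≤ 1 then (1 : ℂ) else 0) J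

theorem NJ_one0 {L : Submodule (ZMod 2)[X] (Fin 2 → K)} (hL : IsLat L) (J : ℕ) : NJ L 1 one0 J = MJ L J - 1 := by
  classical
  have h1 : (1 : ℂ) = ∑ᶠ ξ : L, if ξ = 0 then (1 : ℂ) else 0 := by
    rw [finsum_eq_single _ (0 : L) (fun ξ hξ => if_neg hξ), if_pos rfl]
  obtain ⟨M, hM⟩ := (Sch_one 1).bdd
  unfold MJ
  have h2 : ∀ z : ℂ, z - 1 = z - ∑ᶠ ξ : L, if ξ = 0 then (1 : ℂ) else 0 := fun z => by rw [← h1]
  rw [h2, SJ, ← finsum_sub_distrib (finite_support hL hM J)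
    ((Set.finite_singleton (0 : L)).subset (by
      intro ξ hξ
      by_contra hc
      exact hξ (if_neg hc)))]
  refine finsum_congr fun ξ => ?_
  unfold PhiB
  by_cases h0 : ξ = 0
  · have e : T ^ (-(J : ℤ)) • io ξ.1 = 0 := by
      rw [h0]
      ext i
      simp [io]
    rw [e, one0.2.1]
    simp [h0, nrm_eq_zero.2]
  · have e : T ^ (-(J : ℤ)) • io ξ.1 ≠ 0 := by
      rw [smul_ne_zero_iff]
      refine ⟨zpow_ne_zero _ T_ne, fun h => h0 ?_⟩
      apply Subtype.ext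
      apply io_inj
      rw [h]
      ext i
      simp [io]
    rw [one0_apply e, if_neg h0, sub_zero]

theorem SJ_one_real {L : Submodule (ZMod 2)[X] (Fin 2 → K)} (hL : IsLat L) (J : ℕ) :
    MJ L J = (Nat.card {ξ : L // nrm (io ξ.1) ≤ exp (J : ℤ)} : ℂ) := by
  classical
  have hfin : {ξ : L | nrm (io ξ.1) ≤ exp (J : ℤ)}.Finite := by
    refine (finite_ball hL (J + 1)).subset fun ξ hξ => ?_
    have hξ' : nrm (io ξ.1) ≤ exp (J : ℤ) := hξ
    exact lt_of_le_of_lt hξ' (by rw [exp_lt_exp]; omega)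
  have h1 : ∀ ξ : L, nrm ((T ^ (-(J : ℤ)) • io ξ.1) ᵥ* (1 : Ginf).1) ≤ 1 ↔ nrm (io ξ.1) ≤ exp (J : ℤ) := by
    intro ξ
    rw [one_row, nrm_T_smul]
    constructor
    · intro h
      have := mul_le_mul_right h (exp (J : ℤ))
      rwa [← mul_assoc, ← exp_add, add_neg_cancel, exp_zero, one_mul, mul_one] at this
    · intro h
      have := mul_le_mul_right h (exp (-(J : ℤ)))
      rwa [← exp_add, neg_add_cancel, exp_zero] at this
  unfold MJ SJ
  simp only [h1]
  rw [finsum_eq_sum_of_support_subset (s := hfin.toFinset) _ (by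
    intro ξ hξ
    rw [Set.Finite.coe_toFinset]
    by_contra hc
    exact hξ (if_neg hc))]
  have h5 : ∀ ξ ∈ hfin.toFinset, (if nrm (io ξ.1) ≤ exp (J : ℤ) then (1 : ℂ) else 0) = 1 := fun ξ hξ =>
    if_pos ((Set.Finite.mem_toFinset _).1 hξ)
  rw [Finset.sum_congr rfl h5, Finset.sum_const, nsmul_eq_mul, mul_one]
  congr 1
  rw [← Set.ncard_eq_toFinset_card _ hfin]
  rfl

theorem cX_ne_one {L : Submodule (ZMod 2)[X] (Fin 2 → K)} (hL : IsLat L) : (cX L : ℂ) - 1 ≠ 0 := by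
  intro h
  obtain ⟨J₀, hJ₀⟩ := SJ_succ hL (Sch_one 1)
  have hstep : ∀ J, J₀ ≤ J → Nat.card {ξ : L // nrm (io ξ.1) ≤ exp ((J + 1 : ℕ) : ℤ)} =
      Nat.card {ξ : L // nrm (io ξ.1) ≤ exp (J : ℤ)} := by
    intro J hJ
    have h1 : MJ L (J + 1) = cX L * MJ L J := hJ₀ J hJ
    rw [sub_eq_zero.1 h, one_mul, SJ_one_real hL, SJ_one_real hL] at h1
    exact_mod_cast h1
  have hfin : ∀ J : ℕ, {ξ : L | nrm (io ξ.1) ≤ exp (J : ℤ)}.Finite := fun J => by
    refine (finite_ball hL (J + 1)).subset fun ξ hξ => ?_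
    have hξ' : nrm (io ξ.1) ≤ exp (J : ℤ) := hξ
    exact lt_of_le_of_lt hξ' (by rw [exp_lt_exp]; omega)
  have hmono : ∀ J, J₀ ≤ J → ∀ ξ : L, nrm (io ξ.1) ≤ exp (J : ℤ) → nrm (io ξ.1) ≤ exp (J₀ : ℤ) := by
    intro J hJ
    induction J, hJ using Nat.le_induction with
    | base => exact fun _ h => h
    | succ J hJ ih =>
      intro ξ hξ
      apply ih
      have hsub : {ξ : L | nrm (io ξ.1) ≤ exp (J : ℤ)} ⊆ {ξ : L | nrm (io ξ.1) ≤ exp ((J + 1 : ℕ) : ℤ)} := by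
        intro η hη
        have hη' : nrm (io η.1) ≤ exp (J : ℤ) := hη
        refine le_trans hη' ?_
        rw [exp_le_exp]
        push_cast
        omega
      have heq := Set.eq_of_subset_of_ncard_le hsub (by
        have := hstep J hJ
        exact le_of_eq this) (hfin _)
      have : ξ ∈ {ξ : L | nrm (io ξ.1) ≤ exp (J : ℤ)} := by
        rw [heq]
        exact hξ
      exact this
  obtain ⟨ξ, hξL, hξ0⟩ := (Submodule.ne_bot_iff _).1 hL.ne
  -- all the multiples `X^k ξ` are in the ball of radius `J₀`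
  have hn0 : nrm (io ξ) ≠ 0 := by
    rw [Ne, nrm_eq_zero]
    intro h0
    apply hξ0
    apply io_inj
    rw [h0]
    ext i
    simp [io]
  obtain ⟨k, hk⟩ := exists_exp_neg_natCast_lt hn0
  have h1 : ∀ j : ℕ, nrm (io ((X ^ j : (ZMod 2)[X]) • ξ)) = exp (j : ℤ) * nrm (io ξ) := by
    intro j
    induction j with
    | zero => simp
    | succ j ih =>
      have e : (X ^ (j + 1) : (ZMod 2)[X]) • ξ = (X : (ZMod 2)[X]) • ((X ^ j : (ZMod 2)[X]) • ξ) := by
        rw [smul_smul, pow_succ']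
      rw [e, io_X_smul, nrm_smul, ih, vi_T, ← mul_assoc, ← exp_add]
      congr 2
      push_cast
      ring
  set j := J₀ + 1 + k with hj
  obtain ⟨C, hC⟩ := exists_exp_ge (nrm (io ((X ^ j : (ZMod 2)[X]) • ξ)))
  have h2 := hmono (max C J₀) (le_max_right _ _) ⟨_, L.smul_mem (X ^ j : (ZMod 2)[X]) hξL⟩ (hC.trans (by
    rw [exp_le_exp]
    exact_mod_cast le_max_left _ _))
  change nrm (io ((X ^ j : (ZMod 2)[X]) • ξ)) ≤ _ at h2
  rw [h1] at h2
  have h3 := mul_lt_mul_of_pos_left hk (exp_pos (a := (j : ℤ)))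
  have h4 := lt_of_lt_of_le h3 h2
  rw [← exp_add, exp_lt_exp] at h4
  omega

theorem ell_one0 {L : Submodule (ZMod 2)[X] (Fin 2 → K)} (hL : IsLat L) : ell L one0 = 1 := by
  obtain ⟨J₀, hJ₀⟩ := SJ_succ hL (Sch_one 1)
  have : IsVal L one0 ((cX L : ℂ) - 1) := by
    refine ⟨J₀, fun J hJ => ?_⟩
    have h1 : MJ L (J + 1) = cX L * MJ L J := hJ₀ J hJ
    rw [NJ_one0 hL, NJ_one0 hL, h1]
    ring
  rw [ell_eq hL this, inv_mul_cancel₀ (cX_ne_one hL)]

end

end Pool.Agent.X290
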