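import Pool.Agent.X290.Ell

/-! Equivariance of the distribution of a lattice. -/

set_option autoImplicit false

namespace Pool.Agent.X290

open Polynomial WithZero Matrix

noncomputable section

/-- the image of `γ` in `GL₂(K_∞)` -/
def gK (γ : GL (Fin 2) K) : Ginf := Matrix.GeneralLinearGroup.map (algebraMap K Kinf) γ

theorem gK_apply (γ : GL (Fin 2) K) (i j : Fin 2) : (gK γ).1 i j = algebraMap K Kinf (γ.1 i j) := rfl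

theorem io_vecMul (γ : GL (Fin 2) K) (ξ : Fin 2 → K) : io (ξ ᵥ* γ.1) = io ξ ᵥ* (gK γ).1 := by
  ext i
  rw [vecMul_two]
  simp only [io, gK_apply, Matrix.vecMul, dotProduct, Fin.sum_univ_two, map_add, map_mul]

/-- the isomorphism of lattices given by `γ` -/
def latEquiv {L L' : Submodule (ZMod 2)[X] (Fin 2 → K)} {γ : GL (Fin 2) K}
    (h : ∀ ξ, ξ ∈ L' ↔ ξ ᵥ* γ.1 ∈ L) : L' ≃ₗ[(ZMod 2)[X]] L where
  toFun ξ := ⟨ξ.1 ᵥ* γ.1, (h _).1 ξ.2⟩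
  map_add' ξ η := Subtype.ext (by
    change (ξ.1 + η.1) ᵥ* γ.1 = ξ.1 ᵥ* γ.1 + η.1 ᵥ* γ.1
    exact Matrix.add_vecMul _ _ _)
  map_smul' c ξ := Subtype.ext (by
    change (c • ξ.1) ᵥ* γ.1 = c • (ξ.1 ᵥ* γ.1)
    exact Matrix.smul_vecMul _ _ _)
  invFun η := ⟨η.1 ᵥ* γ⁻¹.1, (h _).2 (by
    rw [Matrix.vecMul_vecMul]
    have e : γ⁻¹.1 * γ.1 = 1 := γ.inv_mul
    rw [e, Matrix.vecMul_one]
    exact η.2)⟩
  left_inv ξ := Subtype.ext (by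
    have e : γ.1 * γ⁻¹.1 = 1 := γ.mul_inv
    change (ξ.1 ᵥ* γ.1) ᵥ* γ⁻¹.1 = ξ.1
    rw [Matrix.vecMul_vecMul, e, Matrix.vecMul_one])
  right_inv ξ := Subtype.ext (by
    have e : γ⁻¹.1 * γ.1 = 1 := γ.inv_mul
    change (ξ.1 ᵥ* γ⁻¹.1) ᵥ* γ.1 = ξ.1
    rw [Matrix.vecMul_vecMul, e, Matrix.vecMul_one])

theorem latEquiv_coe {L L' : Submodule (ZMod 2)[X] (Fin 2 → K)} {γ : GL (Fin 2) K}
    (h : ∀ ξ, ξ ∈ L' ↔ ξ ᵥ* γ.1 ∈ L) (ξ : L') : (latEquiv h ξ).1 = ξ.1 ᵥ* γ.1 := rfl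

theorem cX_equiv {L L' : Submodule (ZMod 2)[X] (Fin 2 → K)} (e : L' ≃ₗ[(ZMod 2)[X]] L) : cX L' = cX L := by
  refine Nat.card_congr (Submodule.Quotient.equiv _ _ e ?_).toEquiv
  ext η
  rw [Submodule.mem_map]
  constructor
  · rintro ⟨_, ⟨ξ, rfl⟩, rfl⟩
    refine ⟨e ξ, ?_⟩
    change (X : (ZMod 2)[X]) • e ξ = e ((X : (ZMod 2)[X]) • ξ)
    rw [map_smul]
  · rintro ⟨ξ, rfl⟩
    refine ⟨(X : (ZMod 2)[X]) • e.symm ξ, ⟨e.symm ξ, rfl⟩, ?_⟩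
    change e ((X : (ZMod 2)[X]) • e.symm ξ) = (X : (ZMod 2)[X]) • ξ
    rw [map_smul, e.apply_symm_apply]

theorem NJ_equiv {L L' : Submodule (ZMod 2)[X] (Fin 2 → K)} {γ : GL (Fin 2) K}
    (h : ∀ ξ, ξ ∈ L' ↔ ξ ᵥ* γ.1 ∈ L) (f : PF) (J : ℕ) : NJ L' 1 (rP (gK γ) f) J = NJ L (gK γ)⁻¹ f J := by
  unfold NJ SJ
  refine finsum_eq_of_bijective (latEquiv h) (latEquiv h).bijective fun ξ => ?_
  have e0 : io (latEquiv h ξ).1 = io ξ.1 ᵥ* (gK γ).1 := by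
    rw [latEquiv_coe, io_vecMul]
  have e : (gK γ).1 * (gK γ)⁻¹.1 = 1 := (gK γ).mul_inv
  unfold PhiB
  rw [e0, ← Matrix.smul_vecMul, Matrix.vecMul_vecMul, e, Matrix.vecMul_one, one_row, rP_apply]

theorem IsVal_equiv {L L' : Submodule (ZMod 2)[X] (Fin 2 → K)} (hL : IsLat L) {γ : GL (Fin 2) K}
    (h : ∀ ξ, ξ ∈ L' ↔ ξ ᵥ* γ.1 ∈ L) {f : PF} {z : ℂ} (hz : IsVal L f z) : IsVal L' (rP (gK γ) f) z := by
  obtain ⟨J₁, h₁⟩ := hz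
  obtain ⟨J₂, h₂⟩ := SJ_succ hL (Sch_diff (gK γ)⁻¹ 1 f)
  refine ⟨max J₁ J₂, fun J hJ => ?_⟩
  have h3 := h₁ J (le_of_max_le_left hJ)
  have h4 := h₂ J (le_of_max_le_right hJ)
  rw [SJ_sub hL, SJ_sub hL] at h4
  rw [NJ_equiv h, NJ_equiv h, cX_equiv (latEquiv h), ← h3]
  linear_combination h4

theorem ell_equiv {L L' : Submodule (ZMod 2)[X] (Fin 2 → K)} (hL : IsLat L) (hL' : IsLat L') {γ : GL (Fin 2) K}
    (h : ∀ ξ, ξ ∈ L' ↔ ξ ᵥ* γ.1 ∈ L) (f : PF) : ell L' (rP (gK γ) f) = ell L f := by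
  obtain ⟨z, hz⟩ := exists_val hL f
  rw [ell_eq hL' (IsVal_equiv hL h hz), ell_eq hL hz, cX_equiv (latEquiv h)]

end

end Pool.Agent.X290
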