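import Mathlib

set_option autoImplicit false

/-!
# Euler products from Hecke recursions
-/

namespace Pool.Agent.X290.EulP

open Complex Filter Topology

/-- Hecke recursion -/
structure HRec (a : ℕ → ℂ) (c : ℕ → ℂ) : Prop where
  zero : c 0 = 0
  one : c 1 = 1
  hrec : ∀ p m : ℕ, p.Prime → 0 < m → c (p * m) = a p * c m - if p ∣ m then c (m / p) else 0
  bound : ∃ C : ℝ, 0 ≤ C ∧ ∀ n : ℕ, ‖c n‖ ≤ C * Real.sqrt n

variable {a c : ℕ → ℂ}

theorem HRec.mul (h : HRec a c) {m n : ℕ} (hmn : Nat.Coprime m n) : c (m * n) = c m * c n := by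
  rcases Nat.eq_zero_or_pos n with hn | hn
  · subst hn
    rw [Nat.coprime_zero_right] at hmn
    subst hmn
    simp [h.zero, h.one]
  induction m using Nat.strong_induction_on with
  | _ m ih =>
    rcases Nat.lt_or_ge m 2 with h2 | h2
    · interval_cases m
      · rw [Nat.coprime_zero_left] at hmn
        subst hmn
        simp [h.zero, h.one]
      · simp [h.one]
    · obtain ⟨p, hp, k, rfl⟩ := Nat.exists_prime_and_dvd (show m ≠ 1 by omega)
      have p0 := hp.pos
      have k0 : 0 < k := by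
        rcases Nat.eq_zero_or_pos k with h0 | h0
        · subst h0; omega
        · exact h0
      have hkn : Nat.Coprime k n := Nat.Coprime.coprime_mul_left hmn
      have hpn : Nat.Coprime p n := Nat.Coprime.coprime_mul_right hmn
      have hpn' : ¬ p ∣ n := (Nat.Prime.coprime_iff_not_dvd hp).mp hpn
      rw [mul_assoc, h.hrec p (k * n) hp (Nat.mul_pos k0 hn), h.hrec p k hp k0,
        ih k (by nlinarith [hp.two_le]) hkn]
      by_cases hd : p ∣ k
      · rw [if_pos hd, if_pos (Dvd.dvd.mul_right hd n)]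
        obtain ⟨l, rfl⟩ := hd
        rw [mul_assoc, Nat.mul_div_cancel_left _ p0, Nat.mul_div_cancel_left _ p0,
          ih l (by nlinarith [hp.two_le, Nat.pos_of_mul_pos_left k0 |> fun _ => k0])
            (Nat.Coprime.coprime_mul_left hkn)]
        ring
      · have hd' : ¬ p ∣ k * n := by
          rw [hp.dvd_mul]; tauto
        rw [if_neg hd, if_neg hd']
        ring

lemma HRec.pow_two_add (h : HRec a c) {p : ℕ} (hp : p.Prime) (e : ℕ) :
    c (p ^ (e + 2)) = a p * c (p ^ (e + 1)) - c (p ^ e) := by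
  have h1 := h.hrec p (p ^ (e + 1)) hp (pow_pos hp.pos _)
  rw [if_pos (dvd_pow_self p (by omega))] at h1
  rw [show p ^ (e + 2) = p * p ^ (e + 1) by ring, h1]
  congr 2
  rw [pow_succ, Nat.mul_div_cancel _ hp.pos]

lemma HRec.prime (h : HRec a c) {p : ℕ} (hp : p.Prime) : c p = a p := by
  have h1 := h.hrec p 1 hp one_pos
  rw [mul_one, h.one, if_neg (by simpa using hp.one_lt.ne'), mul_one, sub_zero] at h1
  exact h1

lemma tsum_pow (h : HRec a c) {p : ℕ} (hp : p.Prime) {x : ℂ}
    (hs : Summable fun e : ℕ => c (p ^ e) * x ^ e) :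
    ∑' e : ℕ, c (p ^ e) * x ^ e = (1 - a p * x + x ^ 2)⁻¹ := by
  set S := ∑' e : ℕ, c (p ^ e) * x ^ e with hS
  have hs1 : Summable fun e : ℕ => c (p ^ (e + 1)) * x ^ (e + 1) :=
    (summable_nat_add_iff (f := fun e : ℕ => c (p ^ e) * x ^ e) 1).mpr hs
  have e1 : S = 1 + ∑' e : ℕ, c (p ^ (e + 1)) * x ^ (e + 1) := by
    rw [hS, hs.tsum_eq_zero_add]
    simp [h.one]
  have e2 : ∑' e : ℕ, c (p ^ (e + 1)) * x ^ (e + 1)
      = a p * x + ∑' e : ℕ, c (p ^ (e + 2)) * x ^ (e + 2) := by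
    rw [hs1.tsum_eq_zero_add]
    simp [h.prime hp]
  have e3 : ∑' e : ℕ, c (p ^ (e + 2)) * x ^ (e + 2)
      = a p * x * (∑' e : ℕ, c (p ^ (e + 1)) * x ^ (e + 1)) - x ^ 2 * S := by
    rw [hS, ← tsum_mul_left, ← tsum_mul_left, ← (hs1.mul_left _).tsum_sub (hs.mul_left _)]
    refine tsum_congr fun e => ?_
    rw [h.pow_two_add hp e]
    ring
  have e4 : (∑' e : ℕ, c (p ^ (e + 1)) * x ^ (e + 1)) = S - 1 := by rw [e1]; ring
  have e5 : S * (1 - a p * x + x ^ 2) = 1 := by
    rw [e3, e4] at e2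
    linear_combination e2
  exact eq_inv_of_mul_eq_one_left e5

variable {q : ℕ}

/-- the terms of the twisted Dirichlet series -/
noncomputable def term (c : ℕ → ℂ) (χ : DirichletCharacter ℂ q) (s : ℂ) (n : ℕ) : ℂ :=
  χ (n : ZMod q) * c n * (n : ℂ) ^ (-s)

lemma norm_term_le {C : ℝ} (hC : ∀ n : ℕ, ‖c n‖ ≤ C * Real.sqrt n) (hC0 : 0 ≤ C)
    (χ : DirichletCharacter ℂ q) {s : ℂ} (n : ℕ) (h0 : c 0 = 0) :
    ‖term c χ s n‖ ≤ C * (n : ℝ) ^ (1 / 2 - s.re) := by
  rcases Nat.eq_zero_or_pos n with hn | hn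
  · subst hn
    simp only [term, h0, mul_zero, zero_mul, norm_zero]
    positivity
  · have hnR : (0 : ℝ) < n := by exact_mod_cast hn
    rw [term, norm_mul, norm_mul, Complex.norm_natCast_cpow_of_pos hn, Complex.neg_re]
    have h1 : ‖χ (n : ZMod q)‖ ≤ 1 := χ.norm_le_one _
    have h2 := hC n
    calc ‖χ (n : ZMod q)‖ * ‖c n‖ * (n : ℝ) ^ (-s.re)
        ≤ 1 * (C * Real.sqrt n) * (n : ℝ) ^ (-s.re) := by gcongr
      _ = C * (n : ℝ) ^ (1 / 2 - s.re) := by
        rw [Real.sqrt_eq_rpow, show (1 / 2 - s.re : ℝ) = 1 / 2 + -s.re by ring,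
          Real.rpow_add hnR]
        ring

lemma summable_term (h : HRec a c) (χ : DirichletCharacter ℂ q) {s : ℂ} (hs : 3 / 2 < s.re) :
    Summable fun n => ‖term c χ s n‖ := by
  obtain ⟨C, hC0, hC⟩ := h.bound
  refine Summable.of_nonneg_of_le (fun n => norm_nonneg _)
    (fun n => norm_term_le hC hC0 χ n h.zero) ?_
  exact (Real.summable_nat_rpow.mpr (by linarith)).mul_left C

/-- Euler product of the twisted Dirichlet series -/
theorem euler (h : HRec a c) (χ : DirichletCharacter ℂ q) {s : ℂ} (hs : 3 / 2 < s.re) :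
    HasProd (fun p : Nat.Primes => (1 - a p * (χ ((p : ℕ) : ZMod q) * ((p : ℕ) : ℂ) ^ (-s))
      + (χ ((p : ℕ) : ZMod q) * ((p : ℕ) : ℂ) ^ (-s)) ^ 2)⁻¹) (∑' n, term c χ s n) := by
  have hsum := summable_term h χ hs
  have key := EulerProduct.eulerProduct_hasProd (f := term c χ s) ?_ ?_ hsum
    (by simp [term, h.zero])
  · convert key using 2 with p
    have hp := p.2
    have e1 : ∀ e : ℕ, term c χ s ((p : ℕ) ^ e)
        = c ((p : ℕ) ^ e) * (χ ((p : ℕ) : ZMod q) * ((p : ℕ) : ℂ) ^ (-s)) ^ e := by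
      intro e
      rw [term]
      have e2 : (((p : ℕ) ^ e : ℕ) : ℂ) ^ (-s) = (((p : ℕ) : ℂ) ^ (-s)) ^ e := by
        clear * -
        induction e with
        | zero => simp
        | succ k ih =>
          rw [pow_succ, pow_succ, ← ih]
          push_cast
          have := natCast_mul_natCast_cpow ((p : ℕ) ^ k) (p : ℕ) (-s)
          push_cast at this
          exact this
      rw [e2]
      push_cast
      rw [map_pow, mul_pow]
      ring
    simp only [e1]
    refine (tsum_pow h hp ?_).symm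
    have h2 : Summable fun e : ℕ => term c χ s ((p : ℕ) ^ e) :=
      (hsum.of_norm).comp_injective (Nat.pow_right_injective hp.two_le)
    simpa only [e1] using h2
  · simp [term, h.one]
  · intro m n hmn
    simp only [term]
    rw [h.mul hmn]
    push_cast
    rw [map_mul, natCast_mul_natCast_cpow]
    ring

end Pool.Agent.X290.EulP
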