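import Pool.Agent.X290.Modu

set_option autoImplicit false

/-!
# Hecke operators on invariant functions
-/

namespace Pool.Agent.X290.HeckeOp

open UpperHalfPlane Set Filter Topology Modu
open scoped MatrixGroups

/-- the Hecke operator -/
noncomputable def Tp (p : ℕ) (f : ℂ → ℂ) (z : ℂ) : ℂ :=
  f ((p : ℂ) * z) + ∑ b ∈ Finset.range p, f ((z + (b : ℂ)) / (p : ℂ))

lemma sum_range_zmod {p : ℕ} [NeZero p] (g : ℕ → ℂ) :
    ∑ b ∈ Finset.range p, g b = ∑ u : ZMod p, g u.val := by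
  refine Finset.sum_nbij' (fun b => (b : ZMod p)) (fun u => u.val) ?_ ?_ ?_ ?_ ?_
  · intro b _; exact Finset.mem_univ _
  · intro u _; exact Finset.mem_range.mpr (ZMod.val_lt u)
  · intro b hb; exact ZMod.val_natCast_of_lt (Finset.mem_range.mp hb)
  · intro u _; exact ZMod.natCast_zmod_val u
  · intro b hb; rw [ZMod.val_natCast_of_lt (Finset.mem_range.mp hb)]

/-- integer periodicity on the upper half plane -/
def PerZ (f : ℂ → ℂ) : Prop := ∀ z : ℂ, 0 < z.im → ∀ n : ℤ, f (z + n) = f z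

variable {f : ℂ → ℂ}

lemma im_mul {t : ℝ} (ht : 0 < t) {z : ℂ} (hz : 0 < z.im) : 0 < ((t : ℂ) * z).im := by
  rw [Complex.im_ofReal_mul]; positivity

lemma im_div {p : ℕ} (hp : 0 < p) {z : ℂ} (hz : 0 < z.im) (t : ℤ) :
    0 < ((z + (t : ℂ)) / (p : ℂ)).im := by
  have hpR : (0 : ℝ) < p := by exact_mod_cast hp
  have : (z + (t : ℂ)) / (p : ℂ) = ((1 / p : ℝ) : ℂ) * (z + (t : ℂ)) := by
    push_cast; ring
  rw [this]
  apply im_mul (by positivity)
  simpa using hz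

lemma PerZ.cong (hf : PerZ f) {p : ℕ} (hp : 0 < p) {z : ℂ} (hz : 0 < z.im) {m n : ℤ}
    (h : (p : ℤ) ∣ m - n) : f ((z + (m : ℂ)) / (p : ℂ)) = f ((z + (n : ℂ)) / (p : ℂ)) := by
  obtain ⟨k, hk⟩ := h
  rw [← hf _ (im_div hp hz n) k]
  congr 1
  have hpC : (p : ℂ) ≠ 0 := by exact_mod_cast hp.ne'
  have hk' : (m : ℂ) = n + p * k := by
    have : m = n + p * k := by linarith
    rw [this]; push_cast; ring
  rw [hk']
  field_simp
  ring

lemma Tp_zmod (f : ℂ → ℂ) {p : ℕ} [NeZero p] (z : ℂ) :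
    Tp p f z = f ((p : ℂ) * z) + ∑ u : ZMod p, f ((z + ((u.val : ℤ) : ℂ)) / (p : ℂ)) := by
  unfold Tp
  rw [sum_range_zmod (fun b => f ((z + (b : ℂ)) / (p : ℂ)))]
  simp

lemma val_dvd {p : ℕ} [NeZero p] {m : ℤ} {u : ZMod p} (h : (m : ZMod p) = u) :
    (p : ℤ) ∣ m - (u.val : ℤ) := by
  rw [← ZMod.intCast_zmod_eq_zero_iff_dvd]
  push_cast
  rw [h, ZMod.natCast_zmod_val, sub_self]

lemma Tp_T (hf : PerZ f) {p : ℕ} (hp : 0 < p) {z : ℂ} (hz : 0 < z.im) :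
    Tp p f (z + 1) = Tp p f z := by
  have : NeZero p := ⟨hp.ne'⟩
  have hpR : (0 : ℝ) < p := by exact_mod_cast hp
  have hz1 : 0 < (z + 1).im := by simpa using hz
  rw [Tp_zmod, Tp_zmod]
  congr 1
  · rw [mul_add, mul_one]
    have := hf ((p : ℂ) * z) (by simpa using im_mul hpR hz) (p : ℤ)
    push_cast at this
    exact this
  · rw [← Equiv.sum_comp (Equiv.addRight (1 : ZMod p))
      (fun u : ZMod p => f ((z + ((u.val : ℤ) : ℂ)) / (p : ℂ)))]
    refine Finset.sum_congr rfl fun u _ => ?_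
    have h1 : z + 1 + ((u.val : ℤ) : ℂ) = z + (((u.val : ℤ) + 1 : ℤ) : ℂ) := by push_cast; ring
    rw [h1]
    refine hf.cong hp hz (val_dvd ?_)
    push_cast
    rw [ZMod.natCast_zmod_val, Equiv.coe_addRight]

lemma im_neg_inv {z : ℂ} (hz : 0 < z.im) : 0 < (-1 / z).im := by
  have hz0 : z ≠ 0 := by rintro rfl; simp at hz
  rw [neg_div, one_div, Complex.neg_im, Complex.inv_im, neg_div, neg_neg]
  have := Complex.normSq_pos.mpr hz0
  positivity

lemma Tp_S (hf : Inv f) {p : ℕ} [hp : Fact p.Prime] {z : ℂ} (hz : 0 < z.im) :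
    Tp p f (-1 / z) = Tp p f z := by
  have p0 := hp.out.pos
  have hpR : (0 : ℝ) < p := by exact_mod_cast p0
  have hpC : (p : ℂ) ≠ 0 := by exact_mod_cast p0.ne'
  have hz0 : z ≠ 0 := by rintro rfl; simp at hz
  have hper : PerZ f := fun z hz n => hf.add_int hz n
  rw [Tp_zmod, Tp_zmod, ← Finset.add_sum_erase _ _ (Finset.mem_univ (0 : ZMod p)),
    ← Finset.add_sum_erase (Finset.univ : Finset (ZMod p))
      (fun u : ZMod p => f ((z + ((u.val : ℤ) : ℂ)) / (p : ℂ))) (Finset.mem_univ (0 : ZMod p))]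
  have e1 : f ((p : ℂ) * (-1 / z)) = f ((z + (((0 : ZMod p).val : ℤ) : ℂ)) / (p : ℂ)) := by
    have h1 := hf.2 ((z + ((0 : ℤ) : ℂ)) / (p : ℂ)) (im_div p0 hz 0)
    rw [ZMod.val_zero, Nat.cast_zero, ← h1]
    congr 1
    simp only [Int.cast_zero, add_zero]
    field_simp
  have e2 : f ((-1 / z + (((0 : ZMod p).val : ℤ) : ℂ)) / (p : ℂ)) = f ((p : ℂ) * z) := by
    have h1 := hf.2 ((p : ℂ) * z) (by simpa using im_mul hpR hz)
    rw [ZMod.val_zero, Nat.cast_zero, ← h1]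
    congr 1
    push_cast
    field_simp
    ring
  have e3 : ∑ u ∈ Finset.univ.erase (0 : ZMod p), f ((-1 / z + ((u.val : ℤ) : ℂ)) / (p : ℂ))
      = ∑ u ∈ Finset.univ.erase (0 : ZMod p), f ((z + ((u.val : ℤ) : ℂ)) / (p : ℂ)) := by
    refine Finset.sum_nbij' (fun u => -u⁻¹) (fun u => -u⁻¹) ?_ ?_ ?_ ?_ ?_
    · intro u hu
      rw [Finset.mem_erase] at hu ⊢
      exact ⟨neg_ne_zero.mpr (inv_ne_zero hu.1), Finset.mem_univ _⟩
    · intro u hu
      rw [Finset.mem_erase] at hu ⊢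
      exact ⟨neg_ne_zero.mpr (inv_ne_zero hu.1), Finset.mem_univ _⟩
    · intro u _; rw [inv_neg, inv_inv, neg_neg]
    · intro u _; rw [inv_neg, inv_inv, neg_neg]
    · intro u hu
      rw [Finset.mem_erase] at hu
      have hd : (p : ℤ) ∣ ((u.val : ℕ) : ℤ) * (((-u⁻¹ : ZMod p).val : ℕ) : ℤ) + 1 := by
        rw [← ZMod.intCast_zmod_eq_zero_iff_dvd]
        push_cast
        rw [ZMod.natCast_zmod_val, ZMod.natCast_zmod_val, mul_neg, mul_inv_cancel₀ hu.1]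
        ring
      have hzp : 0 < (z / (p : ℂ)).im := by simpa using im_div p0 hz 0
      have h1 := hf.twist p0 hd hzp
      have h2 : ((-1 / z + ((u.val : ℤ) : ℂ)) / (p : ℂ))
          = (((u.val : ℕ) : ℤ) : ℂ) / p - 1 / ((p : ℂ) ^ 2 * (z / p)) := by
        field_simp
        ring
      have h3 : ((z + (((-u⁻¹ : ZMod p).val : ℤ) : ℂ)) / (p : ℂ))
          = z / p + (((-u⁻¹ : ZMod p).val : ℤ) : ℂ) / p := by ring
      rw [h2, h1, h3]
  rw [e1, e2, e3]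
  ring

theorem Tp_inv (hf : Inv f) {p : ℕ} (hp : p.Prime) : Inv (Tp p f) := by
  have : Fact p.Prime := ⟨hp⟩
  have hper : PerZ f := fun z hz n => hf.add_int hz n
  exact ⟨fun z hz => Tp_T hper hp.pos hz, fun z hz => Tp_S hf hz⟩

/-- oddness is preserved -/
theorem Tp_odd (hf : PerZ f) (hodd : ∀ z : ℂ, 0 < z.im → f (-(starRingEnd ℂ z)) = - f z) {p : ℕ}
    (hp : 0 < p) {z : ℂ} (hz : 0 < z.im) : Tp p f (-(starRingEnd ℂ z)) = - Tp p f z := by
  have : NeZero p := ⟨hp.ne'⟩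
  have hpR : (0 : ℝ) < p := by exact_mod_cast hp
  rw [Tp_zmod, Tp_zmod, neg_add]
  congr 1
  · rw [← hodd _ (by simpa using im_mul hpR hz)]
    congr 1
    simp
  · rw [← Equiv.sum_comp (Equiv.neg (ZMod p))
      (fun u : ZMod p => f ((z + ((u.val : ℤ) : ℂ)) / (p : ℂ))), ← Finset.sum_neg_distrib]
    refine Finset.sum_congr rfl fun u _ => ?_
    rw [Equiv.neg_apply]
    have h1 : f ((z + (((-u : ZMod p).val : ℤ) : ℂ)) / (p : ℂ))
        = f ((z + ((-(u.val : ℤ) : ℤ) : ℂ)) / (p : ℂ)) := by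
      symm
      refine hf.cong hp hz (val_dvd ?_)
      push_cast
      rw [ZMod.natCast_zmod_val]
    rw [h1, ← hodd _ (im_div hp hz _)]
    congr 1
    rw [map_div₀, map_add, map_intCast, map_natCast]
    push_cast
    ring

lemma sum_double (g : ℕ → ℂ) (p q : ℕ) :
    ∑ c ∈ Finset.range q, ∑ b ∈ Finset.range p, g (b + p * c) = ∑ n ∈ Finset.range (p * q), g n := by
  induction q with
  | zero => simp
  | succ q ih =>
    rw [Finset.sum_range_succ, ih, Nat.mul_succ, Finset.sum_range_add]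
    congr 1
    refine Finset.sum_congr rfl fun b _ => ?_
    rw [add_comm]

lemma sum_mul_unit (hf : PerZ f) {p q : ℕ} (hq : 0 < q) (hpq : Nat.Coprime p q) {z : ℂ}
    (hz : 0 < z.im) : ∑ c ∈ Finset.range q, f ((z + (((p * c : ℕ) : ℤ) : ℂ)) / (q : ℂ))
      = ∑ c ∈ Finset.range q, f ((z + ((c : ℤ) : ℂ)) / (q : ℂ)) := by
  have : NeZero q := ⟨hq.ne'⟩
  rw [sum_range_zmod (fun c => f ((z + (((p * c : ℕ) : ℤ) : ℂ)) / (q : ℂ))),
    sum_range_zmod (fun c => f ((z + ((c : ℤ) : ℂ)) / (q : ℂ)))]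
  set u0 : (ZMod q)ˣ := ZMod.unitOfCoprime p hpq
  rw [← Equiv.sum_comp (Units.mulLeft u0) (fun u : ZMod q => f ((z + ((u.val : ℤ) : ℂ)) / (q : ℂ)))]
  refine Finset.sum_congr rfl fun u _ => ?_
  refine hf.cong hq hz (val_dvd ?_)
  rw [Units.mulLeft_apply, ZMod.coe_unitOfCoprime]
  push_cast
  rw [ZMod.natCast_zmod_val]

/-- expansion of the composition -/
lemma Tp_Tp (hf : PerZ f) {p q : ℕ} (hp : 0 < p) (hq : 0 < q) (hpq : Nat.Coprime p q) {z : ℂ}
    (hz : 0 < z.im) :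
    Tp p (Tp q f) z = f (((p * q : ℕ) : ℂ) * z)
      + ∑ c ∈ Finset.range q, f (((p : ℂ) * z + ((c : ℤ) : ℂ)) / (q : ℂ))
      + ∑ b ∈ Finset.range p, f (((q : ℂ) * z + ((b : ℤ) : ℂ)) / (p : ℂ))
      + ∑ n ∈ Finset.range (p * q), f ((z + ((n : ℤ) : ℂ)) / ((p * q : ℕ) : ℂ)) := by
  have hpR : (0 : ℝ) < p := by exact_mod_cast hp
  have hqR : (0 : ℝ) < q := by exact_mod_cast hq
  have hpC : (p : ℂ) ≠ 0 := by exact_mod_cast hp.ne'
  have hqC : (q : ℂ) ≠ 0 := by exact_mod_cast hq.ne'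
  unfold Tp
  rw [Finset.sum_add_distrib]
  have e1 : (q : ℂ) * ((p : ℂ) * z) = ((p * q : ℕ) : ℂ) * z := by push_cast; ring
  have e2 : ∑ b ∈ Finset.range p, f ((q : ℂ) * ((z + (b : ℂ)) / (p : ℂ)))
      = ∑ b ∈ Finset.range p, f (((q : ℂ) * z + ((b : ℤ) : ℂ)) / (p : ℂ)) := by
    rw [← sum_mul_unit hf hp hpq.symm (by simpa using im_mul hqR hz)]
    refine Finset.sum_congr rfl fun b _ => ?_
    congr 1
    push_cast
    field_simp
  have e3 : ∑ b ∈ Finset.range p, ∑ c ∈ Finset.range q,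
      f (((z + (b : ℂ)) / (p : ℂ) + (c : ℂ)) / (q : ℂ))
      = ∑ n ∈ Finset.range (p * q), f ((z + ((n : ℤ) : ℂ)) / ((p * q : ℕ) : ℂ)) := by
    rw [← sum_double (fun n => f ((z + ((n : ℤ) : ℂ)) / ((p * q : ℕ) : ℂ))), Finset.sum_comm]
    refine Finset.sum_congr rfl fun c _ => Finset.sum_congr rfl fun b _ => ?_
    congr 1
    push_cast
    field_simp
    ring
  rw [e1, e2, e3]
  push_cast
  ring

/-- **Commutation of Hecke operators.** -/
theorem Tp_comm (hf : PerZ f) {p q : ℕ} (hp : p.Prime) (hq : q.Prime) {z : ℂ} (hz : 0 < z.im) :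
    Tp p (Tp q f) z = Tp q (Tp p f) z := by
  rcases eq_or_ne p q with rfl | hne
  · rfl
  · have hpq : Nat.Coprime p q := (Nat.coprime_primes hp hq).mpr hne
    rw [Tp_Tp hf hp.pos hq.pos hpq hz, Tp_Tp hf hq.pos hp.pos hpq.symm hz, mul_comm q p]
    ring

end Pool.Agent.X290.HeckeOp
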