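import Mathlib

set_option autoImplicit false

/-!
# Odd Hecke-Maass cusp forms of level one (classical definition)
-/

namespace Pool.Agent.X290

open Complex

/-- `OddHM f mu a` : the function `f` (on the upper half plane, seen inside `ℂ`) is an odd
Hecke-Maass cusp form for `SL₂(ℤ)`, of Laplace eigenvalue `mu`, whose eigenvalue under the
normalised Hecke operator `T_p` is `a p` for every prime `p`. An odd function has vanishing
constant term, and boundedness is the usual consequence of cuspidality. -/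
structure OddHM (f : ℂ → ℂ) (mu : ℂ) (a : ℕ → ℂ) : Prop where
  smooth : ContDiffOn ℝ (⊤ : ℕ∞) f {z : ℂ | 0 < z.im}
  T : ∀ z : ℂ, 0 < z.im → f (z + 1) = f z
  S : ∀ z : ℂ, 0 < z.im → f (-1 / z) = f z
  odd : ∀ z : ℂ, 0 < z.im → f (-(starRingEnd ℂ z)) = - f z
  lap : ∀ z : ℂ, 0 < z.im →
    -((z.im : ℂ) ^ 2) *
      (deriv (fun s : ℝ => deriv (fun t : ℝ => f ((t : ℂ) + (z.im : ℂ) * I)) s) z.re
        + deriv (fun s : ℝ => deriv (fun t : ℝ => f ((z.re : ℂ) + (t : ℂ) * I)) s) z.im)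
      = mu * f z
  bdd : ∃ B : ℝ, ∀ z : ℂ, 0 < z.im → ‖f z‖ ≤ B
  ne : ∃ z : ℂ, 0 < z.im ∧ f z ≠ 0
  hecke : ∀ p : ℕ, p.Prime → ∀ z : ℂ, 0 < z.im →
    f ((p : ℂ) * z) + ∑ b ∈ Finset.range p, f ((z + (b : ℂ)) / (p : ℂ))
      = (Real.sqrt p : ℂ) * a p * f z

end Pool.Agent.X290
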