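import Pool.Agent.X290.Ne
import Pool.Agent.X290.HeckeOp
import Pool.Agent.X290.Cev
import Pool.Agent.X290.MaassDef

set_option autoImplicit false

/-!
# Existence of odd Hecke-Maass forms of level one
-/

namespace Pool.Agent.X290.Exi

open UpperHalfPlane MeasureTheory Set Filter Topology ModularGroup Hyp Fd Ker Lap Bd Cpt Sp
open HeckeOp
open scoped MatrixGroups Modular
open Fou (Hs D)

/-- scaling -/
noncomputable def al (p : ℕ) [NeZero p] : GL (Fin 2) ℝ :=
  Matrix.GeneralLinearGroup.mkOfDetNeZero !![(p : ℝ), 0; 0, 1] (by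
    rw [Matrix.det_fin_two_of]; simpa using NeZero.ne p)

/-- the other coset representatives -/
noncomputable def be (p : ℕ) [NeZero p] (b : ℕ) : GL (Fin 2) ℝ :=
  Matrix.GeneralLinearGroup.mkOfDetNeZero !![1, (b : ℝ); 0, (p : ℝ)] (by
    rw [Matrix.det_fin_two_of]; simpa using NeZero.ne p)

variable {p : ℕ} [NeZero p]

lemma al_coe (z : ℍ) : ((al p • z : ℍ) : ℂ) = (p : ℂ) * z := by
  have hp : (0 : ℝ) < p := by exact_mod_cast Nat.pos_of_ne_zero (NeZero.ne p)
  have hv : (al p).val = !![(p : ℝ), 0; 0, 1] := rfl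
  have hd : 0 < (al p).det.val := by
    rw [Matrix.GeneralLinearGroup.val_det_apply, hv, Matrix.det_fin_two_of]
    simpa using hp
  rw [coe_smul_of_det_pos hd]
  simp [num, denom, hv]

lemma be_coe (b : ℕ) (z : ℍ) : ((be p b • z : ℍ) : ℂ) = ((z : ℂ) + b) / p := by
  have hp : (0 : ℝ) < p := by exact_mod_cast Nat.pos_of_ne_zero (NeZero.ne p)
  have hv : (be p b).val = !![1, (b : ℝ); 0, (p : ℝ)] := rfl
  have hd : 0 < (be p b).det.val := by
    rw [Matrix.GeneralLinearGroup.val_det_apply, hv, Matrix.det_fin_two_of]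
    simpa using hp
  rw [coe_smul_of_det_pos hd]
  simp [num, denom, hv]

/-- the Hecke operator on functions on `ℍ` -/
noncomputable def HT (p : ℕ) [NeZero p] (G : ℍ → ℂ) (z : ℍ) : ℂ :=
  G (al p • z) + ∑ b ∈ Finset.range p, G (be p b • z)

lemma HT_eq_Tp (G : ℍ → ℂ) (z : ℍ) : HT p G z = Tp p (fun z => G (ofComplex z)) z := by
  unfold HT Tp
  rw [← al_coe]
  beta_reduce
  rw [ofComplex_apply]
  congr 1
  refine Finset.sum_congr rfl fun b _ => ?_
  rw [← be_coe, ofComplex_apply]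

lemma Tp_congr {f g : ℂ → ℂ} (h : ∀ z : ℂ, 0 < z.im → f z = g z) {r : ℕ} (hr : 0 < r) {z : ℂ}
    (hz : 0 < z.im) : Tp r f z = Tp r g z := by
  have hrR : (0 : ℝ) < r := by exact_mod_cast hr
  unfold Tp
  rw [h _ (by simpa using im_mul hrR hz)]
  congr 1
  exact Finset.sum_congr rfl fun b _ => h _ (by simpa using im_div hr hz (b : ℤ))

variable {G : ℍ → ℂ}

lemma bm_smul (hG : BM G) (h : GL (Fin 2) ℝ) : BM fun w => G (h • w) := by
  obtain ⟨C, hC⟩ := hG.bdd
  exact ⟨hG.meas.comp (measurable_const_smul h), C, fun z => hC _⟩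

lemma HT_bm (hG : BM G) : BM (HT p G) := by
  obtain ⟨C, hC⟩ := hG.bdd
  refine ⟨?_, C + ∑ _b ∈ Finset.range p, C, fun z => ?_⟩
  · unfold HT
    exact (bm_smul hG _).meas.add (Finset.measurable_sum _ fun b _ => (bm_smul hG _).meas)
  · unfold HT
    refine (norm_add_le _ _).trans (add_le_add (hC _) ?_)
    exact (norm_sum_le _ _).trans (Finset.sum_le_sum fun b _ => hC _)

/-- integral operators commute with Hecke operators -/
lemma K_HT {ρ : ℝ → ℝ} (hρ : Rho ρ) (hG : BM G) (z : ℍ) : K ρ (HT p G) z = HT p (K ρ G) z := by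
  have h1 : K ρ (HT p G) z = K ρ (fun w => G (al p • w)) z
      + ∑ b ∈ Finset.range p, K ρ (fun w => G (be p b • w)) z := by
    unfold K HT
    rw [← integral_finsetSum _ fun b _ => hρ.integrable_mul (bm_smul hG (be p b)) z,
      ← integral_add (hρ.integrable_mul (bm_smul hG (al p)) z)
        (integrable_finsetSum _ fun b _ => hρ.integrable_mul (bm_smul hG (be p b)) z)]
    refine integral_congr_ae (Filter.Eventually.of_forall fun w => ?_)
    simp only
    rw [mul_add, Finset.mul_sum]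
  rw [h1, K_comp_smul]
  unfold HT
  congr 1
  exact Finset.sum_congr rfl fun b _ => K_comp_smul _ _ _ _

lemma invG_modu (h : InvG G) : Modu.Inv fun z => G (ofComplex z) := by
  constructor
  · intro z hz
    have h1 := h (cl T) ⟨z, hz⟩
    have hz1 : 0 < (z + 1).im := by simpa using hz
    rw [cl_smul] at h1
    simp only
    rw [ofComplex_apply_of_im_pos hz, ofComplex_apply_of_im_pos hz1, ← h1]
    congr 1
    ext1
    rw [modular_T_smul, coe_vadd, coe_mk]
    push_cast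
    ring
  · intro z hz
    have h1 := h (cl S) ⟨z, hz⟩
    rw [cl_smul] at h1
    simp only
    rw [ofComplex_apply_of_im_pos hz, ofComplex_apply_of_im_pos (im_neg_inv hz), ← h1]
    congr 1
    ext1
    rw [modular_S_smul, coe_mk, coe_mk, coe_mk]
    rw [neg_div, one_div, inv_neg]

lemma modu_invG {F : ℂ → ℂ} (h : Modu.Inv F) : InvG fun z : ℍ => F z := by
  intro g w
  obtain ⟨γ, rfl⟩ := exists_cl g
  exact h.smul γ w

lemma perZ_of (h : InvG G) : PerZ fun z => G (ofComplex z) := fun z hz n =>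
  (invG_modu h).add_int hz n

lemma odd_of (h : OddG G) {z : ℂ} (hz : 0 < z.im) :
    G (ofComplex (-(starRingEnd ℂ z))) = - G (ofComplex z) := by
  have hz1 : 0 < (-(starRingEnd ℂ z)).im := by simpa using hz
  rw [ofComplex_apply_of_im_pos hz, ofComplex_apply_of_im_pos hz1, ← h]
  congr 1
  ext1
  rw [coe_J_smul]

lemma HT_inv (hp : p.Prime) (h : InvG G) : InvG (HT p G) := by
  have h1 := modu_invG (Tp_inv (invG_modu h) hp)
  have h2 : HT p G = fun z : ℍ => Tp p (fun z => G (ofComplex z)) z := by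
    funext z; exact HT_eq_Tp G z
  rw [h2]; exact h1

lemma HT_odd (h : InvG G) (hodd : OddG G) : OddG (HT p G) := by
  intro w
  rw [HT_eq_Tp, HT_eq_Tp, coe_J_smul]
  exact Tp_odd (perZ_of h) (fun z hz => odd_of hodd hz) (Nat.pos_of_ne_zero (NeZero.ne p)) w.im_pos

variable {φ : ℝ → ℝ} {lam : ℂ}

lemma HT_mem (hφ : RhoS φ) (hp : p.Prime) (hG : G ∈ V φ lam) : HT p G ∈ V φ lam := by
  refine mem_V hφ (HT_bm hG.1) (HT_inv hp hG.2.1) (HT_odd hG.2.1 hG.2.2.1) fun z => ?_
  rw [K_HT hφ.rho hG.1]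
  unfold HT
  rw [(hG.2.2.2 _).2, mul_add, Finset.mul_sum]
  congr 1
  exact Finset.sum_congr rfl fun b _ => (hG.2.2.2 _).2

lemma K_inv {ρ : ℝ → ℝ} (h : InvG G) : InvG (K ρ G) := by
  intro g w
  obtain ⟨γ, rfl⟩ := exists_cl g
  rw [cl_smul, smul_eq_gl, ← K_comp_smul]
  congr 1
  funext z
  exact h (cl γ) z

lemma K_mem (hφ : RhoS φ) {ψ : ℝ → ℝ} (hψ : Rho ψ) (hG : G ∈ V φ lam) : K ψ G ∈ V φ lam := by
  refine mem_V hφ (K_bm hψ hG.1) (K_inv hG.2.1) (K_J hG.2.2.1) fun z => ?_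
  rw [K_comm φ ψ hφ.rho hψ hG.1]
  have : K φ G = fun z => lam * G z := by funext z; exact (hG.2.2.2 z).2
  rw [this]
  unfold K
  rw [← integral_const_mul]
  refine integral_congr_ae (Filter.Eventually.of_forall fun w => ?_)
  simp only
  ring

/-- Hecke operators on `V` -/
noncomputable def HTL (hφ : RhoS φ) (lam : ℂ) (p : {p : ℕ // p.Prime}) :
    Module.End ℂ (V φ lam) :=
  haveI : NeZero p.1 := ⟨p.2.ne_zero⟩
  { toFun := fun G => ⟨HT p.1 G, HT_mem hφ p.2 G.2⟩
    map_add' := fun F G => by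
      apply Subtype.ext
      funext z
      change HT p.1 ((F : ℍ → ℂ) + (G : ℍ → ℂ)) z = HT p.1 F z + HT p.1 G z
      simp only [HT, Pi.add_apply, Finset.sum_add_distrib]
      ring
    map_smul' := fun c F => by
      apply Subtype.ext
      funext z
      change HT p.1 (c • (F : ℍ → ℂ)) z = c • HT p.1 F z
      simp only [HT, Pi.smul_apply, smul_eq_mul, mul_add, Finset.mul_sum] }

/-- integral operators on `V` -/
noncomputable def KL (hφ : RhoS φ) (lam : ℂ) {ψ : ℝ → ℝ} (hψ : Rho ψ) :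
    Module.End ℂ (V φ lam) where
  toFun G := ⟨K ψ G, K_mem hφ hψ G.2⟩
  map_add' F G := by
    apply Subtype.ext
    funext z
    change K ψ ((F : ℍ → ℂ) + (G : ℍ → ℂ)) z = K ψ F z + K ψ G z
    unfold K
    rw [← integral_add (hψ.integrable_mul F.2.1 z) (hψ.integrable_mul G.2.1 z)]
    refine integral_congr_ae (Filter.Eventually.of_forall fun w => ?_)
    simp only [Pi.add_apply]
    ring
  map_smul' c F := by
    apply Subtype.ext
    funext z
    change K ψ (c • (F : ℍ → ℂ)) z = c • K ψ F z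
    unfold K
    rw [smul_eq_mul, ← integral_const_mul]
    refine integral_congr_ae (Filter.Eventually.of_forall fun w => ?_)
    simp only [Pi.smul_apply, smul_eq_mul]
    ring

/-- the commuting family -/
noncomputable def fam (hφ : RhoS φ) (lam : ℂ) {ψ : ℝ → ℝ} (hψ : Rho ψ) :
    Option {p : ℕ // p.Prime} → Module.End ℂ (V φ lam)
  | none => KL hφ lam hψ
  | some p => HTL hφ lam p

lemma KL_apply (hφ : RhoS φ) {ψ : ℝ → ℝ} (hψ : Rho ψ) (F : V φ lam) (z : ℍ) :
    (KL hφ lam hψ F : ℍ → ℂ) z = K ψ F z := rfl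

lemma HTL_apply (hφ : RhoS φ) (p : {p : ℕ // p.Prime}) [NeZero p.1] (F : V φ lam) (z : ℍ) :
    (HTL hφ lam p F : ℍ → ℂ) z = HT p.1 F z := rfl

lemma fam_comm (hφ : RhoS φ) {ψ : ℝ → ℝ} (hψ : Rho ψ) (i j : Option {p : ℕ // p.Prime})
    (F : V φ lam) : fam hφ lam hψ i (fam hφ lam hψ j F) = fam hφ lam hψ j (fam hφ lam hψ i F) := by
  have hKH : ∀ (p : {p : ℕ // p.Prime}), KL hφ lam hψ (HTL hφ lam p F)
      = HTL hφ lam p (KL hφ lam hψ F) := by
    intro p
    have : NeZero p.1 := ⟨p.2.ne_zero⟩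
    apply Subtype.ext
    funext z
    exact K_HT hψ F.2.1 z
  rcases i with _ | p <;> rcases j with _ | q
  · rfl
  · exact hKH q
  · exact (hKH p).symm
  · have : NeZero p.1 := ⟨p.2.ne_zero⟩
    have : NeZero q.1 := ⟨q.2.ne_zero⟩
    apply Subtype.ext
    funext z
    change HT p.1 (HT q.1 F) z = HT q.1 (HT p.1 F) z
    rw [HT_eq_Tp, HT_eq_Tp]
    have e1 : ∀ (r : ℕ) [NeZero r] (y : ℂ), 0 < y.im →
        HT r (F : ℍ → ℂ) (ofComplex y) = Tp r (fun z => (F : ℍ → ℂ) (ofComplex z)) y := by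
      intro r _ y hy
      rw [HT_eq_Tp, ofComplex_apply_of_im_pos hy]
    have e2 : ∀ (r s : ℕ) [NeZero r] [NeZero s], Tp r (fun z => HT s (F : ℍ → ℂ) (ofComplex z)) z
        = Tp r (Tp s (fun z => (F : ℍ → ℂ) (ofComplex z))) z := by
      intro r s _ _
      exact Tp_congr (fun y hy => e1 s y hy) (Nat.pos_of_ne_zero (NeZero.ne r)) z.im_pos
    rw [e2 p.1 q.1, e2 q.1 p.1]
    exact Tp_comm (perZ_of F.2.2.1) p.2 q.2 z.im_pos

/-- from a common eigenvector to an odd Hecke-Maass form -/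
theorem oddHM_of (hφ : RhoS φ) (hl : lam ≠ 0) {G : ℍ → ℂ} (hG : G ∈ V φ lam) (hG0 : G ≠ 0)
    {r : ℂ} (hr : ∀ z, K (psi φ) G z = r * G z) {cc : ℕ → ℂ}
    (hcc : ∀ p : ℕ, p.Prime → ∀ z : ℍ, Tp p (fun z => G (ofComplex z)) z = cc p * G z) :
    OddHM (fun z => G (ofComplex z)) (r / lam) (fun p => cc p / (Real.sqrt p : ℂ)) := by
  set G' : ℍ → ℂ := lam⁻¹ • G with hG'
  have hG'V : G' ∈ V φ lam := (V φ lam).smul_mem _ hG
  have hGK : ∀ z, K φ G' z = G z := by
    intro z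
    rw [(hG'V.2.2.2 z).2, hG', Pi.smul_apply, smul_eq_mul, mul_inv_cancel_left₀ hl]
  have hfun : (fun z : ℂ => G (ofComplex z)) = fun z => K φ G' (ofComplex z) := by
    funext z; rw [hGK]
  have hsm : ContDiffOn ℝ (⊤ : ℕ∞) (fun z : ℂ => G (ofComplex z)) Hs := by
    rw [hfun]; exact smooth_K hφ hG'V.1
  have hinv := invG_modu hG.2.1
  refine ⟨hsm, hinv.1, hinv.2, fun z hz => odd_of hG.2.2.1 hz, ?_, ?_, ?_, ?_⟩
  · intro z hz
    set f : ℂ → ℂ := fun z : ℂ => G (ofComplex z) with hf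
    have h1 := lap_K hφ hG'V.1 hz
    rw [← hfun] at h1
    have hz' : ((z.re : ℂ) + z.im * Complex.I) = z := Complex.re_add_im z
    have e1 : (fun s : ℝ => deriv (fun t : ℝ => f ((t : ℂ) + (z.im : ℂ) * Complex.I)) s)
        = fun s : ℝ => D 1 f (s + z.im * Complex.I) := by
      funext s
      exact (Fou.hasDerivAt_x hsm s hz).deriv
    have e2 : (fun s : ℝ => deriv (fun t : ℝ => f ((z.re : ℂ) + (t : ℂ) * Complex.I)) s)
        =ᶠ[𝓝 z.im] fun s : ℝ => D Complex.I f (z.re + s * Complex.I) := by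
      filter_upwards [Ioi_mem_nhds hz] with s hs
      exact (Fou.hasDerivAt_y hsm z.re hs).deriv
    rw [e1, e2.deriv_eq, (Fou.hasDerivAt_x (Fou.D_smooth hsm 1) z.re hz).deriv,
      (Fou.hasDerivAt_y (Fou.D_smooth hsm Complex.I) z.re hz).deriv, hz', h1]
    have h2 : K (psi φ) G' (ofComplex z) = r * lam⁻¹ * f z := by
      have : K (psi φ) G' (ofComplex z) = lam⁻¹ * K (psi φ) G (ofComplex z) := by
        unfold K
        rw [← integral_const_mul]
        refine integral_congr_ae (Filter.Eventually.of_forall fun w => ?_)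
        simp only [hG', Pi.smul_apply, smul_eq_mul]
        ring
      rw [this, hr]
      simp only [hf]
      ring
    rw [h2]
    have hzC : (z.im : ℂ) ≠ 0 := by exact_mod_cast hz.ne'
    field_simp
    rfl
  · obtain ⟨C, hC⟩ := hG.1.bdd
    exact ⟨C, fun z _ => hC _⟩
  · obtain ⟨z, hz⟩ : ∃ z, G z ≠ 0 := by
      by_contra hc
      push Not at hc
      exact hG0 (funext hc)
    exact ⟨z, z.im_pos, by simpa using hz⟩
  · intro p hp z hz
    have h1 := hcc p hp ⟨z, hz⟩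
    have hsp : ((Real.sqrt p : ℝ) : ℂ) ≠ 0 := by
      have : (0 : ℝ) < p := by exact_mod_cast hp.pos
      exact_mod_cast (Real.sqrt_pos.mpr this).ne'
    rw [mul_div_cancel₀ _ hsp]
    simp only [ofComplex_apply_of_im_pos hz]
    exact h1

/-- **Part A: existence of odd Hecke-Maass forms of level one.** -/
theorem exists_oddHM : ∃ (f : ℂ → ℂ) (mu : ℂ) (a : ℕ → ℂ), OddHM f mu a := by
  obtain ⟨φ, hφ, hne⟩ := Pool.Agent.X290.Ne.exists_phi
  obtain ⟨lam, hl, G, hG, hG0⟩ := exists_V hφ hne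
  have hfd := fd_V hφ hl
  have hnt : Nontrivial (V φ lam) := ⟨⟨⟨G, hG⟩, 0, fun h => hG0 (congrArg Subtype.val h)⟩⟩
  obtain ⟨v, hv0, hv⟩ := Cev.exists_common (fam hφ lam hφ.psi.rho) (fam_comm hφ hφ.psi.rho)
  obtain ⟨r, hr⟩ := hv none
  have hc : ∀ p : {p : ℕ // p.Prime}, ∃ c : ℂ, HTL hφ lam p v = c • v := fun p => hv (some p)
  choose c hc using hc
  classical
  refine ⟨_, _, _, oddHM_of hφ hl v.2 (fun h => hv0 (Subtype.ext h)) (r := r)
    (cc := fun p => if h : p.Prime then c ⟨p, h⟩ else 0) (fun z => ?_) fun p hp z => ?_⟩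
  · have := congrArg (fun F : V φ lam => (F : ℍ → ℂ) z) hr
    exact this
  · have : NeZero p := ⟨hp.ne_zero⟩
    have h1 := congrArg (fun F : V φ lam => (F : ℍ → ℂ) z) (hc ⟨p, hp⟩)
    simp only [dif_pos hp]
    rw [← HT_eq_Tp]
    exact h1

end Pool.Agent.X290.Exi
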