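import Pool.Agent.X290.Hyp

set_option autoImplicit false

/-!
# The fundamental domain of `PSL₂(ℤ)` as a measure theoretic fundamental domain
-/

namespace Pool.Agent.X290.Fd

open UpperHalfPlane MeasureTheory Set Filter Topology ModularGroup
open scoped MatrixGroups Modular ENNReal

/-- image of `SL₂(ℤ)` in the permutations of `ℍ` -/
noncomputable abbrev Gm : Subgroup (Equiv.Perm ℍ) := (MulAction.toPermHom SL(2, ℤ) ℍ).range

/-- the class of a matrix -/
noncomputable def cl (γ : SL(2, ℤ)) : Gm := ⟨MulAction.toPermHom SL(2, ℤ) ℍ γ, ⟨γ, rfl⟩⟩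

lemma cl_smul (γ : SL(2, ℤ)) (z : ℍ) : cl γ • z = γ • z := rfl

lemma exists_cl (g : Gm) : ∃ γ, g = cl γ := by
  obtain ⟨g, γ, rfl⟩ := g
  exact ⟨γ, rfl⟩

lemma cl_mul (γ γ' : SL(2, ℤ)) : cl (γ * γ') = cl γ * cl γ' := by
  apply Subtype.ext
  exact map_mul _ _ _

lemma cl_one : cl 1 = 1 := by
  apply Subtype.ext
  exact map_one _

lemma cl_neg_one : cl (-1) = 1 := by
  apply Subtype.ext
  ext z
  change ((((-1 : SL(2, ℤ)) • z : ℍ)) : ℂ) = z
  rw [ModularGroup.SL_neg_smul, one_smul]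

instance : Countable SL(2, ℤ) := by
  have h : Function.Injective fun γ : SL(2, ℤ) => (fun i j => γ.1 i j : Fin 2 → Fin 2 → ℤ) := by
    intro a b hab
    apply Subtype.ext
    ext i j
    exact congrFun (congrFun hab i) j
  exact h.countable

instance : Countable Gm := by
  have : Function.Surjective cl := fun g => by
    obtain ⟨γ, h⟩ := exists_cl g
    exact ⟨γ, h.symm⟩
  exact this.countable

/-- matrices as real matrices -/
lemma smul_eq_gl (γ : SL(2, ℤ)) (z : ℍ) : γ • z = (γ : GL (Fin 2) ℝ) • z := rfl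

lemma continuous_smul (g : Gm) : Continuous fun z : ℍ => g • z := by
  obtain ⟨γ, rfl⟩ := exists_cl g
  exact continuous_const_smul (γ : GL (Fin 2) ℝ)

instance : ContinuousConstSMul Gm ℍ := ⟨continuous_smul⟩

instance : SMulInvariantMeasure Gm ℍ volume where
  measure_preimage_smul g s hs := by
    obtain ⟨γ, rfl⟩ := exists_cl g
    exact measure_preimage_smul_of_nullMeasurableSet hs.nullMeasurableSet (γ : GL (Fin 2) ℝ)

lemma U_smul' (g : Gm) (z w : ℍ) : Hyp.U (g • z) (g • w) = Hyp.U z w := by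
  obtain ⟨γ, rfl⟩ := exists_cl g
  exact Hyp.U_smul (γ : GL (Fin 2) ℝ) z w

lemma volume_zero {s : Set ℍ} (h : volume (UpperHalfPlane.coe '' s) = 0) : volume s = 0 := by
  rw [volume_eq_lintegral]
  exact setLIntegral_measure_zero _ _ h

lemma volume_vert (c : ℝ) : volume {z : ℂ | z.re = c} = 0 := by
  have h := Complex.volume_preserving_equiv_real_prod
  have h1 : {z : ℂ | z.re = c} = Complex.measurableEquivRealProd ⁻¹' ({c} ×ˢ univ) := by
    ext z
    simp [Complex.measurableEquivRealProd_apply]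
  rw [h1, h.measure_preimage ((measurableSet_singleton c).prod MeasurableSet.univ).nullMeasurableSet,
    Measure.volume_eq_prod, Measure.prod_prod]
  simp

lemma volume_bdry : volume ((𝒟 : Set ℍ) \ 𝒟ᵒ) = 0 := by
  apply volume_zero
  have hsub : UpperHalfPlane.coe '' ((𝒟 : Set ℍ) \ 𝒟ᵒ)
      ⊆ Metric.sphere 0 1 ∪ ({z : ℂ | z.re = 1 / 2} ∪ {z : ℂ | z.re = -(1 / 2)}) := by
    rintro _ ⟨z, ⟨⟨h1, h2⟩, h3⟩, rfl⟩
    have h3' : ¬ (1 < Complex.normSq z ∧ |z.re| < 1 / 2) := h3
    by_cases h4 : 1 < Complex.normSq z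
    · have h5 : ¬ |z.re| < 1 / 2 := fun hc => h3' ⟨h4, hc⟩
      have h6 : |z.re| = 1 / 2 := le_antisymm h2 (not_lt.mp h5)
      right
      rcases abs_eq (by norm_num : (0 : ℝ) ≤ 1 / 2) |>.mp h6 with h | h
      · left; exact h
      · right; exact h
    · left
      have h7 : Complex.normSq (z : ℂ) = 1 := le_antisymm (not_lt.mp h4) h1
      rw [mem_sphere_zero_iff_norm]
      rw [Complex.normSq_eq_norm_sq] at h7
      nlinarith [norm_nonneg (z : ℂ)]
  refine measure_mono_null hsub ?_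
  rw [measure_union_null_iff, measure_union_null_iff]
  refine ⟨Measure.addHaar_sphere _ _ _, volume_vert _, ?_⟩
  have := volume_vert (-(1 / 2))
  exact this

theorem isFD : IsFundamentalDomain Gm (𝒟 : Set ℍ) volume := by
  refine IsFundamentalDomain.mk'' isClosed_fd.measurableSet.nullMeasurableSet ?_ ?_ ?_
  · refine Filter.Eventually.of_forall fun z => ?_
    obtain ⟨γ, hγ⟩ := exists_smul_mem_fd z
    exact ⟨cl γ, hγ⟩
  · intro g hg
    refine measure_mono_null ?_ volume_bdry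
    rintro z ⟨hz1, hz2⟩
    refine ⟨hz2, fun hz3 => hg ?_⟩
    rw [mem_smul_set_iff_inv_smul_mem] at hz1
    obtain ⟨γ, hγ⟩ := exists_cl g⁻¹
    rw [hγ, cl_smul] at hz1
    rcases eq_one_or_neg_one_of_mem_fdo_mem_fd hz3 hz1 with h | h
    · rw [h, cl_one, inv_eq_one] at hγ; exact hγ
    · rw [h, cl_neg_one, inv_eq_one] at hγ; exact hγ
  · intro g
    exact (measurePreserving_smul g volume).quasiMeasurePreserving

/-- finite volume -/
theorem volume_fd_lt : volume (𝒟 : Set ℍ) < ∞ := by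
  rw [volume_eq_lintegral]
  set S : Set (ℝ × ℝ) := Icc (-(1 / 2) : ℝ) (1 / 2) ×ˢ Ioi (1 / 2 : ℝ) with hS
  have hSm : MeasurableSet S := measurableSet_Icc.prod measurableSet_Ioi
  have hpres := Complex.volume_preserving_equiv_real_prod
  have hsub : UpperHalfPlane.coe '' (𝒟 : Set ℍ) ⊆ Complex.measurableEquivRealProd ⁻¹' S := by
    rintro _ ⟨z, hz, rfl⟩
    have h1 := three_le_four_mul_im_sq_of_mem_fd hz
    have h2 : |z.re| ≤ 1 / 2 := hz.2
    rw [abs_le] at h2
    have h3 := z.im_pos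
    rw [mem_preimage, Complex.measurableEquivRealProd_apply, hS, mem_prod, mem_Icc, mem_Ioi]
    refine ⟨⟨h2.1, h2.2⟩, ?_⟩
    change 1 / 2 < z.im
    nlinarith
  refine lt_of_le_of_lt (lintegral_mono_set hsub) ?_
  have h1 : (fun z : ℂ => (((1 / ‖z.im‖₊) ^ 2 : NNReal) : ℝ≥0∞))
      = fun z => (fun p : ℝ × ℝ => (((1 / ‖p.2‖₊) ^ 2 : NNReal) : ℝ≥0∞))
          (Complex.measurableEquivRealProd z) := by
    funext z; rw [Complex.measurableEquivRealProd_apply]
  rw [h1, hpres.setLIntegral_comp_preimage hSm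
    (f := fun p : ℝ × ℝ => (((1 / ‖p.2‖₊) ^ 2 : NNReal) : ℝ≥0∞)) (by fun_prop), hS,
    Measure.volume_eq_prod,
    ← Measure.prod_restrict, lintegral_prod _ (by fun_prop)]
  simp only [lintegral_const]
  refine ENNReal.mul_lt_top ?_ ?_
  · have h2 : IntegrableOn (fun y : ℝ => y ^ (-2 : ℝ)) (Ioi (1 / 2)) :=
      integrableOn_Ioi_rpow_of_lt (by norm_num) (by norm_num)
    have h3 := h2.2
    refine lt_of_le_of_lt (le_of_eq ?_) h3
    refine setLIntegral_congr_fun measurableSet_Ioi fun y hy => ?_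
    have hy' : (0 : ℝ) < y := lt_trans (by norm_num) hy
    simp only
    rw [enorm_eq_nnnorm]
    congr 1
    ext
    push_cast
    rw [Real.norm_of_nonneg hy'.le, Real.norm_of_nonneg (by positivity), Real.rpow_neg hy'.le]
    norm_num
  · rw [Measure.restrict_apply_univ, Real.volume_Icc]
    exact ENNReal.ofReal_lt_top

instance : IsFiniteMeasure (volume.restrict (𝒟 : Set ℍ)) :=
  ⟨by rw [Measure.restrict_apply_univ]; exact volume_fd_lt⟩

end Pool.Agent.X290.Fd
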