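import Pool.Agent.X290.Equi

/-! Finite adeles and the lattices attached to elements of `GL₂(𝔸^∞)`. -/

set_option autoImplicit false

namespace Pool.Agent.X290

open Polynomial WithZero Matrix IsDedekindDomain

noncomputable section

abbrev HS : Type := HeightOneSpectrum (ZMod 2)[X]

abbrev Gfin : Type := GL (Fin 2) Afin

theorem proj_apply (v : HS) (x : Afin) : proj v x = x v := rfl

/-- the integral finite adeles -/
def Oh : Subring Afin where
  carrier := {x | ∀ v : HS, Valued.v (x v) ≤ 1}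
  mul_mem' := by
    intro x y hx hy v
    have h : (x * y) v = x v * y v := map_mul (proj v) x y
    rw [h, map_mul]
    exact mul_le_one' (hx v) (hy v)
  one_mem' := by
    intro v
    have h : (1 : Afin) v = 1 := map_one (proj v)
    rw [h, map_one]
  add_mem' := by
    intro x y hx hy v
    have h : (x + y) v = x v + y v := map_add (proj v) x y
    rw [h]
    exact (Valuation.map_add _ _ _).trans (max_le (hx v) (hy v))
  zero_mem' := by
    intro v
    have h : (0 : Afin) v = 0 := map_zero (proj v)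
    rw [h, map_zero]
    exact zero_le_one
  neg_mem' := by
    intro x hx v
    have h : (-x) v = -x v := map_neg (proj v) x
    rw [h, Valuation.map_neg]
    exact hx v

theorem mem_Oh {x : Afin} : x ∈ Oh ↔ ∀ v : HS, Valued.v (x v) ≤ 1 := Iff.rfl

theorem val_K (v : HS) (y : K) : Valued.v ((algebraMap K Afin y) v) = v.valuation K y :=
  HeightOneSpectrum.valuedAdicCompletion_eq_valuation' v y

theorem poly_mem_Oh (p : (ZMod 2)[X]) : algebraMap K Afin (algebraMap (ZMod 2)[X] K p) ∈ Oh := by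
  intro v
  rw [val_K]
  exact HeightOneSpectrum.valuation_le_one v p

theorem exists_poly {y : K} (h : algebraMap K Afin y ∈ Oh) : ∃ p : (ZMod 2)[X], algebraMap (ZMod 2)[X] K p = y := by
  have := HeightOneSpectrum.mem_integers_of_valuation_le_one (R := (ZMod 2)[X]) K y (fun v => by
    rw [← val_K]
    exact h v)
  exact this

theorem exists_denom (x : Afin) : ∃ a : (ZMod 2)[X], a ≠ 0 ∧
    algebraMap K Afin (algebraMap (ZMod 2)[X] K a) * x ∈ Oh := by
  classical
  have hS : {v : HS | ¬ Valued.v (x v) ≤ 1}.Finite := x.2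
  choose b hb0 hb using fun v : HS => HeightOneSpectrum.adicCompletion.mul_nonZeroDivisor_mem_adicCompletionIntegers
    (K := K) v (x v)
  refine ⟨∏ v ∈ hS.toFinset, b v, Finset.prod_ne_zero_iff.2 fun v _ => nonZeroDivisors.ne_zero (hb0 v), fun v => ?_⟩
  have e : (algebraMap K Afin (algebraMap (ZMod 2)[X] K (∏ v ∈ hS.toFinset, b v)) * x) v =
      (algebraMap K Afin (algebraMap (ZMod 2)[X] K (∏ v ∈ hS.toFinset, b v))) v * x v := map_mul (proj v) _ _
  rw [e, map_mul]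
  by_cases hv : v ∈ hS.toFinset
  · rw [← Finset.mul_prod_erase _ _ hv, map_mul, map_mul]
    have e2 : ∀ y z : Afin, (y * z) v = y v * z v := fun y z => map_mul (proj v) _ _
    rw [e2, map_mul, mul_right_comm]
    refine mul_le_one' ?_ (poly_mem_Oh _ v)
    rw [mul_comm, ← map_mul]
    exact hb v
  · have : Valued.v (x v) ≤ 1 := by
      by_contra h
      exact hv (hS.mem_toFinset.2 h)
    exact mul_le_one' (poly_mem_Oh _ v) this

/-- the embedding `K² → (𝔸^∞)²` -/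
def ioF (ξ : Fin 2 → K) : Fin 2 → Afin := fun i => algebraMap K Afin (ξ i)

theorem ioF_add (ξ η : Fin 2 → K) : ioF (ξ + η) = ioF ξ + ioF η := by
  funext i
  simp [ioF]

/-- the lattice attached to `g` -/
def Lam (g : Gfin) : Submodule (ZMod 2)[X] (Fin 2 → K) where
  carrier := {ξ | ∀ j, (ioF ξ ᵥ* g.1) j ∈ Oh}
  add_mem' := by
    intro ξ η hξ hη j
    rw [ioF_add, Matrix.add_vecMul]
    exact Oh.add_mem (hξ j) (hη j)
  zero_mem' := by
    intro j
    have : ioF 0 = 0 := by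
      funext i
      simp [ioF]
    rw [this, Matrix.zero_vecMul]
    exact Oh.zero_mem
  smul_mem' := by
    intro c ξ hξ j
    have : ioF (c • ξ) = algebraMap K Afin (algebraMap (ZMod 2)[X] K c) • ioF ξ := by
      funext i
      simp [ioF, Algebra.smul_def]
    rw [this, Matrix.smul_vecMul]
    exact Oh.mul_mem (poly_mem_Oh c) (hξ j)

theorem mem_Lam {g : Gfin} {ξ : Fin 2 → K} : ξ ∈ Lam g ↔ ∀ j, (ioF ξ ᵥ* g.1) j ∈ Oh := Iff.rfl

theorem vecMul_mem {ζ : Fin 2 → Afin} {g : Matrix (Fin 2) (Fin 2) Afin} (hζ : ∀ j, ζ j ∈ Oh)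
    (hg : ∀ i j, g i j ∈ Oh) (j : Fin 2) : (ζ ᵥ* g) j ∈ Oh := by
  have : (ζ ᵥ* g) j = ζ 0 * g 0 j + ζ 1 * g 1 j := by
    simp [vecMul, dotProduct, Fin.sum_univ_two]
  rw [this]
  exact Oh.add_mem (Oh.mul_mem (hζ 0) (hg 0 j)) (Oh.mul_mem (hζ 1) (hg 1 j))

theorem exists_denom_mat (g : Matrix (Fin 2) (Fin 2) Afin) : ∃ a : (ZMod 2)[X], a ≠ 0 ∧
    ∀ i j, algebraMap K Afin (algebraMap (ZMod 2)[X] K a) * g i j ∈ Oh := by
  choose a ha0 ha using fun i j => exists_denom (g i j)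
  refine ⟨∏ i : Fin 2, ∏ j : Fin 2, a i j, ?_, fun i j => ?_⟩
  · exact Finset.prod_ne_zero_iff.2 fun i _ => Finset.prod_ne_zero_iff.2 fun j _ => ha0 i j
  · have e : ∏ i : Fin 2, ∏ j : Fin 2, a i j = (∏ i' ∈ Finset.univ.erase i, ∏ j : Fin 2, a i' j) *
        (∏ j' ∈ Finset.univ.erase j, a i j') * a i j := by
      rw [← Finset.mul_prod_erase _ _ (Finset.mem_univ i), ← Finset.mul_prod_erase _ _ (Finset.mem_univ j)]
      ring
    rw [e, map_mul, map_mul, mul_assoc]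
    exact Oh.mul_mem (poly_mem_Oh _) (ha i j)

theorem isLat_Lam (g : Gfin) : IsLat (Lam g) := by
  obtain ⟨a, ha0, ha⟩ := exists_denom_mat g⁻¹.1
  obtain ⟨b, hb0, hb⟩ := exists_denom_mat g.1
  have haK : algebraMap (ZMod 2)[X] K a ≠ 0 := by simpa using ha0
  have hbK : algebraMap (ZMod 2)[X] K b ≠ 0 := by simpa using hb0
  have hbdd : ∀ ξ ∈ Lam g, ∀ j, ∃ p : (ZMod 2)[X],
      algebraMap (ZMod 2)[X] K a * ξ j = algebraMap (ZMod 2)[X] K p := by
    intro ξ hξ j
    have h1 : algebraMap K Afin (algebraMap (ZMod 2)[X] K a * ξ j) ∈ Oh := by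
      have h2 : ((ioF ξ ᵥ* g.1) ᵥ* (algebraMap K Afin (algebraMap (ZMod 2)[X] K a) • g⁻¹.1)) j ∈ Oh :=
        vecMul_mem hξ (fun i j => ha i j) j
      have e : g.1 * g⁻¹.1 = 1 := g.mul_inv
      rw [Matrix.vecMul_smul, Matrix.vecMul_vecMul, e, Matrix.vecMul_one] at h2
      rw [map_mul]
      exact h2
    obtain ⟨p, hp⟩ := exists_poly h1
    exact ⟨p, hp.symm⟩
  refine ⟨?_, ?_, a, ha0, hbdd⟩
  · -- finitely generated
    choose! p hp using hbdd
    let φ : (Fin 2 → (ZMod 2)[X]) →ₗ[(ZMod 2)[X]] (Fin 2 → K) :=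
      { toFun := fun q j => (algebraMap (ZMod 2)[X] K a)⁻¹ * algebraMap (ZMod 2)[X] K (q j)
        map_add' := fun q r => by
          funext j
          simp [mul_add]
        map_smul' := fun c q => by
          funext j
          simp [Algebra.smul_def]
          ring }
    have hle : Lam g ≤ LinearMap.range φ := by
      intro ξ hξ
      refine ⟨fun j => p ξ j, ?_⟩
      funext j
      change (algebraMap (ZMod 2)[X] K a)⁻¹ * algebraMap (ZMod 2)[X] K (p ξ j) = ξ j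
      rw [← hp ξ hξ j, ← mul_assoc, inv_mul_cancel₀ haK, one_mul]
    have : IsNoetherian (ZMod 2)[X] (LinearMap.range φ) := inferInstance
    exact isNoetherian_submodule.1 this _ hle
  · intro h
    have h1 : (algebraMap (ZMod 2)[X] K b • (![1, 0] : Fin 2 → K)) ∈ Lam g := by
      intro j
      have e : (ioF (algebraMap (ZMod 2)[X] K b • (![1, 0] : Fin 2 → K)) ᵥ* g.1) j =
          algebraMap K Afin (algebraMap (ZMod 2)[X] K b) * g.1 0 j := by
        have : (ioF (algebraMap (ZMod 2)[X] K b • (![1, 0] : Fin 2 → K)) ᵥ* g.1) j =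
          ioF (algebraMap (ZMod 2)[X] K b • (![1, 0] : Fin 2 → K)) 0 * g.1 0 j +
          ioF (algebraMap (ZMod 2)[X] K b • (![1, 0] : Fin 2 → K)) 1 * g.1 1 j := by
          simp [vecMul, dotProduct, Fin.sum_univ_two]
        rw [this]
        simp [ioF]
      rw [e]
      exact hb 0 j
    rw [h, Submodule.mem_bot] at h1
    have h2 := congrFun h1 0
    simp at h2
    exact hb0 h2

/-- the image of `γ` in `GL₂(𝔸^∞)` -/
def gF (γ : GL (Fin 2) K) : Gfin := Matrix.GeneralLinearGroup.map (algebraMap K Afin) γ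

theorem gF_apply (γ : GL (Fin 2) K) (i j : Fin 2) : (gF γ).1 i j = algebraMap K Afin (γ.1 i j) := rfl

theorem diag_eq (γ : GL (Fin 2) K) : diag γ = (gK γ, gF γ) := rfl

theorem ioF_vecMul (γ : GL (Fin 2) K) (ξ : Fin 2 → K) : ioF (ξ ᵥ* γ.1) = ioF ξ ᵥ* (gF γ).1 := by
  ext1 i
  have : (ioF ξ ᵥ* (gF γ).1) i = ioF ξ 0 * (gF γ).1 0 i + ioF ξ 1 * (gF γ).1 1 i := by
    simp [vecMul, dotProduct, Fin.sum_univ_two]
  rw [this]
  simp only [ioF, gF_apply, Matrix.vecMul, dotProduct, Fin.sum_univ_two, map_add, map_mul]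

theorem Lam_gF (γ : GL (Fin 2) K) (g : Gfin) (ξ : Fin 2 → K) : ξ ∈ Lam (gF γ * g) ↔ ξ ᵥ* γ.1 ∈ Lam g := by
  rw [mem_Lam, mem_Lam, ioF_vecMul, Matrix.vecMul_vecMul]
  rfl

/-- `GL₂` of the integral adeles -/
def Khat : Subgroup Gfin where
  carrier := {k | (∀ i j, k.1 i j ∈ Oh) ∧ ∀ i j, k⁻¹.1 i j ∈ Oh}
  mul_mem' := by
    rintro k l ⟨hk, hk'⟩ ⟨hl, hl'⟩
    have key : ∀ A B : Matrix (Fin 2) (Fin 2) Afin, (∀ i j, A i j ∈ Oh) → (∀ i j, B i j ∈ Oh) →
        ∀ i j, (A * B) i j ∈ Oh := by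
      intro A B hA hB i j
      rw [Matrix.mul_apply]
      exact Oh.sum_mem fun m _ => Oh.mul_mem (hA _ _) (hB _ _)
    refine ⟨key _ _ hk hl, ?_⟩
    rw [_root_.mul_inv_rev]
    exact key _ _ hl' hk'
  one_mem' := by
    have : ∀ i j, (1 : Matrix (Fin 2) (Fin 2) Afin) i j ∈ Oh := by
      intro i j
      rw [Matrix.one_apply]
      split_ifs
      · exact Oh.one_mem
      · exact Oh.zero_mem
    exact ⟨this, by rw [inv_one]; exact this⟩
  inv_mem' := by
    rintro k ⟨hk, hk'⟩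
    exact ⟨hk', by rw [inv_inv]; exact hk⟩

theorem Lam_mul_Khat {k : Gfin} (hk : k ∈ Khat) (g : Gfin) : Lam (g * k) = Lam g := by
  ext ξ
  rw [mem_Lam, mem_Lam]
  have e : ioF ξ ᵥ* (g * k).1 = (ioF ξ ᵥ* g.1) ᵥ* k.1 := by
    rw [Matrix.vecMul_vecMul]
    rfl
  constructor
  · intro h j
    have h1 := vecMul_mem h (fun i j => hk.2 i j) j
    have e2 : k.1 * k⁻¹.1 = 1 := k.mul_inv
    rwa [e, Matrix.vecMul_vecMul (ioF ξ ᵥ* g.1), e2, Matrix.vecMul_one] at h1
  · intro h j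
    rw [e]
    exact vecMul_mem h (fun i j => hk.1 i j) j

/-- the functional attached to `g` -/
def lg (g : Gfin) : PF →ₗ[ℂ] ℂ := ell (Lam g)

theorem lg_one0 (g : Gfin) : lg g one0 = 1 := ell_one0 (isLat_Lam g)

theorem lg_gF (γ : GL (Fin 2) K) (g : Gfin) (f : PF) : lg (gF γ * g) (rP (gK γ) f) = lg g f :=
  ell_equiv (isLat_Lam g) (isLat_Lam _) (Lam_gF γ g) f

theorem lg_Khat {k : Gfin} (hk : k ∈ Khat) (g : Gfin) : lg (g * k) = lg g := by
  unfold lg
  rw [Lam_mul_Khat hk]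

end

end Pool.Agent.X290
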