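import Pool.Agent.X290.Top

/-! Spaces of automorphic forms generated by an equivariant map from the locally constant functions on the
projective line. -/

set_option autoImplicit false

namespace Pool.Agent.X290

open Polynomial WithZero Matrix

noncomputable section

/-- the inclusion of `GL₂(𝔸^∞)` -/
def inclFin : Gfin →* GA := MonoidHom.inr _ _

theorem rightReg_apply (h : GA) (φ : GA → ℂ) (g : GA) : rightReg h φ g = φ (g * h) := rfl

/-- smooth functions -/
def smoothV : Submodule ℂ (GA → ℂ) where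
  carrier := {φ | ∃ U : Subgroup GA, IsOpen (U : Set GA) ∧ φ ∈ fixedBy U}
  add_mem' := by
    rintro φ ψ ⟨U, hU, h1⟩ ⟨W, hW, h2⟩
    exact ⟨U ⊓ W, hU.inter hW, fun u hu => by rw [map_add, h1 u hu.1, h2 u hu.2]⟩
  zero_mem' := ⟨⊤, isOpen_univ, fun u _ => map_zero _⟩
  smul_mem' := by
    rintro c φ ⟨U, hU, h1⟩
    exact ⟨U, hU, fun u hu => by rw [map_smul, h1 u hu]⟩

theorem smoothV_rightReg (h : GA) {φ : GA → ℂ} (hφ : φ ∈ smoothV) : rightReg h φ ∈ smoothV := by
  obtain ⟨U, hU, h1⟩ := hφ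
  refine ⟨U.comap (MulAut.conj h⁻¹).toMonoidHom, ?_, ?_⟩
  · refine hU.preimage ?_
    change Continuous fun g : GA => h⁻¹ * g * h⁻¹⁻¹
    exact (continuous_const.mul continuous_id).mul continuous_const
  · intro u hu
    have hu' : h⁻¹ * u * h ∈ U := by
      have : h⁻¹ * u * h⁻¹⁻¹ ∈ U := hu
      rwa [inv_inv] at this
    have e : u * h = h * (h⁻¹ * u * h) := by group
    rw [← Module.End.mul_apply, ← map_mul, e, map_mul, Module.End.mul_apply, h1 _ hu']

theorem mem_localGroup_none {h : GA} : h ∈ localGroup none ↔ h.2 = 1 := by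
  rw [localGroup, MonoidHom.mem_ker]
  rfl

theorem eq_inclInf {h : GA} (hh : h ∈ localGroup none) : h = inclInf h.1 := by
  rw [mem_localGroup_none] at hh
  exact Prod.ext rfl hh

theorem inclInf_mem (g : Ginf) : inclInf g ∈ localGroup none := mem_localGroup_none.2 rfl

/-- equivariance under `GL₂(K_∞)` -/
def Equivar (D : PF →ₗ[ℂ] (GA → ℂ)) : Prop := ∀ (g : Ginf) (f : PF), D (rP g f) = rightReg (inclInf g) (D f)

theorem inclInf_continuous : Continuous (inclInf : Ginf → GA) := by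
  have : (inclInf : Ginf → GA) = fun g => (g, 1) := rfl
  rw [this]
  exact continuous_id.prodMk continuous_const

theorem average {ι : Type} [Fintype ι] {D : ι → PF →ₗ[ℂ] (GA → ℂ)} (hD : ∀ i, Equivar (D i)) (m : ℕ) (x : ι → PF)
    (hx : ∀ g ∈ Kn m, rightReg (inclInf g) (∑ i, D i (x i)) = ∑ i, D i (x i)) :
    ∃ y : ι → fixK m, ∑ i, D i (x i) = ∑ i, D i (y i).1 := by
  classical
  choose m₀ hm₀ using fun i => exists_fix (x i)
  set m' := Finset.univ.sup m₀ with hm'
  have hfix : ∀ i, ∀ g ∈ Kn m', rP g (x i) = x i := fun i g hg =>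
    hm₀ i g (Kn_mono (Finset.le_sup (f := m₀) (Finset.mem_univ i)) hg)
  have := finite_quot m m'
  have := Fintype.ofFinite (Kn m ⧸ (Kn m').subgroupOf (Kn m))
  set Q := Kn m ⧸ (Kn m').subgroupOf (Kn m) with hQ
  have hcard : (Fintype.card Q : ℂ) ≠ 0 := by
    have : Nonempty Q := ⟨QuotientGroup.mk 1⟩
    exact_mod_cast Fintype.card_ne_zero
  have hy : ∀ i, ((Fintype.card Q : ℂ)⁻¹ • ∑ q : Q, rP q.out.1 (x i)) ∈ fixK m := by
    intro i
    refine (fixK m).smul_mem _ ?_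
    intro g hg
    rw [map_sum]
    refine Fintype.sum_equiv (MulAction.toPerm (⟨g, hg⟩ : Kn m)) _ _ fun q => ?_
    rw [← Module.End.mul_apply, ← map_mul, MulAction.toPerm_apply]
    -- compare the representatives
    set q' : Q := (⟨g, hg⟩ : Kn m) • q with hq'
    have h1 : (q'.out)⁻¹ * ((⟨g, hg⟩ : Kn m) * q.out) ∈ (Kn m').subgroupOf (Kn m) := by
      rw [← QuotientGroup.eq, QuotientGroup.out_eq', hq']
      conv_lhs => rw [← QuotientGroup.out_eq' q]
      rfl
    rw [Subgroup.mem_subgroupOf] at h1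
    have h2 : g * q.out.1 = q'.out.1 * ((q'.out)⁻¹ * ((⟨g, hg⟩ : Kn m) * q.out) : Kn m).1 := by
      simp
    rw [h2, map_mul, Module.End.mul_apply, hfix i _ h1]
  refine ⟨fun i => ⟨_, hy i⟩, ?_⟩
  have h3 : ∀ i, D i ((Fintype.card Q : ℂ)⁻¹ • ∑ q : Q, rP q.out.1 (x i)) =
      (Fintype.card Q : ℂ)⁻¹ • ∑ q : Q, rightReg (inclInf q.out.1) (D i (x i)) := by
    intro i
    rw [map_smul, map_sum]
    congr 1
    exact Finset.sum_congr rfl fun q _ => hD i _ _
  rw [Finset.sum_congr rfl fun i _ => h3 i, ← Finset.smul_sum, Finset.sum_comm]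
  have h4 : ∀ q : Q, ∑ i, rightReg (inclInf q.out.1) (D i (x i)) = ∑ i, D i (x i) := by
    intro q
    rw [← map_sum]
    exact hx _ q.out.2
  rw [Finset.sum_congr rfl fun q _ => h4 q, Finset.sum_const, Finset.card_univ, ← Nat.cast_smul_eq_nsmul ℂ,
    smul_smul, inv_mul_cancel₀ hcard, one_smul]

/-- sums of elements of ranges of equivariant maps generate admissible representations at `∞` -/
theorem adm_sum {ι : Type} [Fintype ι] {D : ι → PF →ₗ[ℂ] (GA → ℂ)} (hD : ∀ i, Equivar (D i)) (x : ι → PF)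
    (U : Subgroup GA) (hU : IsOpen (U : Set GA)) :
    FiniteDimensional ℂ ↥(Submodule.span ℂ {ψ | ∃ h ∈ localGroup none, ψ = rightReg h (∑ i, D i (x i))} ⊓
      fixedBy {u | u ∈ U ∧ u ∈ localGroup none}) := by
  classical
  obtain ⟨m, hm⟩ : ∃ m : ℕ, (Kn m : Set Ginf) ⊆ inclInf ⁻¹' U := by
    apply exists_Kn
    apply (hU.preimage inclInf_continuous).mem_nhds
    exact U.one_mem
  have := finite_fixK m
  let Θ : (ι → fixK m) →ₗ[ℂ] (GA → ℂ) := ∑ i, (D i) ∘ₗ (fixK m).subtype ∘ₗ LinearMap.proj i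
  let Θ' : (ι → PF) →ₗ[ℂ] (GA → ℂ) := ∑ i, (D i) ∘ₗ LinearMap.proj i
  have hΘ : ∀ y, Θ y = ∑ i, D i (y i).1 := fun y => by
    simp [Θ, LinearMap.sum_apply]
  have hΘ' : ∀ y, Θ' y = ∑ i, D i (y i) := fun y => by
    simp [Θ', LinearMap.sum_apply]
  have hle : (Submodule.span ℂ {ψ | ∃ h ∈ localGroup none, ψ = rightReg h (∑ i, D i (x i))} ⊓
      fixedBy {u | u ∈ U ∧ u ∈ localGroup none}) ≤ LinearMap.range Θ := by
    rintro ψ ⟨h1, h2⟩
    have h3 : ψ ∈ LinearMap.range Θ' := by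
      refine (Submodule.span_le (p := LinearMap.range Θ')).2 ?_ h1
      rintro _ ⟨h, hh, rfl⟩
      refine ⟨fun i => rP h.1 (x i), ?_⟩
      rw [hΘ', map_sum]
      refine Finset.sum_congr rfl fun i _ => ?_
      rw [hD, ← eq_inclInf hh]
    obtain ⟨y, rfl⟩ := h3
    rw [hΘ'] at h2 ⊢
    obtain ⟨z, hz⟩ := average hD m y (fun g hg => h2 _ ⟨hm hg, inclInf_mem g⟩)
    exact ⟨z, by rw [hΘ, hz]⟩
  exact Submodule.finiteDimensional_of_le hle

section gen

variable (D : PF →ₗ[ℂ] (GA → ℂ))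

/-- the space generated by the image of `D` -/
def Psi : (Gfin →₀ PF) →ₗ[ℂ] (GA → ℂ) := Finsupp.lsum ℂ fun h => (rightReg (inclFin h)) ∘ₗ D

theorem Psi_apply (x : Gfin →₀ PF) : Psi D x = ∑ h ∈ x.support, rightReg (inclFin h) (D (x h)) := rfl

theorem Psi_single (h : Gfin) (f : PF) : Psi D (Finsupp.single h f) = rightReg (inclFin h) (D f) := by
  simp [Psi]

/-- the action of `GL₂(𝔸)` on the domain of `Psi` -/
def act (g : GA) : (Gfin →₀ PF) →ₗ[ℂ] (Gfin →₀ PF) :=
  Finsupp.lsum ℂ fun h => (Finsupp.lsingle (g.2 * h)) ∘ₗ (rP g.1)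

theorem act_single (g : GA) (h : Gfin) (f : PF) :
    act g (Finsupp.single h f) = Finsupp.single (g.2 * h) (rP g.1 f) := by
  simp [act]

theorem inclFin_mul_inclInf (g : GA) (h : Gfin) : g * inclFin h = inclFin (g.2 * h) * inclInf g.1 := by
  refine Prod.ext ?_ ?_
  · change g.1 * 1 = 1 * g.1
    rw [mul_one, one_mul]
  · change g.2 * h = g.2 * h * 1
    rw [mul_one]

theorem Psi_act {D : PF →ₗ[ℂ] (GA → ℂ)} (hD : Equivar D) (g : GA) (x : Gfin →₀ PF) :
    Psi D (act g x) = rightReg g (Psi D x) := by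
  induction x using Finsupp.induction_linear with
  | zero => simp
  | add x y hx hy => rw [map_add, map_add, map_add, map_add, hx, hy]
  | single h f =>
    rw [act_single, Psi_single, Psi_single, hD, ← Module.End.mul_apply, ← Module.End.mul_apply, ← map_mul,
      ← map_mul, inclFin_mul_inclInf]

/-- the representation generated by the image of `D` -/
def VD {D : PF →ₗ[ℂ] (GA → ℂ)} (hD : Equivar D) : Subrepresentation rightReg where
  toSubmodule := LinearMap.range (Psi D)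
  apply_mem_toSubmodule := by
    rintro g _ ⟨x, rfl⟩
    exact ⟨act g x, Psi_act hD g x⟩

theorem mem_VD {D : PF →ₗ[ℂ] (GA → ℂ)} (hD : Equivar D) {φ : GA → ℂ} : φ ∈ VD hD ↔ ∃ x, Psi D x = φ := Iff.rfl

theorem equivar_translate {D : PF →ₗ[ℂ] (GA → ℂ)} (hD : Equivar D) (h : Gfin) :
    Equivar ((rightReg (inclFin h)) ∘ₗ D) := by
  intro g f
  rw [LinearMap.comp_apply, LinearMap.comp_apply, hD, ← Module.End.mul_apply, ← Module.End.mul_apply, ← map_mul,
    ← map_mul]
  congr 2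
  refine Prod.ext ?_ ?_
  · change 1 * g = g * 1
    rw [mul_one, one_mul]
  · change h * 1 = 1 * h
    rw [mul_one, one_mul]

theorem VD_smooth {D : PF →ₗ[ℂ] (GA → ℂ)} (hD : Equivar D) (hs : ∀ f, D f ∈ smoothV) {φ : GA → ℂ} (hφ : φ ∈ VD hD) :
    φ ∈ smoothV := by
  obtain ⟨x, rfl⟩ := hφ
  rw [Psi_apply]
  exact Submodule.sum_mem _ fun h _ => smoothV_rightReg _ (hs _)

theorem VD_automorphic {D : PF →ₗ[ℂ] (GA → ℂ)} (hD : Equivar D) (hs : ∀ f, D f ∈ smoothV)
    (hl : ∀ f (γ : GL (Fin 2) K) (g : GA), D f (diag γ * g) = D f g) {φ : GA → ℂ} (hφ : φ ∈ VD hD) :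
    IsAutomorphicForm φ := by
  refine ⟨?_, VD_smooth hD hs hφ, none, ?_⟩
  · obtain ⟨x, rfl⟩ := hφ
    intro γ g
    rw [Psi_apply, Finset.sum_apply, Finset.sum_apply]
    refine Finset.sum_congr rfl fun h _ => ?_
    rw [rightReg_apply, rightReg_apply, mul_assoc, hl]
  · intro U hU
    obtain ⟨x, rfl⟩ := hφ
    have e : Psi D x = ∑ h : x.support, ((rightReg (inclFin h.1)) ∘ₗ D) (x h.1) := by
      rw [Psi_apply, ← Finset.sum_coe_sort]
      rfl
    rw [e]
    exact adm_sum (fun h : x.support => equivar_translate hD h.1) _ U hU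

end gen

end

end Pool.Agent.X290
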