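import Pool.Agent.X290.Iw

/-! Harmonic cochains and maps from the space of locally constant functions on the projective line. -/

set_option autoImplicit false

namespace Pool.Agent.X290

open Polynomial WithZero Matrix

noncomputable section

theorem mem_pfin_coeff {N : ℕ} {p : (ZMod 2)[X]} : p ∈ pfin N ↔ ∀ m, N ≤ m → p.coeff m = 0 := by
  rw [mem_pfin, degree_lt_iff_coeff_zero]

theorem pfin_zero : pfin 0 = {0} := by
  ext p
  rw [mem_pfin_coeff, Finset.mem_singleton]
  constructor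
  · intro h
    ext m
    rw [h m (Nat.zero_le _), coeff_zero]
  · rintro rfl m _
    exact coeff_zero m

theorem pfin_mono {M N : ℕ} (h : M ≤ N) : pfin M ⊆ pfin N := by
  intro p hp
  rw [mem_pfin_coeff] at *
  exact fun m hm => hp m (h.trans hm)

theorem sum_pfin_succ {M : Type} [AddCommMonoid M] (k : ℕ) (h : (ZMod 2)[X] → M) :
    ∑ p ∈ pfin (k + 1), h p = ∑ q ∈ pfin k, (h (X * q) + h (X * q + 1)) := by
  classical
  have hmaps : ∀ p ∈ pfin (k + 1), p.divX ∈ pfin k := by
    intro p hp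
    rw [mem_pfin_coeff] at *
    intro m hm
    rw [coeff_divX]
    exact hp _ (by omega)
  rw [← Finset.sum_fiberwise_of_maps_to hmaps]
  refine Finset.sum_congr rfl fun q hq => ?_
  have hne : X * q ≠ X * q + 1 := by
    intro h
    have : (1 : (ZMod 2)[X]) = 0 := by
      have h2 := sub_eq_zero.2 h
      ring_nf at h2
      simp at h2
    exact one_ne_zero this
  have hfib : (pfin (k + 1)).filter (fun p => p.divX = q) = {X * q, X * q + 1} := by
    ext p
    rw [Finset.mem_filter, Finset.mem_insert, Finset.mem_singleton]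
    constructor
    · rintro ⟨_, rfl⟩
      have h1 := X_mul_divX_add p
      have key : ∀ c : ZMod 2, c = 0 ∨ c = 1 := by decide
      rcases key (p.coeff 0) with h2 | h2
      · left
        rw [h2, map_zero, add_zero] at h1
        exact h1.symm
      · right
        rw [h2, map_one] at h1
        exact h1.symm
    · intro hp
      rw [mem_pfin_coeff] at hq
      rcases hp with rfl | rfl
      · refine ⟨?_, ?_⟩
        · rw [mem_pfin_coeff]
          intro m hm
          obtain ⟨m, rfl⟩ : ∃ m', m = m' + 1 := ⟨m - 1, by omega⟩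
          rw [coeff_X_mul]
          exact hq m (by omega)
        · ext m
          rw [coeff_divX, coeff_X_mul]
      · refine ⟨?_, ?_⟩
        · rw [mem_pfin_coeff]
          intro m hm
          obtain ⟨m, rfl⟩ : ∃ m', m = m' + 1 := ⟨m - 1, by omega⟩
          rw [coeff_add, coeff_X_mul, hq m (by omega), coeff_one]
          simp
        · ext m
          rw [coeff_divX, coeff_add, coeff_X_mul, coeff_one]
          simp
  rw [hfib, Finset.sum_pair hne]

theorem gd_mul_left (a : Kinf) (n : ℤ) : gd a n * gd 0 1 = gd a (n + 1) := by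
  obtain ⟨q1, q2, q3, q4⟩ := gd_coe a n
  obtain ⟨r1, r2, r3, r4⟩ := gd_coe 0 1
  obtain ⟨s1, s2, s3, s4⟩ := gd_coe a (n + 1)
  have hT := T_ne
  refine GL_ext ?_ ?_ ?_ ?_ <;> rw [mul_apply_two]
  · rw [q1, q2, r1, r3, s1, mul_zero, add_zero, ← zpow_add₀ hT]
    congr 1
    ring
  · rw [q1, q2, r2, r4, s2]
    ring
  · rw [q3, q4, r1, r3, s3]
    ring
  · rw [q3, q4, r2, r4, s4]
    ring

theorem gd_mul_right (a : Kinf) (n : ℤ) : gd a n * gd (T ^ (-1 : ℤ)) 1 = gd (a + T ^ (-(n + 1))) (n + 1) := by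
  obtain ⟨q1, q2, q3, q4⟩ := gd_coe a n
  obtain ⟨r1, r2, r3, r4⟩ := gd_coe (T ^ (-1 : ℤ)) 1
  obtain ⟨s1, s2, s3, s4⟩ := gd_coe (a + T ^ (-(n + 1))) (n + 1)
  have hT := T_ne
  refine GL_ext ?_ ?_ ?_ ?_ <;> rw [mul_apply_two]
  · rw [q1, q2, r1, r3, s1, mul_zero, add_zero, ← zpow_add₀ hT]
    congr 1
    ring
  · rw [q1, q2, r2, r4, s2, mul_neg, ← zpow_add₀ hT]
    have : -n + -1 = -(n + 1) := by ring
    rw [this]
    ring
  · rw [q3, q4, r1, r3, s3]
    ring
  · rw [q3, q4, r2, r4, s4]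
    ring

theorem unip_mem_Si {e : Kinf} (h : vi e < 1) : (unip e : Ginf) ∈ Si := by
  refine ⟨?_, ?_, ?_⟩
  · simpa [unip, vi] using h
  · simp [unip, vi]
  · simp [unip]

theorem gd_shift (a a' : Kinf) (n : ℤ) : gd a n = gd a' n * unip (T ^ n * (a' - a)) := by
  obtain ⟨q1, q2, q3, q4⟩ := gd_coe a n
  obtain ⟨r1, r2, r3, r4⟩ := gd_coe a' n
  have hT := T_ne
  have hTn : T ^ (-n) * T ^ n = 1 := by rw [← zpow_add₀ hT, neg_add_cancel, zpow_zero]
  refine GL_ext ?_ ?_ ?_ ?_ <;> rw [mul_apply_two]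
  · rw [q1, r1, r2]
    simp [unip]
  · rw [q2, r1, r2]
    simp only [unip, of_apply, cons_val', cons_val_zero, cons_val_one, cons_val_fin_one]
    rw [← mul_assoc, hTn]
    ring
  · rw [q3, r3, r4]
    simp [unip]
  · rw [q4, r3, r4]
    simp [unip]

/-- harmonic cochains -/
structure Harm {M : Type} [AddCommGroup M] [Module ℂ M] (c : Ginf → M) : Prop where
  c0 : ∀ x s, s ∈ Si → c (x * s) = c x
  c1 : ∀ x, c x = c (x * gd 0 1) + c (x * gd (T ^ (-1 : ℤ)) 1)
  c2 : ∀ x, c (x * om) = -c x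

section

variable {M : Type} [AddCommGroup M] [Module ℂ M] {c : Ginf → M}

theorem Harm.shift (hc : Harm c) {a a' : Kinf} {n : ℤ} (h : vi (a' - a) < exp (-n)) : c (gd a n) = c (gd a' n) := by
  rw [gd_shift a a' n]
  apply hc.c0
  apply unip_mem_Si
  rw [vi_mul, vi_Tz]
  calc exp n * vi (a' - a) < exp n * exp (-n) := mul_lt_mul_of_pos_left h exp_pos
    _ = 1 := by rw [← exp_add, add_neg_cancel, exp_zero]

theorem Harm.split (hc : Harm c) (a : Kinf) (n : ℤ) :
    c (gd a n) = c (gd a (n + 1)) + c (gd (a + T ^ (-(n + 1))) (n + 1)) := by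
  rw [hc.c1, gd_mul_left, gd_mul_right]

theorem Harm.sub (hc : Harm c) (a : Kinf) (n : ℤ) (k : ℕ) :
    c (gd a n) = ∑ q ∈ pfin k, c (gd (a + pol q * T ^ (-(n + k))) (n + k)) := by
  induction k with
  | zero =>
    rw [pfin_zero, Finset.sum_singleton]
    simp
  | succ k ih =>
    rw [sum_pfin_succ, ih]
    refine Finset.sum_congr rfl fun q _ => ?_
    rw [hc.split]
    have hT := T_ne
    have e1 : pol (X * q) * T ^ (-(n + ((k + 1 : ℕ) : ℤ))) = pol q * T ^ (-(n + k)) := by
      rw [map_mul, pol_X, mul_comm T, mul_assoc]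
      congr 1
      have : T * T ^ (-(n + ((k + 1 : ℕ) : ℤ))) = T ^ (1 : ℤ) * T ^ (-(n + ((k + 1 : ℕ) : ℤ))) := by rw [zpow_one]
      rw [this, ← zpow_add₀ hT]
      congr 1
      push_cast
      ring
    have e2 : n + ((k + 1 : ℕ) : ℤ) = n + k + 1 := by
      push_cast
      ring
    rw [map_add, map_one, add_mul, e1, one_mul, e2, ← add_assoc]

/-- the approximations -/
def JN (c : Ginf → M) (N L : ℕ) (f : PF) : M :=
  ∑ p ∈ pfin L, (f.1 ![1, pol p * T ^ (-(N : ℤ))] - f.1 ![0, 1]) • c (gd (pol p * T ^ (-(N : ℤ))) N)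

theorem far {f : PF} {N : ℕ} (hf : Level f N) {y : Kinf} (hy : exp (N : ℤ) < vi y) : f.1 ![1, y] = f.1 ![0, 1] := by
  have hy0 : y ≠ 0 := ne_of_vi_lt hy
  have e := hom_right (f := f) (ξ := ![1, y]) (by simpa using hy0)
  rw [e]
  refine hf.2 _ _ ?_
  have e2 : (0 : Kinf) - ![1, y] 0 / ![1, y] 1 = -(1 / y) := by simp
  rw [e2, vi, Valuation.map_neg, map_div₀, map_one]
  change 1 / vi y < _
  rw [WithZero.exp_neg, one_div]
  exact inv_strictAnti₀ exp_pos hy

theorem Harm.JN_succ (hc : Harm c) {f : PF} {N : ℕ} (hf : Level f N) :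
    JN c (N + 1) (2 * (N + 1) + 1) f = JN c N (2 * N + 1) f := by
  classical
  have hT := T_ne
  have e1 : ∀ q : (ZMod 2)[X], pol (X * q) * T ^ (-((N + 1 : ℕ) : ℤ)) = pol q * T ^ (-(N : ℤ)) := by
    intro q
    rw [map_mul, pol_X, mul_comm T, mul_assoc]
    congr 1
    have : T * T ^ (-((N + 1 : ℕ) : ℤ)) = T ^ (1 : ℤ) * T ^ (-((N + 1 : ℕ) : ℤ)) := by rw [zpow_one]
    rw [this, ← zpow_add₀ hT]
    congr 1
    push_cast
    ring
  have h1 : JN c (N + 1) (2 * (N + 1) + 1) f = JN c N (2 * N + 2) f := by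
    unfold JN
    rw [show 2 * (N + 1) + 1 = (2 * N + 2) + 1 by ring, sum_pfin_succ]
    refine Finset.sum_congr rfl fun q _ => ?_
    rw [map_add, map_one, add_mul, one_mul, e1]
    have e2 : f.1 ![1, pol q * T ^ (-(N : ℤ)) + T ^ (-((N + 1 : ℕ) : ℤ))] = f.1 ![1, pol q * T ^ (-(N : ℤ))] := by
      apply hf.1
      have : pol q * T ^ (-(N : ℤ)) - (pol q * T ^ (-(N : ℤ)) + T ^ (-((N + 1 : ℕ) : ℤ))) =
        -T ^ (-((N + 1 : ℕ) : ℤ)) := by ring
      rw [this, vi_neg, vi_Tz, exp_lt_exp]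
      push_cast
      omega
    rw [e2, ← smul_add]
    congr 1
    have := hc.split (pol q * T ^ (-(N : ℤ))) N
    rw [this]
    push_cast
    rfl
  rw [h1]
  unfold JN
  symm
  refine Finset.sum_subset (pfin_mono (by omega)) fun p _ hp => ?_
  rw [far hf, sub_self, zero_smul]
  rw [vi_mul, vi_Tz]
  have h2 : exp ((2 * N + 1 : ℕ) : ℤ) ≤ vi (pol p) := by
    by_contra hcon
    exact hp (mem_pfin_iff.2 (not_le.1 hcon))
  calc exp (N : ℤ) < exp ((2 * N + 1 : ℕ) : ℤ) * exp (-(N : ℤ)) := by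
        rw [← exp_add, exp_lt_exp]
        push_cast
        omega
    _ ≤ _ := mul_le_mul_left h2 _

theorem Harm.JN_mono (hc : Harm c) {f : PF} {N N' : ℕ} (hf : Level f N) (h : N ≤ N') :
    JN c N' (2 * N' + 1) f = JN c N (2 * N + 1) f := by
  induction N', h using Nat.le_induction with
  | base => rfl
  | succ k hk ih => rw [hc.JN_succ (hf.mono hk), ih]

theorem JN_add (N L : ℕ) (f f' : PF) : JN c N L (f + f') = JN c N L f + JN c N L f' := by
  unfold JN
  rw [← Finset.sum_add_distrib]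
  refine Finset.sum_congr rfl fun p _ => ?_
  rw [← add_smul]
  congr 1
  simp only [Submodule.coe_add, Pi.add_apply]
  ring

theorem JN_smul (N L : ℕ) (a : ℂ) (f : PF) : JN c N L (a • f) = a • JN c N L f := by
  unfold JN
  rw [Finset.smul_sum]
  refine Finset.sum_congr rfl fun p _ => ?_
  rw [smul_smul]
  congr 1
  simp only [Submodule.coe_smul, Pi.smul_apply, smul_eq_mul]
  ring

/-- the linear map attached to a harmonic cochain -/
def Harm.D (hc : Harm c) : PF →ₗ[ℂ] M where
  toFun f := JN c (exists_level f).choose (2 * (exists_level f).choose + 1) f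
  map_add' f f' := by
    set n := (exists_level f).choose with hn
    set n' := (exists_level f').choose with hn'
    set m := (exists_level (f + f')).choose with hm
    have h1 := (exists_level f).choose_spec
    have h2 := (exists_level f').choose_spec
    have h3 := (exists_level (f + f')).choose_spec
    set N := max (max n n') m with hN
    rw [← hc.JN_mono h1 (N' := N) (by omega), ← hc.JN_mono h2 (N' := N) (by omega),
      ← hc.JN_mono h3 (N' := N) (by omega), JN_add]
  map_smul' a f := by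
    set n := (exists_level f).choose with hn
    set m := (exists_level (a • f)).choose with hm
    have h1 := (exists_level f).choose_spec
    have h3 := (exists_level (a • f)).choose_spec
    set N := max n m with hN
    rw [← hc.JN_mono h1 (N' := N) (by omega), ← hc.JN_mono h3 (N' := N) (by omega), JN_smul]
    rfl

theorem Harm.D_eq (hc : Harm c) {f : PF} {N : ℕ} (hf : Level f N) : hc.D f = JN c N (2 * N + 1) f := by
  have h1 := (exists_level f).choose_spec
  set n := (exists_level f).choose with hn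
  have e : hc.D f = JN c n (2 * n + 1) f := rfl
  rw [e, ← hc.JN_mono h1 (N' := max n N) (by omega), ← hc.JN_mono hf (N' := max n N) (by omega)]

theorem Harm.D_one0 (hc : Harm c) : hc.D one0 = 0 := by
  obtain ⟨N, hN⟩ := exists_level one0
  rw [hc.D_eq hN]
  unfold JN
  refine Finset.sum_eq_zero fun p _ => ?_
  rw [one0_apply, one0_apply row01, sub_self, zero_smul]
  intro h
  simpa using congrFun h 0

theorem Harm.D_gd (hc : Harm c) (a : Kinf) (m : ℤ) : hc.D (rP (gd a m) B0) = c (gd a m) := by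
  classical
  obtain ⟨l, hl⟩ := exists_level (rP (gd a m) B0)
  obtain ⟨s, hs⟩ := exists_exp_ge (vi a)
  set N : ℕ := max (max l s) m.natAbs with hN
  have hlev : Level (rP (gd a m) B0) N := hl.mono (by omega)
  have haN : vi a ≤ exp (N : ℤ) := hs.trans (by
    rw [exp_le_exp]
    have : s ≤ N := by omega
    exact_mod_cast this)
  have hmN : |m| ≤ N := by
    rw [Int.abs_eq_natAbs]
    have : m.natAbs ≤ N := le_max_right _ _
    exact_mod_cast this
  have hm1 := (abs_le.1 hmN).1
  have hm2 := (abs_le.1 hmN).2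
  obtain ⟨k, hk⟩ : ∃ k : ℕ, m + k = N := ⟨(N - m).toNat, by
    rw [Int.toNat_of_nonneg (by omega)]
    ring⟩
  rw [hc.D_eq hlev, hc.sub a m k, hk]
  unfold JN
  obtain ⟨p₀, hp₀⟩ := exists_rep a N
  have hp₀m : p₀ ∈ pfin (2 * N + 1) := by
    refine rep_mem hp₀ (lt_of_le_of_lt haN ?_)
    rw [exp_lt_exp]
    push_cast
    omega
  have h01 : (rP (gd a m) B0).1 ![0, 1] = 0 := by
    rw [gd_apply, if_neg]
    simp [vi]
  have hv : ∀ y : Kinf, (rP (gd a m) B0).1 ![1, y] = if vi (y - a) < exp (-m) then 1 else 0 := by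
    intro y
    rw [gd_apply]
    have h1 : vi (![1, y] 1 - a * ![1, y] 0) < exp (-m) * vi (![1, y] 0) ↔ vi (y - a) < exp (-m) := by simp [vi]
    by_cases h : vi (y - a) < exp (-m)
    · rw [if_pos h, if_pos (h1.2 h)]
    · rw [if_neg h, if_neg (fun h' => h (h1.1 h'))]
  have hsub : (pfin k).image (fun q => p₀ + q) ⊆ pfin (2 * N + 1) := by
    intro p hp
    rw [Finset.mem_image] at hp
    obtain ⟨q, hq, rfl⟩ := hp
    exact pfin_add hp₀m (pfin_mono (by omega) hq)
  have hNm : exp (-(N : ℤ)) ≤ exp (-m) := by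
    rw [exp_le_exp]
    omega
  have hiff : ∀ q : (ZMod 2)[X], vi (pol (p₀ + q) * T ^ (-(N : ℤ)) - a) < exp (-m) ↔ q ∈ pfin k := by
    intro q
    have e : pol (p₀ + q) * T ^ (-(N : ℤ)) - a = pol q * T ^ (-(N : ℤ)) + -(a - pol p₀ * T ^ (-(N : ℤ))) := by
      rw [map_add]
      ring
    have h1 : vi (-(a - pol p₀ * T ^ (-(N : ℤ)))) < exp (-m) := by
      rw [vi_neg]
      exact lt_of_lt_of_le hp₀ hNm
    have h2 : vi (pol (p₀ + q) * T ^ (-(N : ℤ)) - a) < exp (-m) ↔ vi (pol q * T ^ (-(N : ℤ))) < exp (-m) := by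
      constructor
      · intro h
        have e2 : pol q * T ^ (-(N : ℤ)) = (pol (p₀ + q) * T ^ (-(N : ℤ)) - a) -
          (-(a - pol p₀ * T ^ (-(N : ℤ)))) := by
          rw [e]
          ring
        rw [e2]
        exact vi_sub_lt h h1
      · intro h
        rw [e]
        exact vi_add_lt h h1
    rw [h2, mem_pfin_iff, vi_mul, vi_Tz]
    have e3 : exp (-m) = exp (k : ℤ) * exp (-(N : ℤ)) := by
      rw [← exp_add]
      congr 1
      omega
    rw [e3]
    exact mul_lt_mul_iff_left₀ exp_pos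
  rw [← Finset.sum_subset hsub]
  · rw [Finset.sum_image (fun q _ q' _ h => add_left_cancel h)]
    refine Finset.sum_congr rfl fun q hq => ?_
    rw [hv, h01, if_pos ((hiff q).2 hq), sub_zero, one_smul]
    apply hc.shift
    have e : a + pol q * T ^ (-(N : ℤ)) - pol (p₀ + q) * T ^ (-(N : ℤ)) = a - pol p₀ * T ^ (-(N : ℤ)) := by
      rw [map_add]
      ring
    rw [e]
    exact hp₀
  · intro p _ hp
    rw [hv, h01, if_neg, sub_zero, zero_smul]
    intro h
    apply hp
    rw [Finset.mem_image]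
    refine ⟨p₀ + p, ?_, ?_⟩
    · rw [← hiff, ← add_assoc, poly_char2, zero_add]
      exact h
    · rw [← add_assoc, poly_char2, zero_add]

theorem Harm.D_rP (hc : Harm c) (x : Ginf) : hc.D (rP x B0) = c x := by
  obtain ⟨a, n, s, hs, h | h⟩ := dec x
  · rw [h, map_mul, Module.End.mul_apply, rP_Si hs, hc.D_gd, hc.c0 _ _ hs]
  · rw [h, map_mul, map_mul, Module.End.mul_apply, Module.End.mul_apply, rP_Si hs, rP_om_B0, map_sub, map_sub,
      rP_one0, hc.D_one0, hc.D_gd, hc.c0 _ _ hs, hc.c2, zero_sub]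

end

end

end Pool.Agent.X290
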