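import Mathlib

set_option autoImplicit false

/-!
# Point-pair invariants on the upper half plane
-/

namespace Pool.Agent.X290.Hyp

open UpperHalfPlane MeasureTheory Set Filter Topology
open scoped MatrixGroups

/-- point pair invariant -/
noncomputable def U (z w : ℍ) : ℝ := ‖(z : ℂ) - w‖ ^ 2 / (4 * z.im * w.im)

lemma U_nonneg (z w : ℍ) : 0 ≤ U z w := by
  have := z.im_pos; have := w.im_pos; unfold U; positivity

lemma U_comm (z w : ℍ) : U z w = U w z := by
  unfold U; rw [norm_sub_rev]; ring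

lemma U_self (z : ℍ) : U z z = 0 := by simp [U]

lemma continuous_U : Continuous fun p : ℍ × ℍ => U p.1 p.2 := by
  unfold U
  refine Continuous.div ?_ ?_ fun p => ?_
  · exact ((continuous_coe.comp continuous_fst).sub (continuous_coe.comp continuous_snd)).norm.pow 2
  · exact (continuous_const.mul (continuous_im.comp continuous_fst)).mul
      (continuous_im.comp continuous_snd)
  · have := p.1.im_pos; have := p.2.im_pos; positivity

lemma continuous_U_right (z : ℍ) : Continuous (U z) :=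
  continuous_U.comp (Continuous.prodMk_right z)

lemma continuous_U_left (w : ℍ) : Continuous fun z => U z w :=
  continuous_U.comp (Continuous.prodMk_left w)

theorem U_smul (g : GL (Fin 2) ℝ) (z w : ℍ) : U (g • z) (g • w) = U z w := by
  have hdz := denom_ne_zero g z
  have hdw := denom_ne_zero g w
  have hdet : g.det.val ≠ 0 := g.det.ne_zero
  have h1 : num g z / denom g z - num g w / denom g w
      = (g.det.val : ℂ) * ((z : ℂ) - w) / (denom g z * denom g w) := by
    rw [div_sub_div _ _ hdz hdw]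
    congr 1
    simp only [num, denom, Matrix.GeneralLinearGroup.val_det_apply, Matrix.det_fin_two]
    push_cast
    ring
  have h2 : ‖((g • z : ℍ) : ℂ) - ((g • w : ℍ) : ℂ)‖
      = |g.det.val| * ‖(z : ℂ) - w‖ / (‖denom g z‖ * ‖denom g w‖) := by
    rw [coe_smul, coe_smul, ← map_sub, norm_σ, h1, norm_div, norm_mul, norm_mul,
      Complex.norm_real, Real.norm_eq_abs]
  unfold U
  rw [h2, im_smul_eq_div_normSq, im_smul_eq_div_normSq, Complex.normSq_eq_norm_sq,
    Complex.normSq_eq_norm_sq]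
  have a1 : ‖denom g z‖ ≠ 0 := norm_ne_zero_iff.mpr hdz
  have a2 : ‖denom g w‖ ≠ 0 := norm_ne_zero_iff.mpr hdw
  have a3 : |g.det.val| ≠ 0 := abs_ne_zero.mpr hdet
  have a4 := z.im_pos.ne'
  have a5 := w.im_pos.ne'
  field_simp

lemma sq_le_of_U {z w : ℍ} (h : U z w ≤ 1 / 8) :
    (z.re - w.re) ^ 2 + (z.im - w.im) ^ 2 ≤ z.im * w.im / 2 := by
  have hz := z.im_pos; have hw := w.im_pos
  unfold U at h
  rw [div_le_iff₀ (by positivity)] at h
  have h1 : ‖(z : ℂ) - w‖ ^ 2 = (z.re - w.re) ^ 2 + (z.im - w.im) ^ 2 := by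
    rw [← Complex.normSq_eq_norm_sq, Complex.normSq_apply]
    simp
    ring
  rw [h1] at h
  linarith

lemma im_le_of_U {z w : ℍ} (h : U z w ≤ 1 / 8) : w.im ≤ 2 * z.im := by
  have hz := z.im_pos; have hw := w.im_pos
  have h1 := sq_le_of_U h
  by_contra hc
  push Not at hc
  nlinarith [sq_nonneg (z.re - w.re), mul_pos (sub_pos.mpr hc) (show 0 < w.im - z.im / 2 by linarith)]

lemma im_ge_of_U {z w : ℍ} (h : U z w ≤ 1 / 8) : z.im ≤ 2 * w.im :=
  im_le_of_U (by rwa [U_comm])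

lemma re_le_of_U {z w : ℍ} (h : U z w ≤ 1 / 8) : |z.re - w.re| ≤ z.im := by
  have hz := z.im_pos; have hw := w.im_pos
  have h1 := sq_le_of_U h
  have h2 := im_le_of_U h
  apply abs_le_of_sq_le_sq _ hz.le
  nlinarith [sq_nonneg (z.im - w.im)]

lemma dist_le_of_U {z w : ℍ} (h : U z w ≤ 1 / 8) : dist z w ≤ 1 := by
  have hz := z.im_pos; have hw := w.im_pos
  have h1 := cosh_dist z w
  have h2 : Real.cosh (dist z w) ≤ 5 / 4 := by
    rw [h1]
    have h3 : dist (z : ℂ) w ^ 2 / (2 * z.im * w.im) = 2 * U z w := by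
      unfold U; rw [dist_eq_norm]; field_simp; ring
    rw [h3]; linarith
  by_contra hc
  push Not at hc
  have h4 : Real.cosh 1 < Real.cosh (dist z w) := by
    rw [Real.cosh_lt_cosh, abs_one, abs_of_nonneg dist_nonneg]; exact hc
  have h5 : 5 / 4 < Real.cosh 1 := by
    rw [Real.cosh_eq]
    have := Real.exp_one_gt_d9
    have := Real.exp_pos (-1)
    linarith
  linarith

lemma isCompact_U (z : ℍ) : IsCompact {w : ℍ | U z w ≤ 1 / 8} := by
  refine (isCompact_closedBall z 1).of_isClosed_subset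
    (isClosed_le (continuous_U_right z) continuous_const) fun w hw => ?_
  rw [Metric.mem_closedBall, dist_comm]
  exact dist_le_of_U hw

/-- isometry exchanging two points -/
theorem exists_swap (z w : ℍ) : ∃ g : GL (Fin 2) ℝ, g • z = w ∧ g • w = z := by
  set a : ℝ := z.re * w.im + z.im * w.re with ha
  set c : ℝ := z.im + w.im with hc
  set b : ℝ := c * (z.re * w.re - z.im * w.im) - a * (z.re + w.re) with hb
  have hz := z.im_pos; have hw := w.im_pos
  have hdet : 0 < (!![a, b; c, -a] : Matrix (Fin 2) (Fin 2) ℝ).det := by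
    rw [Matrix.det_fin_two_of]
    have : a * -a - b * c = z.im * w.im * ((z.re - w.re) ^ 2 + (z.im + w.im) ^ 2) := by
      rw [hb, ha, hc]; ring
    rw [this]
    positivity
  set g : GL (Fin 2) ℝ := Matrix.GeneralLinearGroup.mkOfDetNeZero !![a, b; c, -a] hdet.ne' with hg
  have hgv : g.val = !![a, b; c, -a] := rfl
  have hdg : 0 < g.det.val := by
    rw [Matrix.GeneralLinearGroup.val_det_apply, hgv]; exact hdet
  have key : ∀ u v : ℍ, (u.re * v.im + u.im * v.re = a) → (u.im + v.im = c) →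
      (c * (u.re * v.re - u.im * v.im) - a * (u.re + v.re) = b) → g • u = v := by
    intro u v h1 h2 h3
    ext1
    rw [coe_smul_of_det_pos hdg]
    have hden := denom_ne_zero g u
    rw [div_eq_iff hden]
    simp only [num, denom, hgv, Matrix.of_apply, Matrix.cons_val', Matrix.cons_val_zero,
      Matrix.cons_val_one, Matrix.cons_val_fin_one]
    apply Complex.ext
    · simp
      rw [← h3, ← h2, ← h1]; ring
    · simp
      rw [← h2, ← h1]; ring
  exact ⟨g, key z w (by rw [ha]) (by rw [hc]) (by rw [hb]),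
    key w z (by rw [ha]; ring) (by rw [hc]; ring) (by rw [hb]; ring)⟩

/-- admissible radial functions -/
structure Rho (ρ : ℝ → ℝ) : Prop where
  cont : Continuous ρ
  supp : ∀ u, 1 / 8 ≤ u → ρ u = 0

/-- the integral operator attached to `ρ` -/
noncomputable def K (ρ : ℝ → ℝ) (g : ℍ → ℂ) (z : ℍ) : ℂ := ∫ w : ℍ, (ρ (U z w) : ℂ) * g w

variable {ρ : ℝ → ℝ}

lemma Rho.continuous (hρ : Rho ρ) (z : ℍ) : Continuous fun w => (ρ (U z w) : ℂ) :=
  Complex.continuous_ofReal.comp (hρ.cont.comp (continuous_U_right z))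

lemma Rho.integrable (hρ : Rho ρ) (z : ℍ) : Integrable fun w : ℍ => (ρ (U z w) : ℂ) := by
  refine (hρ.continuous z).integrable_of_hasCompactSupport ?_
  refine HasCompactSupport.intro (isCompact_U z) fun w hw => ?_
  rw [mem_ofPred_eq, not_le] at hw
  rw [hρ.supp _ hw.le, Complex.ofReal_zero]

/-- bounded measurable functions -/
structure BM (g : ℍ → ℂ) : Prop where
  meas : Measurable g
  bdd : ∃ C : ℝ, ∀ z, ‖g z‖ ≤ C

variable {g : ℍ → ℂ}

lemma Rho.integrable_mul (hρ : Rho ρ) (hg : BM g) (z : ℍ) :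
    Integrable fun w : ℍ => (ρ (U z w) : ℂ) * g w := by
  obtain ⟨C, hC⟩ := hg.bdd
  exact (hρ.integrable z).mul_bdd (c := C) hg.meas.aestronglyMeasurable
    (Filter.Eventually.of_forall hC)

/-- translation by isometries -/
theorem K_comp_smul (ρ : ℝ → ℝ) (g : ℍ → ℂ) (h : GL (Fin 2) ℝ) (z : ℍ) :
    K ρ (fun w => g (h • w)) z = K ρ g (h • z) := by
  unfold K
  rw [← integral_smul_eq_self (μ := (volume : Measure ℍ)) (fun w : ℍ => (ρ (U (h • z) w) : ℂ) * g w)
    (g := h)]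
  simp only [U_smul]

lemma exists_smul_I (z : ℍ) : ∃ h : GL (Fin 2) ℝ, h • I = z := MulAction.exists_smul_eq _ I z

lemma integral_norm_const (ρ : ℝ → ℝ) (z : ℍ) :
    ∫ w : ℍ, ‖(ρ (U z w) : ℂ)‖ = ∫ w : ℍ, ‖(ρ (U I w) : ℂ)‖ := by
  obtain ⟨h, rfl⟩ := exists_smul_I z
  rw [← integral_smul_eq_self (μ := (volume : Measure ℍ)) (fun w : ℍ => ‖(ρ (U (h • I) w) : ℂ)‖)
    (g := h)]
  simp only [U_smul]

lemma norm_K_le (hρ : Rho ρ) {C : ℝ} (hC : ∀ z, ‖g z‖ ≤ C) (z : ℍ) :
    ‖K ρ g z‖ ≤ C * ∫ w : ℍ, ‖(ρ (U I w) : ℂ)‖ := by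
  rw [← integral_norm_const ρ z, ← integral_const_mul]
  refine norm_integral_le_of_norm_le ((hρ.integrable z).norm.const_mul C) ?_
  refine Filter.Eventually.of_forall fun w => ?_
  rw [norm_mul, mul_comm]
  gcongr
  exact hC w

/-- the two iterated kernels agree -/
lemma swap_kernel (φ ψ : ℝ → ℝ) (z v : ℍ) :
    ∫ w : ℍ, (φ (U z w) : ℂ) * (ψ (U w v) : ℂ) = ∫ w : ℍ, (ψ (U z w) : ℂ) * (φ (U w v) : ℂ) := by
  obtain ⟨h, h1, h2⟩ := exists_swap z v
  rw [← integral_smul_eq_self (μ := (volume : Measure ℍ))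
    (fun w : ℍ => (φ (U z w) : ℂ) * (ψ (U w v) : ℂ)) (g := h)]
  refine integral_congr_ae (Filter.Eventually.of_forall fun w => ?_)
  simp only
  nth_rewrite 1 [← h2]
  nth_rewrite 2 [← h1]
  rw [U_smul, U_smul, U_comm v w, U_comm w z, mul_comm]

lemma Rho.measurable2 (hρ : Rho ρ) : Measurable fun p : ℍ × ℍ => (ρ (U p.1 p.2) : ℂ) :=
  (Complex.continuous_ofReal.comp (hρ.cont.comp continuous_U)).measurable

lemma K_measurable (hρ : Rho ρ) (hg : Measurable g) : Measurable (K ρ g) := by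
  have h1 : StronglyMeasurable (fun p : ℍ × ℍ => (ρ (U p.1 p.2) : ℂ) * g p.2) :=
    (hρ.measurable2.mul (hg.comp measurable_snd)).stronglyMeasurable
  exact h1.integral_prod_right'.measurable

lemma K_bm (hρ : Rho ρ) (hg : BM g) : BM (K ρ g) := by
  obtain ⟨C, hC⟩ := hg.bdd
  exact ⟨K_measurable hρ hg.meas, _, norm_K_le hρ hC⟩


lemma int2 {a : ℍ → ℂ} {b : ℍ → ℍ → ℂ} (ha : Measurable a) (hai : Integrable a)
    (hb : Measurable (fun p : ℍ × ℍ => b p.1 p.2)) (hbi : ∀ w, Integrable (b w)) {M : ℝ}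
    (hM : ∀ w, ∫ v, ‖b w v‖ ≤ M) :
    Integrable (fun p : ℍ × ℍ => a p.1 * b p.1 p.2) ((volume : Measure ℍ).prod volume) := by
  have hmeas : Measurable fun p : ℍ × ℍ => a p.1 * b p.1 p.2 := (ha.comp measurable_fst).mul hb
  rw [integrable_prod_iff hmeas.aestronglyMeasurable]
  constructor
  · exact Filter.Eventually.of_forall fun w => (hbi w).const_mul (a w)
  · have h1 : (fun w : ℍ => ∫ v, ‖a w * b w v‖) = fun w => ‖a w‖ * ∫ v, ‖b w v‖ := by
      funext w
      simp only [norm_mul]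
      rw [integral_const_mul]
    have h2 : StronglyMeasurable fun w : ℍ => ∫ v, ‖a w * b w v‖ :=
      hmeas.stronglyMeasurable.norm.integral_prod_right'
    refine Integrable.mono' (hai.norm.mul_const M) h2.aestronglyMeasurable ?_
    refine Filter.Eventually.of_forall fun w => ?_
    have h3 : (∫ v, ‖a w * b w v‖) = ‖a w‖ * ∫ v, ‖b w v‖ := congrFun h1 w
    rw [h3, Real.norm_of_nonneg (mul_nonneg (norm_nonneg _) (integral_nonneg fun v => norm_nonneg _))]
    exact mul_le_mul_of_nonneg_left (hM w) (norm_nonneg _)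

lemma integral_norm_mul_le (hρ : Rho ρ) (hg : BM g) {C : ℝ} (hC : ∀ z, ‖g z‖ ≤ C) (w : ℍ) :
    ∫ v : ℍ, ‖(ρ (U w v) : ℂ) * g v‖ ≤ C * ∫ w : ℍ, ‖(ρ (U I w) : ℂ)‖ := by
  rw [← integral_norm_const ρ w, ← integral_const_mul]
  refine integral_mono (hρ.integrable_mul hg w).norm ((hρ.integrable w).norm.const_mul C)
    fun v => ?_
  simp only
  rw [norm_mul, mul_comm]
  exact mul_le_mul_of_nonneg_right (hC v) (norm_nonneg _)

/-- iterated operators as a single integral -/
lemma K_K (φ ψ : ℝ → ℝ) (hφ : Rho φ) (hψ : Rho ψ) (hg : BM g) (z : ℍ) :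
    K φ (K ψ g) z = ∫ v : ℍ, (∫ w : ℍ, (φ (U z w) : ℂ) * (ψ (U w v) : ℂ)) * g v := by
  obtain ⟨C, hC⟩ := hg.bdd
  have hint : Integrable (fun p : ℍ × ℍ => (φ (U z p.1) : ℂ) * ((ψ (U p.1 p.2) : ℂ) * g p.2))
      ((volume : Measure ℍ).prod volume) :=
    int2 (a := fun w => (φ (U z w) : ℂ)) (b := fun w v => (ψ (U w v) : ℂ) * g v)
      (hφ.continuous z).measurable (hφ.integrable z)
      (hψ.measurable2.mul (hg.meas.comp measurable_snd)) (fun w => hψ.integrable_mul hg w)
      (fun w => integral_norm_mul_le hψ hg hC w)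
  unfold K
  have h1 : ∀ w : ℍ, (φ (U z w) : ℂ) * ∫ v : ℍ, (ψ (U w v) : ℂ) * g v
      = ∫ v : ℍ, (φ (U z w) : ℂ) * ((ψ (U w v) : ℂ) * g v) := fun w => by
    rw [integral_const_mul]
  simp only [h1]
  rw [integral_integral_swap (f := fun w v => (φ (U z w) : ℂ) * ((ψ (U w v) : ℂ) * g v)) hint]
  refine integral_congr_ae (Filter.Eventually.of_forall fun v => ?_)
  simp only
  rw [← integral_mul_const]
  refine integral_congr_ae (Filter.Eventually.of_forall fun w => ?_)
  simp only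
  ring

/-- **Commutation.** -/
theorem K_comm (φ ψ : ℝ → ℝ) (hφ : Rho φ) (hψ : Rho ψ) (hg : BM g) (z : ℍ) :
    K φ (K ψ g) z = K ψ (K φ g) z := by
  rw [K_K φ ψ hφ hψ hg, K_K ψ φ hψ hφ hg]
  simp only [swap_kernel φ ψ]

end Pool.Agent.X290.Hyp
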