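import Pool.Agent.X290.Defs

/-! Basic facts on the field `K_∞ = F₂((1/T))`. -/

set_option autoImplicit false

namespace Pool.Agent.X290

open Polynomial WithZero

noncomputable section

/-- the valuation of `K_∞` -/
abbrev vi (x : Kinf) : WithZero (Multiplicative ℤ) := Valued.v x

/-- `T` in `K_∞` -/
def T : Kinf := algebraMap K Kinf RatFunc.X

/-- the embedding of polynomials -/
def pol : (ZMod 2)[X] →+* Kinf := (algebraMap K Kinf).comp (algebraMap (ZMod 2)[X] K)

open Classical in
theorem vi_alg (x : K) : vi (algebraMap K Kinf x) = if x = 0 then 0 else exp x.intDegree := by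
  have h := @Valued.valuedCompletion_apply K _ _ _ (RatFunc.inftyValued (ZMod 2)) x
  exact h

theorem vi_T : vi T = exp 1 := by
  unfold T
  rw [vi_alg, if_neg RatFunc.X_ne_zero, RatFunc.intDegree_X]

theorem T_ne : T ≠ 0 := by
  intro h
  have := vi_T
  rw [h, vi, map_zero] at this
  exact absurd this.symm exp_ne_zero

theorem vi_Tz (n : ℤ) : vi (T ^ n) = exp n := by
  have h := vi_T
  rw [vi] at h ⊢
  rw [map_zpow₀, h, ← exp_zsmul]
  simp

theorem vi_pol {p : (ZMod 2)[X]} (hp : p ≠ 0) : vi (pol p) = exp (p.natDegree : ℤ) := by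
  unfold pol
  rw [RingHom.comp_apply, vi_alg, if_neg (by simpa using hp), RatFunc.intDegree_polynomial]

theorem pol_X : pol X = T := by
  unfold pol T
  rw [RingHom.comp_apply, RatFunc.algebraMap_X]

theorem pol_inj : Function.Injective pol := by
  rw [injective_iff_map_eq_zero]
  intro p hp
  by_contra h
  have := vi_pol h
  rw [hp, vi, map_zero] at this
  exact absurd this.symm exp_ne_zero

theorem vi_pol_ge {p : (ZMod 2)[X]} (hp : p ≠ 0) : 1 ≤ vi (pol p) := by
  rw [vi_pol hp, ← exp_zero, exp_le_exp]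
  positivity

theorem pol_eq_zero {p : (ZMod 2)[X]} (h : vi (pol p) < 1) : p = 0 := by
  by_contra hp
  exact absurd h (not_lt.2 (vi_pol_ge hp))

theorem ball_mem_nhds (n : ℤ) : {x : Kinf | vi x < exp n} ∈ nhds (0 : Kinf) := by
  rw [Valued.mem_nhds_zero]
  have h0 : Valued.v.restrict (T ^ n) ≠ 0 := by
    rw [Ne, Valuation.restrict_eq_zero_iff]
    have := vi_Tz n
    rw [vi] at this
    rw [this]
    exact exp_ne_zero
  refine ⟨Units.mk0 _ h0, fun x hx => ?_⟩
  rw [Set.mem_ofPred_eq, Units.val_mk0, Valuation.restrict_lt_iff] at hx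
  have := vi_Tz n
  rw [vi] at this
  rw [this] at hx
  exact hx

theorem nhds_ball {s : Set Kinf} (hs : s ∈ nhds (0 : Kinf)) : ∃ n : ℕ, {x : Kinf | vi x < exp (-(n : ℤ))} ⊆ s := by
  rw [Valued.mem_nhds_zero] at hs
  obtain ⟨γ, hγ⟩ := hs
  have h0 : MonoidWithZeroHom.ValueGroup₀.embedding γ.1 ≠ (0 : WithZero (Multiplicative ℤ)) := by
    rw [Ne, map_eq_zero]
    exact γ.ne_zero
  obtain ⟨n, hn⟩ := exists_exp_neg_natCast_lt h0
  refine ⟨n, fun x hx => hγ ?_⟩
  rw [Set.mem_ofPred_eq, Valuation.restrict_lt_iff_lt_embedding]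
  exact lt_trans hx hn

open Classical in
theorem dense (x : Kinf) (n : ℤ) : ∃ y : K, vi (x - algebraMap K Kinf y) < exp n := by
  have hd := @UniformSpace.Completion.denseRange_coe K (RatFunc.inftyValued (ZMod 2)).toUniformSpace
  have h1 : {z : Kinf | vi (x - z) < exp n} ∈ nhds x := by
    have : Filter.Tendsto (fun z : Kinf => x - z) (nhds x) (nhds (x - x)) :=
      (continuous_const.sub continuous_id).tendsto x
    rw [sub_self] at this
    exact this (ball_mem_nhds n)
  obtain ⟨z, hz, y, rfl⟩ := mem_closure_iff_nhds.1 (hd x) _ h1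
  exact ⟨y, hz⟩

theorem lt_exp_succ {x : Kinf} {n : ℤ} : vi x < exp (n + 1) ↔ vi x ≤ exp n := by
  rcases eq_or_ne (vi x) 0 with h | h
  · simp [h]
  · rw [← log_lt_iff_lt_exp h, ← log_le_iff_le_exp h]
    omega

theorem vi_add_lt {x y : Kinf} {c : WithZero (Multiplicative ℤ)} (hx : vi x < c) (hy : vi y < c) :
    vi (x + y) < c := Valuation.map_add_lt _ hx hy

theorem vi_sub_lt {x y : Kinf} {c : WithZero (Multiplicative ℤ)} (hx : vi x < c) (hy : vi y < c) :
    vi (x - y) < c := Valuation.map_sub_lt _ hx hy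

theorem vi_mul (x y : Kinf) : vi (x * y) = vi x * vi y := map_mul _ _ _

theorem decomp (x : Kinf) : ∃ p : (ZMod 2)[X], vi (x - pol p) < 1 := by
  obtain ⟨y, hy⟩ := dense x 0
  have hd : (RatFunc.denom y).Monic := RatFunc.monic_denom y
  refine ⟨y.num /ₘ y.denom, ?_⟩
  have e : x - pol (y.num /ₘ y.denom) = (x - algebraMap K Kinf y) +
      pol (y.num %ₘ y.denom) / pol y.denom := by
    have h1 : algebraMap K Kinf y = pol y.num / pol y.denom := by
      unfold pol
      rw [RingHom.comp_apply, RingHom.comp_apply, ← map_div₀, RatFunc.num_div_denom]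
    have h2 : pol y.denom ≠ 0 := by
      rw [Ne, map_eq_zero_iff _ pol_inj]
      exact RatFunc.denom_ne_zero y
    have h3 := congrArg pol (modByMonic_add_div y.num y.denom)
    rw [map_add, map_mul] at h3
    rw [h1, ← h3]
    field_simp
    ring
  rw [e]
  refine vi_add_lt (by simpa using hy) ?_
  rcases eq_or_ne (y.num %ₘ y.denom) 0 with h | h
  · simp [h, vi]
  · have h2 : y.denom ≠ 0 := RatFunc.denom_ne_zero y
    rw [vi, map_div₀]
    change vi _ / vi _ < 1
    rw [vi_pol h, vi_pol h2, ← exp_sub, ← exp_zero, exp_lt_exp]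
    have h4 := natDegree_modByMonic_lt y.num hd (by
      intro h5
      apply h
      rw [h5]
      exact modByMonic_one _)
    omega

theorem residue_one {x : Kinf} (hx : vi x ≤ 1) : vi x < 1 ∨ vi (x - 1) < 1 := by
  obtain ⟨p, hp⟩ := decomp x
  have h1 : vi (pol p) ≤ 1 := by
    have : pol p = x - (x - pol p) := by ring
    rw [this]
    exact (Valuation.map_sub _ _ _).trans (max_le hx hp.le)
  rcases eq_or_ne p 0 with h | h
  · left
    rw [h, map_zero, sub_zero] at hp
    exact hp
  · right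
    rw [vi_pol h, ← exp_zero, exp_le_exp] at h1
    have h2 : p.natDegree = 0 := by omega
    rw [natDegree_eq_zero] at h2
    obtain ⟨c, rfl⟩ := h2
    have hc : c = 1 := by
      have hc0 : c ≠ 0 := by
        rintro rfl
        simp at h
      have key : ∀ c : ZMod 2, c ≠ 0 → c = 1 := by decide
      exact key c hc0
    rw [hc, map_one, map_one] at hp
    exact hp

theorem residue {x : Kinf} {n : ℤ} (hx : vi x ≤ exp n) : vi x < exp n ∨ vi (x - T ^ n) < exp n := by
  have hT : T ^ n ≠ 0 := zpow_ne_zero _ T_ne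
  have h1 : vi (x / T ^ n) ≤ 1 := by
    rw [vi, map_div₀]
    change vi _ / vi _ ≤ 1
    rw [vi_Tz]
    exact (div_le_one₀ exp_pos).2 hx
  rcases residue_one h1 with h | h
  · left
    rw [vi, map_div₀] at h
    change vi _ / vi _ < 1 at h
    rw [vi_Tz] at h
    exact (div_lt_one₀ exp_pos).1 h
  · right
    have e : x / T ^ n - 1 = (x - T ^ n) / T ^ n := by field_simp
    rw [e, vi, map_div₀] at h
    change vi _ / vi _ < 1 at h
    rw [vi_Tz] at h
    exact (div_lt_one₀ exp_pos).1 h

theorem char2 (x : Kinf) : x + x = 0 := by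
  have : (2 : Kinf) = 0 := by
    have := congrArg (algebraMap K Kinf) (CharTwo.two_eq_zero (R := K))
    rwa [map_ofNat, map_zero] at this
  rw [← two_mul, this, zero_mul]

theorem neg_eq' (x : Kinf) : -x = x := by
  rw [neg_eq_iff_add_eq_zero, char2]

end

end Pool.Agent.X290
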