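import Mathlib

/-! Isotypic representations and irreducible quotients. -/

set_option autoImplicit false

namespace Pool.Agent.X290

open Representation

noncomputable section

theorem isotypic_equiv {G S M I : Type} [Group G] [AddCommGroup S] [Module ℂ S] [AddCommGroup M] [Module ℂ M]
    (σ : Representation ℂ G S) (hσ : σ.IsIrreducible) (ρ : Representation ℂ G M) (Θ : I → σ.IntertwiningMap ρ)
    (h : ∀ N : Submodule ℂ M, (∀ i x, Θ i x ∈ N) → N = ⊤) : ∃ J : Type, Nonempty (Representation.Equiv ρ (σ.finsupp J)) := by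
  have hS : IsSimpleModule (MonoidAlgebra ℂ G) σ.asModule := (irreducible_iff_isSimpleModule_asModule σ).1 hσ
  let θ : I → σ.asModule →ₗ[MonoidAlgebra ℂ G] ρ.asModule := fun i => IntertwiningMap.equivLinearMapAsModule σ ρ (Θ i)
  set s : Set (Submodule (MonoidAlgebra ℂ G) ρ.asModule) := {m | Nonempty (m ≃ₗ[MonoidAlgebra ℂ G] σ.asModule)} with hs
  have hsimple : ∀ m : s, IsSimpleModule (MonoidAlgebra ℂ G) m := fun m => IsSimpleModule.congr m.2.some
  have hrange : ∀ i, LinearMap.range (θ i) ≤ sSup s := by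
    intro i
    rcases LinearMap.injective_or_eq_zero (θ i) with hi | hi
    · exact le_sSup ⟨(LinearEquiv.ofInjective (θ i) hi).symm⟩
    · rw [hi, LinearMap.range_zero]
      exact bot_le
  have htop : sSup s = ⊤ := by
    let N : Submodule ℂ M :=
      { carrier := {x : M | (show ρ.asModule from x) ∈ sSup s}
        add_mem' := fun {a b} ha hb => (sSup s).add_mem ha hb
        zero_mem' := (sSup s).zero_mem
        smul_mem' := fun c x hx => by
          have h1 : MonoidAlgebra.single (1 : G) c • (show ρ.asModule from x) ∈ sSup s := (sSup s).smul_mem _ hx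
          have h2 : MonoidAlgebra.single (1 : G) c • (show ρ.asModule from x) = c • ρ 1 x :=
            Representation.single_smul ρ c 1 x
          rw [h2, map_one] at h1
          exact h1 }
    have h1 := h N (fun i x => hrange i ⟨x, rfl⟩)
    rw [eq_top_iff]
    intro x _
    have h2 : (show M from x) ∈ N := by
      rw [h1]
      exact Submodule.mem_top
    exact h2
  have hss : IsSemisimpleModule (MonoidAlgebra ℂ G) ρ.asModule :=
    isSemisimpleModule_of_isSemisimpleModule_submodule' (p := fun m : s => m.1) (fun m => inferInstance)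
      (by rw [← sSup_eq_iSup', htop])
  have hiso : IsIsotypicOfType (MonoidAlgebra ℂ G) ρ.asModule σ.asModule := fun m hm => by
    obtain ⟨S', hS', ⟨e⟩⟩ := Submodule.linearEquiv_of_sSup_eq_top m s htop
    exact ⟨e.trans hS'.some⟩
  obtain ⟨J, ⟨e⟩⟩ := hiso.linearEquiv_finsupp
  have key : ∀ (g : G) (f : J →₀ σ.asModule), MonoidAlgebra.single g (1 : ℂ) • f = σ.finsupp J g f := by
    intro g f
    induction f using Finsupp.induction_linear with
    | zero => rw [smul_zero]; exact (map_zero (σ.finsupp J g)).symm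
    | add a b ha hb => rw [smul_add, ha, hb]; exact (map_add (σ.finsupp J g) a b).symm
    | single j a =>
      rw [Finsupp.smul_single, Representation.single_smul, one_smul]
      exact (Representation.finsupp_single σ g j a).symm
  let e' : M ≃ₗ[ℂ] (J →₀ S) :=
    { toFun := fun x => e x
      invFun := fun y => e.symm y
      left_inv := fun x => e.symm_apply_apply x
      right_inv := fun y => e.apply_symm_apply y
      map_add' := fun x y => map_add e x y
      map_smul' := fun c x => by
        exact (LinearEquiv.restrictScalars ℂ e).map_smul c x }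
  refine ⟨J, ⟨Representation.Equiv.mk e' ?_⟩⟩
  intro g
  apply LinearMap.ext
  intro x
  have h1 : e (MonoidAlgebra.single g (1 : ℂ) • (show ρ.asModule from x)) =
      MonoidAlgebra.single g (1 : ℂ) • e (show ρ.asModule from x) := map_smul e _ _
  rw [Representation.single_smul, one_smul, key] at h1
  exact h1

theorem exists_irreducible_quotient {G V : Type} [Group G] [AddCommGroup V] [Module ℂ V] (ρ : Representation ℂ G V)
    (φ₀ : V) (h0 : φ₀ ≠ 0) (hgen : ∀ N : Submodule ℂ V, (∀ g, ∀ x ∈ N, ρ g x ∈ N) → φ₀ ∈ N → N = ⊤) :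
    ∃ (N : Submodule ℂ V) (hN : ∀ g, N ≤ N.comap (ρ g)), (ρ.quotient N hN).IsIrreducible := by
  let s : Set (Submodule ℂ V) := {N | (∀ g, ∀ x ∈ N, ρ g x ∈ N) ∧ φ₀ ∉ N}
  have hbot : (⊥ : Submodule ℂ V) ∈ s := by
    refine ⟨fun g x hx => ?_, fun h => h0 ((Submodule.mem_bot ℂ).1 h)⟩
    rw [Submodule.mem_bot] at hx ⊢
    rw [hx, map_zero]
  obtain ⟨N, _, hN⟩ := zorn_le_nonempty₀ s (fun c hcs hc y hy => by
    refine ⟨sSup c, ⟨?_, ?_⟩, fun z hz => le_sSup hz⟩
    · intro g x hx
      rw [Submodule.mem_sSup_of_directed ⟨y, hy⟩ hc.directedOn] at hx ⊢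
      obtain ⟨m, hm, hxm⟩ := hx
      exact ⟨m, hm, (hcs hm).1 g x hxm⟩
    · intro hx
      rw [Submodule.mem_sSup_of_directed ⟨y, hy⟩ hc.directedOn] at hx
      obtain ⟨m, hm, hxm⟩ := hx
      exact (hcs hm).2 hxm) ⊥ hbot
  refine ⟨N, fun g x hx => hN.prop.1 g x hx, ?_⟩
  set ρ' := ρ.quotient N (fun g x hx => hN.prop.1 g x hx) with hρ'
  have hne : (Submodule.Quotient.mk φ₀ : V ⧸ N) ≠ 0 := by
    rw [Ne, Submodule.Quotient.mk_eq_zero]
    exact hN.prop.2
  have hsub : ∀ Q : Submodule ℂ (V ⧸ N), (∀ g, ∀ x ∈ Q, ρ' g x ∈ Q) → Q = ⊥ ∨ Q = ⊤ := by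
    intro Q hQ
    have hstab : ∀ g, ∀ x ∈ Q.comap N.mkQ, ρ g x ∈ Q.comap N.mkQ := fun g x hx => hQ g _ hx
    have hle : N ≤ Q.comap N.mkQ := by
      intro x hx
      rw [Submodule.mem_comap, Submodule.mkQ_apply, (Submodule.Quotient.mk_eq_zero N).2 hx]
      exact Q.zero_mem
    by_cases hφ : φ₀ ∈ Q.comap N.mkQ
    · right
      have htop := hgen _ hstab hφ
      rw [eq_top_iff]
      intro y _
      obtain ⟨x, rfl⟩ := Submodule.Quotient.mk_surjective N y
      have : x ∈ Q.comap N.mkQ := by
        rw [htop]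
        exact Submodule.mem_top
      exact this
    · left
      have heq : Q.comap N.mkQ ≤ N := hN.le_of_ge ⟨hstab, hφ⟩ hle
      rw [eq_bot_iff]
      intro y hy
      obtain ⟨x, rfl⟩ := Submodule.Quotient.mk_surjective N y
      rw [Submodule.mem_bot, Submodule.Quotient.mk_eq_zero]
      exact heq hy
  have hnt : Nontrivial (Subrepresentation ρ') := by
    refine ⟨⊥, ⊤, fun he => ?_⟩
    have h1 : (Submodule.Quotient.mk φ₀ : V ⧸ N) ∈ (⊤ : Subrepresentation ρ').toSubmodule :=
      (Submodule.mem_top : _ ∈ (⊤ : Submodule ℂ (V ⧸ N)))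
    rw [← he] at h1
    exact hne ((Submodule.mem_bot ℂ).1 h1)
  exact
    { eq_bot_or_eq_top := fun Q => by
        rcases hsub Q.toSubmodule (fun g x hx => Q.apply_mem_toSubmodule g hx) with h1 | h1
        · left
          exact Subrepresentation.toSubmodule_injective h1
        · right
          exact Subrepresentation.toSubmodule_injective h1 }

end

end Pool.Agent.X290
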