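import Pool.Agent.X290.Triv

/-! The normalizer structure of the Iwahori subgroup at `∞`. -/

set_option autoImplicit false

namespace Pool.Agent.X290

open Polynomial WithZero Matrix

noncomputable section

theorem mul_apply_two {R : Type} [CommRing R] (g h : GL (Fin 2) R) (i j : Fin 2) :
    (g * h).1 i j = g.1 i 0 * h.1 0 j + g.1 i 1 * h.1 1 j := by
  change (g.1 * h.1) i j = _
  rw [Matrix.mul_apply, Fin.sum_univ_two]

theorem GL_ext {R : Type} [CommRing R] {g h : GL (Fin 2) R} (h00 : g.1 0 0 = h.1 0 0) (h01 : g.1 0 1 = h.1 0 1)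
    (h10 : g.1 1 0 = h.1 1 0) (h11 : g.1 1 1 = h.1 1 1) : g = h := by
  apply Units.ext
  ext i j
  fin_cases i <;> fin_cases j
  · exact h00
  · exact h01
  · exact h10
  · exact h11

/-- the determinant -/
def dt {R : Type} [CommRing R] (g : GL (Fin 2) R) : R := g.1 0 0 * g.1 1 1 - g.1 0 1 * g.1 1 0

theorem dt_eq {R : Type} [CommRing R] (g : GL (Fin 2) R) : dt g = g.1.det := (Matrix.det_fin_two g.1).symm

theorem dt_mul {R : Type} [CommRing R] (g h : GL (Fin 2) R) : dt (g * h) = dt g * dt h := by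
  rw [dt_eq, dt_eq, dt_eq]
  exact Matrix.det_mul _ _

theorem dt_one {R : Type} [CommRing R] : dt (1 : GL (Fin 2) R) = 1 := by
  rw [dt_eq]
  exact Matrix.det_one

theorem dt_mul_inv {R : Type} [CommRing R] (g : GL (Fin 2) R) : dt g * dt g⁻¹ = 1 := by
  rw [← dt_mul, mul_inv_cancel, dt_one]

theorem dt_ne {F : Type} [Field F] (g : GL (Fin 2) F) : dt g ≠ 0 := by
  intro h
  have := dt_mul_inv g
  rw [h, zero_mul] at this
  exact zero_ne_one this

theorem inv_apply {F : Type} [Field F] (g : GL (Fin 2) F) :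
    g⁻¹.1 0 0 = (dt g)⁻¹ * g.1 1 1 ∧ g⁻¹.1 0 1 = -((dt g)⁻¹ * g.1 0 1) ∧
    g⁻¹.1 1 0 = -((dt g)⁻¹ * g.1 1 0) ∧ g⁻¹.1 1 1 = (dt g)⁻¹ * g.1 0 0 := by
  have h0 := dt_ne g
  have h : g⁻¹.1 = (dt g)⁻¹ • !![g.1 1 1, -g.1 0 1; -g.1 1 0, g.1 0 0] := by
    have h1 : (dt g)⁻¹ • !![g.1 1 1, -g.1 0 1; -g.1 1 0, g.1 0 0] * g.1 = 1 := by
      rw [Matrix.eta_fin_two g.1]
      ext i j
      fin_cases i <;> fin_cases j <;> simp [Matrix.mul_apply, Fin.sum_univ_two]
      · have : dt g = g.1 0 0 * g.1 1 1 - g.1 0 1 * g.1 1 0 := rfl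
        field_simp
        rw [this]
        ring
      · ring
      · ring
      · have : dt g = g.1 0 0 * g.1 1 1 - g.1 0 1 * g.1 1 0 := rfl
        field_simp
        rw [this]
        ring
    have h2 : g.1 * g⁻¹.1 = 1 := g.mul_inv
    calc g⁻¹.1 = 1 * g⁻¹.1 := (one_mul _).symm
      _ = ((dt g)⁻¹ • !![g.1 1 1, -g.1 0 1; -g.1 1 0, g.1 0 0] * g.1) * g⁻¹.1 := by rw [h1]
      _ = (dt g)⁻¹ • !![g.1 1 1, -g.1 0 1; -g.1 1 0, g.1 0 0] * (g.1 * g⁻¹.1) := mul_assoc _ _ _
      _ = _ := by rw [h2, mul_one]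
  rw [h]
  simp

theorem vi_add_eq {x y : Kinf} (h : vi y < vi x) : vi (x + y) = vi x := Valuation.map_add_eq_of_lt_left _ h

theorem vi_neg (x : Kinf) : vi (-x) = vi x := Valuation.map_neg _ _

theorem vi_inv (x : Kinf) : vi x⁻¹ = (vi x)⁻¹ := map_inv₀ _ _

/-- the condition which defines the Iwahori subgroup times the center -/
def InS (g : Ginf) : Prop := vi (g.1 0 1) < vi (g.1 0 0) ∧ vi (g.1 1 0) ≤ vi (g.1 1 1) ∧ vi (g.1 0 0) = vi (g.1 1 1)

theorem vi_dt_of_InS {g : Ginf} (h : InS g) : vi (dt g) = vi (g.1 0 0) * vi (g.1 0 0) := by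
  obtain ⟨h1, h2, h3⟩ := h
  have e : dt g = g.1 0 0 * g.1 1 1 + -(g.1 0 1 * g.1 1 0) := by
    unfold dt
    ring
  have hpos : 0 < vi (g.1 0 0) := lt_of_le_of_lt zero_le h1
  rw [e, vi_add_eq, vi_mul, ← h3]
  rw [vi_neg, vi_mul, vi_mul, ← h3]
  calc vi (g.1 0 1) * vi (g.1 1 0) ≤ vi (g.1 0 1) * vi (g.1 0 0) := mul_le_mul_right (by rw [h3]; exact h2) _
    _ < _ := mul_lt_mul_of_pos_right h1 hpos

/-- the Iwahori subgroup times the center -/
def Si : Subgroup Ginf where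
  carrier := {g | InS g}
  mul_mem' := by
    rintro g h ⟨g1, g2, g3⟩ ⟨h1, h2, h3⟩
    have hg : 0 < vi (g.1 0 0) := lt_of_le_of_lt zero_le g1
    have hh : 0 < vi (h.1 0 0) := lt_of_le_of_lt zero_le h1
    have a1 : vi (g.1 0 1 * h.1 1 0) < vi (g.1 0 0 * h.1 0 0) := by
      rw [vi_mul, vi_mul]
      calc _ ≤ vi (g.1 0 1) * vi (h.1 0 0) := mul_le_mul_right (by rw [h3]; exact h2) _
        _ < _ := mul_lt_mul_of_pos_right g1 hh
    have a2 : vi (g.1 1 0 * h.1 0 1) < vi (g.1 1 1 * h.1 1 1) := by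
      rw [vi_mul, vi_mul, ← g3, ← h3]
      calc _ ≤ vi (g.1 0 0) * vi (h.1 0 1) := mul_le_mul_left (by rw [g3]; exact g2) _
        _ < _ := mul_lt_mul_of_pos_left h1 hg
    have e00 : vi ((g * h).1 0 0) = vi (g.1 0 0) * vi (h.1 0 0) := by
      rw [mul_apply_two, vi_add_eq a1, vi_mul]
    have e11 : vi ((g * h).1 1 1) = vi (g.1 1 1) * vi (h.1 1 1) := by
      rw [mul_apply_two, add_comm, vi_add_eq a2, vi_mul]
    refine ⟨?_, ?_, ?_⟩
    · rw [e00, mul_apply_two]
      refine vi_add_lt ?_ ?_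
      · rw [vi_mul]
        exact mul_lt_mul_of_pos_left h1 hg
      · rw [vi_mul, ← h3]
        exact mul_lt_mul_of_pos_right g1 hh
    · rw [e11, mul_apply_two]
      refine (Valuation.map_add _ _ _).trans (max_le ?_ ?_)
      · rw [map_mul, ← h3]
        exact mul_le_mul_left g2 _
      · rw [map_mul]
        exact mul_le_mul_right h2 _
    · rw [e00, e11, g3, h3]
  one_mem' := by
    refine ⟨?_, ?_, ?_⟩ <;> simp [vi]
  inv_mem' := by
    rintro g ⟨g1, g2, g3⟩
    obtain ⟨i00, i01, i10, i11⟩ := inv_apply g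
    have hd : 0 < vi (dt g)⁻¹ := by
      rw [vi_inv]
      exact inv_pos.2 (pos_of_ne (dt_ne g))
    refine ⟨?_, ?_, ?_⟩
    · rw [i00, i01, vi_neg, vi_mul, vi_mul, ← g3]
      exact mul_lt_mul_of_pos_left g1 hd
    · rw [i10, i11, vi_neg, vi_mul, vi_mul, g3]
      exact mul_le_mul_right g2 _
    · rw [i00, i11, vi_mul, vi_mul, g3]

theorem mem_Si {g : Ginf} : g ∈ Si ↔ InS g := Iff.rfl

theorem rP_Si {g : Ginf} (hg : g ∈ Si) : rP g B0 = B0 := by
  classical
  obtain ⟨g1, g2, g3⟩ := hg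
  have hpos : 0 < vi (g.1 0 0) := lt_of_le_of_lt zero_le g1
  apply PF_ext
  intro ξ hξ
  rw [rP_apply, B0_apply, B0_apply, vecMul_two, vecMul_two]
  have key : vi (ξ 0 * g.1 0 1 + ξ 1 * g.1 1 1) < vi (ξ 0 * g.1 0 0 + ξ 1 * g.1 1 0) ↔ vi (ξ 1) < vi (ξ 0) := by
    constructor
    · intro h
      by_contra hc
      rw [not_lt] at hc
      have h1 : ξ 1 ≠ 0 := by
        intro h1
        apply hξ
        rw [h1, vi, vi, map_zero, le_zero_iff, map_eq_zero] at hc
        ext i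
        fin_cases i
        · exact hc
        · exact h1
      have h1pos := pos_of_ne h1
      have a1 : vi (ξ 0 * g.1 0 1) < vi (ξ 1 * g.1 1 1) := by
        rw [vi_mul, vi_mul, ← g3]
        calc vi (ξ 0) * vi (g.1 0 1) ≤ vi (ξ 1) * vi (g.1 0 1) := mul_le_mul_left hc _
          _ < _ := mul_lt_mul_of_pos_left g1 h1pos
      rw [add_comm (ξ 0 * g.1 0 1), vi_add_eq a1] at h
      have a2 : vi (ξ 0 * g.1 0 0 + ξ 1 * g.1 1 0) ≤ vi (ξ 1 * g.1 1 1) := by
        refine (Valuation.map_add _ _ _).trans (max_le ?_ ?_)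
        · rw [map_mul, vi_mul, ← g3]
          exact mul_le_mul_left hc _
        · rw [map_mul, vi_mul]
          exact mul_le_mul_right g2 _
      exact absurd h (not_lt.2 a2)
    · intro h
      have h0pos : 0 < vi (ξ 0) := lt_of_le_of_lt zero_le h
      have a1 : vi (ξ 1 * g.1 1 0) < vi (ξ 0 * g.1 0 0) := by
        rw [vi_mul, vi_mul]
        calc vi (ξ 1) * vi (g.1 1 0) ≤ vi (ξ 1) * vi (g.1 0 0) := mul_le_mul_right (by rw [g3]; exact g2) _
          _ < _ := mul_lt_mul_of_pos_right h hpos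
      rw [vi_add_eq a1]
      refine vi_add_lt ?_ ?_
      · rw [vi_mul, vi_mul]
        exact mul_lt_mul_of_pos_left g1 h0pos
      · rw [vi_mul, vi_mul, ← g3]
        exact mul_lt_mul_of_pos_right h hpos
  simp only [key]

theorem om_apply : (om).1 0 0 = 0 ∧ (om).1 0 1 = 1 ∧ (om).1 1 0 = T ∧ (om).1 1 1 = 0 := by
  have hT : (Tu : Kinf) = T := rfl
  refine ⟨?_, ?_, ?_, ?_⟩ <;> simp [om, sw, dg, hT]

theorem dt_om : dt om = -T := by
  obtain ⟨o1, o2, o3, o4⟩ := om_apply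
  unfold dt
  rw [o1, o2, o3]
  ring

theorem om_inv_apply : (om⁻¹).1 0 0 = 0 ∧ (om⁻¹).1 0 1 = T⁻¹ ∧ (om⁻¹).1 1 0 = 1 ∧ (om⁻¹).1 1 1 = 0 := by
  obtain ⟨o1, o2, o3, o4⟩ := om_apply
  obtain ⟨i1, i2, i3, i4⟩ := inv_apply om
  have hT := T_ne
  rw [i1, i2, i3, i4, dt_om, o1, o2, o3, o4]
  refine ⟨by simp, ?_, ?_, by simp⟩
  · field_simp
  · field_simp

theorem vi_T_inv : vi T⁻¹ = exp (-1 : ℤ) := by
  rw [vi_inv, vi_T]
  rfl

theorem vi_lt_T_mul {x y : Kinf} (h : vi x < vi y) : vi (T * x) ≤ vi y := by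
  rcases eq_or_ne x 0 with rfl | hx
  · simp [vi]
  rw [vi_mul, vi_T]
  have hx' := (pos_of_ne hx).ne'
  have hy' := (lt_of_le_of_lt zero_le h).ne'
  rw [← exp_log hx', ← exp_log hy'] at h ⊢
  rw [← exp_add, exp_le_exp]
  rw [exp_lt_exp] at h
  omega

theorem vi_Tinv_mul_lt {x y : Kinf} (h : vi x ≤ vi y) (hy : y ≠ 0) : vi (T⁻¹ * x) < vi y := by
  rw [vi_mul, vi_T_inv]
  calc exp (-1 : ℤ) * vi x ≤ exp (-1 : ℤ) * vi y := mul_le_mul_right h _
    _ < 1 * vi y := mul_lt_mul_of_pos_right (by rw [← exp_zero, exp_lt_exp]; norm_num) (pos_of_ne hy)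
    _ = _ := one_mul _

theorem om_conj {g : Ginf} (hg : g ∈ Si) : om * g * om⁻¹ ∈ Si := by
  obtain ⟨g1, g2, g3⟩ := hg
  obtain ⟨o1, o2, o3, o4⟩ := om_apply
  obtain ⟨p1, p2, p3, p4⟩ := om_inv_apply
  have hT := T_ne
  have e00 : (om * g * om⁻¹).1 0 0 = g.1 1 1 := by
    rw [mul_apply_two, mul_apply_two, mul_apply_two, o1, o2, p1, p3]
    ring
  have e01 : (om * g * om⁻¹).1 0 1 = T⁻¹ * g.1 1 0 := by
    rw [mul_apply_two, mul_apply_two, mul_apply_two, o1, o2, p2, p4]
    ring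
  have e10 : (om * g * om⁻¹).1 1 0 = T * g.1 0 1 := by
    rw [mul_apply_two, mul_apply_two, mul_apply_two, o3, o4, p1, p3]
    ring
  have e11 : (om * g * om⁻¹).1 1 1 = g.1 0 0 := by
    rw [mul_apply_two, mul_apply_two, mul_apply_two, o3, o4, p2, p4]
    field_simp
    ring
  refine ⟨?_, ?_, ?_⟩
  · rw [e00, e01]
    refine vi_Tinv_mul_lt g2 ?_
    intro h
    rw [h, vi, vi, map_zero] at g3
    rw [vi, vi, g3] at g1
    exact absurd g1 (by simp)
  · rw [e10, e11]
    exact vi_lt_T_mul g1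
  · rw [e00, e11, g3]

theorem om_sq : om * om ∈ Si := by
  obtain ⟨o1, o2, o3, o4⟩ := om_apply
  refine ⟨?_, ?_, ?_⟩
  · rw [mul_apply_two, mul_apply_two, o1, o2, o3, o4]
    simp only [mul_zero, zero_mul, add_zero, zero_add, one_mul]
    rw [vi, map_zero]
    exact pos_of_ne T_ne
  · rw [mul_apply_two, mul_apply_two, o1, o2, o3, o4]
    simp [vi]
  · rw [mul_apply_two, mul_apply_two, o1, o2, o3, o4]
    simp

theorem om_conj' {g : Ginf} (hg : g ∈ Si) : om⁻¹ * g * om ∈ Si := by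
  have e : om⁻¹ * g * om = (om * om)⁻¹ * (om * g * om⁻¹) * (om * om) := by group
  rw [e]
  exact Si.mul_mem (Si.mul_mem (Si.inv_mem om_sq) (om_conj hg)) om_sq

/-- the maximal compact subgroup times the center -/
def InY (g : Ginf) : Prop := ∃ C : WithZero (Multiplicative ℤ), (∀ i j, vi (g.1 i j) ≤ C) ∧ vi (dt g) = C * C

theorem InY_mul {g h : Ginf} (hg : InY g) (hh : InY h) : InY (g * h) := by
  obtain ⟨C, h1, h2⟩ := hg
  obtain ⟨D, h3, h4⟩ := hh
  refine ⟨C * D, fun i j => ?_, ?_⟩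
  · rw [mul_apply_two]
    refine (Valuation.map_add _ _ _).trans (max_le ?_ ?_)
    · rw [map_mul]
      exact mul_le_mul' (h1 _ _) (h3 _ _)
    · rw [map_mul]
      exact mul_le_mul' (h1 _ _) (h3 _ _)
  · rw [dt_mul, vi_mul, h2, h4]
    exact mul_mul_mul_comm _ _ _ _

theorem InY_of_InS {g : Ginf} (h : InS g) : InY g := by
  refine ⟨vi (g.1 0 0), ?_, vi_dt_of_InS h⟩
  obtain ⟨h1, h2, h3⟩ := h
  intro i j
  fin_cases i <;> fin_cases j
  · exact le_rfl
  · exact h1.le
  · rw [h3]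
    exact h2
  · exact h3.ge

theorem InY_unip : InY (unip 1 : Ginf) := by
  refine ⟨1, ?_, ?_⟩
  · intro i j
    fin_cases i <;> fin_cases j <;> simp [unip, vi]
  · unfold dt
    simp [unip, vi]

theorem InY_sw : InY (sw : Ginf) := by
  refine ⟨1, ?_, ?_⟩
  · intro i j
    fin_cases i <;> fin_cases j <;> simp [sw, vi]
  · unfold dt
    simp [sw, vi, Valuation.map_neg]

theorem InS_of_small {g : Ginf} {C : WithZero (Multiplicative ℤ)} (h : ∀ i j, vi (g.1 i j) ≤ C)
    (hd : vi (dt g) = C * C) (h01 : vi (g.1 0 1) < C) : InS g := by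
  have hC : 0 < C := lt_of_le_of_lt zero_le h01
  have h1 : vi (g.1 0 0 * g.1 1 1) = C * C := by
    have e : g.1 0 0 * g.1 1 1 = dt g + g.1 0 1 * g.1 1 0 := by
      unfold dt
      ring
    rw [e, vi_add_eq, hd]
    rw [hd, vi_mul]
    calc vi (g.1 0 1) * vi (g.1 1 0) ≤ vi (g.1 0 1) * C := mul_le_mul_right (h _ _) _
      _ < _ := mul_lt_mul_of_pos_right h01 hC
  rw [vi_mul] at h1
  have h00 : vi (g.1 0 0) = C := by
    apply le_antisymm (h _ _)
    by_contra hc
    rw [not_le] at hc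
    have : vi (g.1 0 0) * vi (g.1 1 1) < C * C :=
      calc _ ≤ vi (g.1 0 0) * C := mul_le_mul_right (h _ _) _
        _ < _ := mul_lt_mul_of_pos_right hc hC
    exact absurd h1 this.ne
  have h11 : vi (g.1 1 1) = C := by
    apply le_antisymm (h _ _)
    by_contra hc
    rw [not_le] at hc
    have : vi (g.1 0 0) * vi (g.1 1 1) < C * C :=
      calc _ ≤ C * vi (g.1 1 1) := mul_le_mul_left (h _ _) _
        _ < _ := mul_lt_mul_of_pos_left hc hC
    exact absurd h1 this.ne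
  exact ⟨by rw [h00]; exact h01, by rw [h11]; exact h _ _, by rw [h00, h11]⟩

theorem mul_unip_apply (g : Ginf) : (g * unip 1).1 0 0 = g.1 0 0 ∧ (g * unip 1).1 0 1 = g.1 0 0 + g.1 0 1 := by
  constructor <;> rw [mul_apply_two] <;> simp [unip]

theorem mul_sw_apply (g : Ginf) : (g * sw).1 0 0 = g.1 0 1 ∧ (g * sw).1 0 1 = g.1 0 0 := by
  constructor <;> rw [mul_apply_two] <;> simp [sw]

open Classical in
/-- the number of cosets -/
theorem count (g : Ginf) : (if g ∈ Si then (1 : ℂ) else 0) + (if g * unip 1 ∈ Si then 1 else 0) +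
    (if g * sw ∈ Si then 1 else 0) = if InY g then 1 else 0 := by
  obtain ⟨u1, u2⟩ := mul_unip_apply g
  obtain ⟨w1, w2⟩ := mul_sw_apply g
  have hex1 : g ∈ Si → g * unip 1 ∉ Si := by
    rintro ⟨h1, _⟩ ⟨h2, _⟩
    rw [u1, u2, vi_add_eq h1] at h2
    exact lt_irrefl _ h2
  have hex2 : g ∈ Si → g * sw ∉ Si := by
    rintro ⟨h1, _⟩ ⟨h2, _⟩
    rw [w1, w2] at h2
    exact lt_asymm h1 h2
  have hex3 : g * unip 1 ∈ Si → g * sw ∉ Si := by
    rintro ⟨h1, _⟩ ⟨h2, _⟩
    rw [w1, w2] at h2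
    rw [u1, u2, add_comm, vi_add_eq h2] at h1
    exact lt_asymm h1 h2
  by_cases hY : InY g
  · rw [if_pos hY]
    obtain ⟨C, hC, hd⟩ := hY
    by_cases h01 : vi (g.1 0 1) < C
    · have hg : g ∈ Si := InS_of_small hC hd h01
      rw [if_pos hg, if_neg (hex1 hg), if_neg (hex2 hg)]
      norm_num
    · have h01' : vi (g.1 0 1) = C := le_antisymm (hC _ _) (not_lt.1 h01)
      have hCpos : 0 < C := by
        rw [zero_lt_iff]
        rintro rfl
        rw [mul_zero] at hd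
        exact absurd hd (pos_of_ne (dt_ne g)).ne'
      have hne : g.1 0 1 ≠ 0 := by
        intro h0
        rw [h0, vi, map_zero] at h01'
        exact hCpos.ne h01'
      by_cases h00 : vi (g.1 0 0) < C
      · have hg : g * sw ∈ Si := by
          refine InS_of_small (C := C) ?_ ?_ (by rw [w2]; exact h00)
          · intro i j
            have e : (g * sw).1 i j = g.1 i 0 * (sw : Ginf).1 0 j + g.1 i 1 * (sw : Ginf).1 1 j := mul_apply_two _ _ _ _
            rw [e]
            fin_cases j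
            · simpa [sw] using hC i 1
            · simpa [sw] using hC i 0
          · rw [dt_mul, vi_mul, hd]
            have : vi (dt (sw : Ginf)) = 1 := by
              unfold dt
              simp [sw, vi, Valuation.map_neg]
            rw [this, mul_one]
        have h1 : g ∉ Si := fun h => hex2 h hg
        have h2 : g * unip 1 ∉ Si := fun h => hex3 h hg
        rw [if_neg h1, if_neg h2, if_pos hg]
        norm_num
      · have h00' : vi (g.1 0 0) = C := le_antisymm (hC _ _) (not_lt.1 h00)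
        have hsum : vi (g.1 0 0 + g.1 0 1) < C := by
          have hq : vi (g.1 0 0 / g.1 0 1) = 1 := by
            rw [vi, map_div₀]
            change vi _ / vi _ = 1
            rw [h00', h01', div_self hCpos.ne']
          rcases residue_one hq.le with h | h
          · exact absurd hq h.ne
          · have e : g.1 0 0 / g.1 0 1 - 1 = (g.1 0 0 + g.1 0 1) / g.1 0 1 := by
              field_simp
              have := neg_eq' (g.1 0 1)
              rw [sub_eq_add_neg, this]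
            rw [e, vi, map_div₀] at h
            change vi _ / vi _ < 1 at h
            rw [h01'] at h
            exact (div_lt_one₀ hCpos).1 h
        have hg : g * unip 1 ∈ Si := by
          refine InS_of_small (C := C) ?_ ?_ (by rw [u2]; exact hsum)
          · intro i j
            have e : (g * unip 1).1 i j = g.1 i 0 * (unip 1 : Ginf).1 0 j + g.1 i 1 * (unip 1 : Ginf).1 1 j :=
              mul_apply_two _ _ _ _
            rw [e]
            fin_cases j
            · simpa [unip] using hC i 0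
            · simp only [unip]
              simp only [Fin.mk_one, of_apply, cons_val', cons_val_one, cons_val_fin_one, cons_val_zero, mul_one]
              exact (Valuation.map_add _ _ _).trans (max_le (hC i 0) (hC i 1))
          · rw [dt_mul, vi_mul, hd]
            have : vi (dt (unip 1 : Ginf)) = 1 := by
              unfold dt
              simp [unip, vi]
            rw [this, mul_one]
        have h1 : g ∉ Si := fun h => hex1 h hg
        have h2 : g * sw ∉ Si := hex3 hg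
        rw [if_neg h1, if_pos hg, if_neg h2]
        norm_num
  · have h1 : g ∉ Si := fun h => hY (InY_of_InS h)
    have h2 : g * unip 1 ∉ Si := fun h => hY (by
      have := InY_mul (InY_of_InS h) InY_unip
      rwa [mul_assoc, unip_sq, mul_one] at this)
    have h3 : g * sw ∉ Si := fun h => hY (by
      have := InY_mul (InY_of_InS h) InY_sw
      rwa [mul_assoc, sw_sq, mul_one] at this)
    rw [if_neg h1, if_neg h2, if_neg h3, if_neg hY]
    norm_num

theorem InY_unip_mul {g : Ginf} : InY (unip 1 * g) ↔ InY g := by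
  constructor
  · intro h
    have := InY_mul InY_unip h
    rwa [← mul_assoc, unip_sq, one_mul] at this
  · exact InY_mul InY_unip

theorem gd_coe (a : Kinf) (n : ℤ) : (gd a n).1 0 0 = T ^ (-n) ∧ (gd a n).1 0 1 = -a ∧ (gd a n).1 1 0 = 0 ∧
    (gd a n).1 1 1 = 1 := by
  unfold gd
  refine ⟨?_, ?_, ?_, ?_⟩ <;> rw [mul_apply_two] <;> simp [unip, dg, ← Tu_zpow]

/-- the decomposition of `GL₂(K_∞)` -/
theorem dec1 {x : Ginf} (h : vi (x.1 1 0) ≤ vi (x.1 1 1)) : ∃ (a : Kinf) (n : ℤ) (s : Ginf), s ∈ Si ∧ x = gd a n * s := by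
  have hd : x.1 1 1 ≠ 0 := by
    intro h0
    rw [h0, vi, vi, map_zero, le_zero_iff, map_eq_zero] at h
    apply dt_ne x
    unfold dt
    rw [h0, h]
    ring
  have hdt := dt_ne x
  set a : Kinf := -(x.1 0 1 / x.1 1 1) with ha
  set n : ℤ := 2 * log (vi (x.1 1 1)) - log (vi (dt x)) with hn
  refine ⟨a, n, (gd a n)⁻¹ * x, ?_, by group⟩
  obtain ⟨q1, q2, q3, q4⟩ := gd_coe a n
  obtain ⟨i1, i2, i3, i4⟩ := inv_apply (gd a n)
  have hdg : dt (gd a n) = T ^ (-n) := by
    unfold dt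
    rw [q1, q2, q3, q4]
    ring
  have hTn : (T ^ (-n))⁻¹ = T ^ n := by
    rw [← _root_.zpow_neg, neg_neg]
  rw [hdg, hTn] at i1 i2 i3 i4
  rw [q4, mul_one] at i1
  rw [q2] at i2
  rw [q3, mul_zero, neg_zero] at i3
  rw [q1, ← zpow_add₀ T_ne, add_neg_cancel, zpow_zero] at i4
  have e00 : ((gd a n)⁻¹ * x).1 0 0 = T ^ n * (dt x / x.1 1 1) := by
    rw [mul_apply_two, i1, i2, ha]
    unfold dt
    field_simp
    ring
  have e01 : ((gd a n)⁻¹ * x).1 0 1 = 0 := by
    rw [mul_apply_two, i1, i2, ha]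
    field_simp
    ring
  have e10 : ((gd a n)⁻¹ * x).1 1 0 = x.1 1 0 := by
    rw [mul_apply_two, i3, i4]
    ring
  have e11 : ((gd a n)⁻¹ * x).1 1 1 = x.1 1 1 := by
    rw [mul_apply_two, i3, i4]
    ring
  have hv : vi (T ^ n * (dt x / x.1 1 1)) = vi (x.1 1 1) := by
    rw [vi_mul, vi_Tz, vi, map_div₀]
    change exp n * (vi _ / vi _) = vi _
    have h1 := (pos_of_ne hd).ne'
    have h2 := (pos_of_ne hdt).ne'
    conv_lhs => rw [← exp_log h1, ← exp_log h2, ← exp_sub, ← exp_add]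
    conv_rhs => rw [← exp_log h1]
    congr 1
    rw [hn]
    ring
  refine ⟨?_, ?_, ?_⟩
  · rw [e00, e01, hv, vi, map_zero]
    exact pos_of_ne hd
  · rw [e10, e11]
    exact h
  · rw [e00, e11, hv]

theorem dec (x : Ginf) : ∃ (a : Kinf) (n : ℤ) (s : Ginf), s ∈ Si ∧ (x = gd a n * s ∨ x = gd a n * om * s) := by
  rcases le_or_gt (vi (x.1 1 0)) (vi (x.1 1 1)) with h | h
  · obtain ⟨a, n, s, hs, e⟩ := dec1 h
    exact ⟨a, n, s, hs, Or.inl e⟩
  · obtain ⟨p1, p2, p3, p4⟩ := om_inv_apply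
    have e10 : (x * om⁻¹).1 1 0 = x.1 1 1 := by
      rw [mul_apply_two, p1, p3]
      ring
    have e11 : (x * om⁻¹).1 1 1 = T⁻¹ * x.1 1 0 := by
      rw [mul_apply_two, p2, p4]
      ring
    have h1 : vi ((x * om⁻¹).1 1 0) ≤ vi ((x * om⁻¹).1 1 1) := by
      rw [e10, e11, vi_mul, vi_T_inv]
      have := vi_lt_T_mul h
      rw [vi_mul, vi_T] at this
      have h3 := mul_le_mul_right this (exp (-1 : ℤ))
      rw [← mul_assoc, ← exp_add, neg_add_cancel, exp_zero, one_mul] at h3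
      exact h3
    obtain ⟨a, n, s, hs, e⟩ := dec1 h1
    refine ⟨a, n, om⁻¹ * s * om, om_conj' hs, Or.inr ?_⟩
    have : x = (x * om⁻¹) * om := by group
    rw [this, e]
    group

theorem Si_mem_nhds : (Si : Set Ginf) ∈ nhds (1 : Ginf) := by
  refine Filter.mem_of_superset (Kn_mem_nhds 0) fun g hg => ?_
  have h := entries_of_mem_Kn hg
  have h00 := h 0 0
  have h01 := h 0 1
  have h10 := h 1 0
  have h11 := h 1 1
  simp only [Matrix.one_apply_eq, Nat.cast_zero, neg_zero, exp_zero] at h00 h11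
  have z01 : (1 : Matrix (Fin 2) (Fin 2) Kinf) 0 1 = 0 := by simp
  have z10 : (1 : Matrix (Fin 2) (Fin 2) Kinf) 1 0 = 0 := by simp
  rw [z01, sub_zero] at h01
  rw [z10, sub_zero] at h10
  simp only [Nat.cast_zero, neg_zero, exp_zero] at h01 h10
  have e00 : vi (g.1 0 0) = 1 := by
    have e : g.1 0 0 = 1 + (g.1 0 0 - 1) := by ring
    rw [e, vi_add_eq (by rw [vi, vi, map_one]; exact h00), vi, map_one]
  have e11 : vi (g.1 1 1) = 1 := by
    have e : g.1 1 1 = 1 + (g.1 1 1 - 1) := by ring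
    rw [e, vi_add_eq (by rw [vi, vi, map_one]; exact h11), vi, map_one]
  exact ⟨by rw [e00]; exact h01, by rw [e11]; exact h10.le, by rw [e00, e11]⟩

end

end Pool.Agent.X290
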