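import Pool.Agent.X290.Fd
import Pool.Agent.X290.Cpt

set_option autoImplicit false

/-!
# The automorphic kernel
-/

namespace Pool.Agent.X290.Ker

open UpperHalfPlane MeasureTheory Set Filter Topology ModularGroup Hyp Fd
open scoped MatrixGroups Modular

/-- `J` as a permutation -/
noncomputable def Jp : Equiv.Perm ℍ := MulAction.toPerm J

lemma Jp_apply (z : ℍ) : Jp z = J • z := rfl

lemma J_J (z : ℍ) : J • J • z = z := by
  rw [smul_smul, ← sq, J_sq, one_smul]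

lemma Jp_Jp : Jp * Jp = 1 := by
  ext z
  change ((J • J • z : ℍ) : ℂ) = z
  rw [J_J]

/-- the conjugate matrix -/
def cj (γ : SL(2, ℤ)) : SL(2, ℤ) :=
  ⟨!![γ.1 0 0, -γ.1 0 1; -γ.1 1 0, γ.1 1 1], by
    have := γ.2
    rw [Matrix.det_fin_two] at this
    rw [Matrix.det_fin_two_of]
    linarith⟩

lemma J_smul_smul (γ : SL(2, ℤ)) (z : ℍ) : J • γ • J • z = cj γ • z := by
  rw [smul_eq_gl, smul_eq_gl, smul_smul, smul_smul]
  congr 1
  ext i j
  fin_cases i <;> fin_cases j <;>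
  simp [cj, Matrix.mul_apply, Fin.sum_univ_two, Matrix.vecMul, dotProduct]

/-- conjugation by `J` on `Gm` -/
noncomputable def cJ : Gm ≃ Gm where
  toFun h := ⟨Jp * h * Jp, by
    obtain ⟨γ, rfl⟩ := exists_cl h
    refine ⟨cj γ, ?_⟩
    ext z
    change ((cj γ • z : ℍ) : ℂ) = ((J • γ • J • z : ℍ) : ℂ)
    rw [J_smul_smul]⟩
  invFun h := ⟨Jp * h * Jp, by
    obtain ⟨γ, rfl⟩ := exists_cl h
    refine ⟨cj γ, ?_⟩
    ext z
    change ((cj γ • z : ℍ) : ℂ) = ((J • γ • J • z : ℍ) : ℂ)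
    rw [J_smul_smul]⟩
  left_inv h := by
    apply Subtype.ext
    change Jp * (Jp * h * Jp) * Jp = h
    rw [← mul_assoc, ← mul_assoc, Jp_Jp, one_mul, mul_assoc, Jp_Jp, mul_one]
  right_inv h := by
    apply Subtype.ext
    change Jp * (Jp * h * Jp) * Jp = h
    rw [← mul_assoc, ← mul_assoc, Jp_Jp, one_mul, mul_assoc, Jp_Jp, mul_one]

lemma cJ_smul (h : Gm) (z : ℍ) : cJ h • z = J • h • J • z := rfl

/-- finiteness for compact sets -/
theorem finite_Gm {K L : Set ℍ} (hK : IsCompact K) (hL : IsCompact L) :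
    {g : Gm | ∃ w ∈ K, g • w ∈ L}.Finite := by
  have h1 := ProperlyDiscontinuousSMul.finite_disjoint_inter_image (Γ := 𝒮ℒ) (T := ℍ) hK hL
  let F : Gm → 𝒮ℒ := fun g =>
    ⟨((exists_cl g).choose : GL (Fin 2) ℝ), ⟨(exists_cl g).choose, rfl⟩⟩
  have hF : ∀ (g : Gm) (z : ℍ), F g • z = g • z := by
    intro g z
    conv_rhs => rw [(exists_cl g).choose_spec]
    rfl
  have hinj : Function.Injective F := by
    intro g g' h
    apply Subtype.ext
    ext z
    change ((g • z : ℍ) : ℂ) = ((g' • z : ℍ) : ℂ)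
    rw [← hF, ← hF, h]
  refine (h1.preimage hinj.injOn).subset ?_
  rintro g ⟨w, hw, hgw⟩
  rw [mem_preimage, mem_ofPred_eq]
  exact ⟨g • w, ⟨w, hw, hF g w⟩, hgw⟩

/-- only finitely many group elements matter locally -/
theorem finite_U {K L : Set ℍ} (hK : IsCompact K) (hL : IsCompact L) :
    {g : Gm | ∃ z ∈ K, ∃ w ∈ L, U z (g • w) ≤ 1 / 8}.Finite := by
  refine (finite_Gm hL (hK.cthickening (r := 1))).subset ?_
  rintro g ⟨z, hz, w, hw, h⟩
  refine ⟨w, hw, Metric.mem_cthickening_of_dist_le _ z _ _ hz ?_⟩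
  rw [dist_comm]
  exact dist_le_of_U h

variable {φ : ℝ → ℝ}

/-- the automorphic kernel -/
noncomputable def A (φ : ℝ → ℝ) (z w : ℍ) : ℝ := ∑' g : Gm, φ (U z (g • w))

lemma finite_U1 (z w : ℍ) : {g : Gm | U z (g • w) ≤ 1 / 8}.Finite := by
  refine (finite_U (isCompact_singleton (x := z)) (isCompact_singleton (x := w))).subset ?_
  intro g hg
  exact ⟨z, rfl, w, rfl, hg⟩

lemma summable_A (hφ : Rho φ) (z w : ℍ) : Summable fun g : Gm => φ (U z (g • w)) := by
  refine summable_of_hasFiniteSupport ((finite_U1 z w).subset fun g hg => ?_)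
  by_contra hc
  rw [mem_ofPred_eq, not_le] at hc
  exact hg (hφ.supp _ hc.le)

lemma A_eq_sum (hφ : Rho φ) {z w : ℍ} {s : Finset Gm} (hs : ∀ g ∉ s, 1 / 8 < U z (g • w)) :
    A φ z w = ∑ g ∈ s, φ (U z (g • w)) :=
  tsum_eq_sum fun g hg => hφ.supp _ (hs g hg).le

theorem continuous_A (hφ : Rho φ) : Continuous fun p : ℍ × ℍ => A φ p.1 p.2 := by
  rw [continuous_iff_continuousAt]
  rintro ⟨z0, w0⟩
  obtain ⟨K, hK, hKz⟩ := exists_compact_mem_nhds z0
  obtain ⟨L, hL, hLw⟩ := exists_compact_mem_nhds w0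
  set s := (finite_U hK hL).toFinset with hs
  have h1 : (fun p : ℍ × ℍ => A φ p.1 p.2) =ᶠ[𝓝 (z0, w0)]
      fun p => ∑ g ∈ s, φ (U p.1 (g • p.2)) := by
    filter_upwards [prod_mem_nhds hKz hLw] with p hp
    refine A_eq_sum hφ fun g hg => ?_
    by_contra hc
    push Not at hc
    exact hg ((finite_U hK hL).mem_toFinset.mpr ⟨p.1, hp.1, p.2, hp.2, hc⟩)
  refine ContinuousAt.congr ?_ h1.symm
  refine (continuous_finsetSum _ fun g _ => ?_).continuousAt
  exact hφ.cont.comp (continuous_U.comp (continuous_fst.prodMk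
    ((continuous_smul g).comp continuous_snd)))

lemma A_smul_right (φ : ℝ → ℝ) (g : Gm) (z w : ℍ) : A φ z (g • w) = A φ z w := by
  unfold A
  rw [← Equiv.tsum_eq (Equiv.mulRight g) (fun h : Gm => φ (U z (h • w)))]
  refine tsum_congr fun h => ?_
  rw [Equiv.coe_mulRight, mul_smul]

lemma A_comm (φ : ℝ → ℝ) (z w : ℍ) : A φ z w = A φ w z := by
  unfold A
  rw [← Equiv.tsum_eq (Equiv.inv Gm) (fun h : Gm => φ (U w (h • z)))]
  refine tsum_congr fun h => ?_
  rw [Equiv.inv_apply, ← U_smul' h w (h⁻¹ • z), smul_inv_smul, U_comm]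

lemma A_smul_left (φ : ℝ → ℝ) (g : Gm) (z w : ℍ) : A φ (g • z) w = A φ z w := by
  rw [A_comm, A_smul_right, A_comm]

lemma A_J (φ : ℝ → ℝ) (z w : ℍ) : A φ (J • z) w = A φ z (J • w) := by
  unfold A
  rw [← Equiv.tsum_eq cJ (fun h : Gm => φ (U (J • z) (h • w)))]
  refine tsum_congr fun h => ?_
  rw [cJ_smul, U_smul]

/-- the odd kernel -/
noncomputable def km (φ : ℝ → ℝ) (z w : ℍ) : ℝ := (A φ z w - A φ (J • z) w) / 2

lemma km_symm (φ : ℝ → ℝ) (z w : ℍ) : km φ z w = km φ w z := by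
  unfold km
  rw [A_comm φ z w, A_J, A_comm φ z (J • w)]

lemma km_smul (φ : ℝ → ℝ) (g : Gm) (z w : ℍ) : km φ (g • z) w = km φ z w := by
  unfold km
  rw [A_smul_left]
  have h1 : J • g • z = cJ g • J • z := by rw [cJ_smul, J_J]
  rw [h1, A_smul_left]

lemma km_smul_right (φ : ℝ → ℝ) (g : Gm) (z w : ℍ) : km φ z (g • w) = km φ z w := by
  rw [km_symm, km_smul, km_symm]

lemma km_J (φ : ℝ → ℝ) (z w : ℍ) : km φ (J • z) w = - km φ z w := by
  unfold km
  rw [J_J]; ring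

lemma continuous_km (hφ : Rho φ) : Continuous fun p : ℍ × ℍ => km φ p.1 p.2 := by
  unfold km
  have h := continuous_A hφ
  have h1 : Continuous fun p : ℍ × ℍ => A φ (J • p.1) p.2 :=
    h.comp (((continuous_const_smul J).comp continuous_fst).prodMk continuous_snd)
  exact (h.sub h1).div_const 2

end Pool.Agent.X290.Ker
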