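import Pool.Agent.X290.Mel

set_option autoImplicit false

/-!
# The twisted L-functions of odd Hecke-Maass forms vanish at the centre
-/

namespace Pool.Agent.X290.LF

open Complex MeasureTheory Set Filter Topology Fou Bes Coef EulP Tw Mel

variable {f : ℂ → ℂ} {mu nu : ℂ} {a c : ℕ → ℂ} {w : ℂ}
variable {κ : ℕ} {φ : ℂ → ℂ} {q : ℕ} [NeZero q] {χ : DirichletCharacter ℂ q}

lemma inv_ofReal_cpow {x : ℝ} (hx : 0 < x) (s : ℂ) : ((1 / x : ℝ) : ℂ) ^ s = (x : ℂ) ^ (-s) := by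
  rw [one_div, Complex.ofReal_inv, Complex.inv_cpow, Complex.cpow_neg]
  rw [Complex.arg_ofReal_of_nonneg hx.le]
  exact Real.pi_pos.ne

/-- normalised twisted sum -/
noncomputable def G (κ : ℕ) (φ : ℂ → ℂ) (χ : DirichletCharacter ℂ q) (y : ℝ) : ℂ :=
  (y : ℂ) ^ ((κ : ℂ) - 1 / 2) • F φ χ (1 / q * y)

lemma G_fe (hφ : Phi f κ φ) (hχ : χ⁻¹ = χ) (hsgn : χ (-1) = (-1) ^ (κ + 1)) {x : ℝ} (hx : 0 < x) :
    G κ φ χ (1 / x) = ((-1 : ℂ) * ((x ^ (1 : ℝ) : ℝ) : ℂ)) • G κ φ χ x := by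
  have hq : 0 < q := Nat.pos_of_ne_zero (NeZero.ne q)
  have hqR : (0 : ℝ) < q := by exact_mod_cast hq
  have hqC : (q : ℂ) ≠ 0 := by exact_mod_cast hqR.ne'
  have hxC : (x : ℂ) ≠ 0 := by exact_mod_cast hx.ne'
  have h1 := F_fe hφ χ hχ (y := 1 / q * x) (by positivity)
  have e1 : (1 : ℝ) / (q ^ 2 * (1 / q * x)) = 1 / q * (1 / x) := by field_simp
  rw [e1] at h1
  unfold G
  rw [h1, hsgn, inv_ofReal_cpow hx, Real.rpow_one]
  simp only [smul_eq_mul]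
  have e2 : ((q : ℂ) ^ 2 * (((1 / q * x : ℝ)) : ℂ) ^ 2) = (x : ℂ) ^ 2 := by
    push_cast
    field_simp
  rw [e2, neg_pow ((x : ℂ) ^ 2) κ, ← pow_mul]
  have e3 : ((-1 : ℂ) ^ (κ + 1)) * (-1) ^ κ = -1 := by
    rw [pow_succ, mul_assoc, neg_one_mul, mul_neg, ← mul_pow]; simp
  have e4 : (x : ℂ) ^ (-((κ : ℂ) - 1 / 2)) * (x : ℂ) ^ (2 * κ) = x * (x : ℂ) ^ ((κ : ℂ) - 1 / 2) := by
    rw [← Complex.cpow_natCast, ← Complex.cpow_add _ _ hxC]
    nth_rewrite 2 [← Complex.cpow_one (x : ℂ)]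
    rw [← Complex.cpow_add _ _ hxC]
    congr 1
    push_cast
    ring
  calc (x : ℂ) ^ (-((κ : ℂ) - 1 / 2)) * ((-1) ^ (κ + 1) * ((-1) ^ κ * (x : ℂ) ^ (2 * κ)) *
        F φ χ (1 / q * x))
      = (((-1 : ℂ) ^ (κ + 1)) * (-1) ^ κ) * ((x : ℂ) ^ (-((κ : ℂ) - 1 / 2)) * (x : ℂ) ^ (2 * κ)) *
        F φ χ (1 / q * x) := by ring
    _ = _ := by rw [e3, e4]; ring

lemma G_cont (hφ : Phi f κ φ) : ContinuousOn (G κ φ χ) (Ioi 0) := by
  have hq : 0 < q := Nat.pos_of_ne_zero (NeZero.ne q)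
  have hqR : (0 : ℝ) < q := by exact_mod_cast hq
  unfold G
  have hc0 : ContinuousOn (fun t : ℝ => (t : ℂ) ^ ((κ : ℂ) - 1 / 2)) (Ioi 0) := by
    intro t ht
    have ht' : (0 : ℝ) < t := ht
    exact (Complex.continuousAt_ofReal_cpow_const _ _ (Or.inr ht'.ne')).continuousWithinAt
  have hc : ContinuousOn (fun t : ℝ => F φ χ (1 / q * t)) (Ioi 0) :=
    ContinuousOn.comp (g := F φ χ) (f := fun t : ℝ => 1 / (q : ℝ) * t) (t := Ioi 0) (F_cont hφ)
      (by fun_prop) (fun t ht => mul_pos (show (0 : ℝ) < 1 / q by positivity) ht)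
  exact hc0.smul hc

lemma G_top (h : Dat f mu nu a c w) (hφ : Phi f κ φ) (hp : χ.IsPrimitive) (hχ : χ⁻¹ = χ)
    (hsgn : χ (-1) = (-1) ^ (κ + 1)) (r : ℝ) :
    (G κ φ χ · - 0) =O[atTop] (· ^ r) := by
  have hq : 0 < q := Nat.pos_of_ne_zero (NeZero.ne q)
  have hqR : (0 : ℝ) < q := by exact_mod_cast hq
  have hpi := Real.pi_pos
  obtain ⟨C, hC, hb⟩ := F_bound (χ := χ) h hφ hp hχ hsgn
  simp only [sub_zero]
  have ha : 0 < Real.pi / 2 * (1 / q) := by positivity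
  have h1 : (G κ φ χ) =O[atTop] fun y : ℝ =>
      y ^ ((κ : ℝ) - 1 / 2) * Real.exp (-(Real.pi / 2 * (1 / q)) * y) := by
    refine Asymptotics.IsBigO.of_bound C ?_
    filter_upwards [eventually_ge_atTop (q : ℝ)] with y hy
    have hy0 : 0 < y := by linarith
    unfold G
    rw [norm_smul, Complex.norm_cpow_eq_rpow_re_of_pos hy0]
    have h2 := hb (1 / q * y) (by rw [one_div, inv_mul_eq_div, le_div_iff₀ hqR]; linarith)
    have h3 : ((κ : ℂ) - 1 / 2).re = (κ : ℝ) - 1 / 2 := by simp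
    rw [h3, Real.norm_of_nonneg (by positivity)]
    calc y ^ ((κ : ℝ) - 1 / 2) * ‖F φ χ (1 / q * y)‖
        ≤ y ^ ((κ : ℝ) - 1 / 2) * (C * Real.exp (-(Real.pi / 2 * (1 / q * y)))) := by gcongr
      _ = _ := by
        rw [show -(Real.pi / 2 * (1 / q * y)) = -(Real.pi / 2 * (1 / q)) * y by ring]; ring
  have h2 := (Asymptotics.isBigO_refl (fun y : ℝ => y ^ ((κ : ℝ) - 1 / 2)) atTop).mul
    (isLittleO_exp_neg_mul_rpow_atTop ha (r - ((κ : ℝ) - 1 / 2))).isBigO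
  refine (h1.trans h2).congr' Filter.EventuallyEq.rfl ?_
  filter_upwards [eventually_gt_atTop (0 : ℝ)] with y hy
  rw [← Real.rpow_add hy]
  congr 1
  ring

/-- the pair -/
noncomputable def pair (h : Dat f mu nu a c w) (hφ : Phi f κ φ) (hp : χ.IsPrimitive)
    (hχ : χ⁻¹ = χ) (hsgn : χ (-1) = (-1) ^ (κ + 1)) : WeakFEPair ℂ where
  f := G κ φ χ
  g := G κ φ χ
  k := 1
  ε := -1
  f₀ := 0
  g₀ := 0
  hf_int := (G_cont hφ).locallyIntegrableOn measurableSet_Ioi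
  hg_int := (G_cont hφ).locallyIntegrableOn measurableSet_Ioi
  hk := one_pos
  hε := by norm_num
  h_feq x hx := G_fe hφ hχ hsgn hx
  hf_top r := G_top h hφ hp hχ hsgn r
  hg_top r := G_top h hφ hp hχ hsgn r

lemma pair_strong (h : Dat f mu nu a c w) (hφ : Phi f κ φ) (hp : χ.IsPrimitive)
    (hχ : χ⁻¹ = χ) (hsgn : χ (-1) = (-1) ^ (κ + 1)) : IsStrongFEPair (pair h hφ hp hχ hsgn) :=
  ⟨rfl, rfl⟩

lemma diff_mellin (h : Dat f mu nu a c w) (hφ : Phi f κ φ) (hp : χ.IsPrimitive)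
    (hχ : χ⁻¹ = χ) (hsgn : χ (-1) = (-1) ^ (κ + 1)) : Differentiable ℂ (mellin (G κ φ χ)) := by
  have h1 := (pair_strong h hφ hp hχ hsgn).differentiable_Λ
  rw [(pair_strong h hφ hp hχ hsgn).Λ_eq] at h1
  exact h1

lemma mellin_half (h : Dat f mu nu a c w) (hφ : Phi f κ φ) (hp : χ.IsPrimitive)
    (hχ : χ⁻¹ = χ) (hsgn : χ (-1) = (-1) ^ (κ + 1)) : mellin (G κ φ χ) (1 / 2) = 0 := by
  have hs := pair_strong h hφ hp hχ hsgn
  have h1 := (pair h hφ hp hχ hsgn).functional_equation (1 / 2)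
  rw [hs.Λ_eq, hs.symm_Λ_eq] at h1
  have h2 : mellin (G κ φ χ) (((1 : ℝ) : ℂ) - 1 / 2) = (-1 : ℂ) • mellin (G κ φ χ) (1 / 2) := h1
  rw [show (((1 : ℝ) : ℂ) - 1 / 2) = 1 / 2 by push_cast; ring] at h2
  rw [neg_one_smul] at h2
  exact self_eq_neg.mp h2

/-- Gauss sum constant -/
noncomputable def AA (κ : ℕ) (q : ℕ) [NeZero q] (χ : DirichletCharacter ℂ q) : ℂ :=
  2 * gaussSum χ (ZMod.stdAddChar (N := q)) * (2 * Real.pi * I) ^ κ

lemma AA_ne (hp : χ.IsPrimitive) : AA κ q χ ≠ 0 := by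
  unfold AA
  have := gaussSum_ne_zero hp
  have h2 : (2 * Real.pi * I : ℂ) ≠ 0 := by simp [Real.pi_ne_zero, I_ne_zero]
  exact mul_ne_zero (mul_ne_zero two_ne_zero this) (pow_ne_zero _ h2)

lemma mellin_F (h : Dat f mu nu a c w) (hφ : Phi f κ φ) (hp : χ.IsPrimitive)
    (hχ : χ⁻¹ = χ) (hsgn : χ (-1) = (-1) ^ (κ + 1)) {s : ℂ} (hs : 3 / 2 < s.re) :
    mellin (F φ χ) (s + κ - 1 / 2)
      = AA κ q χ * (∑' n, term c χ s n) * mellin (co f 1) (s + κ - 1 / 2) := by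
  obtain ⟨C, hC, hW⟩ := h.W_bound
  obtain ⟨D, hD, hc⟩ := h.hr.bound
  have hre : (s + κ - 1 / 2 : ℂ).re = s.re + κ - 1 / 2 := by simp
  have hκ : (0 : ℝ) ≤ κ := Nat.cast_nonneg κ
  have hpos : 0 < (s + κ - 1 / 2 : ℂ).re := by rw [hre]; linarith
  set b : ℕ → ℂ := fun n => AA κ q χ * (χ (n : ZMod q) * c n *
    ((n : ℂ) ^ κ * ((Real.sqrt n : ℝ) : ℂ)⁻¹)) with hb
  have key := mellin_sum (W := co f 1) (W_cont h) hC hW (b := b) (by simp [hb, h.hr.zero])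
    (s := s + κ - 1 / 2) hpos ?_ (F := F φ χ) ?_
  · have h1 := ((summable_term h.hr χ hs).of_norm.hasSum.mul_left (AA κ q χ)).mul_right
      (mellin (co f 1) (s + κ - 1 / 2))
    refine key.unique (h1.congr_fun fun n => ?_)
    rcases Nat.eq_zero_or_pos n with h0 | h0
    · subst h0; simp [hb, term, h.hr.zero]
    · have hnR : (0 : ℝ) < n := by exact_mod_cast h0
      have hnC : (n : ℂ) ≠ 0 := by exact_mod_cast hnR.ne'
      have hsq : ((Real.sqrt n : ℝ) : ℂ) = (n : ℂ) ^ (1 / 2 : ℂ) := by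
        rw [Real.sqrt_eq_rpow, Complex.ofReal_cpow hnR.le]; push_cast; rfl
      have e1 : (n : ℂ) ^ κ * ((Real.sqrt n : ℝ) : ℂ)⁻¹ * (n : ℂ) ^ (-(s + κ - 1 / 2))
          = (n : ℂ) ^ (-s) := by
        rw [hsq, ← Complex.cpow_neg, ← Complex.cpow_natCast, ← Complex.cpow_add _ _ hnC,
          ← Complex.cpow_add _ _ hnC]
        congr 1
        ring
      simp only [hb, term]
      rw [← e1]
      ring
  · refine Summable.of_nonneg_of_le (fun n => by positivity) (fun n => ?_)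
      ((Real.summable_nat_rpow (p := 1 / 2 - s.re)).mpr (by linarith) |>.mul_left
        (‖AA κ q χ‖ * D))
    rcases Nat.eq_zero_or_pos n with h0 | h0
    · subst h0
      simp only [hb, h.hr.zero, mul_zero, zero_mul, norm_zero]
      positivity
    · have hnR : (0 : ℝ) < n := by exact_mod_cast h0
      have hsn : 0 < Real.sqrt n := Real.sqrt_pos.mpr hnR
      simp only [hb, norm_mul, norm_pow, norm_inv, Complex.norm_real,
        Real.norm_of_nonneg hsn.le, Complex.norm_natCast]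
      have h3 : ‖χ (n : ZMod q)‖ ≤ 1 := χ.norm_le_one _
      have e2 : (n : ℝ) ^ (-(s + κ - 1 / 2 : ℂ).re)
          = (n : ℝ) ^ (1 / 2 - s.re) * ((n : ℝ) ^ κ)⁻¹ := by
        rw [hre, ← Real.rpow_natCast, ← Real.rpow_neg hnR.le, ← Real.rpow_add hnR]
        congr 1; ring
      rw [e2]
      calc ‖AA κ q χ‖ * (‖χ (n : ZMod q)‖ * ‖c n‖ * ((n : ℝ) ^ κ * (Real.sqrt n)⁻¹)) *
            ((n : ℝ) ^ (1 / 2 - s.re) * ((n : ℝ) ^ κ)⁻¹)
          ≤ ‖AA κ q χ‖ * (1 * (D * Real.sqrt n) * ((n : ℝ) ^ κ * (Real.sqrt n)⁻¹)) *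
            ((n : ℝ) ^ (1 / 2 - s.re) * ((n : ℝ) ^ κ)⁻¹) := by
            gcongr
            exact hc n
        _ = _ := by field_simp
  · intro y hy
    refine (h.hasSum_F hφ hp hχ hsgn hy).congr_fun fun n => ?_
    simp only [hb, AA, cf]
    ring

lemma mellin_G (h : Dat f mu nu a c w) (hφ : Phi f κ φ) (hp : χ.IsPrimitive)
    (hχ : χ⁻¹ = χ) (hsgn : χ (-1) = (-1) ^ (κ + 1)) {s : ℂ} (hs : 3 / 2 < s.re)
    (hs2 : |nu.re| < s.re) :
    mellin (G κ φ χ) s = ((1 / q : ℝ) : ℂ) ^ (-(s + κ - 1 / 2)) * (AA κ q χ *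
      (∑' n, term c χ s n) * (w * ((1 / 2) * (Real.pi : ℂ) ^ (-(s + κ)) *
      (Complex.Gamma ((s + κ + nu) / 2) * Complex.Gamma ((s + κ - nu) / 2))))) := by
  have hq : 0 < q := Nat.pos_of_ne_zero (NeZero.ne q)
  have hqR : (0 : ℝ) < q := by exact_mod_cast hq
  have hκ : (0 : ℝ) ≤ κ := Nat.cast_nonneg κ
  rw [← mellin_W h (s := s + κ) (by simp; linarith), ← mellin_F h hφ hp hχ hsgn hs]
  have h1 := mellin_comp_mul_left (F φ χ) (s + κ - 1 / 2) (a := 1 / q) (by positivity)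
  rw [smul_eq_mul] at h1
  rw [← h1]
  unfold G
  rw [mellin_cpow_smul]
  congr 1
  ring

/-- the L-function -/
noncomputable def Lf (nu w : ℂ) (κ : ℕ) (φ : ℂ → ℂ) (χ : DirichletCharacter ℂ q) (s : ℂ) : ℂ :=
  mellin (G κ φ χ) s * ((1 / q : ℝ) : ℂ) ^ (s + κ - 1 / 2) * (AA κ q χ)⁻¹ * w⁻¹ * 2 *
    (Real.pi : ℂ) ^ (s + κ) * (Complex.Gamma ((s + κ + nu) / 2))⁻¹ *
    (Complex.Gamma ((s + κ - nu) / 2))⁻¹

lemma Lf_diff (h : Dat f mu nu a c w) (hφ : Phi f κ φ) (hp : χ.IsPrimitive)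
    (hχ : χ⁻¹ = χ) (hsgn : χ (-1) = (-1) ^ (κ + 1)) : Differentiable ℂ (Lf nu w κ φ χ) := by
  have hq : 0 < q := Nat.pos_of_ne_zero (NeZero.ne q)
  have hqR : (0 : ℝ) < q := by exact_mod_cast hq
  have hq1 : ((1 / q : ℝ) : ℂ) ≠ 0 := by
    have : (0 : ℝ) < 1 / q := by positivity
    exact_mod_cast this.ne'
  have hpi : (Real.pi : ℂ) ≠ 0 := by exact_mod_cast Real.pi_ne_zero
  have d1 := diff_mellin h hφ hp hχ hsgn
  have d2 : Differentiable ℂ fun s : ℂ => ((1 / q : ℝ) : ℂ) ^ (s + κ - 1 / 2) := by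
    intro s
    exact DifferentiableAt.const_cpow (by fun_prop) (Or.inl hq1)
  have d3 : Differentiable ℂ fun s : ℂ => (Real.pi : ℂ) ^ (s + κ) := by
    intro s
    exact DifferentiableAt.const_cpow (by fun_prop) (Or.inl hpi)
  have d4 : Differentiable ℂ fun s : ℂ => (Complex.Gamma ((s + κ + nu) / 2))⁻¹ :=
    Complex.differentiable_one_div_Gamma.comp (f := fun s : ℂ => (s + κ + nu) / 2) (by fun_prop)
  have d5 : Differentiable ℂ fun s : ℂ => (Complex.Gamma ((s + κ - nu) / 2))⁻¹ :=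
    Complex.differentiable_one_div_Gamma.comp (f := fun s : ℂ => (s + κ - nu) / 2) (by fun_prop)
  unfold Lf
  exact ((((((d1.mul d2).mul_const _).mul_const _).mul_const _).mul d3).mul d4).mul d5

lemma Lf_half (h : Dat f mu nu a c w) (hφ : Phi f κ φ) (hp : χ.IsPrimitive)
    (hχ : χ⁻¹ = χ) (hsgn : χ (-1) = (-1) ^ (κ + 1)) : Lf nu w κ φ χ (1 / 2) = 0 := by
  unfold Lf
  rw [mellin_half h hφ hp hχ hsgn]
  ring

lemma Lf_eq_large (h : Dat f mu nu a c w) (hφ : Phi f κ φ) (hp : χ.IsPrimitive)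
    (hχ : χ⁻¹ = χ) (hsgn : χ (-1) = (-1) ^ (κ + 1)) {s : ℂ} (hs : 3 / 2 < s.re)
    (hs2 : |nu.re| < s.re) : Lf nu w κ φ χ s = ∑' n, term c χ s n := by
  have hq : 0 < q := Nat.pos_of_ne_zero (NeZero.ne q)
  have hqR : (0 : ℝ) < q := by exact_mod_cast hq
  have hκ : (0 : ℝ) ≤ κ := Nat.cast_nonneg κ
  have hq1 : ((1 / q : ℝ) : ℂ) ≠ 0 := by
    have : (0 : ℝ) < 1 / q := by positivity
    exact_mod_cast this.ne'
  have hpi : (Real.pi : ℂ) ≠ 0 := by exact_mod_cast Real.pi_ne_zero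
  have hA := AA_ne (κ := κ) hp
  have g1 : Complex.Gamma ((s + κ + nu) / 2) ≠ 0 := by
    apply Complex.Gamma_ne_zero_of_re_pos
    have := neg_abs_le nu.re
    have e : ((s + κ + nu) / 2).re = (s.re + κ + nu.re) / 2 := by simp
    rw [e]; linarith
  have g2 : Complex.Gamma ((s + κ - nu) / 2) ≠ 0 := by
    apply Complex.Gamma_ne_zero_of_re_pos
    have := le_abs_self nu.re
    have e : ((s + κ - nu) / 2).re = (s.re + κ - nu.re) / 2 := by simp
    rw [e]; linarith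
  unfold Lf
  rw [mellin_G h hφ hp hχ hsgn hs hs2, Complex.cpow_neg, Complex.cpow_neg]
  have c1 : ((1 / q : ℝ) : ℂ) ^ (s + κ - 1 / 2) ≠ 0 := by
    rw [Ne, Complex.cpow_eq_zero_iff]; tauto
  have c2 : (Real.pi : ℂ) ^ (s + κ) ≠ 0 := by
    rw [Ne, Complex.cpow_eq_zero_iff]; tauto
  have hw := h.wne
  generalize ((1 / q : ℝ) : ℂ) ^ (s + κ - 1 / 2) = X1 at c1 ⊢
  generalize (Real.pi : ℂ) ^ (s + κ) = X2 at c2 ⊢
  generalize Complex.Gamma ((s + κ + nu) / 2) = X3 at g1 ⊢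
  generalize Complex.Gamma ((s + κ - nu) / 2) = X4 at g2 ⊢
  field_simp

omit [NeZero q] in
/-- two functions, one entire, one a Dirichlet series, agreeing far to the right -/
lemma extend (h : HRec a c) (χ : DirichletCharacter ℂ q) {L : ℂ → ℂ} (hL : Differentiable ℂ L)
    {R : ℝ} (hR : ∀ s : ℂ, 3 / 2 < s.re → R < s.re → L s = ∑' n, term c χ s n) {s : ℂ}
    (hs : 3 / 2 < s.re) : L s = ∑' n, term c χ s n := by
  set g : ℕ → ℂ := fun n => χ (n : ZMod q) * c n with hg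
  have hterm : ∀ s : ℂ, ∀ n : ℕ, LSeries.term g s n = term c χ s n := by
    intro s n
    rcases Nat.eq_zero_or_pos n with h0 | h0
    · subst h0; simp [term, h.zero]
    · rw [LSeries.term_of_ne_zero h0.ne', term, Complex.cpow_neg, div_eq_mul_inv]
  have habs : LSeries.abscissaOfAbsConv g ≤ ((3 / 2 : ℝ) : EReal) := by
    refine LSeries.abscissaOfAbsConv_le_of_forall_lt_LSeriesSummable fun y hy => ?_
    have := (summable_term h χ (s := (y : ℂ)) (by simpa using hy)).of_norm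
    unfold LSeriesSummable
    rw [show LSeries.term g (y : ℂ) = term c χ (y : ℂ) from funext (hterm _)]
    exact this
  have han : AnalyticOnNhd ℂ (LSeries g) {s : ℂ | 3 / 2 < s.re} := by
    refine (LSeries_analyticOnNhd g).mono fun s hs => ?_
    have hs' : (3 / 2 : ℝ) < s.re := hs
    exact lt_of_le_of_lt habs (by exact_mod_cast hs')
  have hLan : AnalyticOnNhd ℂ L {s : ℂ | 3 / 2 < s.re} :=
    hL.differentiableOn.analyticOnNhd (isOpen_lt continuous_const Complex.continuous_re)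
  have hconn : IsPreconnected {s : ℂ | 3 / 2 < s.re} :=
    (convex_halfSpace_re_gt (3 / 2)).isPreconnected
  have hLS : ∀ s, LSeries g s = ∑' n, term c χ s n := fun s => by
    unfold LSeries
    exact tsum_congr (hterm s)
  set z0 : ℂ := ((max (3 / 2) R + 1 : ℝ) : ℂ) with hz0
  have hz1 : z0 ∈ {s : ℂ | 3 / 2 < s.re} := by
    change 3 / 2 < z0.re
    rw [hz0, Complex.ofReal_re]
    have := le_max_left (3 / 2) R
    linarith
  have hev : L =ᶠ[𝓝 z0] LSeries g := by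
    have ho : IsOpen {s : ℂ | max (3 / 2) R < s.re} :=
      isOpen_lt continuous_const Complex.continuous_re
    filter_upwards [ho.mem_nhds (show max (3 / 2) R < z0.re by
      rw [hz0, Complex.ofReal_re]; linarith)] with t ht
    rw [hLS]
    exact hR t (lt_of_le_of_lt (le_max_left _ _) ht) (lt_of_le_of_lt (le_max_right _ _) ht)
  have := hLan.eqOn_of_preconnected_of_eventuallyEq han hconn hz1 hev hs
  rw [this, hLS]

/-- **Part B.** -/
theorem exists_L (h : OddHM f mu a) (hp : χ.IsPrimitive) (hχ : χ⁻¹ = χ) :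
    ∃ L : ℂ → ℂ, Differentiable ℂ L ∧
      (∀ s : ℂ, 3 / 2 < s.re → HasProd (fun p : Nat.Primes =>
        (1 - a p * (χ ((p : ℕ) : ZMod q) * ((p : ℕ) : ℂ) ^ (-s))
          + (χ ((p : ℕ) : ZMod q) * ((p : ℕ) : ℂ) ^ (-s)) ^ 2)⁻¹) (L s)) ∧ L (1 / 2) = 0 := by
  obtain ⟨nu, c, w, hnu, hd⟩ := exists_dat h
  have hcase : ∃ κ φ, Phi f κ φ ∧ χ (-1) = (-1) ^ (κ + 1) := by
    have h1 : χ (-1) * χ (-1) = 1 := by rw [← map_mul]; simp
    have h2 : (χ (-1) - 1) * (χ (-1) + 1) = 0 := by linear_combination h1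
    rcases mul_eq_zero.mp h2 with h3 | h3
    · exact ⟨1, D 1 f, phi_one h, by rw [sub_eq_zero.mp h3]; norm_num⟩
    · exact ⟨0, f, phi_zero h, by rw [eq_neg_of_add_eq_zero_left h3]; norm_num⟩
  obtain ⟨κ, φ, hφ, hsgn⟩ := hcase
  refine ⟨Lf nu w κ φ χ, Lf_diff hd hφ hp hχ hsgn, fun s hs => ?_, Lf_half hd hφ hp hχ hsgn⟩
  have h1 := extend hd.hr χ (Lf_diff hd hφ hp hχ hsgn) (R := |nu.re|)
    (fun s hs hs2 => Lf_eq_large hd hφ hp hχ hsgn hs hs2) hs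
  rw [h1]
  exact euler hd.hr χ hs

end Pool.Agent.X290.LF
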