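import Pool.Agent.X290.Avg

/-! The distribution on the projective line attached to a lattice: the regularized number of lattice vectors. -/

set_option autoImplicit false

namespace Pool.Agent.X290

open Polynomial WithZero Matrix

noncomputable section

/-- the embedding `K² → K_∞²` -/
def io (ξ : Fin 2 → K) : Row := fun i => algebraMap K Kinf (ξ i)

/-- lattices in `K²` -/
structure IsLat (L : Submodule (ZMod 2)[X] (Fin 2 → K)) : Prop where
  fg : L.FG
  ne : L ≠ ⊥
  bdd : ∃ a : (ZMod 2)[X], a ≠ 0 ∧ ∀ ξ ∈ L, ∀ j, ∃ p : (ZMod 2)[X],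
    algebraMap (ZMod 2)[X] K a * ξ j = algebraMap (ZMod 2)[X] K p

theorem io_inj : Function.Injective io := by
  intro ξ η h
  funext i
  exact (algebraMap K Kinf).injective (congrFun h i)

theorem io_add (ξ η : Fin 2 → K) : io (ξ + η) = io ξ + io η := by
  funext i
  simp [io]

theorem io_X_smul (ξ : Fin 2 → K) : io ((X : (ZMod 2)[X]) • ξ) = T • io ξ := by
  funext i
  simp only [io, Pi.smul_apply, Algebra.smul_def, map_mul]
  rfl

theorem finite_ball {L : Submodule (ZMod 2)[X] (Fin 2 → K)} (hL : IsLat L) (M : ℤ) :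
    {ξ : L | nrm (io ξ.1) < exp M}.Finite := by
  obtain ⟨a, ha, hb⟩ := hL.bdd
  set N : ℕ := (M + a.natDegree).toNat with hN
  have h1 : (Set.range fun q : Fin 2 → pfin N => fun j => algebraMap (ZMod 2)[X] K (q j).1).Finite :=
    Set.finite_range _
  have ha' : algebraMap (ZMod 2)[X] K a ≠ 0 := by simpa using ha
  have h2 : Set.InjOn (fun ξ : L => fun j => algebraMap (ZMod 2)[X] K a * ξ.1 j) {ξ : L | nrm (io ξ.1) < exp M} := by
    intro ξ _ η _ h
    apply Subtype.ext
    funext j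
    exact mul_left_cancel₀ ha' (congrFun h j)
  refine Set.Finite.of_finite_image (h1.subset ?_) h2
  rintro _ ⟨ξ, hξ, rfl⟩
  choose p hp using hb ξ.1 ξ.2
  have hpm : ∀ j, p j ∈ pfin N := by
    intro j
    rw [mem_pfin_iff]
    have e : pol (p j) = pol a * io ξ.1 j := by
      have := congrArg (algebraMap K Kinf) (hp j)
      rw [map_mul] at this
      exact this.symm
    have h3 : vi (io ξ.1 j) < exp M := by
      refine lt_of_le_of_lt ?_ hξ
      fin_cases j
      · exact le_max_left _ _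
      · exact le_max_right _ _
    rw [e, vi_mul, vi_pol ha]
    calc _ < exp (a.natDegree : ℤ) * exp M := mul_lt_mul_of_pos_left h3 exp_pos
      _ = exp (a.natDegree + M) := (exp_add _ _).symm
      _ ≤ _ := by
        rw [exp_le_exp, hN]
        have := Int.self_le_toNat (M + a.natDegree)
        omega
  exact ⟨fun j => ⟨p j, hpm j⟩, by funext j; exact (hp j).symm⟩

/-- multiplication by `X` on a lattice -/
def mulX (L : Submodule (ZMod 2)[X] (Fin 2 → K)) : L →ₗ[(ZMod 2)[X]] L := LinearMap.lsmul _ _ X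

theorem mulX_apply {L : Submodule (ZMod 2)[X] (Fin 2 → K)} (ξ : L) : (mulX L ξ).1 = (X : (ZMod 2)[X]) • ξ.1 := rfl

/-- the quotient `L / X L` -/
abbrev QX (L : Submodule (ZMod 2)[X] (Fin 2 → K)) : Type := L ⧸ LinearMap.range (mulX L)

theorem finite_QX {L : Submodule (ZMod 2)[X] (Fin 2 → K)} (hL : IsLat L) : Finite (QX L) := by
  have : Module.Finite (ZMod 2)[X] L := Module.Finite.iff_fg.2 hL.fg
  obtain ⟨n, f, hf⟩ := Module.Finite.exists_fin' (ZMod 2)[X] L
  refine Finite.of_surjective (fun v : Fin n → ZMod 2 => (Submodule.Quotient.mk (f fun i => C (v i)) : QX L)) ?_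
  intro q
  obtain ⟨l, rfl⟩ := Submodule.Quotient.mk_surjective _ q
  obtain ⟨v, rfl⟩ := hf l
  refine ⟨fun i => (v i).coeff 0, ?_⟩
  rw [Submodule.Quotient.eq, ← map_sub]
  refine ⟨f fun i => -(v i).divX, ?_⟩
  change (X : (ZMod 2)[X]) • f _ = _
  rw [← map_smul]
  congr 1
  funext i
  have := X_mul_divX_add (v i)
  simp only [Pi.smul_apply, Pi.sub_apply, smul_eq_mul, mul_neg]
  linear_combination (-1 : (ZMod 2)[X]) * this

/-- the index of `X L` in `L` -/
def cX (L : Submodule (ZMod 2)[X] (Fin 2 → K)) : ℕ := Nat.card (QX L)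

/-- Schwartz functions on `K_∞²` -/
structure Sch (Φ : Row → ℂ) : Prop where
  loc : ∃ m : ℕ, ∀ ξ η : Row, nrm (ξ - η) < exp (-(m : ℤ)) → Φ η = Φ ξ
  bdd : ∃ M : ℕ, ∀ ξ : Row, Φ ξ ≠ 0 → nrm ξ < exp (M : ℤ)

/-- the sum over the lattice -/
def SJ (L : Submodule (ZMod 2)[X] (Fin 2 → K)) (Φ : Row → ℂ) (J : ℕ) : ℂ :=
  ∑ᶠ ξ : L, Φ (T ^ (-(J : ℤ)) • io ξ.1)

theorem nrm_T_smul (n : ℤ) (ξ : Row) : nrm (T ^ n • ξ) = exp n * nrm ξ := by
  rw [nrm_smul, vi_Tz]

theorem lt_of_scaled {J : ℕ} {M : ℤ} {ξ : Row} (h : nrm (T ^ (-(J : ℤ)) • ξ) < exp M) : nrm ξ < exp (M + J) := by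
  have e : ξ = T ^ (J : ℤ) • (T ^ (-(J : ℤ)) • ξ) := by
    rw [smul_smul, ← zpow_add₀ T_ne]
    simp
  rw [e, nrm_T_smul, add_comm, exp_add]
  exact mul_lt_mul_of_pos_left h exp_pos

theorem finite_support {L : Submodule (ZMod 2)[X] (Fin 2 → K)} (hL : IsLat L) {Φ : Row → ℂ} {M : ℕ}
    (hM : ∀ ξ : Row, Φ ξ ≠ 0 → nrm ξ < exp (M : ℤ)) (J : ℕ) :
    (Function.support fun ξ : L => Φ (T ^ (-(J : ℤ)) • io ξ.1)).Finite := by
  refine (finite_ball hL (M + J)).subset fun ξ hξ => ?_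
  exact lt_of_scaled (hM _ hξ)

/-- **equidistribution** -/
theorem SJ_succ {L : Submodule (ZMod 2)[X] (Fin 2 → K)} (hL : IsLat L) {Φ : Row → ℂ} (hΦ : Sch Φ) :
    ∃ J₀ : ℕ, ∀ J : ℕ, J₀ ≤ J → SJ L Φ (J + 1) = cX L * SJ L Φ J := by
  classical
  have := finite_QX hL
  have := Fintype.ofFinite (QX L)
  obtain ⟨m, hm⟩ := hΦ.loc
  obtain ⟨M, hM⟩ := hΦ.bdd
  -- representatives
  have hout : ∀ i : QX L, Submodule.Quotient.mk (Quotient.out i) = i := fun i => Quotient.out_eq _
  obtain ⟨C, hC⟩ : ∃ C : ℕ, ∀ i : QX L, nrm (io (Quotient.out i : L).1) ≤ exp (C : ℤ) := by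
    choose C hC using fun i : QX L => exists_exp_ge (nrm (io (Quotient.out i : L).1))
    refine ⟨Finset.univ.sup C, fun i => (hC i).trans ?_⟩
    rw [exp_le_exp]
    exact_mod_cast Finset.le_sup (f := C) (Finset.mem_univ i)
  refine ⟨m + C, fun J hJ => ?_⟩
  set e : QX L × L → L := fun x => (Quotient.out x.1 : L) + mulX L x.2 with he
  have hX : Function.Injective (mulX L) := by
    intro a b h
    apply Subtype.ext
    funext j
    have h1 := congrFun (congrArg Subtype.val h) j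
    simp only [mulX_apply, Pi.smul_apply, Algebra.smul_def] at h1
    exact mul_left_cancel₀ (by simpa using RatFunc.X_ne_zero) h1
  have hbij : Function.Bijective e := by
    constructor
    · rintro ⟨i, η⟩ ⟨i', η'⟩ h
      simp only [he] at h
      have h1 : i = i' := by
        have h2 := congrArg (Submodule.Quotient.mk (p := LinearMap.range (mulX L))) h
        rw [Submodule.Quotient.mk_add, Submodule.Quotient.mk_add, hout, hout,
          (Submodule.Quotient.mk_eq_zero _).2 (LinearMap.mem_range_self _ _),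
          (Submodule.Quotient.mk_eq_zero _).2 (LinearMap.mem_range_self _ _), add_zero, add_zero] at h2
        exact h2
      subst h1
      have h2 := hX (add_left_cancel h)
      rw [h2]
    · intro ξ
      have h1 : ξ - (Quotient.out (Submodule.Quotient.mk ξ : QX L) : L) ∈ LinearMap.range (mulX L) := by
        rw [← Submodule.Quotient.eq, hout]
      obtain ⟨η, hη⟩ := h1
      exact ⟨(Submodule.Quotient.mk ξ, η), by simp only [he]; rw [hη]; abel⟩
  unfold SJ
  have h1 : ∑ᶠ ξ : L, Φ (T ^ (-((J + 1 : ℕ) : ℤ)) • io ξ.1) =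
      ∑ᶠ x : QX L × L, Φ (T ^ (-((J + 1 : ℕ) : ℤ)) • io (e x).1) := by
    symm
    exact finsum_comp (g := fun ξ : L => Φ (T ^ (-((J + 1 : ℕ) : ℤ)) • io ξ.1)) e hbij
  have h2 : ∀ x : QX L × L, Φ (T ^ (-((J + 1 : ℕ) : ℤ)) • io (e x).1) = Φ (T ^ (-(J : ℤ)) • io x.2.1) := by
    rintro ⟨i, η⟩
    simp only [he]
    have e1 : T ^ (-((J + 1 : ℕ) : ℤ)) • io ((Quotient.out i : L) + mulX L η).1 =
        T ^ (-((J + 1 : ℕ) : ℤ)) • io (Quotient.out i : L).1 + T ^ (-(J : ℤ)) • io η.1 := by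
      have e2 : io ((Quotient.out i : L) + mulX L η).1 = io (Quotient.out i : L).1 + T • io η.1 := by
        rw [Submodule.coe_add, io_add, mulX_apply, io_X_smul]
      rw [e2, smul_add, smul_smul, ← zpow_add_one₀ T_ne]
      congr 3
      push_cast
      ring
    rw [e1]
    apply hm
    have e3 : T ^ (-(J : ℤ)) • io η.1 - (T ^ (-((J + 1 : ℕ) : ℤ)) • io (Quotient.out i : L).1 +
        T ^ (-(J : ℤ)) • io η.1) = -(T ^ (-((J + 1 : ℕ) : ℤ)) • io (Quotient.out i : L).1) := by abel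
    rw [e3, nrm_neg, nrm_T_smul]
    refine lt_of_le_of_lt (mul_le_mul_right (hC i) _) ?_
    rw [← exp_add, exp_lt_exp]
    push_cast
    omega
  rw [h1, finsum_congr h2, finsum_curry, finsum_eq_sum_of_fintype]
  · change ∑ i : QX L, ∑ᶠ η : L, Φ (T ^ (-(J : ℤ)) • io η.1) = _
    rw [Finset.sum_const, Finset.card_univ, nsmul_eq_mul, cX, Nat.card_eq_fintype_card]
  have h3 := finite_support hL hM J
  have h4 : (Function.support fun x : QX L × L => Φ (T ^ (-(J : ℤ)) • io x.2.1)) ⊆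
      Set.univ ×ˢ (Function.support fun ξ : L => Φ (T ^ (-(J : ℤ)) • io ξ.1)) := by
    rintro ⟨i, η⟩ h
    exact ⟨trivial, h⟩
  exact (Set.finite_univ.prod h3).subset h4

end

end Pool.Agent.X290
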