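import Pool.Agent.X290.Tw

set_option autoImplicit false

/-!
# Mellin transforms of twisted sums and the L-function
-/

namespace Pool.Agent.X290.Mel

open Complex MeasureTheory Set Filter Topology Fou Bes Coef EulP Tw

/-- Mellin transform of a sum of dilates -/
theorem mellin_sum {W : ℝ → ℂ} (hWc : ContinuousOn W (Ioi 0)) {C : ℝ} (hC : 0 ≤ C)
    (hW : ∀ t : ℝ, 0 < t → ‖W t‖ ≤ C * Real.exp (-(Real.pi * t))) {b : ℕ → ℂ} (b0 : b 0 = 0)
    {s : ℂ} (hs : 0 < s.re) (hb : Summable fun n : ℕ => ‖b n‖ * (n : ℝ) ^ (-s.re)) {F : ℝ → ℂ}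
    (hF : ∀ y : ℝ, 0 < y → HasSum (fun n : ℕ => b n * W (n * y)) (F y)) :
    HasSum (fun n : ℕ => b n * (n : ℂ) ^ (-s) * mellin W s) (mellin F s) := by
  have hpi := Real.pi_pos
  set G : ℕ → ℝ → ℂ := fun n t => (t : ℂ) ^ (s - 1) • (b n * W (n * t)) with hG
  have hbnd : ∀ n : ℕ, 0 < n → ∀ t : ℝ, 0 < t → ‖G n t‖ ≤ ‖b n‖ * C *
      (t ^ (s.re - 1) * Real.exp (-(Real.pi * n * t))) := by
    intro n hn t ht
    have hnR : (0 : ℝ) < n := by exact_mod_cast hn
    simp only [hG, norm_smul, norm_mul]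
    rw [Complex.norm_cpow_eq_rpow_re_of_pos ht]
    have h1 := hW (n * t) (by positivity)
    have h2 : (s - 1).re = s.re - 1 := by simp
    rw [h2]
    calc t ^ (s.re - 1) * (‖b n‖ * ‖W (n * t)‖)
        ≤ t ^ (s.re - 1) * (‖b n‖ * (C * Real.exp (-(Real.pi * (n * t))))) := by gcongr
      _ = _ := by rw [show Real.pi * (n * t) = Real.pi * n * t by ring]; ring
  have hGc : ∀ n : ℕ, 0 < n → ContinuousOn (G n) (Ioi 0) := by
    intro n hn
    have hnR : (0 : ℝ) < n := by exact_mod_cast hn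
    simp only [hG]
    have hc : ContinuousOn (fun t : ℝ => W (n * t)) (Ioi 0) :=
      ContinuousOn.comp (g := W) (f := fun t : ℝ => (n : ℝ) * t) (t := Ioi 0) hWc
        (by fun_prop) (fun t ht => mul_pos hnR ht)
    have hc0 : ContinuousOn (fun t : ℝ => (t : ℂ) ^ (s - 1)) (Ioi 0) := by
      intro t ht
      have ht' : (0 : ℝ) < t := ht
      exact (Complex.continuousAt_ofReal_cpow_const _ _ (Or.inr ht'.ne')).continuousWithinAt
    exact hc0.smul (continuousOn_const.mul hc)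
  have hint : ∀ n, Integrable (G n) (volume.restrict (Ioi 0)) := by
    intro n
    rcases Nat.eq_zero_or_pos n with h0 | h0
    · subst h0
      have : G 0 = fun _ => 0 := by funext t; simp [hG, b0]
      rw [this]; exact integrable_zero _ _ _
    · have hnR : (0 : ℝ) < n := by exact_mod_cast h0
      refine Integrable.mono' ((int_y s.re hs (r := Real.pi * n) (by positivity)).const_mul
        (‖b n‖ * C)) ((hGc n h0).aestronglyMeasurable measurableSet_Ioi) ?_
      rw [ae_restrict_iff' measurableSet_Ioi]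
      exact Filter.Eventually.of_forall fun t ht => hbnd n h0 t ht
  have hsum : Summable fun n => ∫ t, ‖G n t‖ ∂(volume.restrict (Ioi 0)) := by
    refine Summable.of_nonneg_of_le (fun n => integral_nonneg fun t => norm_nonneg _)
      (fun n => ?_) (hb.mul_left (C * (Real.pi ^ (-s.re) * Real.Gamma s.re)))
    rcases Nat.eq_zero_or_pos n with h0 | h0
    · subst h0
      have : G 0 = fun _ => 0 := by funext t; simp [hG, b0]
      rw [this]; simp [b0]
    · have hnR : (0 : ℝ) < n := by exact_mod_cast h0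
      have h1 : ∫ t, ‖G n t‖ ∂(volume.restrict (Ioi 0)) ≤ ∫ t in Ioi (0 : ℝ),
          ‖b n‖ * C * (t ^ (s.re - 1) * Real.exp (-(Real.pi * n * t))) := by
        refine setIntegral_mono_on (hint n).norm ((int_y s.re hs (r := Real.pi * n)
          (by positivity)).const_mul (‖b n‖ * C)) measurableSet_Ioi fun t ht => hbnd n h0 t ht
      rw [integral_const_mul, Real.integral_rpow_mul_exp_neg_mul_Ioi hs (by positivity)] at h1
      refine h1.trans (le_of_eq ?_)
      rw [one_div, Real.inv_rpow (by positivity), Real.mul_rpow hpi.le hnR.le,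
        Real.rpow_neg hpi.le, Real.rpow_neg hnR.le]
      field_simp
  have key := hasSum_integral_of_summable_integral_norm hint hsum
  have e1 : (∫ t in Ioi (0 : ℝ), ∑' n, G n t) = mellin F s := by
    unfold mellin
    refine setIntegral_congr_fun measurableSet_Ioi fun t ht => ?_
    have h1 := (hF t ht).const_smul ((t : ℂ) ^ (s - 1))
    exact h1.tsum_eq
  rw [e1] at key
  refine (show (fun n : ℕ => _) = (fun n : ℕ => _) from funext fun n => ?_) ▸ key
  rcases Nat.eq_zero_or_pos n with h0 | h0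
  · subst h0; simp [hG, b0]
  · have hnR : (0 : ℝ) < n := by exact_mod_cast h0
    have h1 := mellin_comp_mul_left W s hnR
    unfold mellin at h1
    simp only [hG]
    have h2 : (fun t : ℝ => (t : ℂ) ^ (s - 1) • (b n * W (n * t)))
        = fun t : ℝ => b n * ((t : ℂ) ^ (s - 1) • W (n * t)) := by
      funext t; simp only [smul_eq_mul]; ring
    rw [h2, integral_const_mul, h1]
    unfold mellin
    simp only [smul_eq_mul, Complex.ofReal_natCast]
    ring

variable {f : ℂ → ℂ} {mu nu : ℂ} {a c : ℕ → ℂ} {w : ℂ}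

lemma W_cont (h : Dat f mu nu a c w) : ContinuousOn (co f 1) (Ioi 0) := fun y hy =>
  (hasDerivAt_co h.om.smooth 1 hy).continuousAt.continuousWithinAt

/-- the Mellin transform of the Whittaker function -/
lemma mellin_W (h : Dat f mu nu a c w) {s : ℂ} (hs : |nu.re| < s.re) :
    mellin (co f 1) (s - 1 / 2) = w * ((1 / 2) * (Real.pi : ℂ) ^ (-s) *
      (Complex.Gamma ((s + nu) / 2) * Complex.Gamma ((s - nu) / 2))) := by
  rw [← (mellin_K hs).2]
  have h1 : mellin (fun t : ℝ => (t : ℂ) ^ (1 / 2 : ℂ) • K 0 nu t) (s - 1 / 2)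
      = mellin (K 0 nu) s := by
    rw [mellin_cpow_smul]; congr 1; ring
  rw [← h1]
  have h2 := mellin_const_smul (fun t : ℝ => (t : ℂ) ^ (1 / 2 : ℂ) • K 0 nu t) (s - 1 / 2) w
  rw [smul_eq_mul] at h2
  rw [← h2]
  unfold mellin
  refine setIntegral_congr_fun measurableSet_Ioi fun t ht => ?_
  have ht' : (0 : ℝ) < t := ht
  simp only [smul_eq_mul]
  rw [h.W t ht', B, Real.sqrt_eq_rpow, Complex.ofReal_cpow ht'.le]
  push_cast
  ring

variable {κ : ℕ} {φ : ℂ → ℂ} {q : ℕ} [NeZero q] {χ : DirichletCharacter ℂ q}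

lemma F_cont (hφ : Phi f κ φ) : ContinuousOn (F φ χ) (Ioi 0) := by
  unfold F
  refine continuousOn_finsetSum _ fun u _ => continuousOn_const.mul ?_
  refine hφ.cont.comp (by fun_prop) fun y hy => ?_
  have hy' : (0 : ℝ) < y := hy
  have := mem_Hs ((u.val : ℝ) / q) hy'
  push_cast at this
  exact this

lemma F_bound (h : Dat f mu nu a c w) (hφ : Phi f κ φ) (hp : χ.IsPrimitive) (hχ : χ⁻¹ = χ)
    (hsgn : χ (-1) = (-1) ^ (κ + 1)) :
    ∃ C : ℝ, 0 ≤ C ∧ ∀ y : ℝ, 1 ≤ y → ‖F φ χ y‖ ≤ C * Real.exp (-(Real.pi / 2 * y)) := by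
  have hpi := Real.pi_pos
  obtain ⟨C, hC, hW⟩ := h.W_bound
  obtain ⟨D, hD, hc⟩ := h.hr.bound
  obtain ⟨A, hA⟩ : ∃ A : ℂ, A = 2 * gaussSum χ (ZMod.stdAddChar (N := q)) *
    (2 * Real.pi * I) ^ κ := ⟨_, rfl⟩
  have hsum : Summable fun n : ℕ => (n : ℝ) ^ κ * Real.exp (-(Real.pi / 2 * n)) := by
    have := Real.summable_pow_mul_exp_neg_nat_mul κ (r := Real.pi / 2) (by positivity)
    refine this.congr fun n => ?_
    ring_nf
  refine ⟨‖A‖ * (D * C) * ∑' n : ℕ, (n : ℝ) ^ κ * Real.exp (-(Real.pi / 2 * n)), ?_,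
    fun y hy => ?_⟩
  · have : 0 ≤ ∑' n : ℕ, (n : ℝ) ^ κ * Real.exp (-(Real.pi / 2 * n)) :=
      tsum_nonneg fun n => by positivity
    positivity
  have hy0 : 0 < y := by linarith
  have hS := h.hasSum_F hφ hp hχ hsgn hy0
  rw [← hA] at hS
  have hterm : ∀ n : ℕ, ‖A * cf f c κ χ y n‖ ≤ ‖A‖ * (D * C) * ((n : ℝ) ^ κ *
      Real.exp (-(Real.pi / 2 * n))) * Real.exp (-(Real.pi / 2 * y)) := by
    intro n
    rcases Nat.eq_zero_or_pos n with h0 | h0
    · subst h0
      rw [cf, h.hr.zero]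
      simp only [mul_zero, zero_mul, norm_zero]
      positivity
    · have hnR : (1 : ℝ) ≤ n := by exact_mod_cast h0
      have hnR0 : (0 : ℝ) < n := by linarith
      have hs : 0 < Real.sqrt n := Real.sqrt_pos.mpr hnR0
      simp only [cf, norm_mul, norm_pow, norm_inv, Complex.norm_real,
        Real.norm_of_nonneg hs.le, Complex.norm_natCast]
      have h1 := hW (n * y) (by positivity)
      have h2 := hc n
      have h3 : ‖χ (n : ZMod q)‖ ≤ 1 := χ.norm_le_one _
      have h4 : Real.exp (-(Real.pi * (n * y))) ≤ Real.exp (-(Real.pi / 2 * n)) *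
          Real.exp (-(Real.pi / 2 * y)) := by
        rw [← Real.exp_add]
        apply Real.exp_le_exp.mpr
        nlinarith [mul_nonneg (sub_nonneg.mpr hnR) (sub_nonneg.mpr hy), mul_pos hnR0 hy0]
      calc ‖A‖ * (‖χ (n : ZMod q)‖ * ‖c n‖ * ((n : ℝ) ^ κ * (Real.sqrt n)⁻¹) *
            ‖co f 1 (n * y)‖)
          ≤ ‖A‖ * (1 * (D * Real.sqrt n) * ((n : ℝ) ^ κ * (Real.sqrt n)⁻¹) *
            (C * (Real.exp (-(Real.pi / 2 * n)) * Real.exp (-(Real.pi / 2 * y))))) := by
            gcongr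
            exact h1.trans (by gcongr)
        _ = _ := by field_simp
  have hsum2 : Summable fun n : ℕ => ‖A‖ * (D * C) * ((n : ℝ) ^ κ *
      Real.exp (-(Real.pi / 2 * n))) * Real.exp (-(Real.pi / 2 * y)) :=
    (hsum.mul_left _).mul_right _
  have := tsum_of_norm_bounded hsum2.hasSum hterm
  rw [hS.tsum_eq] at this
  refine this.trans (le_of_eq ?_)
  rw [tsum_mul_right, tsum_mul_left]

end Pool.Agent.X290.Mel
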