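import Pool.Agent.X290.Sp

set_option autoImplicit false

/-!
# The odd kernel operator is nonzero for a suitable radial function
-/

namespace Pool.Agent.X290.Ne

open UpperHalfPlane MeasureTheory Set Filter Topology ModularGroup Hyp Fd Ker Lap Bd Cpt Sp
open scoped MatrixGroups Modular InnerProductSpace ENNReal

instance : (volume : Measure ℍ).IsOpenPosMeasure where
  open_pos U hU hne h0 := by
    rw [volume_eq_lintegral] at h0
    have hmeas : Measurable fun z : ℂ => (((1 / ‖z.im‖₊) ^ 2 : NNReal) : ℝ≥0∞) := by fun_prop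
    have hopen : IsOpen (UpperHalfPlane.coe '' U) := isOpenEmbedding_coe.isOpenMap U hU
    rw [lintegral_eq_zero_iff hmeas] at h0
    have h1 : volume (UpperHalfPlane.coe '' U) = 0 := by
      have h2 : ∀ᵐ z : ℂ ∂(volume.restrict (UpperHalfPlane.coe '' U)), False := by
        have h3 : ∀ᵐ z : ℂ ∂(volume.restrict (UpperHalfPlane.coe '' U)),
            z ∈ UpperHalfPlane.coe '' U := ae_restrict_mem hopen.measurableSet
        filter_upwards [h0, h3] with z hz hzU
        obtain ⟨w, _, rfl⟩ := hzU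
        simp only [Pi.zero_apply, ENNReal.coe_eq_zero] at hz
        have hw : (w : ℂ).im ≠ 0 := w.im_ne_zero
        have : (1 / ‖(w : ℂ).im‖₊) ^ 2 ≠ 0 := by
          apply pow_ne_zero
          apply div_ne_zero one_ne_zero
          exact nnnorm_ne_zero_iff.mpr hw
        exact this hz
      rw [ae_iff] at h2
      simpa using h2
    exact (hopen.measure_ne_zero volume (hne.image _)) h1

/-- a continuous function vanishing a.e. on the fundamental domain vanishes at interior points -/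
lemma zero_of_ae {h : ℍ → ℂ} (hc : Continuous h) (h0 : h =ᵐ[nu] 0) {z : ℍ} (hz : z ∈ 𝒟ᵒ) :
    h z = 0 := by
  have h1 : h =ᵐ[volume.restrict 𝒟ᵒ] 0 := ae_restrict_of_ae_restrict_of_subset fdo_subset_fd h0
  exact Measure.eqOn_open_of_ae_eq h1 isOpen_fdo hc.continuousOn continuousOn_const hz

/-- the base point -/
noncomputable def z0 : ℍ := ⟨⟨1 / 4, 2⟩, by norm_num⟩

lemma z0_mem : z0 ∈ 𝒟ᵒ := by
  refine ⟨?_, ?_⟩
  · change 1 < Complex.normSq ⟨1 / 4, 2⟩
    rw [Complex.normSq_mk]; norm_num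
  · change |(1 / 4 : ℝ)| < 1 / 2
    rw [abs_of_pos] <;> norm_num

lemma Jz0_mem : J • z0 ∈ 𝒟ᵒ := by
  refine ⟨?_, ?_⟩
  · rw [Complex.normSq_apply]
    change 1 < (J • z0).re * (J • z0).re + (J • z0).im * (J • z0).im
    rw [J_im, J_re]
    change 1 < (-(1 / 4 : ℝ)) * (-(1 / 4)) + 2 * 2
    norm_num
  · rw [J_re, abs_neg]
    change |(1 / 4 : ℝ)| < 1 / 2
    rw [abs_of_pos] <;> norm_num

lemma U_pos_of_ne {z w : ℍ} (h : z ≠ w) : 0 < U z w := by
  have hz := z.im_pos; have hw := w.im_pos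
  unfold U
  have h1 : (z : ℂ) - w ≠ 0 := sub_ne_zero.mpr fun hc => h (UpperHalfPlane.ext hc)
  have := norm_pos_iff.mpr h1
  positivity

lemma Jz0_ne (g : Gm) : J • z0 ≠ g • z0 := by
  intro h
  obtain ⟨γ, rfl⟩ := exists_cl g
  rw [cl_smul] at h
  have h1 : γ • z0 ∈ 𝒟ᵒ := by rw [← h]; exact Jz0_mem
  have h2 := eq_smul_self_of_mem_fdo_mem_fdo z0_mem h1
  rw [← h2] at h
  have h3 := congrArg UpperHalfPlane.re h
  rw [J_re] at h3
  change -(1 / 4 : ℝ) = 1 / 4 at h3
  norm_num at h3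

lemma exists_delta : ∃ δ : ℝ, 0 < δ ∧ δ < 1 / 8 ∧ ∀ g : Gm, δ ≤ U (J • z0) (g • z0) := by
  have hfin := finite_U1 (J • z0) z0
  obtain ⟨δ, hδ, hδ'⟩ : ∃ δ : ℝ, 0 < δ ∧ ∀ g ∈ {g : Gm | U (J • z0) (g • z0) ≤ 1 / 8},
      δ ≤ U (J • z0) (g • z0) := by
    rcases Set.eq_empty_or_nonempty {g : Gm | U (J • z0) (g • z0) ≤ 1 / 8} with he | hne
    · exact ⟨1, one_pos, fun g hg => by rw [he] at hg; exact absurd hg (Set.notMem_empty g)⟩
    · obtain ⟨g0, hg0, hmin⟩ := Set.exists_min_image _ (fun g : Gm => U (J • z0) (g • z0)) hfin hne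
      exact ⟨U (J • z0) (g0 • z0), U_pos_of_ne (Jz0_ne g0), hmin⟩
  refine ⟨min δ (1 / 16), lt_min hδ (by norm_num), (min_le_right _ _).trans_lt (by norm_num),
    fun g => ?_⟩
  by_cases hg : U (J • z0) (g • z0) ≤ 1 / 8
  · exact (min_le_left _ _).trans (hδ' g hg)
  · push Not at hg
    exact (min_le_right _ _).trans (by linarith)

/-- a suitable radial function -/
noncomputable def ph (δ u : ℝ) : ℝ := expNegInvGlue (δ - u)

lemma ph_rho {δ : ℝ} (h : δ < 1 / 8) : RhoS (ph δ) where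
  smooth := expNegInvGlue.contDiff.comp (contDiff_const.sub contDiff_id)
  supp := ⟨δ, h, fun u hu => expNegInvGlue.zero_of_nonpos (by linarith)⟩

/-- **Nonvanishing.** -/
theorem exists_phi : ∃ φ : ℝ → ℝ, ∃ hφ : RhoS φ, TT hφ ≠ 0 := by
  obtain ⟨δ, hδ0, hδ1, hδ⟩ := exists_delta
  refine ⟨ph δ, ph_rho hδ1, fun h0 => ?_⟩
  set hφ := ph_rho hδ1
  -- value of the kernel at the base point
  have hA1 : A (ph δ) (J • z0) z0 = 0 := by
    unfold A
    rw [tsum_congr (g := fun _ => 0), tsum_zero]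
    intro g
    exact expNegInvGlue.zero_of_nonpos (by linarith [hδ g])
  have hA2 : 0 < A (ph δ) z0 z0 := by
    have h1 : ph δ (U z0 ((1 : Gm) • z0)) ≤ A (ph δ) z0 z0 :=
      (summable_A hφ.rho z0 z0).le_tsum 1 fun g _ => expNegInvGlue.nonneg _
    rw [one_smul, U_self] at h1
    refine lt_of_lt_of_le ?_ h1
    exact expNegInvGlue.pos_of_pos (by linarith)
  have hkm : 0 < km (ph δ) z0 z0 := by
    unfold km; rw [hA1, sub_zero]; positivity
  -- the operator vanishes on `kap z0`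
  set f := kap nu (kern hφ) z0 with hf
  have h1 : (fun z => ⟪kap nu (kern hφ) z, f⟫_ℂ) =ᵐ[nu] 0 := by
    have h2 := KO_coe (ν := nu) (kern hφ) f
    have h3 : (KO nu (kern hφ) f : ℍ → ℂ) =ᵐ[nu] 0 := by
      have : KO nu (kern hφ) f = 0 := by
        change TT hφ f = 0
        rw [h0]; rfl
      rw [this]
      exact Lp.coeFn_zero ℂ 2 nu
    filter_upwards [h2, h3] with z h4 h5
    rw [inner_kap, ← h4, h5]
  have h2 := zero_of_ae ((continuous_kap (kern hφ)).inner continuous_const) h1 z0_mem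
  have h3 : f = 0 := by
    rw [← hf] at h2
    exact inner_self_eq_zero.mp h2
  have h4 : (fun w => (km (ph δ) z0 w : ℂ)) =ᵐ[nu] 0 := by
    have h5 := kap_coe (ν := nu) (kern hφ) z0
    rw [← hf, h3] at h5
    exact h5.symm.trans (Lp.coeFn_zero ℂ 2 nu)
  have hcont : Continuous (fun w => (km (ph δ) z0 w : ℂ)) :=
    Complex.continuous_ofReal.comp (Continuous.comp (g := fun p : ℍ × ℍ => km (ph δ) p.1 p.2)
      (f := fun w : ℍ => (z0, w)) (continuous_km hφ.rho) (by fun_prop))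
  have h5 := zero_of_ae hcont h4 z0_mem
  rw [Complex.ofReal_eq_zero] at h5
  linarith

end Pool.Agent.X290.Ne
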