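import Pool.Agent.X290.Inf

/-! Locally constant functions on the projective line over `K_∞` and the Steinberg representation. -/

set_option autoImplicit false

namespace Pool.Agent.X290

open Polynomial WithZero Matrix

noncomputable section

/-! ### some matrices -/

section mats
variable {R : Type} [CommRing R]

/-- `(0 1; 1 0)` -/
def sw : GL (Fin 2) R where
  val := !![0, 1; 1, 0]
  inv := !![0, 1; 1, 0]
  val_inv := by simp [Matrix.one_fin_two]
  inv_val := by simp [Matrix.one_fin_two]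

/-- `diag(a, d)` -/
def dg (a d : Rˣ) : GL (Fin 2) R where
  val := !![(a : R), 0; 0, (d : R)]
  inv := !![((a⁻¹ : Rˣ) : R), 0; 0, ((d⁻¹ : Rˣ) : R)]
  val_inv := by simp [Matrix.one_fin_two]
  inv_val := by simp [Matrix.one_fin_two]

/-- `(1 0; x 1)` -/
def lunip (x : R) : GL (Fin 2) R where
  val := !![1, 0; x, 1]
  inv := !![1, 0; -x, 1]
  val_inv := by simp [Matrix.one_fin_two]
  inv_val := by simp [Matrix.one_fin_two]

end mats

abbrev Ginf : Type := GL (Fin 2) Kinf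

/-- `T` as a unit -/
def Tu : Kinfˣ := Units.mk0 T T_ne

/-- row vectors over `K_∞` -/
abbrev Row : Type := Fin 2 → Kinf

/-- the maximum norm -/
def nrm (ξ : Row) : WithZero (Multiplicative ℤ) := max (vi (ξ 0)) (vi (ξ 1))

theorem nrm_eq_zero {ξ : Row} : nrm ξ = 0 ↔ ξ = 0 := by
  unfold nrm
  constructor
  · intro h
    have h0 : vi (ξ 0) ≤ 0 := by rw [← h]; exact le_max_left _ _
    have h1 : vi (ξ 1) ≤ 0 := by rw [← h]; exact le_max_right _ _
    rw [le_zero_iff, vi, map_eq_zero] at h0 h1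
    ext i
    fin_cases i
    · exact h0
    · exact h1
  · rintro rfl
    simp [vi]

theorem nrm_add_le (ξ η : Row) : nrm (ξ + η) ≤ max (nrm ξ) (nrm η) := by
  unfold nrm
  refine max_le ?_ ?_
  · refine (Valuation.map_add _ _ _).trans (max_le_max (le_max_left _ _) (le_max_left _ _))
  · refine (Valuation.map_add _ _ _).trans (max_le_max (le_max_right _ _) (le_max_right _ _))

theorem nrm_smul (c : Kinf) (ξ : Row) : nrm (c • ξ) = vi c * nrm ξ := by
  unfold nrm
  simp only [Pi.smul_apply, smul_eq_mul, vi_mul]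
  rw [mul_max]

theorem nrm_neg (ξ : Row) : nrm (-ξ) = nrm ξ := by
  unfold nrm
  simp [vi, Valuation.map_neg]

theorem nrm_eq_of_sub_lt {ξ η : Row} (h : nrm (ξ - η) < nrm ξ) : nrm η = nrm ξ := by
  apply le_antisymm
  · have : η = ξ + -(ξ - η) := by abel
    rw [this]
    refine (nrm_add_le _ _).trans (max_le le_rfl ?_)
    rw [nrm_neg]
    exact h.le
  · have : ξ = η + (ξ - η) := by abel
    have h2 : nrm ξ ≤ max (nrm η) (nrm (ξ - η)) := by
      conv_lhs => rw [this]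
      exact nrm_add_le _ _
    rcases le_max_iff.1 h2 with h3 | h3
    · exact h3
    · exact absurd h (not_lt.2 h3)

theorem exists_exp_ge (x : WithZero (Multiplicative ℤ)) : ∃ C : ℕ, x ≤ exp (C : ℤ) := by
  refine ⟨(log x).toNat, ?_⟩
  refine le_exp_log.trans ?_
  rw [exp_le_exp]
  exact Int.self_le_toNat _

theorem nrm_vecMul (g : Ginf) : ∃ C : ℕ, ∀ ξ : Row, nrm (ξ ᵥ* g.1) ≤ exp (C : ℤ) * nrm ξ := by
  obtain ⟨C, hC⟩ := exists_exp_ge (max (max (vi (g.1 0 0)) (vi (g.1 0 1))) (max (vi (g.1 1 0)) (vi (g.1 1 1))))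
  have h00 : vi (g.1 0 0) ≤ exp (C : ℤ) := (le_max_left _ _).trans ((le_max_left _ _).trans hC)
  have h01 : vi (g.1 0 1) ≤ exp (C : ℤ) := (le_max_right _ _).trans ((le_max_left _ _).trans hC)
  have h10 : vi (g.1 1 0) ≤ exp (C : ℤ) := (le_max_left _ _).trans ((le_max_right _ _).trans hC)
  have h11 : vi (g.1 1 1) ≤ exp (C : ℤ) := (le_max_right _ _).trans ((le_max_right _ _).trans hC)
  refine ⟨C, fun ξ => ?_⟩
  have key : ∀ (x y : Kinf), vi x ≤ exp (C : ℤ) → vi y ≤ exp (C : ℤ) →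
      vi (ξ 0 * x + ξ 1 * y) ≤ exp (C : ℤ) * nrm ξ := by
    intro x y hx hy
    refine (Valuation.map_add _ _ _).trans (max_le ?_ ?_)
    · rw [map_mul, mul_comm]
      exact mul_le_mul' hx (le_max_left _ _)
    · rw [map_mul, mul_comm]
      exact mul_le_mul' hy (le_max_right _ _)
  refine max_le ?_ ?_
  · simp only [vecMul, dotProduct, Fin.sum_univ_two]
    exact key _ _ h00 h10
  · simp only [vecMul, dotProduct, Fin.sum_univ_two]
    exact key _ _ h01 h11

theorem vecMul_ne {g : Ginf} {ξ : Row} (h : ξ ≠ 0) : ξ ᵥ* g.1 ≠ 0 := by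
  intro h0
  apply h
  have : (ξ ᵥ* g.1) ᵥ* g⁻¹.1 = ξ := by
    rw [Matrix.vecMul_vecMul]
    have : g.1 * g⁻¹.1 = 1 := g.mul_inv
    rw [this, Matrix.vecMul_one]
  rw [← this, h0, Matrix.zero_vecMul]

/-- the locally constant functions on the projective line, as homogeneous functions of row vectors -/
def PF : Submodule ℂ (Row → ℂ) where
  carrier := {f | f 0 = 0 ∧ (∀ (c : Kinf) (ξ : Row), c ≠ 0 → f (c • ξ) = f ξ) ∧
    ∃ m : ℕ, ∀ ξ η : Row, nrm (ξ - η) < exp (-(m : ℤ)) * nrm ξ → f η = f ξ}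
  add_mem' := by
    rintro f g ⟨hf0, hf1, m, hf2⟩ ⟨hg0, hg1, n, hg2⟩
    refine ⟨by simp [hf0, hg0], fun c ξ hc => by simp [hf1 c ξ hc, hg1 c ξ hc], max m n, fun ξ η h => ?_⟩
    have h1 : ∀ k : ℕ, k ≤ max m n → nrm (ξ - η) < exp (-(k : ℤ)) * nrm ξ := fun k hk => by
      refine lt_of_lt_of_le h (mul_le_mul_left ?_ _)
      rw [exp_le_exp]
      omega
    simp only [Pi.add_apply]
    rw [hf2 ξ η (h1 m (le_max_left _ _)), hg2 ξ η (h1 n (le_max_right _ _))]
  zero_mem' := ⟨rfl, fun _ _ _ => rfl, 0, fun _ _ _ => rfl⟩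
  smul_mem' := by
    rintro c f ⟨hf0, hf1, m, hf2⟩
    exact ⟨by simp [hf0], fun a ξ ha => by simp [hf1 a ξ ha], m, fun ξ η h => by simp [hf2 ξ η h]⟩

theorem PF_ext {f g : PF} (h : ∀ ξ : Row, ξ ≠ 0 → f.1 ξ = g.1 ξ) : f = g := by
  apply Subtype.ext
  funext ξ
  rcases eq_or_ne ξ 0 with rfl | hξ
  · rw [f.2.1, g.2.1]
  · exact h ξ hξ

/-- the action of `GL₂(K_∞)` -/
def rP : Representation ℂ Ginf PF where
  toFun g :=
    { toFun := fun f => ⟨fun ξ => f.1 (ξ ᵥ* g.1), by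
        obtain ⟨hf0, hf1, m, hf2⟩ := f.2
        refine ⟨by simp [hf0], fun c ξ hc => by
          change f.1 ((c • ξ) ᵥ* g.1) = f.1 (ξ ᵥ* g.1)
          rw [Matrix.smul_vecMul, hf1 c _ hc], ?_⟩
        obtain ⟨C, hC⟩ := nrm_vecMul g
        obtain ⟨D, hD⟩ := nrm_vecMul g⁻¹
        refine ⟨m + C + D, fun ξ η h => ?_⟩
        refine hf2 _ _ ?_
        rw [← Matrix.sub_vecMul]
        refine lt_of_le_of_lt (hC _) ?_
        have h1 : nrm ξ ≤ exp (D : ℤ) * nrm (ξ ᵥ* g.1) := by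
          have := hD (ξ ᵥ* g.1)
          rw [Matrix.vecMul_vecMul] at this
          have e : g.1 * g⁻¹.1 = 1 := g.mul_inv
          rwa [e, Matrix.vecMul_one] at this
        have h2 : nrm (ξ - η) < exp (-((m + C + D : ℕ) : ℤ)) * (exp (D : ℤ) * nrm (ξ ᵥ* g.1)) :=
          lt_of_lt_of_le h (mul_le_mul_right h1 _)
        have h3 : exp (C : ℤ) * nrm (ξ - η) <
            exp (C : ℤ) * (exp (-((m + C + D : ℕ) : ℤ)) * (exp (D : ℤ) * nrm (ξ ᵥ* g.1))) :=
          mul_lt_mul_of_pos_left h2 exp_pos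
        refine lt_of_lt_of_le h3 (le_of_eq ?_)
        rw [← mul_assoc, ← mul_assoc, ← exp_add, ← exp_add]
        congr 2
        push_cast
        ring⟩
      map_add' := fun _ _ => rfl
      map_smul' := fun _ _ => rfl }
  map_one' := by
    ext f ξ
    simp
  map_mul' g h := by
    ext f ξ
    simp [Matrix.vecMul_vecMul]

theorem rP_apply (g : Ginf) (f : PF) (ξ : Row) : (rP g f).1 ξ = f.1 (ξ ᵥ* g.1) := rfl

open Classical in
/-- the constant function `1` -/
def one0 : PF := ⟨fun ξ => if ξ = 0 then 0 else 1, by simp, fun c ξ hc => by simp [hc], 0, fun ξ η h => by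
  have h1 : nrm (ξ - η) < nrm ξ := by simpa using h
  have h2 := nrm_eq_of_sub_lt h1
  have h3 : ξ ≠ 0 := by
    rintro rfl
    rw [nrm_eq_zero.2 rfl] at h1
    exact absurd h1 (by simp)
  have h4 : η ≠ 0 := by
    rintro rfl
    rw [nrm_eq_zero.2 rfl] at h2
    exact h3 (nrm_eq_zero.1 h2.symm)
  simp [h3, h4]⟩

theorem one0_apply {ξ : Row} (h : ξ ≠ 0) : one0.1 ξ = 1 := by simp [one0, h]

theorem rP_one0 (g : Ginf) : rP g one0 = one0 := by
  apply PF_ext
  intro ξ hξ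
  rw [rP_apply, one0_apply hξ, one0_apply (vecMul_ne hξ)]

open Classical in
/-- the indicator function of the ball `|ξ₁| < |ξ₀|` -/
def B0 : PF := ⟨fun ξ => if vi (ξ 1) < vi (ξ 0) then 1 else 0, by simp, fun c ξ hc => by
    have h : vi (c * ξ 1) < vi (c * ξ 0) ↔ vi (ξ 1) < vi (ξ 0) := by
      rw [vi_mul, vi_mul]
      have hc' : 0 < vi c := by
        rw [vi, Valuation.pos_iff]
        exact hc
      exact mul_lt_mul_iff_right₀ hc'
    simp only [Pi.smul_apply, smul_eq_mul]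
    simp only [h], 0, fun ξ η h => by
  have h1 : nrm (ξ - η) < nrm ξ := by simpa using h
  have hk : vi (η 1) < vi (η 0) ↔ vi (ξ 1) < vi (ξ 0) := by
    have h2 := nrm_eq_of_sub_lt h1
    have a0 : vi (ξ 0 - η 0) < nrm ξ := lt_of_le_of_lt (le_max_left _ _) h1
    have a1 : vi (ξ 1 - η 1) < nrm ξ := lt_of_le_of_lt (le_max_right _ _) h1
    constructor
    · intro h3
      have h4 : nrm η = vi (η 0) := max_eq_left h3.le
      have e0 : vi (ξ 0) = vi (η 0) := by
        have : ξ 0 = η 0 + (ξ 0 - η 0) := by ring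
        rw [this]
        exact Valuation.map_add_eq_of_lt_left _ (by rw [← h2, h4] at a0; exact a0)
      have e1 : vi (ξ 1) < vi (η 0) := by
        have : ξ 1 = η 1 + (ξ 1 - η 1) := by ring
        rw [this]
        exact vi_add_lt h3 (by rw [← h4, h2]; exact a1)
      rw [e0]
      exact e1
    · intro h3
      have h4 : nrm ξ = vi (ξ 0) := max_eq_left h3.le
      have e0 : vi (η 0) = vi (ξ 0) := by
        have : η 0 = ξ 0 + -(ξ 0 - η 0) := by ring
        rw [this]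
        exact Valuation.map_add_eq_of_lt_left _ (by rw [h4] at a0; rw [Valuation.map_neg]; exact a0)
      have e1 : vi (η 1) < vi (ξ 0) := by
        have : η 1 = ξ 1 - (ξ 1 - η 1) := by ring
        rw [this]
        exact vi_sub_lt h3 (by rw [← h4]; exact a1)
      rw [e0]
      exact e1
  simp only [hk]⟩

open Classical in
theorem B0_apply (ξ : Row) : B0.1 ξ = if vi (ξ 1) < vi (ξ 0) then 1 else 0 := rfl

theorem Tu_zpow (n : ℤ) : ((Tu ^ n : Kinfˣ) : Kinf) = T ^ n := by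
  rw [Units.val_zpow_eq_zpow_val]
  rfl

/-- `u(-a) diag(T^(-n), 1)`, which moves the standard ball to the disk around `a` -/
def gd (a : Kinf) (n : ℤ) : Ginf := unip (-a) * dg (Tu ^ (-n)) 1

theorem vecMul_two (ξ : Row) (g : Matrix (Fin 2) (Fin 2) Kinf) (j : Fin 2) :
    (ξ ᵥ* g) j = ξ 0 * g 0 j + ξ 1 * g 1 j := by
  simp [vecMul, dotProduct, Fin.sum_univ_two]

open Classical in
theorem gd_apply (a : Kinf) (n : ℤ) (ξ : Row) :
    (rP (gd a n) B0).1 ξ = if vi (ξ 1 - a * ξ 0) < exp (-n) * vi (ξ 0) then 1 else 0 := by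
  rw [rP_apply, B0_apply]
  have e0 : (ξ ᵥ* (gd a n).1) 0 = T ^ (-n) * ξ 0 := by
    rw [vecMul_two]
    simp [gd, unip, dg, mul_comm, ← Tu_zpow]
  have e1 : (ξ ᵥ* (gd a n).1) 1 = ξ 1 - a * ξ 0 := by
    rw [vecMul_two]
    simp [gd, unip, dg]
    ring
  rw [e0, e1, vi_mul, vi_Tz]

open Classical in
theorem gd_sw_apply (a : Kinf) (n : ℤ) (ξ : Row) :
    (rP (sw * gd a n) B0).1 ξ = if vi (ξ 0 - a * ξ 1) < exp (-n) * vi (ξ 1) then 1 else 0 := by
  rw [map_mul, Module.End.mul_apply, rP_apply, gd_apply]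
  have e0 : (ξ ᵥ* (sw : Ginf).1) 0 = ξ 1 := by
    rw [vecMul_two]
    simp [sw]
  have e1 : (ξ ᵥ* (sw : Ginf).1) 1 = ξ 0 := by
    rw [vecMul_two]
    simp [sw]
  rw [e0, e1]

/-- the finite set of polynomials of degree `< N` -/
def pfin (N : ℕ) : Finset (ZMod 2)[X] :=
  haveI : Finite (degreeLT (ZMod 2) N) := Finite.of_equiv _ (degreeLTEquiv (ZMod 2) N).toEquiv.symm
  (Set.toFinite (degreeLT (ZMod 2) N : Set (ZMod 2)[X])).toFinset

theorem mem_pfin {N : ℕ} {p : (ZMod 2)[X]} : p ∈ pfin N ↔ p.degree < N := by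
  unfold pfin
  rw [Set.Finite.mem_toFinset, SetLike.mem_coe, mem_degreeLT]

theorem mem_pfin_iff {N : ℕ} {p : (ZMod 2)[X]} : p ∈ pfin N ↔ vi (pol p) < exp (N : ℤ) := by
  rw [mem_pfin]
  rcases eq_or_ne p 0 with rfl | h
  · simp [vi]
  · rw [vi_pol h, exp_lt_exp, degree_eq_natDegree h]
    norm_cast

theorem exists_rep (y : Kinf) (n : ℤ) : ∃ p : (ZMod 2)[X], vi (y - pol p * T ^ (-n)) < exp (-n) := by
  obtain ⟨p, hp⟩ := decomp (y * T ^ n)
  refine ⟨p, ?_⟩
  have e : y - pol p * T ^ (-n) = (y * T ^ n - pol p) * T ^ (-n) := by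
    rw [sub_mul, mul_assoc, ← zpow_add₀ T_ne]
    simp
  rw [e, vi_mul, vi_Tz]
  calc vi (y * T ^ n - pol p) * exp (-n) < 1 * exp (-n) := mul_lt_mul_of_pos_right hp exp_pos
    _ = exp (-n) := one_mul _

theorem rep_unique {n : ℤ} {p q : (ZMod 2)[X]} (h : vi (pol p * T ^ (-n) - pol q * T ^ (-n)) < exp (-n)) :
    p = q := by
  rw [← sub_mul, vi_mul, vi_Tz, ← map_sub] at h
  have h1 : vi (pol (p - q)) < 1 := by
    by_contra h2
    rw [not_lt] at h2
    have := mul_le_mul_left h2 (exp (-n))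
    rw [one_mul] at this
    exact absurd h (not_lt.2 this)
  exact sub_eq_zero.1 (pol_eq_zero h1)

end

end Pool.Agent.X290
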