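import Pool.Agent.X290.Cc
import Pool.Agent.X290.Iso

/-! The cuspidal representation with Steinberg component at `∞`, and the final argument. -/

set_option autoImplicit false

namespace Pool.Agent.X290

open Polynomial WithZero Matrix IsDedekindDomain Representation

noncomputable section

theorem phi_mem : phi ∈ VD Dp_equivar := by
  refine ⟨Finsupp.single 1 B0, ?_⟩
  rw [Psi_single, Dp_B0]
  have : (inclFin 1 : GA) = 1 := map_one _
  rw [this, map_one]
  rfl

theorem phi_ne : phi ≠ 0 := by
  intro h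
  have := phi_one
  rw [h] at this
  exact zero_ne_one this

/-- the space of cusp forms generated by `phi` -/
abbrev Vp : Type := (VD Dp_equivar).toSubmodule

/-- the representation on it -/
def rp : Representation ℂ GA Vp := (VD Dp_equivar).toRepresentation

theorem rp_coe (g : GA) (x : Vp) : (rp g x).1 = rightReg g x.1 := rfl

/-- `phi` as an element -/
def phi0 : Vp := ⟨phi, phi_mem⟩

theorem gen_phi (N : Submodule ℂ Vp) (hN : ∀ g, ∀ x ∈ N, rp g x ∈ N) (h : phi0 ∈ N) : N = ⊤ := by
  rw [eq_top_iff]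
  rintro ⟨_, ⟨x, rfl⟩⟩ -
  set N' : Submodule ℂ (GA → ℂ) := N.map (VD Dp_equivar).toSubmodule.subtype with hN'
  have hst : ∀ g, ∀ φ ∈ N', rightReg g φ ∈ N' := by
    rintro g _ ⟨y, hy, rfl⟩
    exact ⟨rp g y, hN g y hy, rfl⟩
  have hphi : phi ∈ N' := ⟨phi0, h, rfl⟩
  have h1 : Psi Dp x ∈ N' := by
    rw [Psi_apply]
    exact Submodule.sum_mem _ fun k _ => hst _ _ (Dp_induction (fun y => hst _ _ hphi) _)
  obtain ⟨y, hy, hyx⟩ := h1
  have : y = ⟨Psi Dp x, ⟨x, rfl⟩⟩ := Subtype.ext hyx
  rw [← this]
  exact hy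

/-- **there is a cuspidal automorphic representation with component `St` at `∞`** -/
theorem exists_cuspidal : ∃ π : Irrep GA, IsAutomorphic π ∧ IsCuspidal π ∧ IsComponent inclInf st π := by
  obtain ⟨N, hN, hirr⟩ := exists_irreducible_quotient rp phi0
    (fun h => phi_ne (congrArg Subtype.val h)) gen_phi
  let π : Irrep GA :=
    { V := Vp ⧸ N
      ρ := rp.quotient N hN
      irreducible := hirr
      smooth := fun x => by
        obtain ⟨φ, rfl⟩ := Submodule.Quotient.mk_surjective N x
        obtain ⟨U, hU, hfix⟩ := VD_smooth Dp_equivar Dp_smooth φ.2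
        refine ⟨U, hU, fun g hg => ?_⟩
        have h1 : rp g φ = φ := Subtype.ext (hfix g hg)
        change (Submodule.Quotient.mk (rp g φ) : Vp ⧸ N) = _
        rw [h1] }
  have hcusp : IsCuspidal π := by
    refine ⟨VD Dp_equivar, ⟨N.mkQ, fun g => ?_⟩, fun φ hφ => VD_cusp hφ, Submodule.mkQ_surjective N⟩
    apply LinearMap.ext
    intro x
    rfl
  refine ⟨π, ?_, hcusp, ?_⟩
  · obtain ⟨V, q, h1, h2⟩ := hcusp
    exact ⟨V, q, fun φ hφ => (h1 φ hφ).1, h2⟩
  · -- the map from the sum of copies of `St`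
    let θ0 : Gfin → (PF →ₗ[ℂ] Vp) := fun h => LinearMap.codRestrict (VD Dp_equivar).toSubmodule
      ((rightReg (inclFin h)) ∘ₗ Dp) (fun f => ⟨Finsupp.single h f, Psi_single Dp h f⟩)
    have hker : ∀ h, Submodule.span ℂ {one0} ≤ LinearMap.ker (N.mkQ ∘ₗ θ0 h) := by
      intro h
      rw [Submodule.span_le, Set.singleton_subset_iff]
      change (N.mkQ ∘ₗ θ0 h) one0 = 0
      have : θ0 h one0 = 0 := by
        apply Subtype.ext
        change rightReg (inclFin h) (Dp one0) = 0
        rw [Dp_one0, map_zero]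
      rw [LinearMap.comp_apply, this, map_zero]
    let Θ : Gfin → stR.IntertwiningMap (π.ρ.comp inclInf) := fun h =>
      ⟨Submodule.liftQ _ (N.mkQ ∘ₗ θ0 h) (hker h), fun g => by
        apply LinearMap.ext
        intro x
        obtain ⟨f, rfl⟩ := Submodule.Quotient.mk_surjective _ x
        change (Submodule.Quotient.mk (θ0 h (rP g f)) : Vp ⧸ N) = Submodule.Quotient.mk (rp (inclInf g) (θ0 h f))
        congr 1
        apply Subtype.ext
        exact equivar_translate Dp_equivar h g f⟩
    obtain ⟨J, ⟨e⟩⟩ := isotypic_equiv stR st.irreducible (π.ρ.comp inclInf) Θ (fun Q hQ => by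
      rw [eq_top_iff]
      intro x _
      obtain ⟨φ, rfl⟩ := Submodule.Quotient.mk_surjective N x
      obtain ⟨_, ⟨y, rfl⟩⟩ := φ
      have h1 : (⟨Psi Dp y, ⟨y, rfl⟩⟩ : Vp) = ∑ h ∈ y.support, θ0 h (y h) := by
        apply Subtype.ext
        rw [AddSubmonoidClass.coe_finsetSum]
        rfl
      rw [h1, ← Submodule.mkQ_apply, map_sum]
      exact Submodule.sum_mem _ fun h _ => hQ h (Submodule.Quotient.mk (y h)))
    exact ⟨J, ⟨e⟩⟩

theorem sameComponent_refl (v : Place) (π : Irrep GA) : SameComponent v π π := fun _ => Iff.rfl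

/-- **no local lifting is compatible with the global liftings** -/
theorem no_local_lifting : ¬ ∃ l : Irrep (GL (Fin 2) Kinf) → Irrep (GL (Fin 2) Kinf),
    ∀ π τ : Irrep GA, IsAutomorphic π → IsGlobalLifting π τ →
      ∀ σ, IsComponent inclInf σ π → IsComponent inclInf (l σ) τ := by
  rintro ⟨l, hl⟩
  have h1 := hl piE triv piE_automorphic piE_lifting st piE_component
  obtain ⟨π, ha, hc, hcomp⟩ := exists_cuspidal
  have h2 := hl π π ha ⟨⟨ha, Or.inl hc⟩, fun v _ => sameComponent_refl v π⟩ st hcomp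
  -- `GL₂(K_∞)` acts trivially on `l st`
  have htriv : ∀ g x, (l st).ρ g x = x := trivial_of_component (fun _ _ => rfl) h1
  -- hence on `π`
  obtain ⟨J, ⟨e⟩⟩ := h2
  have hπ : ∀ g x, π.ρ (inclInf g) x = x := by
    intro g x
    have h3 : e (π.ρ (inclInf g) x) = (l st).ρ.finsupp J g (e x) :=
      Representation.IntertwiningMap.isIntertwining _ _ e.toIntertwiningMap g x
    have h4 : ∀ y, (l st).ρ.finsupp J g y = y := by
      intro y
      induction y using Finsupp.induction_linear with
      | zero => simp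
      | add a b ha hb => rw [map_add, ha, hb]
      | single j a => rw [Representation.finsupp_single, htriv]
    rw [h4] at h3
    exact e.toLinearEquiv.injective h3
  -- hence on `St`
  have hst : ∀ g x, st.ρ g x = x := trivial_of_component hπ hcomp
  have h5 : stR om (Submodule.Quotient.mk B0) = Submodule.Quotient.mk B0 := hst om _
  rw [stR_mk, rP_om_B0, Submodule.Quotient.eq, Submodule.mem_span_singleton] at h5
  obtain ⟨c, hc'⟩ := h5
  have h6 := indep (a := 0) (b := c) (c := -2) (d := 1) (by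
    rw [hc']
    module)
  norm_num at h6

end

end Pool.Agent.X290
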