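import Pool.Agent.X290.Hyp
import Pool.Agent.X290.Fou

set_option autoImplicit false

/-!
# Smoothness and Laplacian of the integral operators
-/

namespace Pool.Agent.X290.Smo

open UpperHalfPlane MeasureTheory Set Filter Topology Hyp
open Fou (Hs D isOpen_Hs)

/-- integrals over the upper half plane as plane integrals -/
theorem integral_H (F : ℍ → ℂ) :
    ∫ w : ℍ, F w = ∫ w in Hs, ((1 / w.im ^ 2 : ℝ)) • F (ofComplex w) := by
  have h1 : MeasurePreserving UpperHalfPlane.coe (volume.comap UpperHalfPlane.coe)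
      (volume.restrict (.range UpperHalfPlane.coe)) :=
    ⟨measurable_coe, by rw [measurableEmbedding_coe.map_comap]⟩
  have hr : range UpperHalfPlane.coe = Hs := by
    ext z
    constructor
    · rintro ⟨w, rfl⟩; exact w.im_pos
    · intro hz; exact ⟨⟨z, hz⟩, rfl⟩
  rw [hr] at h1
  rw [volume_def, integral_withDensity_eq_integral_smul]
  · rw [← h1.integral_comp measurableEmbedding_coe
      (fun w => ((1 / w.im ^ 2 : ℝ)) • F (ofComplex w))]
    refine integral_congr_ae (Filter.Eventually.of_forall fun z => ?_)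
    simp only [ofComplex_apply]
    rw [NNReal.smul_def]
    congr 1
    push_cast
    simp
  · refine Measurable.pow_const ?_ _
    refine Measurable.const_div ?_ _
    exact (continuous_im.measurable).subtype_mk

/-- derivative of a kernel in the first variable -/
noncomputable def DK (v : ℂ) (kk : ℂ → ℂ → ℝ) (z w : ℂ) : ℝ :=
  fderiv ℝ (fun p : ℂ × ℂ => kk p.1 p.2) (z, w) (v, 0)

/-- good kernels near a point -/
structure Good (s k : Set ℂ) (kk : ℂ → ℂ → ℝ) : Prop where
  os : IsOpen s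
  ck : IsCompact k
  smooth : ContDiffOn ℝ (⊤ : ℕ∞) (fun p : ℂ × ℂ => kk p.1 p.2) (s ×ˢ univ)
  zero : ∀ z ∈ s, ∀ w, w ∉ k → kk z w = 0

/-- parametric integral -/
noncomputable def II (kk : ℂ → ℂ → ℝ) (h : ℂ → ℂ) (z : ℂ) : ℂ := ∫ w : ℂ, kk z w • h w

variable {s k : Set ℂ} {kk : ℂ → ℂ → ℝ} {h : ℂ → ℂ}

lemma Good.hasFDerivAt (hk : Good s k kk) {z : ℂ} (hz : z ∈ s) (w : ℂ) :
    HasFDerivAt (fun p : ℂ × ℂ => kk p.1 p.2)
      (fderiv ℝ (fun p : ℂ × ℂ => kk p.1 p.2) (z, w)) (z, w) :=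
  ((hk.smooth.differentiableOn (by simp)).differentiableAt
    ((hk.os.prod isOpen_univ).mem_nhds ⟨hz, mem_univ _⟩)).hasFDerivAt

lemma Good.line (hk : Good s k kk) {z : ℂ} (hz : z ∈ s) (w v : ℂ) {γ : ℝ → ℂ} {t : ℝ}
    (hγ : HasDerivAt γ v t) (hγt : γ t = z) :
    HasDerivAt (fun t => kk (γ t) w) (DK v kk z w) t := by
  have h1 := hk.hasFDerivAt hz w
  have h2 : HasDerivAt (fun t => (γ t, w)) ((v, 0) : ℂ × ℂ) t := by
    exact hγ.prodMk (hasDerivAt_const t w)
  rw [← hγt] at h1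
  have h3 := h1.comp_hasDerivAt t h2
  rw [hγt] at h3
  exact h3

lemma Good.DK (hk : Good s k kk) (v : ℂ) : Good s k (DK v kk) where
  os := hk.os
  ck := hk.ck
  smooth := by
    have h1 := hk.smooth.fderiv_of_isOpen (hk.os.prod isOpen_univ) (m := (⊤ : ℕ∞))
      (by exact_mod_cast le_rfl)
    exact h1.clm_apply contDiffOn_const
  zero z hz w hw := by
    have h1 : (fun p : ℂ × ℂ => kk p.1 p.2) =ᶠ[𝓝 (z, w)] fun _ => 0 := by
      have ho : IsOpen (s ×ˢ kᶜ) := hk.os.prod hk.ck.isClosed.isOpen_compl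
      filter_upwards [ho.mem_nhds ⟨hz, hw⟩] with p hp
      exact hk.zero p.1 hp.1 p.2 hp.2
    unfold Smo.DK
    rw [h1.fderiv_eq]
    simp

lemma Good.contDiffOn (hk : Good s k kk) (hh : LocallyIntegrable h) :
    ContDiffOn ℝ (⊤ : ℕ∞) (II kk h) s := by
  have h1 := contDiffOn_convolution_right_with_param (𝕜 := ℝ) (μ := (volume : Measure ℂ))
    (f := h) (n := (⊤ : ℕ∞)) (ContinuousLinearMap.lsmul ℝ ℝ).flip (g := fun z x => kk z (-x))
    (s := s) (k := -k) hk.os hk.ck.neg
    (fun p x hp hx => hk.zero p hp (-x) (fun hc => hx (by simpa using hc))) hh ?_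
  · have h2 : ContDiffOn ℝ (⊤ : ℕ∞) (fun z : ℂ => ((z, 0) : ℂ × ℂ)) s :=
      (contDiff_id.prodMk contDiff_const).contDiffOn
    refine (h1.comp h2 fun z hz => ⟨hz, mem_univ _⟩).congr fun z _ => ?_
    simp only [II, Function.comp, MeasureTheory.convolution, zero_sub, neg_neg,
      ContinuousLinearMap.flip_apply, ContinuousLinearMap.lsmul_apply]
  · have h3 : ContDiff ℝ (⊤ : ℕ∞) (fun p : ℂ × ℂ => ((p.1, -p.2) : ℂ × ℂ)) :=
      contDiff_fst.prodMk contDiff_snd.neg
    exact hk.smooth.comp h3.contDiffOn fun p hp => ⟨hp.1, mem_univ _⟩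

lemma Good.cont_w (hk : Good s k kk) {z : ℂ} (hz : z ∈ s) : Continuous (kk z) := by
  have h1 := hk.smooth.continuousOn
  have h2 : Continuous fun w : ℂ => ((z, w) : ℂ × ℂ) := by fun_prop
  exact h1.comp_continuous h2 fun w => ⟨hz, mem_univ _⟩

lemma Good.integrable (hk : Good s k kk) (hh : LocallyIntegrable h) {z : ℂ} (hz : z ∈ s) :
    Integrable fun w => kk z w • h w := by
  have hc : HasCompactSupport (kk z) := HasCompactSupport.intro hk.ck fun w hw => hk.zero z hz w hw
  exact hh.integrable_smul_left_of_hasCompactSupport (hk.cont_w hz) hc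

lemma Good.D_II (hk : Good s k kk) (hh : LocallyIntegrable h) {z : ℂ} (hz : z ∈ s) (v : ℂ) :
    D v (II kk h) z = II (Smo.DK v kk) h z := by
  have hd : HasFDerivAt (II kk h) (fderiv ℝ (II kk h) z) z :=
    (((hk.contDiffOn hh).differentiableOn (by simp)).differentiableAt
      (hk.os.mem_nhds hz)).hasFDerivAt
  set γ : ℝ → ℂ := fun t => z + t • v with hγ
  have hγd : ∀ t, HasDerivAt γ v t := by
    intro t
    have := ((hasDerivAt_id t).smul_const v).const_add z
    rw [one_smul] at this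
    exact this
  have hγ0 : γ 0 = z := by simp [hγ]
  have h1 : HasDerivAt (fun t => II kk h (γ t)) (D v (II kk h) z) 0 := by
    rw [← hγ0] at hd
    have := hd.comp_hasDerivAt (0 : ℝ) (hγd 0)
    rw [hγ0] at this
    exact this
  -- a compact segment inside `s`
  obtain ⟨ε, hε, hball⟩ : ∃ ε : ℝ, 0 < ε ∧ ∀ t ∈ Icc (-ε) ε, γ t ∈ s := by
    have hc : Continuous γ := by fun_prop
    have : γ ⁻¹' s ∈ 𝓝 (0 : ℝ) := hc.continuousAt.preimage_mem_nhds (by
      rw [hγ0]; exact hk.os.mem_nhds hz)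
    obtain ⟨ε, hε, hsub⟩ := Metric.mem_nhds_iff.mp this
    refine ⟨ε / 2, by positivity, fun t ht => hsub ?_⟩
    rw [Metric.mem_ball, dist_zero_right, Real.norm_eq_abs, abs_lt]
    exact ⟨by linarith [ht.1], by linarith [ht.2]⟩
  have hγc : Continuous γ := by fun_prop
  have hK : IsCompact ((γ '' Icc (-ε) ε) ×ˢ k) := (isCompact_Icc.image hγc).prod hk.ck
  obtain ⟨M, hM⟩ := hK.exists_bound_of_continuousOn (f := fun p : ℂ × ℂ => Smo.DK v kk p.1 p.2)
    ((hk.DK v).smooth.continuousOn.mono fun p hp => by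
      obtain ⟨⟨t, ht, hte⟩, _⟩ := hp
      exact ⟨by rw [← hte]; exact hball t ht, mem_univ _⟩)
  have hbint : Integrable fun w => (indicator k (fun _ => |M|) w) * ‖h w‖ := by
    have h2 : IntegrableOn (fun w => |M| * ‖h w‖) k := (hh.integrableOn_isCompact hk.ck).norm.const_mul |M|
    rw [← integrable_indicator_iff hk.ck.measurableSet] at h2
    refine h2.congr (Filter.Eventually.of_forall fun w => ?_)
    by_cases hw : w ∈ k
    · simp [hw]
    · simp [hw]
  have key := hasDerivAt_integral_of_dominated_loc_of_deriv_le (μ := (volume : Measure ℂ))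
    (F := fun (t : ℝ) (w : ℂ) => kk (γ t) w • h w)
    (F' := fun (t : ℝ) (w : ℂ) => Smo.DK v kk (γ t) w • h w) (x₀ := (0 : ℝ))
    (s := Ioo (-ε) ε) (bound := fun w => (indicator k (fun _ => |M|) w) * ‖h w‖)
    (Ioo_mem_nhds (by linarith) hε) ?_ ?_ ?_ ?_ hbint ?_
  · have h3 := key.2
    rw [hγ0] at h3
    exact h1.unique h3
  · filter_upwards [Ioo_mem_nhds (show -ε < 0 by linarith) hε] with t ht
    exact (hk.integrable hh (hball t ⟨ht.1.le, ht.2.le⟩)).aestronglyMeasurable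
  · rw [hγ0]
    exact hk.integrable hh hz
  · rw [hγ0]
    exact ((hk.DK v).integrable hh hz).aestronglyMeasurable
  · refine Filter.Eventually.of_forall fun w t ht => ?_
    have hts : γ t ∈ s := hball t ⟨ht.1.le, ht.2.le⟩
    rw [norm_smul]
    by_cases hw : w ∈ k
    · rw [indicator_of_mem hw]
      gcongr
      exact (hM (γ t, w) ⟨⟨t, ⟨ht.1.le, ht.2.le⟩, rfl⟩, hw⟩).trans (le_abs_self M)
    · rw [(hk.DK v).zero _ hts w hw]
      simp [hw]
  · refine Filter.Eventually.of_forall fun w t ht => ?_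
    have hts : γ t ∈ s := hball t ⟨ht.1.le, ht.2.le⟩
    exact (hk.line hts w v (hγd t) rfl).smul_const (h w)

end Pool.Agent.X290.Smo
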