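import Pool.Agent.X290.Bd

set_option autoImplicit false

/-!
# Spectral theory of the odd kernel
-/

namespace Pool.Agent.X290.Sp

open UpperHalfPlane MeasureTheory Set Filter Topology ModularGroup Hyp Fd Ker Lap Bd Cpt
open scoped MatrixGroups Modular InnerProductSpace ENNReal

/-- invariant measure on the fundamental domain -/
noncomputable abbrev nu : Measure ℍ := volume.restrict (𝒟 : Set ℍ)

variable {φ : ℝ → ℝ}

lemma kern_meas (hφ : RhoS φ) : Measurable (fun p : ℍ × ℍ => km φ p.1 p.2) :=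
  (continuous_km hφ.rho).measurable

lemma kern_cont (hφ : RhoS φ) (w : ℍ) : Continuous (fun z : ℍ => km φ z w) :=
  Continuous.comp (g := fun p : ℍ × ℍ => km φ p.1 p.2) (f := fun z : ℍ => (z, w))
    (continuous_km hφ.rho) (by fun_prop)

lemma kern (hφ : RhoS φ) : Kern (km φ) := ⟨kern_meas hφ, km_bdd hφ, km_symm φ, kern_cont hφ⟩

/-- invariant functions -/
def InvG (G : ℍ → ℂ) : Prop := ∀ (g : Gm) (w : ℍ), G (g • w) = G w

/-- odd functions -/
def OddG (G : ℍ → ℂ) : Prop := ∀ w : ℍ, G (J • w) = - G w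

lemma integrable_g {F : ℍ → ℂ} (hF : Integrable F) (g : Gm) :
    Integrable (fun w => F (g • w)) nu :=
  ((measurePreserving_smul g volume).integrable_comp_of_integrable hF).integrableOn

lemma summable_norm {F : ℍ → ℂ} (hF : Integrable F) :
    Summable fun g : Gm => ∫ w, ‖F (g • w)‖ ∂nu := by
  have h1 := isFD.lintegral_eq_tsum'' (fun w => ‖F w‖ₑ)
  have h2 : ∑' g : Gm, ∫⁻ w in 𝒟, ‖F (g • w)‖ₑ ≠ ∞ := by
    rw [← h1]; exact hF.2.ne
  refine (ENNReal.summable_toReal h2).congr fun g => ?_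
  rw [integral_norm_eq_lintegral_enorm (integrable_g hF g).1]

lemma unfold_gen {F : ℍ → ℂ} (hF : Integrable F) :
    ∫ w, F w = ∫ w, ∑' g : Gm, F (g • w) ∂nu := by
  have h1 := isFD.integral_eq_tsum'' F hF
  have h2 := hasSum_integral_of_summable_integral_norm (μ := nu)
    (F := fun (g : Gm) (w : ℍ) => F (g • w)) (fun g => integrable_g hF g) (summable_norm hF)
  rw [h1]
  exact h2.tsum_eq

theorem unfold_A (hφ : Rho φ) {G : ℍ → ℂ} (hG : BM G) (hinv : InvG G) (z : ℍ) :
    K φ G z = ∫ w, (A φ z w : ℂ) * G w ∂nu := by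
  unfold K
  rw [unfold_gen (hφ.integrable_mul hG z)]
  refine integral_congr_ae (Filter.Eventually.of_forall fun w => ?_)
  simp only [hinv _ w]
  rw [tsum_mul_right, A, Complex.ofReal_tsum]

lemma integrable_A (hφ : Rho φ) {G : ℍ → ℂ} (hG : BM G) (hinv : InvG G) (z : ℍ) :
    Integrable (fun w => (A φ z w : ℂ) * G w) nu := by
  have hF := hφ.integrable_mul hG z
  have hmA : Measurable fun w => (A φ z w : ℂ) :=
    Complex.measurable_ofReal.comp ((continuous_A hφ).comp (Continuous.prodMk_right z)).measurable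
  refine ⟨(hmA.mul hG.meas).aestronglyMeasurable, ?_⟩
  have h1 := isFD.lintegral_eq_tsum'' (fun w => ‖(φ (U z w) : ℂ) * G w‖ₑ)
  have h2 : ∑' g : Gm, ∫⁻ w in 𝒟, ‖(φ (U z (g • w)) : ℂ) * G (g • w)‖ₑ ≠ ∞ := by
    rw [← h1]; exact hF.2.ne
  rw [← lintegral_tsum (fun g => (integrable_g hF g).1.enorm)] at h2
  refine lt_of_le_of_lt (lintegral_mono fun w => ?_) (lt_top_iff_ne_top.mpr h2)
  simp only [hinv _ w]
  have hs : Summable fun g : Gm => (φ (U z (g • w)) : ℂ) * G w := by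
    have := (summable_A hφ z w)
    exact (Complex.summable_ofReal.mpr this).mul_right _
  rw [show (A φ z w : ℂ) * G w = ∑' g : Gm, (φ (U z (g • w)) : ℂ) * G w by
    rw [tsum_mul_right, A, Complex.ofReal_tsum]]
  exact enorm_tsum_le_tsum_enorm

lemma K_J {G : ℍ → ℂ} (hodd : OddG G) (z : ℍ) : K φ G (J • z) = - K φ G z := by
  rw [← K_comp_smul]
  unfold K
  rw [← integral_neg]
  refine integral_congr_ae (Filter.Eventually.of_forall fun w => ?_)
  simp only [hodd w]
  ring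

/-- **Unfolding.** -/
theorem unfold_km (hφ : RhoS φ) {G : ℍ → ℂ} (hG : BM G) (hinv : InvG G) (hodd : OddG G) (z : ℍ) :
    ∫ w, (km φ z w : ℂ) * G w ∂nu = K φ G z := by
  have h1 := unfold_A hφ.rho hG hinv z
  have h2 := unfold_A hφ.rho hG hinv (J • z)
  rw [K_J hodd] at h2
  have h3 : ∀ w, (km φ z w : ℂ) * G w
      = (1 / 2 : ℂ) * ((A φ z w : ℂ) * G w - (A φ (J • z) w : ℂ) * G w) := by
    intro w; unfold km; push_cast; ring
  simp only [h3]
  rw [integral_const_mul, integral_sub (integrable_A hφ.rho hG hinv z)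
    (integrable_A hφ.rho hG hinv (J • z)), ← h1, ← h2]
  ring

/-- the space of odd automorphic eigenfunctions -/
def V (φ : ℝ → ℝ) (lam : ℂ) : Submodule ℂ (ℍ → ℂ) where
  carrier := {G | BM G ∧ InvG G ∧ OddG G ∧ ∀ z, Integrable (fun w : ℍ => (φ (U z w) : ℂ) * G w) ∧
    K φ G z = lam * G z}
  zero_mem' := ⟨⟨measurable_const, 0, fun z => by simp⟩, fun g w => rfl, fun w => by simp,
    fun z => ⟨by simp, by simp [K]⟩⟩
  add_mem' := by
    rintro F G ⟨⟨m1, C1, c1⟩, i1, o1, k1⟩ ⟨⟨m2, C2, c2⟩, i2, o2, k2⟩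
    refine ⟨⟨m1.add m2, C1 + C2, fun z => ?_⟩, fun g w => ?_, fun w => ?_, fun z => ⟨?_, ?_⟩⟩
    · exact (norm_add_le _ _).trans (add_le_add (c1 z) (c2 z))
    · simp only [Pi.add_apply, i1 g w, i2 g w]
    · simp only [Pi.add_apply, o1 w, o2 w]; ring
    · refine ((k1 z).1.add (k2 z).1).congr (Filter.Eventually.of_forall fun w => ?_)
      simp only [Pi.add_apply]; ring
    · have h1 := (k1 z).2
      have h2 := (k2 z).2
      unfold K at h1 h2 ⊢
      simp only [Pi.add_apply, mul_add]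
      rw [integral_add (k1 z).1 (k2 z).1, h1, h2]
  smul_mem' := by
    rintro c F ⟨⟨m1, C1, c1⟩, i1, o1, k1⟩
    refine ⟨⟨m1.const_smul c, ‖c‖ * C1, fun z => ?_⟩, fun g w => ?_, fun w => ?_, fun z => ⟨?_, ?_⟩⟩
    · simp only [Pi.smul_apply, norm_smul]
      exact mul_le_mul_of_nonneg_left (c1 z) (norm_nonneg _)
    · simp only [Pi.smul_apply, i1 g w]
    · simp only [Pi.smul_apply, o1 w, smul_neg]
    · refine ((k1 z).1.const_mul c).congr (Filter.Eventually.of_forall fun w => ?_)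
      simp only [Pi.smul_apply, smul_eq_mul]; ring
    · have h1 := (k1 z).2
      unfold K at h1 ⊢
      simp only [Pi.smul_apply, smul_eq_mul]
      have h2 : ∀ w, (φ (U z w) : ℂ) * (c * F w) = c * ((φ (U z w) : ℂ) * F w) := fun w => by ring
      simp only [h2]
      rw [integral_const_mul, h1]; ring

lemma mem_V (hφ : RhoS φ) {lam : ℂ} {G : ℍ → ℂ} (h1 : BM G) (h2 : InvG G) (h3 : OddG G)
    (h4 : ∀ z, K φ G z = lam * G z) : G ∈ V φ lam :=
  ⟨h1, h2, h3, fun z => ⟨hφ.rho.integrable_mul h1 z, h4 z⟩⟩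

/-- bounded functions are square integrable -/
lemma memLp_bm {G : ℍ → ℂ} (hG : BM G) : MemLp G 2 nu := by
  obtain ⟨C, hC⟩ := hG.bdd
  exact MemLp.of_bound hG.meas.aestronglyMeasurable C (Filter.Eventually.of_forall hC)

/-- the operator -/
noncomputable abbrev TT (hφ : RhoS φ) : HH nu →L[ℂ] HH nu := KO nu (kern hφ)

/-- the map from `V` to the eigenspace -/
lemma toLp_mem (hφ : RhoS φ) {lam : ℂ} {G : ℍ → ℂ} (hG : G ∈ V φ lam) :
    (memLp_bm hG.1).toLp G ∈ Module.End.eigenspace (TT hφ : HH nu →ₗ[ℂ] HH nu) lam := by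
  rw [Module.End.mem_eigenspace_iff]
  change TT hφ _ = _
  apply Lp.ext
  filter_upwards [KO_coe (ν := nu) (kern hφ) ((memLp_bm hG.1).toLp G),
    Lp.coeFn_smul lam ((memLp_bm hG.1).toLp G), (memLp_bm hG.1).coeFn_toLp] with z h1 h2 h3
  rw [h1, h2, Pi.smul_apply, h3, smul_eq_mul, ← (hG.2.2.2 z).2, ← unfold_km hφ hG.1 hG.2.1 hG.2.2.1]
  refine integral_congr_ae ?_
  filter_upwards [(memLp_bm hG.1).coeFn_toLp] with w hw
  rw [hw]

/-- the linear map -/
noncomputable def toE (hφ : RhoS φ) (lam : ℂ) :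
    V φ lam →ₗ[ℂ] Module.End.eigenspace (TT hφ : HH nu →ₗ[ℂ] HH nu) lam where
  toFun G := ⟨(memLp_bm G.2.1).toLp G, toLp_mem hφ G.2⟩
  map_add' F G := by
    apply Subtype.ext
    exact MemLp.toLp_add (memLp_bm F.2.1) (memLp_bm G.2.1)
  map_smul' c F := by
    apply Subtype.ext
    exact MemLp.toLp_const_smul c (memLp_bm F.2.1)

/-- an invariant function vanishing a.e. on the fundamental domain vanishes a.e. -/
lemma ae_zero {G : ℍ → ℂ} (hinv : InvG G) (h : G =ᵐ[nu] 0) : G =ᵐ[volume] 0 := by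
  have h1 : volume ({z | G z ≠ 0} ∩ 𝒟) = 0 := by
    have h2 : nu {z | G z ≠ 0} = 0 := h
    rwa [Measure.restrict_apply' isClosed_fd.measurableSet] at h2
  have h3 := isFD.measure_zero_of_invariant {z | G z ≠ 0} (fun g => ?_) h1
  · exact h3
  · ext z
    rw [mem_smul_set_iff_inv_smul_mem, mem_ofPred_eq, mem_ofPred_eq, hinv]

lemma toE_inj (hφ : RhoS φ) {lam : ℂ} (hl : lam ≠ 0) : Function.Injective (toE hφ lam) := by
  rw [injective_iff_map_eq_zero]
  rintro ⟨G, hG⟩ h0
  have h1 : (memLp_bm hG.1).toLp G = 0 := congrArg Subtype.val h0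
  have h2 : G =ᵐ[nu] 0 := by
    have h3 := (memLp_bm hG.1).coeFn_toLp
    rw [h1] at h3
    exact h3.symm.trans (Lp.coeFn_zero ℂ 2 nu)
  have h3 := ae_zero hG.2.1 h2
  apply Subtype.ext
  funext z
  have h4 := (hG.2.2.2 z).2
  have h5 : K φ G z = 0 := by
    unfold K
    rw [integral_congr_ae (g := fun _ => 0), integral_zero]
    filter_upwards [h3] with w hw
    rw [hw]; simp
  rw [h5] at h4
  exact (mul_eq_zero.mp h4.symm).resolve_left hl

theorem fd_V (hφ : RhoS φ) {lam : ℂ} (hl : lam ≠ 0) : FiniteDimensional ℂ (V φ lam) := by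
  have := ContinuousLinearMap.finite_dimensional_eigenspace (KO_compact (ν := nu) (kern hφ)) lam hl
  exact FiniteDimensional.of_injective (toE hφ lam) (toE_inj hφ hl)

/-- the eigenfunction -/
theorem exists_V (hφ : RhoS φ) (hne : TT hφ ≠ 0) : ∃ lam : ℂ, lam ≠ 0 ∧ ∃ G ∈ V φ lam, G ≠ 0 := by
  have h1 : ¬ ∀ μ, Module.End.HasEigenvalue (TT hφ : Module.End ℂ (HH nu)) μ → μ = 0 := by
    rw [ContinuousLinearMap.eq_zero_of_forall_hasEigenvalue_eq_zero (KO_compact (kern hφ))
      (KO_symm (kern hφ))]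
    exact hne
  push Not at h1
  obtain ⟨lam, hlam, hl⟩ := h1
  obtain ⟨f, hf⟩ := hlam.exists_hasEigenvector
  have hf1 : TT hφ f = lam • f := hf.apply_eq_smul
  have hf0 : f ≠ 0 := hf.2
  set G : ℍ → ℂ := fun z => lam⁻¹ * ⟪kap nu (kern hφ) z, f⟫_ℂ with hG
  obtain ⟨M, hM⟩ := norm_kap_le (ν := nu) (kern hφ)
  have hbm : BM G := by
    refine ⟨?_, ‖lam⁻¹‖ * (M * ‖f‖), fun z => ?_⟩
    · exact (continuous_const.mul ((continuous_kap (kern hφ)).inner continuous_const)).measurable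
    · rw [hG]
      simp only [norm_mul]
      gcongr
      exact (norm_inner_le_norm _ _).trans (by gcongr; exact hM z)
  have hinv : InvG G := by
    intro g w
    simp only [hG, inner_kap, km_smul]
  have hodd : OddG G := by
    intro w
    simp only [hG, inner_kap, km_J]
    push_cast
    simp only [neg_mul]
    rw [integral_neg]
    ring
  have hfG : f =ᵐ[nu] G := by
    filter_upwards [KO_coe (ν := nu) (kern hφ) f, Lp.coeFn_smul lam f] with z h1 h2
    have h3 : (TT hφ f : ℍ → ℂ) z = (lam • f : HH nu) z := by rw [hf1]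
    rw [h2, Pi.smul_apply, smul_eq_mul] at h3
    rw [h1] at h3
    simp only [hG, inner_kap]
    rw [h3]
    field_simp
  refine ⟨lam, hl, G, mem_V hφ hbm hinv hodd fun z => ?_, ?_⟩
  · rw [← unfold_km hφ hbm hinv hodd]
    simp only [hG, inner_kap]
    rw [mul_inv_cancel_left₀ hl]
    refine integral_congr_ae ?_
    filter_upwards [hfG] with w hw
    rw [hw]
    simp only [hG, inner_kap]
  · intro h0
    apply hf0
    rw [h0] at hfG
    exact Lp.eq_zero_iff_ae_eq_zero.mpr hfG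

end Pool.Agent.X290.Sp
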