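import Pool.Agent.X290.PF

/-! Generation of the space of locally constant functions by the standard ball; irreducibility. -/

set_option autoImplicit false

namespace Pool.Agent.X290

open Polynomial WithZero Matrix

noncomputable section

theorem vi_sub_comm (x y : Kinf) : vi (x - y) = vi (y - x) := Valuation.map_sub_swap _ _ _

theorem vi_le_of_sub {x y : Kinf} {c : WithZero (Multiplicative ℤ)} (h : vi (x - y) ≤ c) (hy : vi y ≤ c) :
    vi x ≤ c := by
  have : x = y + (x - y) := by ring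
  rw [this]
  exact (Valuation.map_add _ _ _).trans (max_le hy h)

theorem vi_lt_of_sub {x y : Kinf} {c : WithZero (Multiplicative ℤ)} (h : vi (x - y) < c) (hy : vi y < c) :
    vi x < c := by
  have : x = y + (x - y) := by ring
  rw [this]
  exact vi_add_lt hy h

/-- if `|y| < exp n` then the representative of `y` modulo the ball of radius `< exp(-m)` has small degree -/
theorem rep_mem {y : Kinf} {m : ℤ} {N : ℕ} {p : (ZMod 2)[X]} (hp : vi (y - pol p * T ^ (-m)) < exp (-m))
    (hy : vi y < exp (N - m)) : p ∈ pfin N := by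
  rw [mem_pfin_iff]
  have h1 : vi (pol p * T ^ (-m)) < exp (N - m) := by
    refine vi_lt_of_sub (y := y) ?_ hy
    rw [vi_sub_comm]
    refine lt_of_lt_of_le hp ?_
    rw [exp_le_exp]
    omega
  rw [vi_mul, vi_Tz] at h1
  have h2 : exp ((N : ℤ) - m) = exp (N : ℤ) * exp (-m) := by rw [← exp_add, sub_eq_add_neg]
  rw [h2] at h1
  exact lt_of_mul_lt_mul_right h1 zero_le

theorem vi_rp_lt {m : ℤ} {N : ℕ} {p : (ZMod 2)[X]} (hp : p ∈ pfin N) : vi (pol p * T ^ (-m)) < exp (N - m) := by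
  rw [mem_pfin_iff] at hp
  rw [vi_mul, vi_Tz]
  have h2 : exp ((N : ℤ) - m) = exp (N : ℤ) * exp (-m) := by rw [← exp_add, sub_eq_add_neg]
  rw [h2]
  exact mul_lt_mul_of_pos_right hp exp_pos

theorem ne_of_vi_lt {x : Kinf} {c : WithZero (Multiplicative ℤ)} (h : c < vi x) : x ≠ 0 := by
  rintro rfl
  rw [vi, map_zero] at h
  exact absurd h (by simp)

theorem div_rep {x y : Kinf} {m : ℤ} {a : Kinf} (hx : x ≠ 0) :
    vi (y - a * x) < exp (-m) * vi x ↔ vi (y / x - a) < exp (-m) := by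
  have e : y - a * x = (y / x - a) * x := by field_simp
  rw [e, vi_mul]
  have hx' : 0 < vi x := by
    rw [vi, Valuation.pos_iff]
    exact hx
  exact mul_lt_mul_iff_left₀ hx'

theorem hom_left {f : PF} {ξ : Row} (h0 : ξ 0 ≠ 0) : f.1 ξ = f.1 ![1, ξ 1 / ξ 0] := by
  obtain ⟨hf0, hf1, m, hf2⟩ := f.2
  rw [← hf1 (ξ 0) ![1, ξ 1 / ξ 0] h0]
  have e : ξ = ξ 0 • ![1, ξ 1 / ξ 0] := by
    ext i
    fin_cases i
    · simp
    · simp
      field_simp
  rw [← e]

theorem hom_right {f : PF} {ξ : Row} (h0 : ξ 1 ≠ 0) : f.1 ξ = f.1 ![ξ 0 / ξ 1, 1] := by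
  obtain ⟨hf0, hf1, m, hf2⟩ := f.2
  rw [← hf1 (ξ 1) ![ξ 0 / ξ 1, 1] h0]
  have e : ξ = ξ 1 • ![ξ 0 / ξ 1, 1] := by
    ext i
    fin_cases i
    · simp
      field_simp
    · simp
  rw [← e]

/-- `f` has level `m` -/
def Level (f : PF) (m : ℕ) : Prop :=
  (∀ y z : Kinf, vi (y - z) < exp (-(m : ℤ)) → f.1 ![1, z] = f.1 ![1, y]) ∧
  (∀ y z : Kinf, vi (y - z) < exp (-(m : ℤ)) → f.1 ![z, 1] = f.1 ![y, 1])

theorem exists_level (f : PF) : ∃ m, Level f m := by
  obtain ⟨hf0, hf1, m, hf2⟩ := f.2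
  refine ⟨m, fun y z h => ?_, fun y z h => ?_⟩
  · apply hf2
    have e2 : nrm (![1, y] - ![1, z]) = vi (y - z) := by
      unfold nrm
      simp [vi]
    rw [e2]
    refine lt_of_lt_of_le h ?_
    have e3 : (1 : WithZero (Multiplicative ℤ)) ≤ nrm ![1, y] := by
      unfold nrm
      simp [vi]
    calc exp (-(m : ℤ)) = exp (-(m : ℤ)) * 1 := (mul_one _).symm
      _ ≤ _ := mul_le_mul_right e3 _
  · apply hf2
    have e2 : nrm (![y, 1] - ![z, 1]) = vi (y - z) := by
      unfold nrm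
      simp [vi]
    rw [e2]
    refine lt_of_lt_of_le h ?_
    have e3 : (1 : WithZero (Multiplicative ℤ)) ≤ nrm ![y, 1] := by
      unfold nrm
      simp [vi]
    calc exp (-(m : ℤ)) = exp (-(m : ℤ)) * 1 := (mul_one _).symm
      _ ≤ _ := mul_le_mul_right e3 _

theorem Level.mono {f : PF} {m n : ℕ} (h : Level f m) (hmn : m ≤ n) : Level f n :=
  have hle : exp (-(n : ℤ)) ≤ exp (-(m : ℤ)) := by
    rw [exp_le_exp]
    omega
  ⟨fun y z hyz => h.1 y z (lt_of_lt_of_le hyz hle), fun y z hyz => h.2 y z (lt_of_lt_of_le hyz hle)⟩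

theorem pos_of_ne {x : Kinf} (h : x ≠ 0) : 0 < vi x := by
  rw [vi, Valuation.pos_iff]
  exact h

theorem finite_values (f : PF) : ∃ S : Finset Row, (∀ r ∈ S, r ≠ 0) ∧ ∀ ξ : Row, ξ ≠ 0 → ∃ r ∈ S, f.1 ξ = f.1 r := by
  classical
  obtain ⟨m, hm⟩ := exists_level f
  refine ⟨(pfin (m + 1)).image (fun p => ![1, pol p * T ^ (-(m : ℤ))]) ∪
    (pfin m).image (fun p => ![pol p * T ^ (-(m : ℤ)), 1]), ?_, ?_⟩
  · intro r hr
    rw [Finset.mem_union, Finset.mem_image, Finset.mem_image] at hr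
    rcases hr with ⟨p, _, rfl⟩ | ⟨p, _, rfl⟩
    · intro h
      simpa using congrFun h 0
    · intro h
      simpa using congrFun h 1
  · intro ξ hξ
    rcases le_or_gt (vi (ξ 1)) (vi (ξ 0)) with hle | hlt
    · have h0 : ξ 0 ≠ 0 := by
        intro h0
        apply hξ
        rw [h0, vi, vi, map_zero, le_zero_iff, map_eq_zero] at hle
        ext i
        fin_cases i
        · exact h0
        · exact hle
      obtain ⟨p₀, hp₀⟩ := exists_rep (ξ 1 / ξ 0) m
      have hy : vi (ξ 1 / ξ 0) ≤ 1 := by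
        rw [vi, map_div₀]
        exact (div_le_one₀ (pos_of_ne h0)).2 hle
      have hp₀m : p₀ ∈ pfin (m + 1) := by
        refine rep_mem hp₀ ?_
        refine lt_of_le_of_lt hy ?_
        rw [← exp_zero, exp_lt_exp]
        push_cast
        omega
      refine ⟨_, Finset.mem_union_left _ (Finset.mem_image_of_mem _ hp₀m), ?_⟩
      rw [hom_left h0]
      refine (hm.1 _ _ ?_).symm
      exact hp₀
    · have h0 : ξ 1 ≠ 0 := ne_of_vi_lt hlt
      obtain ⟨p₀, hp₀⟩ := exists_rep (ξ 0 / ξ 1) m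
      have hy : vi (ξ 0 / ξ 1) < 1 := by
        rw [vi, map_div₀]
        exact (div_lt_one₀ (pos_of_ne h0)).2 hlt
      have hp₀m : p₀ ∈ pfin m := by
        refine rep_mem hp₀ ?_
        rw [sub_self, exp_zero]
        exact hy
      refine ⟨_, Finset.mem_union_right _ (Finset.mem_image_of_mem _ hp₀m), ?_⟩
      rw [hom_right h0]
      refine (hm.2 _ _ ?_).symm
      exact hp₀

/-- every locally constant function is a combination of indicator functions of balls -/
theorem decomposition (f : PF) : ∃ m : ℕ,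
    f = ∑ p ∈ pfin (m + 1), f.1 ![1, pol p * T ^ (-(m : ℤ))] • rP (gd (pol p * T ^ (-(m : ℤ))) m) B0 +
      ∑ p ∈ pfin m, f.1 ![pol p * T ^ (-(m : ℤ)), 1] • rP (sw * gd (pol p * T ^ (-(m : ℤ))) m) B0 := by
  classical
  obtain ⟨hf0, hf1, m, hf2⟩ := f.2
  refine ⟨m, PF_ext fun ξ hξ => ?_⟩
  simp only [Submodule.coe_add, Submodule.coe_sum, Submodule.coe_smul, Pi.add_apply, Finset.sum_apply,
    Pi.smul_apply, smul_eq_mul, gd_apply, gd_sw_apply, mul_ite, mul_one, mul_zero]
  rcases le_or_gt (vi (ξ 1)) (vi (ξ 0)) with hle | hlt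
  · have h0 : ξ 0 ≠ 0 := by
      intro h0
      apply hξ
      rw [h0, vi, vi, map_zero, le_zero_iff, map_eq_zero] at hle
      ext i
      fin_cases i
      · exact h0
      · exact hle
    have hpos : 0 < vi (ξ 0) := by
      rw [vi, Valuation.pos_iff]
      exact h0
    obtain ⟨p₀, hp₀⟩ := exists_rep (ξ 1 / ξ 0) m
    have hy : vi (ξ 1 / ξ 0) ≤ 1 := by
      rw [vi, map_div₀]
      exact (div_le_one₀ hpos).2 hle
    have hp₀m : p₀ ∈ pfin (m + 1) := by
      refine rep_mem hp₀ ?_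
      refine lt_of_le_of_lt hy ?_
      rw [← exp_zero, exp_lt_exp]
      push_cast
      omega
    rw [Finset.sum_eq_single_of_mem p₀ hp₀m, Finset.sum_eq_zero, add_zero, if_pos ((div_rep h0).2 hp₀)]
    · have e1 : f.1 ξ = f.1 ![1, ξ 1 / ξ 0] := by
        rw [← hf1 (ξ 0) ![1, ξ 1 / ξ 0] h0]
        have e : ξ = ξ 0 • ![1, ξ 1 / ξ 0] := by
          ext i
          fin_cases i
          · simp
          · simp
            field_simp
        rw [← e]
      rw [e1]
      symm
      apply hf2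
      have e2 : nrm (![1, ξ 1 / ξ 0] - ![1, pol p₀ * T ^ (-(m : ℤ))]) = vi (ξ 1 / ξ 0 - pol p₀ * T ^ (-(m : ℤ))) := by
        unfold nrm
        simp [vi]
      rw [e2]
      refine lt_of_lt_of_le hp₀ ?_
      have e3 : (1 : WithZero (Multiplicative ℤ)) ≤ nrm ![1, ξ 1 / ξ 0] := by
        unfold nrm
        simp [vi]
      calc exp (-(m : ℤ)) = exp (-(m : ℤ)) * 1 := (mul_one _).symm
        _ ≤ _ := mul_le_mul_right e3 _
    · intro q hq
      rw [if_neg]
      intro h
      have hq1 := vi_rp_lt (m := m) hq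
      simp only [sub_self, exp_zero] at hq1
      rcases eq_or_ne (ξ 1) 0 with h1 | h1
      · rw [h1, mul_zero, sub_zero, vi, vi, map_zero, mul_zero] at h
        exact absurd h (by simp)
      have hpos1 : 0 < vi (ξ 1) := by
        rw [vi, Valuation.pos_iff]
        exact h1
      have h2 : vi (pol q * T ^ (-(m : ℤ)) * ξ 1) < vi (ξ 1) := by
        rw [vi_mul]
        calc _ < 1 * vi (ξ 1) := mul_lt_mul_of_pos_right hq1 hpos1
          _ = _ := one_mul _
      have h3 : vi (ξ 0) < vi (ξ 1) := by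
        refine vi_lt_of_sub (lt_of_lt_of_le h ?_) h2
        calc exp (-(m : ℤ)) * vi (ξ 1) ≤ 1 * vi (ξ 1) := mul_le_mul_left (by
              rw [← exp_zero, exp_le_exp]
              omega) _
          _ = _ := one_mul _
      exact absurd h3 (not_lt.2 hle)
    · intro q _ hq
      rw [if_neg]
      intro h
      apply hq
      refine rep_unique (n := m) ?_
      have h1 := (div_rep h0).1 h
      have e : pol q * T ^ (-(m : ℤ)) - pol p₀ * T ^ (-(m : ℤ)) =
        (ξ 1 / ξ 0 - pol p₀ * T ^ (-(m : ℤ))) - (ξ 1 / ξ 0 - pol q * T ^ (-(m : ℤ))) := by ring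
      rw [e]
      exact vi_sub_lt hp₀ h1
  · have h0 : ξ 1 ≠ 0 := ne_of_vi_lt hlt
    have hpos : 0 < vi (ξ 1) := by
      rw [vi, Valuation.pos_iff]
      exact h0
    obtain ⟨p₀, hp₀⟩ := exists_rep (ξ 0 / ξ 1) m
    have hy : vi (ξ 0 / ξ 1) < 1 := by
      rw [vi, map_div₀]
      exact (div_lt_one₀ hpos).2 hlt
    have hp₀m : p₀ ∈ pfin m := by
      refine rep_mem hp₀ ?_
      rw [sub_self, exp_zero]
      exact hy
    rw [Finset.sum_eq_zero, zero_add, Finset.sum_eq_single_of_mem p₀ hp₀m, if_pos ((div_rep h0).2 hp₀)]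
    · have e1 : f.1 ξ = f.1 ![ξ 0 / ξ 1, 1] := by
        rw [← hf1 (ξ 1) ![ξ 0 / ξ 1, 1] h0]
        have e : ξ = ξ 1 • ![ξ 0 / ξ 1, 1] := by
          ext i
          fin_cases i
          · simp
            field_simp
          · simp
        rw [← e]
      rw [e1]
      symm
      apply hf2
      have e2 : nrm (![ξ 0 / ξ 1, 1] - ![pol p₀ * T ^ (-(m : ℤ)), 1]) = vi (ξ 0 / ξ 1 - pol p₀ * T ^ (-(m : ℤ))) := by
        unfold nrm
        simp [vi]
      rw [e2]
      refine lt_of_lt_of_le hp₀ ?_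
      have e3 : (1 : WithZero (Multiplicative ℤ)) ≤ nrm ![ξ 0 / ξ 1, 1] := by
        unfold nrm
        simp [vi]
      calc exp (-(m : ℤ)) = exp (-(m : ℤ)) * 1 := (mul_one _).symm
        _ ≤ _ := mul_le_mul_right e3 _
    · intro q _ hq
      rw [if_neg]
      intro h
      apply hq
      refine rep_unique (n := m) ?_
      have h1 := (div_rep h0).1 h
      have e : pol q * T ^ (-(m : ℤ)) - pol p₀ * T ^ (-(m : ℤ)) =
        (ξ 0 / ξ 1 - pol p₀ * T ^ (-(m : ℤ))) - (ξ 0 / ξ 1 - pol q * T ^ (-(m : ℤ))) := by ring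
      rw [e]
      exact vi_sub_lt hp₀ h1
    · intro q hq
      rw [if_neg]
      intro h
      have hq1 := vi_rp_lt (m := m) hq
      have hq2 : vi (pol q * T ^ (-(m : ℤ))) ≤ 1 := by
        rw [← exp_zero, ← lt_exp_succ]
        refine lt_of_lt_of_le hq1 ?_
        rw [exp_le_exp]
        push_cast
        omega
      have h2 : vi (pol q * T ^ (-(m : ℤ)) * ξ 0) ≤ vi (ξ 0) := by
        rw [vi_mul]
        calc _ ≤ 1 * vi (ξ 0) := mul_le_mul_left hq2 _
          _ = _ := one_mul _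
      have h3 : vi (ξ 1) ≤ vi (ξ 0) := by
        refine vi_le_of_sub (h.le.trans ?_) h2
        calc exp (-(m : ℤ)) * vi (ξ 0) ≤ 1 * vi (ξ 0) := mul_le_mul_left (by
              rw [← exp_zero, exp_le_exp]
              omega) _
          _ = _ := one_mul _
      exact absurd hlt (not_lt.2 h3)

/-- the translates of the standard ball generate -/
theorem span_B0 : Submodule.span ℂ (Set.range fun g : Ginf => rP g B0) = ⊤ := by
  rw [eq_top_iff]
  rintro f -
  obtain ⟨m, hm⟩ := decomposition f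
  rw [hm]
  refine Submodule.add_mem _ (Submodule.sum_mem _ fun p _ => Submodule.smul_mem _ _ ?_)
    (Submodule.sum_mem _ fun p _ => Submodule.smul_mem _ _ ?_)
  · exact Submodule.subset_span ⟨_, rfl⟩
  · exact Submodule.subset_span ⟨_, rfl⟩

theorem exists_bottom {r : Row} (hr : r ≠ 0) : ∃ g : Ginf, (![0, 1] : Row) ᵥ* g.1 = r := by
  by_cases h1 : r 1 = 0
  · have h0 : r 0 ≠ 0 := by
      intro h0
      apply hr
      ext i
      fin_cases i
      · exact h0
      · exact h1
    refine ⟨GeneralLinearGroup.mkOfDetNeZero !![0, 1; r 0, 0] (by simp [Matrix.det_fin_two, h0]), ?_⟩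
    ext i
    rw [vecMul_two]
    fin_cases i
    · simp [GeneralLinearGroup.mkOfDetNeZero]
    · simp [GeneralLinearGroup.mkOfDetNeZero, h1]
  · refine ⟨GeneralLinearGroup.mkOfDetNeZero !![1, 0; r 0, r 1] (by simp [Matrix.det_fin_two, h1]), ?_⟩
    ext i
    rw [vecMul_two]
    fin_cases i
    · simp [GeneralLinearGroup.mkOfDetNeZero]
    · simp [GeneralLinearGroup.mkOfDetNeZero]

theorem pfin_add {N : ℕ} {p q : (ZMod 2)[X]} (hp : p ∈ pfin N) (hq : q ∈ pfin N) : p + q ∈ pfin N := by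
  rw [mem_pfin] at *
  exact lt_of_le_of_lt (degree_add_le _ _) (max_lt hp hq)

theorem poly_char2 (p : (ZMod 2)[X]) : p + p = 0 := CharTwo.add_self_eq_zero p

theorem unip_row (a x y : Kinf) : (![x, y] : Row) ᵥ* (unip a : Ginf).1 = ![x, x * a + y] := by
  ext i
  rw [vecMul_two]
  fin_cases i <;> simp [unip]

/-- the averaging argument -/
theorem ball_mem {W : Submodule ℂ PF} (hW : ∀ g, ∀ f ∈ W, rP g f ∈ W) {F : PF} (hF : F ∈ W)
    (h01 : F.1 ![0, 1] = 0) (hle : ∀ ξ : Row, ξ ≠ 0 → (F.1 ξ).re ≤ 0) {ξ₀ : Row} (hlt : (F.1 ξ₀).re < 0) :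
    B0 ∈ W := by
  classical
  obtain ⟨n, hn⟩ := exists_level F
  have hfar : ∀ y : Kinf, exp (n : ℤ) < vi y → F.1 ![1, y] = 0 := by
    intro y hy
    have hy0 : y ≠ 0 := ne_of_vi_lt hy
    have e := hom_right (f := F) (ξ := ![1, y]) (by simpa using hy0)
    rw [e, ← h01]
    refine hn.2 _ _ ?_
    have e2 : (0 : Kinf) - ![1, y] 0 / ![1, y] 1 = -(1 / y) := by simp
    rw [e2, vi, Valuation.map_neg, map_div₀, map_one]
    change 1 / vi y < _
    rw [WithZero.exp_neg, one_div]
    exact inv_strictAnti₀ exp_pos hy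
  set S : ℂ := ∑ p ∈ pfin (2 * n + 1), F.1 ![1, pol p * T ^ (-(n : ℤ))] with hS
  set G : PF := ∑ p ∈ pfin (2 * n + 1), rP (unip (pol p * T ^ (-(n : ℤ)))) F with hG
  have hGW : G ∈ W := Submodule.sum_mem _ fun p _ => hW _ _ hF
  have hGe : G = S • rP (gd 0 (-((n : ℤ) + 1))) B0 := by
    apply PF_ext
    intro ξ hξ
    simp only [Submodule.coe_smul, Pi.smul_apply, smul_eq_mul, gd_apply, zero_mul, sub_zero, neg_neg]
    by_cases h0 : ξ 0 = 0
    · rw [if_neg (by rw [h0, vi, vi, map_zero, mul_zero]; simp), mul_zero, hG]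
      simp only [Submodule.coe_sum, Finset.sum_apply]
      refine Finset.sum_eq_zero fun p _ => ?_
      rw [rP_apply]
      have e1 : ξ = ξ 1 • ![0, 1] := by
        ext i
        fin_cases i
        · simp [h0]
        · simp
      have h1 : ξ 1 ≠ 0 := by
        intro h1
        rw [h1, zero_smul] at e1
        exact hξ e1
      rw [e1, Matrix.smul_vecMul, unip_row, F.2.2.1 _ _ h1]
      simpa using h01
    · rw [hom_left h0]
      set y := ξ 1 / ξ 0 with hy
      have hiff : vi (ξ 1) < exp ((n : ℤ) + 1) * vi (ξ 0) ↔ vi y ≤ exp (n : ℤ) := by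
        have := div_rep (y := ξ 1) (m := -((n : ℤ) + 1)) (a := 0) h0
        simp only [zero_mul, sub_zero, neg_neg] at this
        rw [this, lt_exp_succ]
      have hGy : G.1 ![1, y] = ∑ p ∈ pfin (2 * n + 1), F.1 ![1, pol p * T ^ (-(n : ℤ)) + y] := by
        rw [hG]
        simp only [Submodule.coe_sum, Finset.sum_apply]
        refine Finset.sum_congr rfl fun p _ => ?_
        rw [rP_apply, unip_row, one_mul]
      rw [hGy]
      by_cases hyn : vi y ≤ exp (n : ℤ)
      · rw [if_pos (hiff.2 hyn), mul_one, hS]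
        obtain ⟨q, hq⟩ := exists_rep y n
        have hqm : q ∈ pfin (2 * n + 1) := by
          refine rep_mem hq (lt_of_le_of_lt hyn ?_)
          rw [exp_lt_exp]
          push_cast
          omega
        refine Finset.sum_bij (fun p _ => p + q) (fun p hp => pfin_add hp hqm)
          (fun p _ p' _ h => add_right_cancel h)
          (fun p hp => ⟨p + q, pfin_add hp hqm, by rw [add_assoc, poly_char2, add_zero]⟩) (fun p _ => ?_)
        refine hn.1 _ _ ?_
        have e : pol (p + q) * T ^ (-(n : ℤ)) - (pol p * T ^ (-(n : ℤ)) + y) = -(y - pol q * T ^ (-(n : ℤ))) := by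
          rw [map_add]
          ring
        rw [e, vi, Valuation.map_neg]
        exact hq
      · rw [if_neg (fun h => hyn (hiff.1 h)), mul_zero]
        refine Finset.sum_eq_zero fun p hp => hfar _ ?_
        rw [not_le] at hyn
        have h1 : vi (pol p * T ^ (-(n : ℤ))) < vi y := by
          refine lt_of_lt_of_le (vi_rp_lt (m := n) hp) ?_
          rw [← not_lt, show ((2 * n + 1 : ℕ) : ℤ) - n = (n : ℤ) + 1 by push_cast; ring, lt_exp_succ, not_le]
          exact hyn
        have h2 : vi (pol p * T ^ (-(n : ℤ)) + y) = vi y := by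
          rw [add_comm]
          exact Valuation.map_add_eq_of_lt_left _ h1
        rw [h2]
        exact hyn
  have hSne : S ≠ 0 := by
    intro h
    have hre : S.re < 0 := by
      rw [hS, Complex.re_sum]
      have hx0 : ξ₀ ≠ 0 := by
        rintro rfl
        rw [F.2.1] at hlt
        simp at hlt
      have h0 : ξ₀ 0 ≠ 0 := by
        intro h0
        have e1 : ξ₀ = ξ₀ 1 • ![0, 1] := by
          ext i
          fin_cases i
          · simp [h0]
          · simp
        have h1 : ξ₀ 1 ≠ 0 := by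
          intro h1
          rw [h1, zero_smul] at e1
          exact hx0 e1
        rw [e1, F.2.2.1 _ _ h1, h01] at hlt
        simp at hlt
      rw [hom_left h0] at hlt
      set y := ξ₀ 1 / ξ₀ 0 with hy
      have hyn : vi y ≤ exp (n : ℤ) := by
        by_contra hc
        rw [not_le] at hc
        rw [hfar y hc] at hlt
        simp at hlt
      obtain ⟨q, hq⟩ := exists_rep y n
      have hqm : q ∈ pfin (2 * n + 1) := by
        refine rep_mem hq (lt_of_le_of_lt hyn ?_)
        rw [exp_lt_exp]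
        push_cast
        omega
      refine Finset.sum_neg' (fun p _ => hle _ ?_) ⟨q, hqm, ?_⟩
      · intro h
        simpa using congrFun h 0
      · rw [hn.1 _ _ hq]
        exact hlt
    rw [h] at hre
    simp at hre
  have h1 : rP (gd 0 (-((n : ℤ) + 1))) B0 ∈ W := by
    have := W.smul_mem S⁻¹ hGW
    rwa [hGe, smul_smul, inv_mul_cancel₀ hSne, one_smul] at this
  have h2 := hW (gd 0 (-((n : ℤ) + 1)))⁻¹ _ h1
  rwa [← Module.End.mul_apply, ← map_mul, inv_mul_cancel, map_one, Module.End.one_apply] at h2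

/-- a stable subspace which contains the constants and a nonconstant function is everything -/
theorem eq_top_of_nonconst {W : Submodule ℂ PF} (hW : ∀ g, ∀ f ∈ W, rP g f ∈ W) (h1 : one0 ∈ W) {f : PF}
    (hf : f ∈ W) (hnc : f ∉ Submodule.span ℂ {one0}) : W = ⊤ := by
  -- it is enough to have the standard ball
  suffices hB : B0 ∈ W by
    rw [eq_top_iff, ← span_B0, Submodule.span_le]
    rintro _ ⟨g, rfl⟩
    exact hW g _ hB
  -- the case of a nonconstant real part
  have key : ∀ f ∈ W, (∃ ξ η : Row, ξ ≠ 0 ∧ η ≠ 0 ∧ (f.1 ξ).re ≠ (f.1 η).re) → B0 ∈ W := by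
    rintro f hf ⟨ξ₁, ξ₂, h₁, h₂, hne⟩
    obtain ⟨S, hS0, hS⟩ := finite_values f
    have hSne : S.Nonempty := by
      obtain ⟨r, hr, _⟩ := hS ξ₁ h₁
      exact ⟨r, hr⟩
    obtain ⟨r, hr, hmax⟩ := S.exists_max_image (fun r => (f.1 r).re) hSne
    have hmax' : ∀ ξ : Row, ξ ≠ 0 → (f.1 ξ).re ≤ (f.1 r).re := fun ξ hξ => by
      obtain ⟨r', hr', e⟩ := hS ξ hξ
      rw [e]
      exact hmax r' hr'
    obtain ⟨g, hg⟩ := exists_bottom (hS0 r hr)
    have hF : rP g f - f.1 r • one0 ∈ W := W.sub_mem (hW g f hf) (W.smul_mem _ h1)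
    have hval : ∀ ξ : Row, ξ ≠ 0 → (rP g f - f.1 r • one0).1 ξ = f.1 (ξ ᵥ* g.1) - f.1 r := by
      intro ξ hξ
      simp [rP_apply, one0_apply hξ]
    have h01 : (![0, 1] : Row) ≠ 0 := by
      intro h
      simpa using congrFun h 1
    obtain ⟨η, hη, hηlt⟩ : ∃ η : Row, η ≠ 0 ∧ (f.1 η).re < (f.1 r).re := by
      by_contra hcon
      push Not at hcon
      exact hne (by rw [le_antisymm (hmax' _ h₁) (hcon _ h₁), le_antisymm (hmax' _ h₂) (hcon _ h₂)])
    refine ball_mem hW hF (ξ₀ := η ᵥ* g⁻¹.1) ?_ ?_ ?_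
    · rw [hval _ h01, hg, sub_self]
    · intro ξ hξ
      rw [hval _ hξ, Complex.sub_re]
      linarith [hmax' _ (vecMul_ne (g := g) hξ)]
    · rw [hval _ (vecMul_ne hη), Matrix.vecMul_vecMul]
      have e : g⁻¹.1 * g.1 = 1 := g.inv_mul
      rw [e, Matrix.vecMul_one, Complex.sub_re]
      linarith
  by_contra hB
  apply hnc
  have hre : ∀ ξ : Row, ξ ≠ 0 → (f.1 ξ).re = (f.1 ![0, 1]).re := by
    intro ξ hξ
    by_contra hcon
    refine hB (key f hf ⟨ξ, ![0, 1], hξ, ?_, hcon⟩)
    intro h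
    simpa using congrFun h 1
  have him : ∀ ξ : Row, ξ ≠ 0 → (f.1 ξ).im = (f.1 ![0, 1]).im := by
    intro ξ hξ
    by_contra hcon
    refine hB (key (Complex.I • f) (W.smul_mem _ hf) ⟨ξ, ![0, 1], hξ, ?_, ?_⟩)
    · intro h
      simpa using congrFun h 1
    · simpa using hcon
  rw [Submodule.mem_span_singleton]
  refine ⟨f.1 ![0, 1], PF_ext fun ξ hξ => ?_⟩
  rw [Submodule.coe_smul, Pi.smul_apply, one0_apply hξ, smul_eq_mul, mul_one]
  exact Complex.ext (hre ξ hξ).symm (him ξ hξ).symm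

end

end Pool.Agent.X290
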