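import Pool.Agent.X290.Fin

/-! Principal congruence subgroups of `GL₂(K_∞)`; admissibility. -/

set_option autoImplicit false

namespace Pool.Agent.X290

open Polynomial WithZero Matrix

noncomputable section

theorem exp_le_one (m : ℕ) : exp (-(m : ℤ)) ≤ 1 := by
  rw [← exp_zero, exp_le_exp]
  omega

/-- the principal congruence subgroups -/
def Kn (m : ℕ) : Subgroup Ginf where
  carrier := {g | ∀ ξ : Row, ξ ≠ 0 → nrm (ξ ᵥ* g.1 - ξ) < exp (-(m : ℤ)) * nrm ξ}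
  mul_mem' := by
    intro g h hg hh ξ hξ
    have h1 := hg ξ hξ
    have h2 := hh (ξ ᵥ* g.1) (vecMul_ne hξ)
    have h3 : nrm (ξ ᵥ* g.1) = nrm ξ := by
      apply nrm_eq_of_sub_lt
      rw [← nrm_neg, neg_sub]
      refine lt_of_lt_of_le h1 ?_
      calc _ ≤ 1 * nrm ξ := mul_le_mul_left (exp_le_one m) _
        _ = _ := one_mul _
    rw [h3] at h2
    have e : ξ ᵥ* (g * h).1 - ξ = ((ξ ᵥ* g.1) ᵥ* h.1 - ξ ᵥ* g.1) + (ξ ᵥ* g.1 - ξ) := by
      rw [Matrix.vecMul_vecMul]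
      change ξ ᵥ* (g.1 * h.1) - ξ = _
      abel
    rw [e]
    exact lt_of_le_of_lt (nrm_add_le _ _) (max_lt h2 h1)
  one_mem' := by
    intro ξ hξ
    rw [one_row, sub_self, nrm_eq_zero.2 rfl]
    refine mul_pos exp_pos ?_
    rw [zero_lt_iff, Ne, nrm_eq_zero]
    exact hξ
  inv_mem' := by
    intro g hg ξ hξ
    have h1 := hg (ξ ᵥ* g⁻¹.1) (vecMul_ne hξ)
    have e : (ξ ᵥ* g⁻¹.1) ᵥ* g.1 = ξ := by
      rw [Matrix.vecMul_vecMul]
      have : g⁻¹.1 * g.1 = 1 := g.inv_mul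
      rw [this, Matrix.vecMul_one]
    rw [e] at h1
    have h3 : nrm ξ = nrm (ξ ᵥ* g⁻¹.1) := by
      apply nrm_eq_of_sub_lt
      rw [← nrm_neg, neg_sub]
      refine lt_of_lt_of_le h1 ?_
      calc _ ≤ 1 * nrm (ξ ᵥ* g⁻¹.1) := mul_le_mul_left (exp_le_one m) _
        _ = _ := one_mul _
    rw [h3, ← nrm_neg, neg_sub]
    exact h1

theorem mem_Kn {m : ℕ} {g : Ginf} : g ∈ Kn m ↔ ∀ ξ : Row, ξ ≠ 0 → nrm (ξ ᵥ* g.1 - ξ) < exp (-(m : ℤ)) * nrm ξ :=
  Iff.rfl

theorem nrm_pos {ξ : Row} (h : ξ ≠ 0) : 0 < nrm ξ := by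
  rw [zero_lt_iff, Ne, nrm_eq_zero]
  exact h

theorem mem_Kn_of_entries {m : ℕ} {g : Ginf} (h : ∀ i j, vi (g.1 i j - (1 : Matrix (Fin 2) (Fin 2) Kinf) i j) <
    exp (-(m : ℤ))) : g ∈ Kn m := by
  intro ξ hξ
  have key : ∀ j, vi ((ξ ᵥ* g.1 - ξ) j) < exp (-(m : ℤ)) * nrm ξ := by
    intro j
    have e : (ξ ᵥ* g.1 - ξ) j = ξ 0 * (g.1 0 j - (1 : Matrix (Fin 2) (Fin 2) Kinf) 0 j) +
        ξ 1 * (g.1 1 j - (1 : Matrix (Fin 2) (Fin 2) Kinf) 1 j) := by
      have e1 : (ξ ᵥ* g.1 - ξ) = ξ ᵥ* g.1 - ξ ᵥ* (1 : Matrix (Fin 2) (Fin 2) Kinf) := by rw [Matrix.vecMul_one]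
      rw [e1, Pi.sub_apply, vecMul_two, vecMul_two]
      ring
    rw [e]
    have h0 : ∀ (x y : Kinf), vi x ≤ nrm ξ → vi y < exp (-(m : ℤ)) → vi (x * y) < exp (-(m : ℤ)) * nrm ξ := by
      intro x y hx hy
      rw [vi_mul, mul_comm]
      calc vi y * vi x ≤ vi y * nrm ξ := mul_le_mul_right hx _
        _ < _ := mul_lt_mul_of_pos_right hy (nrm_pos hξ)
    exact vi_add_lt (h0 _ _ (le_max_left _ _) (h 0 j)) (h0 _ _ (le_max_right _ _) (h 1 j))
  exact max_lt (key 0) (key 1)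

theorem entries_of_mem_Kn {m : ℕ} {g : Ginf} (h : g ∈ Kn m) (i j : Fin 2) :
    vi (g.1 i j - (1 : Matrix (Fin 2) (Fin 2) Kinf) i j) < exp (-(m : ℤ)) := by
  have h1 := h (Pi.single i (1 : Kinf) : Row) (by simp)
  have h2 : nrm (Pi.single i (1 : Kinf) : Row) = 1 := by
    unfold nrm
    fin_cases i <;> simp [vi]
  rw [h2, mul_one] at h1
  have h3 : ((Pi.single i (1 : Kinf) : Row) ᵥ* g.1 - (Pi.single i (1 : Kinf) : Row)) j =
      g.1 i j - (1 : Matrix (Fin 2) (Fin 2) Kinf) i j := by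
    rw [Pi.sub_apply, Matrix.single_one_vecMul, Matrix.one_apply, Pi.single_apply]
    simp only [Matrix.row]
    congr 1
    simp only [eq_comm]
  rw [← h3]
  refine lt_of_le_of_lt ?_ h1
  fin_cases j
  · exact le_max_left _ _
  · exact le_max_right _ _

theorem nhds_entries {N : Set (Matrix (Fin 2) (Fin 2) Kinf)} {A : Matrix (Fin 2) (Fin 2) Kinf} (hN : N ∈ nhds A) :
    ∃ n : ℕ, ∀ M : Matrix (Fin 2) (Fin 2) Kinf, (∀ i j, vi (M i j - A i j) < exp (-(n : ℤ))) → M ∈ N := by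
  have h1 : (fun B : Matrix (Fin 2) (Fin 2) Kinf => A + B) ⁻¹' N ∈ nhds (0 : Matrix (Fin 2) (Fin 2) Kinf) := by
    have hc : Continuous fun B : Matrix (Fin 2) (Fin 2) Kinf => A + B := continuous_const.add continuous_id
    have := hc.tendsto 0
    rw [add_zero] at this
    exact this hN
  obtain ⟨N', hN'⟩ : ∃ N' : Set (Fin 2 → Fin 2 → Kinf), N' = (fun B : Matrix (Fin 2) (Fin 2) Kinf => A + B) ⁻¹' N :=
    ⟨_, rfl⟩
  have h2 : N' ∈ nhds (0 : Fin 2 → Fin 2 → Kinf) := by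
    rw [hN']
    exact h1
  rw [nhds_pi, Filter.mem_pi'] at h2
  obtain ⟨I, t, ht, hsub⟩ := h2
  have h3 : ∀ i, ∃ (J : Finset (Fin 2)) (s : Fin 2 → Set Kinf), (∀ j, s j ∈ nhds (0 : Kinf)) ∧
      (J : Set (Fin 2)).pi s ⊆ t i := fun i => by
    have := ht i
    rw [nhds_pi, Filter.mem_pi'] at this
    exact this
  choose J s hs hsub' using h3
  choose n hn using fun i j => nhds_ball (hs i j)
  refine ⟨max (max (n 0 0) (n 0 1)) (max (n 1 0) (n 1 1)), fun M hM => ?_⟩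
  have hle : ∀ i j, n i j ≤ max (max (n 0 0) (n 0 1)) (max (n 1 0) (n 1 1)) := by
    intro i j
    fin_cases i <;> fin_cases j <;> simp
  have h4 : M - A ∈ (fun B : Matrix (Fin 2) (Fin 2) Kinf => A + B) ⁻¹' N := by
    rw [← hN']
    apply hsub
    intro i _
    apply hsub' i
    intro j _
    apply hn i j
    rw [Set.mem_ofPred_eq]
    refine lt_of_lt_of_le (hM i j) ?_
    rw [exp_le_exp]
    have := hle i j
    omega
  have h5 : A + (M - A) ∈ N := h4
  rwa [add_sub_cancel] at h5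

theorem Kn_mem_nhds (m : ℕ) : (Kn m : Set Ginf) ∈ nhds (1 : Ginf) := by
  have h1 : {g : Ginf | ∀ i j, vi (g.1 i j - (1 : Matrix (Fin 2) (Fin 2) Kinf) i j) < exp (-(m : ℤ))} ∈
      nhds (1 : Ginf) := by
    have e : {g : Ginf | ∀ i j, vi (g.1 i j - (1 : Matrix (Fin 2) (Fin 2) Kinf) i j) < exp (-(m : ℤ))} =
      ⋂ i : Fin 2, ⋂ j : Fin 2, {g : Ginf | vi (g.1 i j - (1 : Matrix (Fin 2) (Fin 2) Kinf) i j) <
        exp (-(m : ℤ))} := by
      ext g
      simp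
    rw [e, Filter.iInter_mem]
    intro i
    rw [Filter.iInter_mem]
    intro j
    have hc : Continuous fun g : Ginf => g.1 i j - (1 : Matrix (Fin 2) (Fin 2) Kinf) i j :=
      (Units.continuous_val.matrix_elem i j).sub continuous_const
    have ht := hc.tendsto 1
    have e0 : (1 : Ginf).1 i j - (1 : Matrix (Fin 2) (Fin 2) Kinf) i j = 0 := by simp
    rw [e0] at ht
    exact ht (ball_mem_nhds (-(m : ℤ)))
  exact Filter.mem_of_superset h1 fun g hg => mem_Kn_of_entries hg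

theorem Kn_open (m : ℕ) : IsOpen (Kn m : Set Ginf) := Subgroup.isOpen_of_mem_nhds _ (Kn_mem_nhds m)

theorem exists_Kn {s : Set Ginf} (hs : s ∈ nhds (1 : Ginf)) : ∃ m : ℕ, (Kn m : Set Ginf) ⊆ s := by
  rw [Units.isEmbedding_embedProduct.nhds_eq_comap, Filter.mem_comap] at hs
  obtain ⟨N, hN, hsub⟩ := hs
  have hN' : N ∈ nhds ((1 : Matrix (Fin 2) (Fin 2) Kinf), MulOpposite.op (1 : Matrix (Fin 2) (Fin 2) Kinf)) := hN
  rw [nhds_prod_eq, Filter.mem_prod_iff] at hN'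
  obtain ⟨N₁, hN₁, N₂, hN₂, hsub'⟩ := hN'
  have hN₂' : MulOpposite.op ⁻¹' N₂ ∈ nhds (1 : Matrix (Fin 2) (Fin 2) Kinf) :=
    MulOpposite.continuous_op.tendsto 1 hN₂
  obtain ⟨n₁, h₁⟩ := nhds_entries hN₁
  obtain ⟨n₂, h₂⟩ := nhds_entries hN₂'
  refine ⟨max n₁ n₂, fun g hg => hsub (hsub' ⟨h₁ _ fun i j => ?_, h₂ _ fun i j => ?_⟩)⟩
  · refine lt_of_lt_of_le (entries_of_mem_Kn hg i j) ?_
    rw [exp_le_exp]
    have := le_max_left n₁ n₂
    omega
  · refine lt_of_lt_of_le (entries_of_mem_Kn ((Kn _).inv_mem hg) i j) ?_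
    rw [exp_le_exp]
    have := le_max_right n₁ n₂
    omega

theorem exists_fix (f : PF) : ∃ m : ℕ, ∀ g ∈ Kn m, rP g f = f := by
  obtain ⟨hf0, hf1, m, hf2⟩ := f.2
  refine ⟨m, fun g hg => PF_ext fun ξ hξ => ?_⟩
  rw [rP_apply]
  apply hf2
  rw [← nrm_neg, neg_sub]
  exact hg ξ hξ

theorem Kn_mono {m n : ℕ} (h : m ≤ n) : Kn n ≤ Kn m := fun g hg ξ hξ =>
  lt_of_lt_of_le (hg ξ hξ) (mul_le_mul_left (by rw [exp_le_exp]; omega) _)

/-- the fixed vectors -/
def fixK (m : ℕ) : Submodule ℂ PF where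
  carrier := {f | ∀ g ∈ Kn m, rP g f = f}
  add_mem' ha hb g hg := by rw [map_add, ha g hg, hb g hg]
  zero_mem' g _ := map_zero _
  smul_mem' c x hx g hg := by rw [map_smul, hx g hg]

theorem level_of_fix {m : ℕ} {f : PF} (hf : f ∈ fixK m) : Level f m := by
  constructor
  · intro y z hyz
    have hg : (unip (z - y) : Ginf) ∈ Kn m := by
      apply mem_Kn_of_entries
      intro i j
      fin_cases i <;> fin_cases j
      · simp [unip]
      · simp only [unip]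
        simpa [vi_sub_comm] using hyz
      · simp [unip]
      · simp [unip]
    have h1 := hf _ hg
    have h2 := congrArg (fun F : PF => F.1 ![1, y]) h1
    simp only [rP_apply, unip_row] at h2
    rw [← h2]
    ring_nf
  · intro y z hyz
    have hg : (lunip (z - y) : Ginf) ∈ Kn m := by
      apply mem_Kn_of_entries
      intro i j
      fin_cases i <;> fin_cases j
      · simp [lunip]
      · simp [lunip]
      · simp only [lunip]
        simpa [vi_sub_comm] using hyz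
      · simp [lunip]
    have h1 := hf _ hg
    have h2 := congrArg (fun F : PF => F.1 ![y, 1]) h1
    have e : (![y, 1] : Row) ᵥ* (lunip (z - y) : Ginf).1 = ![z, 1] := by
      ext i
      rw [vecMul_two]
      fin_cases i <;> simp [lunip]
    simp only [rP_apply, e] at h2
    exact h2

theorem values_level (m : ℕ) : ∃ S : Finset Row, ∀ f : PF, Level f m → ∀ ξ : Row, ξ ≠ 0 → ∃ r ∈ S, f.1 ξ = f.1 r := by
  classical
  refine ⟨(pfin (m + 1)).image (fun p => ![1, pol p * T ^ (-(m : ℤ))]) ∪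
    (pfin m).image (fun p => ![pol p * T ^ (-(m : ℤ)), 1]), ?_⟩
  · intro f hm ξ hξ
    rcases le_or_gt (vi (ξ 1)) (vi (ξ 0)) with hle | hlt
    · have h0 : ξ 0 ≠ 0 := by
        intro h0
        apply hξ
        rw [h0, vi, vi, map_zero, le_zero_iff, map_eq_zero] at hle
        ext i
        fin_cases i
        · exact h0
        · exact hle
      obtain ⟨p₀, hp₀⟩ := exists_rep (ξ 1 / ξ 0) m
      have hy : vi (ξ 1 / ξ 0) ≤ 1 := by
        rw [vi, map_div₀]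
        exact (div_le_one₀ (pos_of_ne h0)).2 hle
      have hp₀m : p₀ ∈ pfin (m + 1) := by
        refine rep_mem hp₀ ?_
        refine lt_of_le_of_lt hy ?_
        rw [← exp_zero, exp_lt_exp]
        push_cast
        omega
      refine ⟨_, Finset.mem_union_left _ (Finset.mem_image_of_mem _ hp₀m), ?_⟩
      rw [hom_left h0]
      refine (hm.1 _ _ ?_).symm
      exact hp₀
    · have h0 : ξ 1 ≠ 0 := ne_of_vi_lt hlt
      obtain ⟨p₀, hp₀⟩ := exists_rep (ξ 0 / ξ 1) m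
      have hy : vi (ξ 0 / ξ 1) < 1 := by
        rw [vi, map_div₀]
        exact (div_lt_one₀ (pos_of_ne h0)).2 hlt
      have hp₀m : p₀ ∈ pfin m := by
        refine rep_mem hp₀ ?_
        rw [sub_self, exp_zero]
        exact hy
      refine ⟨_, Finset.mem_union_right _ (Finset.mem_image_of_mem _ hp₀m), ?_⟩
      rw [hom_right h0]
      refine (hm.2 _ _ ?_).symm
      exact hp₀

theorem finite_fixK (m : ℕ) : FiniteDimensional ℂ (fixK m) := by
  obtain ⟨S, hS⟩ := values_level m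
  let φ : fixK m →ₗ[ℂ] (S → ℂ) :=
    { toFun := fun f r => f.1.1 r.1
      map_add' := fun _ _ => rfl
      map_smul' := fun _ _ => rfl }
  refine FiniteDimensional.of_injective φ ?_
  rw [injective_iff_map_eq_zero]
  intro f hf
  apply Subtype.ext
  apply PF_ext
  intro ξ hξ
  obtain ⟨r, hr, e⟩ := hS f.1 (level_of_fix f.2) ξ hξ
  rw [e]
  exact congrFun hf ⟨r, hr⟩

theorem finite_quot (m m' : ℕ) : Finite (Kn m ⧸ (Kn m').subgroupOf (Kn m)) := by
  classical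
  choose p hp using fun (g : Kn m) (i j : Fin 2) => exists_rep (g.1.1 i j) m'
  have hbd : ∀ (g : Kn m) (i j : Fin 2), vi (g.1.1 i j) ≤ 1 := by
    intro g i j
    have h1 := (entries_of_mem_Kn g.2 i j).le.trans (exp_le_one m)
    refine vi_le_of_sub h1 ?_
    rw [Matrix.one_apply]
    split_ifs <;> simp [vi]
  have hpm : ∀ g i j, p g i j ∈ pfin (m' + 1) := by
    intro g i j
    refine rep_mem (hp g i j) (lt_of_le_of_lt (hbd g i j) ?_)
    rw [← exp_zero, exp_lt_exp]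
    push_cast
    omega
  have key : ∀ g h : Kn m, (∀ i j, p g i j = p h i j) → g.1⁻¹ * h.1 ∈ Kn m' := by
    intro g h hgh ξ hξ
    have hd : ∀ i j, vi (h.1.1 i j - g.1.1 i j) < exp (-(m' : ℤ)) := by
      intro i j
      have e : h.1.1 i j - g.1.1 i j = (h.1.1 i j - pol (p h i j) * T ^ (-(m' : ℤ))) -
        (g.1.1 i j - pol (p g i j) * T ^ (-(m' : ℤ))) := by
        rw [hgh]
        ring
      rw [e]
      exact vi_sub_lt (hp h i j) (hp g i j)
    set ζ := ξ ᵥ* (g.1⁻¹).1 with hζ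
    have hζ0 : ζ ≠ 0 := vecMul_ne hξ
    have e1 : ξ ᵥ* (g.1⁻¹ * h.1).1 - ξ = ζ ᵥ* h.1.1 - ζ ᵥ* g.1.1 := by
      have e2 : ζ ᵥ* g.1.1 = ξ := by
        rw [hζ, Matrix.vecMul_vecMul]
        have : (g.1⁻¹).1 * g.1.1 = 1 := g.1.inv_mul
        rw [this, Matrix.vecMul_one]
      rw [e2, hζ, Matrix.vecMul_vecMul]
      rfl
    have e3 : nrm ξ = nrm ζ := by
      have h1 := g.2 ζ hζ0
      have e2 : ζ ᵥ* g.1.1 = ξ := by
        rw [hζ, Matrix.vecMul_vecMul]
        have : (g.1⁻¹).1 * g.1.1 = 1 := g.1.inv_mul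
        rw [this, Matrix.vecMul_one]
      rw [e2] at h1
      apply nrm_eq_of_sub_lt
      rw [← nrm_neg, neg_sub]
      refine lt_of_lt_of_le h1 ?_
      calc _ ≤ 1 * nrm ζ := mul_le_mul_left (exp_le_one m) _
        _ = _ := one_mul _
    rw [e1, e3]
    have key' : ∀ j, vi ((ζ ᵥ* h.1.1 - ζ ᵥ* g.1.1) j) < exp (-(m' : ℤ)) * nrm ζ := by
      intro j
      have e : (ζ ᵥ* h.1.1 - ζ ᵥ* g.1.1) j = ζ 0 * (h.1.1 0 j - g.1.1 0 j) + ζ 1 * (h.1.1 1 j - g.1.1 1 j) := by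
        rw [Pi.sub_apply, vecMul_two, vecMul_two]
        ring
      rw [e]
      have h0 : ∀ (x y : Kinf), vi x ≤ nrm ζ → vi y < exp (-(m' : ℤ)) → vi (x * y) < exp (-(m' : ℤ)) * nrm ζ := by
        intro x y hx hy
        rw [vi_mul, mul_comm]
        calc vi y * vi x ≤ vi y * nrm ζ := mul_le_mul_right hx _
          _ < _ := mul_lt_mul_of_pos_right hy (nrm_pos hζ0)
      exact vi_add_lt (h0 _ _ (le_max_left _ _) (hd 0 j)) (h0 _ _ (le_max_right _ _) (hd 1 j))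
    exact max_lt (key' 0) (key' 1)
  refine Finite.of_injective (fun q : Kn m ⧸ (Kn m').subgroupOf (Kn m) => fun i j : Fin 2 =>
    (⟨p q.out i j, hpm _ _ _⟩ : pfin (m' + 1))) ?_
  intro q q' h
  rw [← QuotientGroup.out_eq' q, ← QuotientGroup.out_eq' q', QuotientGroup.eq, Subgroup.mem_subgroupOf]
  apply key
  intro i j
  exact congrArg Subtype.val (congrFun (congrFun h i) j)

end

end Pool.Agent.X290
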