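import Pool.Agent.X290.Abs

/-! The trivial representation is the global lifting of `St ⊗ 1`. -/

set_option autoImplicit false

namespace Pool.Agent.X290

open Polynomial WithZero IsDedekindDomain Representation Matrix

noncomputable section

/-- the trivial representation of `GL₂(𝔸)` -/
def triv : Irrep GA where
  V := ℂ
  ρ := 1
  irreducible := irreducible_of _ ⟨1, one_ne_zero⟩ fun N _ => eq_bot_or_eq_top N
  smooth _ := ⟨⊤, isOpen_univ, fun _ _ => rfl⟩

theorem triv_apply (g : GA) (x : ℂ) : triv.ρ g x = x := rfl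

/-- constant functions -/
def cst : ℂ →ₗ[ℂ] (GA → ℂ) where
  toFun c := fun _ => c
  map_add' _ _ := rfl
  map_smul' _ _ := rfl

theorem cst_right (c : ℂ) (g : GA) : rightReg g (cst c) = cst c := rfl

/-- the space of constant functions -/
def Vc : Subrepresentation rightReg where
  toSubmodule := LinearMap.range cst
  apply_mem_toSubmodule := by
    rintro g _ ⟨c, rfl⟩
    exact ⟨c, rfl⟩

theorem cst_automorphic (c : ℂ) : IsAutomorphicForm (cst c) := by
  refine ⟨fun _ _ => rfl, ⟨⊤, isOpen_univ, fun _ _ => rfl⟩, none, fun U _ => ?_⟩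
  have hle : Submodule.span ℂ {ψ | ∃ h ∈ localGroup none, ψ = rightReg h (cst c)} ⊓
      fixedBy {u | u ∈ U ∧ u ∈ localGroup none} ≤ Submodule.span ℂ {cst c} := by
    refine inf_le_left.trans (Submodule.span_le.2 ?_)
    rintro _ ⟨h, _, rfl⟩
    rw [cst_right]
    exact Submodule.mem_span_singleton_self _
  exact Submodule.finiteDimensional_of_le hle

theorem triv_automorphic : IsAutomorphic triv := by
  let q : Vc.toSubmodule →ₗ[ℂ] ℂ :=
    { toFun := fun φ => φ.1 1
      map_add' := fun _ _ => rfl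
      map_smul' := fun _ _ => rfl }
  refine ⟨Vc, ⟨q, ?_⟩, ?_, ?_⟩
  · intro g
    apply LinearMap.ext
    rintro ⟨_, ⟨c, rfl⟩⟩
    rfl
  · rintro _ ⟨c, rfl⟩
    exact cst_automorphic c
  · intro c
    exact ⟨⟨cst c, c, rfl⟩, rfl⟩

theorem triv_isobaric : IsIsobaric triv := by
  refine ⟨triv_automorphic, Or.inr ⟨chiS (1 / 2), chiS (-(1 / 2)), chiS_hecke _, chiS_hecke _, 1 / 2, -(1 / 2),
    by norm_num, norm_chiS _, norm_chiS _, ⟨cst, fun _ => rfl⟩, ?_, ?_⟩⟩
  · intro a b h
    exact congrFun h 1
  · intro (c : ℂ)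
    refine ⟨⟨⊤, isOpen_univ, fun _ _ => rfl⟩, fun b g a d _ _ _ _ _ _ => ?_⟩
    change (c : ℂ) = _ * _ * _ * (c : ℂ)
    rw [chiS_apply, chiS_apply, ← Complex.ofReal_mul, ← Complex.ofReal_mul]
    have h1 : absIdele a ^ (-(1 / 2) : ℝ) * absIdele d ^ (1 / 2 : ℝ) * (absIdele a / absIdele d) ^ (1 / 2 : ℝ) = 1 := by
      have ha := Real.rpow_pos_of_pos (absIdele_pos a) (1 / 2)
      have hd := Real.rpow_pos_of_pos (absIdele_pos d) (1 / 2)
      rw [Real.div_rpow (absIdele_pos a).le (absIdele_pos d).le, Real.rpow_neg (absIdele_pos a).le]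
      field_simp
    rw [h1, Complex.ofReal_one, one_mul]

/-! ### components of representations on which a subgroup acts trivially -/

theorem nontrivial_of_irreducible {G : Type} [Group G] [TopologicalSpace G] (π : Irrep G) : ∃ x : π.V, x ≠ 0 := by
  by_contra h
  push Not at h
  have := π.irreducible
  obtain ⟨A, B, hAB⟩ := (inferInstance : Nontrivial (Subrepresentation π.ρ))
  apply hAB
  apply Subrepresentation.toSubmodule_injective
  apply Submodule.ext
  intro x
  rw [h x]
  exact ⟨fun _ => Submodule.zero_mem _, fun _ => Submodule.zero_mem _⟩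

theorem submodule_of_irreducible {G : Type} [Group G] [TopologicalSpace G] (π : Irrep G) (N : Submodule ℂ π.V)
    (hN : ∀ g, ∀ x ∈ N, π.ρ g x ∈ N) : N = ⊥ ∨ N = ⊤ := by
  have := π.irreducible
  rcases eq_bot_or_eq_top (⟨N, hN⟩ : Subrepresentation π.ρ) with h | h
  · left
    exact congrArg Subrepresentation.toSubmodule h
  · right
    exact congrArg Subrepresentation.toSubmodule h

theorem trivial_of_component {H : Type} [Group H] [TopologicalSpace H] {i : H →* GA} {σ : Irrep H} {π : Irrep GA}
    (hπ : ∀ h x, π.ρ (i h) x = x) (hc : IsComponent i σ π) (h : H) (x : σ.V) : σ.ρ h x = x := by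
  obtain ⟨J, ⟨e⟩⟩ := hc
  obtain ⟨y, hy⟩ := nontrivial_of_irreducible π
  have hne : Nonempty J := by
    by_contra hJ
    rw [not_nonempty_iff] at hJ
    apply hy
    have : e y = e 0 := Subsingleton.elim _ _
    exact e.toLinearEquiv.injective this
  obtain ⟨j⟩ := hne
  have h1 : e (π.ρ (i h) (e.symm (Finsupp.single j x))) = σ.ρ.finsupp J h (e (e.symm (Finsupp.single j x))) :=
    Representation.IntertwiningMap.isIntertwining _ _ e.toIntertwiningMap h _
  rw [hπ, Representation.Equiv.apply_symm_apply, Representation.finsupp_single] at h1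
  exact (Finsupp.single_injective j h1).symm

theorem component_of_trivial {H : Type} [Group H] [TopologicalSpace H] {i : H →* GA} {σ : Irrep H} {π : Irrep GA}
    (hπ : ∀ h x, π.ρ (i h) x = x) (hσ : ∀ h x, σ.ρ h x = x) : IsComponent i σ π := by
  obtain ⟨x, hx⟩ := nontrivial_of_irreducible σ
  have htop : Submodule.span ℂ {x} = ⊤ := by
    rcases submodule_of_irreducible σ (Submodule.span ℂ {x}) (fun g y hy => by rwa [hσ]) with h | h
    · exact absurd (Submodule.span_singleton_eq_bot.1 h) hx
    · exact h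
  let e₁ : ℂ ≃ₗ[ℂ] σ.V := (LinearEquiv.toSpanNonzeroSingleton ℂ σ.V x hx).trans
    ((LinearEquiv.ofEq _ _ htop).trans Submodule.topEquiv)
  let b := Module.Basis.ofVectorSpace ℂ π.V
  let e₂ : π.V ≃ₗ[ℂ] (Module.Basis.ofVectorSpaceIndex ℂ π.V →₀ σ.V) :=
    b.repr.trans (Finsupp.mapRange.linearEquiv e₁)
  refine ⟨Module.Basis.ofVectorSpaceIndex ℂ π.V, ⟨Representation.Equiv.mk e₂ ?_⟩⟩
  intro g
  apply LinearMap.ext
  intro y
  change e₂ (π.ρ (i g) y) = σ.ρ.finsupp _ g (e₂ y)
  rw [hπ]
  generalize e₂ y = z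
  induction z using Finsupp.induction_linear with
  | zero => simp
  | add z w hz hw => rw [map_add, ← hz, ← hw]
  | single j a => rw [Representation.finsupp_single, hσ]

theorem sameComponent_of_trivial {v : Place} {π τ : Irrep GA} (hπ : ∀ h ∈ localGroup v, ∀ x, π.ρ h x = x)
    (hτ : ∀ h ∈ localGroup v, ∀ x, τ.ρ h x = x) : SameComponent v π τ := by
  intro σ
  constructor
  · intro h
    exact component_of_trivial (fun h x => hτ _ h.2 x) (trivial_of_component (fun h x => hπ _ h.2 x) h)
  · intro h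
    exact component_of_trivial (fun h x => hπ _ h.2 x) (trivial_of_component (fun h x => hτ _ h.2 x) h)

/-! ### `St` has no nonzero vector fixed by `GL₂(O)` -/

theorem fixed_of_sq {k : Ginf} (hk : k * k = 1) {f : PF} (h : stR k (Submodule.Quotient.mk f) = Submodule.Quotient.mk f) :
    rP k f = f := by
  rw [stR_mk, Submodule.Quotient.eq, Submodule.mem_span_singleton] at h
  obtain ⟨c, hc⟩ := h
  have h1 : rP k f = f + c • one0 := by rw [hc]; abel
  have h2 : rP k (rP k f) = f := by
    rw [← Module.End.mul_apply, ← map_mul, hk, map_one, Module.End.one_apply]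
  rw [h1, map_add, map_smul, rP_one0, h1] at h2
  have h3 : (2 * c) • one0 = 0 := by
    have : f + c • one0 + c • one0 - f = 0 := sub_eq_zero.2 h2
    rw [← this]
    module
  have h4 := congrArg (fun F : PF => F.1 ![1, 0]) h3
  simp only [Submodule.coe_smul, Pi.smul_apply, one0_apply row10, smul_eq_mul, mul_one] at h4
  have h5 : c = 0 := by
    have : (0 : PF).1 ![1, 0] = 0 := rfl
    rw [this] at h4
    simpa using h4
  rw [h1, h5, zero_smul, add_zero]

theorem unip_sq (a : Kinf) : (unip a : Ginf) * unip a = 1 := by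
  apply Units.ext
  change !![1, a; 0, 1] * !![1, a; 0, 1] = (1 : Matrix (Fin 2) (Fin 2) Kinf)
  simp [Matrix.one_fin_two, char2]

theorem sw_sq : (sw : Ginf) * sw = 1 := by
  apply Units.ext
  change !![0, 1; 1, 0] * !![0, 1; 1, 0] = (1 : Matrix (Fin 2) (Fin 2) Kinf)
  simp [Matrix.one_fin_two]

theorem integral_unip {a : Kinf} (ha : vi a ≤ 1) : IntegralMat Valued.v (unip a : Ginf) := by
  constructor
  · intro i j
    fin_cases i <;> fin_cases j <;> simp [unip]
    exact ha
  · rw [← eq_inv_of_mul_eq_one_left (unip_sq a)]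
    intro i j
    fin_cases i <;> fin_cases j <;> simp [unip]
    exact ha

theorem integral_sw : IntegralMat Valued.v (sw : Ginf) := by
  constructor
  · intro i j
    fin_cases i <;> fin_cases j <;> simp [sw]
  · rw [← eq_inv_of_mul_eq_one_left sw_sq]
    intro i j
    fin_cases i <;> fin_cases j <;> simp [sw]

theorem sw_row (x y : Kinf) : (![x, y] : Row) ᵥ* (sw : Ginf).1 = ![y, x] := by
  ext i
  rw [vecMul_two]
  fin_cases i <;> simp [sw]

theorem piE_ramified : ¬ UnramifiedAt none piE := by
  rintro ⟨x, hx, h⟩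
  obtain ⟨f, hf⟩ := Submodule.Quotient.mk_surjective (Submodule.span ℂ {one0}) (x : StV)
  have hfix : ∀ k : Ginf, k * k = 1 → IntegralMat Valued.v k → rP k f = f := by
    intro k hk hi
    apply fixed_of_sq hk
    rw [hf]
    exact h (inclInf k) (inclInf_mem k) hi
  apply hx
  rw [← hf]
  change (Submodule.Quotient.mk f : StV) = 0
  rw [Submodule.Quotient.mk_eq_zero, Submodule.mem_span_singleton]
  refine ⟨f.1 ![1, 0], PF_ext fun ξ hξ => ?_⟩
  rw [Submodule.coe_smul, Pi.smul_apply, one0_apply hξ, smul_eq_mul, mul_one]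
  have key : ∀ y : Kinf, vi y ≤ 1 → f.1 ![1, y] = f.1 ![1, 0] := by
    intro y hy
    have h1 := hfix (unip y) (unip_sq y) (integral_unip hy)
    have h2 := congrArg (fun F : PF => F.1 ![1, 0]) h1
    simp only [rP_apply, unip_row, one_mul, add_zero] at h2
    exact h2
  have hsw : ∀ x y : Kinf, f.1 ![x, y] = f.1 ![y, x] := by
    intro x y
    have h1 := hfix sw sw_sq integral_sw
    have h2 := congrArg (fun F : PF => F.1 ![y, x]) h1
    simp only [rP_apply, sw_row] at h2
    exact h2
  symm
  rcases le_or_gt (vi (ξ 1)) (vi (ξ 0)) with hle | hlt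
  · have h0 : ξ 0 ≠ 0 := by
      intro h0
      apply hξ
      rw [h0, vi, vi, map_zero, le_zero_iff, map_eq_zero] at hle
      ext i
      fin_cases i
      · exact h0
      · exact hle
    rw [hom_left h0]
    apply key
    rw [vi, map_div₀]
    exact (div_le_one₀ (pos_of_ne h0)).2 hle
  · have h0 : ξ 1 ≠ 0 := ne_of_vi_lt hlt
    rw [hom_right h0, hsw]
    apply key
    rw [vi, map_div₀]
    exact (div_le_one₀ (pos_of_ne h0)).2 hlt.le

theorem piE_lifting : IsGlobalLifting piE triv := by
  refine ⟨triv_isobaric, fun v hv => ?_⟩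
  cases v with
  | none => exact absurd hv piE_ramified
  | some v =>
    refine sameComponent_of_trivial (fun h hh x => ?_) (fun h _ x => rfl)
    have h1 : h.1 = 1 := by
      have := (Subgroup.mem_inf.1 hh).1
      rw [MonoidHom.mem_ker] at this
      exact this
    change stR h.1 x = x
    rw [h1, map_one]
    rfl

end

end Pool.Agent.X290
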