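import Pool.Agent.X290.Coef
import Pool.Agent.X290.EulP

set_option autoImplicit false

/-!
# Twisted sums of odd Hecke-Maass forms
-/

namespace Pool.Agent.X290.Tw

open Complex MeasureTheory Set Filter Topology Fou Bes Coef EulP

/-- all data needed from the form -/
structure Dat (f : ℂ → ℂ) (mu nu : ℂ) (a c : ℕ → ℂ) (w : ℂ) : Prop where
  om : OddHM f mu a
  hr : HRec a c
  form : ∀ n : ℕ, 0 < n → ∀ y : ℝ, 0 < y →
    co f n y = ((Real.sqrt n : ℝ) : ℂ)⁻¹ * c n * co f 1 (n * y)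
  wne : w ≠ 0
  W : ∀ y : ℝ, 0 < y → co f 1 y = w * B nu y

theorem exists_dat {f : ℂ → ℂ} {mu : ℂ} {a : ℕ → ℂ} (h : OddHM f mu a) :
    ∃ nu c w, nu ^ 2 = 1 / 4 - mu ∧ Dat f mu nu a c w := by
  obtain ⟨nu, hnu⟩ := exists_nu mu
  obtain ⟨c, c0, c1, c2, c3, c4⟩ := exists_coef h
  obtain ⟨w, hw⟩ := co_one h hnu
  refine ⟨nu, c, w, hnu, h, ⟨c0, c1, c2, c3⟩, c4, ?_, hw⟩
  rintro rfl
  obtain ⟨y, hy, hne⟩ := exists_ne h
  exact hne (by rw [hw y hy, zero_mul])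

variable {f : ℂ → ℂ} {mu nu : ℂ} {a c : ℕ → ℂ} {w : ℂ}

lemma sqrt_exp_le {t : ℝ} (ht : 1 ≤ t) :
    Real.sqrt t * Real.exp (-(2 * Real.pi * t)) ≤ Real.exp (-(Real.pi * t)) := by
  have h1 : Real.sqrt t ≤ t := by
    rw [Real.sqrt_le_left (by linarith)]
    nlinarith
  have h2 : t ≤ Real.exp (Real.pi * t) := by
    have := Real.add_one_le_exp (Real.pi * t)
    nlinarith [Real.pi_gt_three]
  calc Real.sqrt t * Real.exp (-(2 * Real.pi * t))
      ≤ Real.exp (Real.pi * t) * Real.exp (-(2 * Real.pi * t)) := by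
        gcongr; exact h1.trans h2
    _ = Real.exp (-(Real.pi * t)) := by rw [← Real.exp_add]; ring_nf

lemma Dat.W_bound (h : Dat f mu nu a c w) :
    ∃ C : ℝ, 0 ≤ C ∧ ∀ t : ℝ, 0 < t → ‖co f 1 t‖ ≤ C * Real.exp (-(Real.pi * t)) := by
  obtain ⟨C0, h0⟩ := h.om.bdd
  have hC0 : 0 ≤ C0 := (norm_nonneg _).trans (h0 I (by simp))
  obtain ⟨C1, hC1, h1⟩ := norm_B_le nu
  refine ⟨C0 * Real.exp Real.pi + ‖w‖ * C1, by positivity, fun t ht => ?_⟩
  rcases le_or_gt 1 t with h1t | h1t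
  · have h2 := h1 t h1t
    rw [h.W t ht, norm_mul, add_mul]
    have h3 : ‖w‖ * ‖B nu t‖ ≤ ‖w‖ * C1 * Real.exp (-(Real.pi * t)) := by
      calc ‖w‖ * ‖B nu t‖ ≤ ‖w‖ * (C1 * Real.exp (-(Real.pi * t))) := by
            gcongr
            exact h2.trans (by gcongr; exact sqrt_exp_le h1t)
        _ = _ := by ring
    have h4 : 0 ≤ C0 * Real.exp Real.pi * Real.exp (-(Real.pi * t)) := by positivity
    linarith
  · have h2 := norm_co_le h0 1 ht
    have h3 : C0 ≤ C0 * Real.exp Real.pi * Real.exp (-(Real.pi * t)) := by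
      rw [mul_assoc, ← Real.exp_add]
      have : 1 ≤ Real.exp (Real.pi + -(Real.pi * t)) := by
        apply Real.one_le_exp
        nlinarith [Real.pi_pos]
      nlinarith
    have h4 : 0 ≤ ‖w‖ * C1 * Real.exp (-(Real.pi * t)) := by positivity
    rw [add_mul]
    linarith

lemma Dat.co_bound (h : Dat f mu nu a c w) :
    ∃ C : ℝ, 0 ≤ C ∧ ∀ n : ℤ, ∀ y : ℝ, 0 < y →
      ‖co f n y‖ ≤ C * Real.exp (-(Real.pi * (|(n : ℝ)| * y))) := by
  obtain ⟨C, hC, hW⟩ := h.W_bound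
  obtain ⟨D, hD, hc⟩ := h.hr.bound
  have hpos : ∀ n : ℕ, 0 < n → ∀ y : ℝ, 0 < y →
      ‖co f n y‖ ≤ D * C * Real.exp (-(Real.pi * ((n : ℝ) * y))) := by
    intro n hn y hy
    have hnR : (0 : ℝ) < n := by exact_mod_cast hn
    have hs : 0 < Real.sqrt n := Real.sqrt_pos.mpr hnR
    rw [h.form n hn y hy, norm_mul, norm_mul, norm_inv, Complex.norm_real,
      Real.norm_of_nonneg hs.le]
    have h1 := hW (n * y) (by positivity)
    have h2 := hc n
    calc (Real.sqrt n)⁻¹ * ‖c n‖ * ‖co f 1 (n * y)‖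
        ≤ (Real.sqrt n)⁻¹ * (D * Real.sqrt n) * (C * Real.exp (-(Real.pi * (n * y)))) := by
          gcongr
      _ = _ := by field_simp
  refine ⟨D * C, by positivity, fun n y hy => ?_⟩
  rcases lt_trichotomy n 0 with h0 | h0 | h0
  · have h1 := co_neg h.om (-n) hy
    rw [neg_neg] at h1
    rw [h1, norm_neg]
    have h2 := hpos (-n).toNat (by omega) y hy
    have h3 : (((-n).toNat : ℕ) : ℤ) = -n := Int.toNat_of_nonneg (by omega)
    have h4 : (((-n).toNat : ℕ) : ℝ) = |(n : ℝ)| := by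
      have : (((-n).toNat : ℕ) : ℝ) = ((-n : ℤ) : ℝ) := by exact_mod_cast h3
      rw [this, abs_of_neg (by exact_mod_cast h0)]
      push_cast; rfl
    rw [h3, h4] at h2
    exact h2
  · subst h0
    rw [co_zero h.om hy, norm_zero]
    positivity
  · have h2 := hpos n.toNat (by omega) y hy
    have h3 : ((n.toNat : ℕ) : ℤ) = n := Int.toNat_of_nonneg (by omega)
    have h4 : ((n.toNat : ℕ) : ℝ) = |(n : ℝ)| := by
      have : ((n.toNat : ℕ) : ℝ) = ((n : ℤ) : ℝ) := by exact_mod_cast h3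
      rw [this, abs_of_pos (by exact_mod_cast h0)]
    rw [h3, h4] at h2
    exact h2

lemma summable_int (k : ℕ) {y : ℝ} (hy : 0 < y) :
    Summable fun n : ℤ => |(n : ℝ)| ^ k * Real.exp (-(Real.pi * (|(n : ℝ)| * y))) := by
  have h1 : Summable fun n : ℕ => (n : ℝ) ^ k * Real.exp (-(Real.pi * ((n : ℝ) * y))) := by
    have := Real.summable_pow_mul_exp_neg_nat_mul k (r := Real.pi * y) (by positivity)
    refine this.congr fun n => ?_
    ring_nf
  refine Summable.of_nat_of_neg ?_ ?_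
  · simpa using h1
  · simpa using h1

/-- the function `f` (`κ = 0`) or its `x`-derivative (`κ = 1`) -/
structure Phi (f : ℂ → ℂ) (κ : ℕ) (φ : ℂ → ℂ) : Prop where
  cont : ContinuousOn φ Hs
  per : Per φ
  coe : ∀ n : ℤ, ∀ y : ℝ, 0 < y → co φ n y = (2 * Real.pi * I * n) ^ κ * co f n y
  rel : ∀ q : ℕ, 0 < q → ∀ u v : ℤ, (q : ℤ) ∣ u * v + 1 → ∀ y : ℝ, 0 < y →
    φ ((u : ℂ) / q + ((1 / (q ^ 2 * y) : ℝ) : ℂ) * I)
      = (-((q : ℂ) ^ 2 * (y : ℂ) ^ 2)) ^ κ * φ ((v : ℂ) / q + (y : ℂ) * I)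

lemma inv_of (h : OddHM f mu a) : Modu.Inv f := ⟨h.T, h.S⟩

lemma phi_zero (h : OddHM f mu a) : Phi f 0 f where
  cont := h.smooth.continuousOn
  per := h.T
  coe n y hy := by simp
  rel q hq u v huv y hy := by
    have hz : 0 < ((y : ℂ) * I).im := by simpa using hy
    have h1 := (inv_of h).twist hq huv hz
    rw [pow_zero, one_mul, add_comm ((v : ℂ) / q), ← h1]
    congr 1
    have hyC : (y : ℂ) ≠ 0 := by exact_mod_cast hy.ne'
    have hqC : (q : ℂ) ≠ 0 := by exact_mod_cast hq.ne'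
    push_cast
    field_simp
    linear_combination I_mul_I

lemma hasDerivAt_dir {f : ℂ → ℂ} (hf : ContDiffOn ℝ (⊤ : ℕ∞) f Hs) {γ : ℝ → ℂ} {γ' : ℂ} {t : ℝ}
    (hγ : HasDerivAt γ γ' t) (ht : γ t ∈ Hs) :
    HasDerivAt (fun s => f (γ s)) (fderiv ℝ f (γ t) γ') t :=
  (smooth_hasFDerivAt hf ht).comp_hasDerivAt t hγ

lemma phi_one (h : OddHM f mu a) : Phi f 1 (D 1 f) where
  cont := (D_smooth h.smooth 1).continuousOn
  per := D_per h.T 1
  coe n y hy := by rw [pow_one]; exact co_Dx h.smooth h.T n hy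
  rel q hq u v huv y hy := by
    have hyC : (y : ℂ) ≠ 0 := by exact_mod_cast hy.ne'
    have hqC : (q : ℂ) ≠ 0 := by exact_mod_cast hq.ne'
    have hqR : (0 : ℝ) < q := by exact_mod_cast hq
    have hne : ∀ t : ℝ, (t : ℂ) + y * I ≠ 0 := by
      intro t h0
      have := congrArg Complex.im h0
      simp at this
      exact hy.ne' this
    -- the two curves
    have hγ1 : HasDerivAt (fun t : ℝ => (t : ℂ) + y * I + (v : ℂ) / q) 1 0 := by
      simpa using ((Complex.ofRealCLM.hasDerivAt (x := (0 : ℝ))).add_const ((y : ℂ) * I)).add_const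
        ((v : ℂ) / q)
    have hγ2 : HasDerivAt (fun t : ℝ => (u : ℂ) / q - 1 / ((q : ℂ) ^ 2 * ((t : ℂ) + y * I)))
        (1 / ((q : ℂ) ^ 2 * (((0 : ℝ) : ℂ) + y * I) ^ 2)) 0 := by
      have h1 : HasDerivAt (fun t : ℝ => (t : ℂ) + y * I) 1 0 := by
        simpa using ((Complex.ofRealCLM.hasDerivAt (x := (0 : ℝ))).add_const ((y : ℂ) * I))
      have h2 := ((h1.const_mul ((q : ℂ) ^ 2)).inv
        (mul_ne_zero (pow_ne_zero 2 hqC) (hne 0))).const_sub ((u : ℂ) / q)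
      have h3 : (fun t : ℝ => (u : ℂ) / q - 1 / ((q : ℂ) ^ 2 * ((t : ℂ) + y * I)))
          = fun t : ℝ => (u : ℂ) / q - ((q : ℂ) ^ 2 * ((t : ℂ) + y * I))⁻¹ := by
        funext t; rw [one_div]
      rw [h3]
      refine h2.congr_deriv ?_
      have := hne 0
      field_simp
    have hval1 : (((0 : ℝ) : ℂ) + y * I + (v : ℂ) / q) ∈ Hs := by
      have : ((v : ℂ) / q).im = 0 := by
        rw [show (v : ℂ) / q = (((v : ℝ) / (q : ℝ) : ℝ) : ℂ) by push_cast; ring, Complex.ofReal_im]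
      change 0 < (((0 : ℝ) : ℂ) + y * I + (v : ℂ) / q).im
      rw [Complex.add_im, this]
      simpa using hy
    have hval2e : (u : ℂ) / q - 1 / ((q : ℂ) ^ 2 * (((0 : ℝ) : ℂ) + y * I))
        = (u : ℂ) / q + ((1 / (q ^ 2 * y) : ℝ) : ℂ) * I := by
      push_cast
      rw [zero_add]
      field_simp
      linear_combination (-1 : ℂ) * I_mul_I
    have hval2 : ((u : ℂ) / q - 1 / ((q : ℂ) ^ 2 * (((0 : ℝ) : ℂ) + y * I))) ∈ Hs := by
      rw [hval2e]
      have := mem_Hs ((u : ℝ) / q) (y := 1 / (q ^ 2 * y)) (by positivity)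
      push_cast at this ⊢
      exact this
    have d1 := hasDerivAt_dir h.smooth hγ1 hval1
    have d2 := hasDerivAt_dir h.smooth hγ2 hval2
    have heq : (fun t : ℝ => f ((u : ℂ) / q - 1 / ((q : ℂ) ^ 2 * ((t : ℂ) + y * I))))
        = fun t : ℝ => f ((t : ℂ) + y * I + (v : ℂ) / q) := by
      funext t
      exact (inv_of h).twist hq huv (by simpa using hy)
    rw [heq] at d2
    have h3 := d2.unique d1
    rw [hval2e] at h3
    have e1 : (1 / ((q : ℂ) ^ 2 * (((0 : ℝ) : ℂ) + y * I) ^ 2))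
        = (-(1 / (q ^ 2 * y ^ 2)) : ℝ) • (1 : ℂ) := by
      rw [Complex.real_smul]
      push_cast
      rw [zero_add, mul_pow, I_sq]
      field_simp
    rw [e1, map_smul, Complex.real_smul] at h3
    have e2 : ((0 : ℝ) : ℂ) + y * I + (v : ℂ) / q = (v : ℂ) / q + (y : ℂ) * I := by
      push_cast; ring
    rw [e2] at h3
    unfold D
    rw [pow_one, ← h3]
    push_cast
    field_simp

/-- the twisted sum -/
noncomputable def F {q : ℕ} [NeZero q] (φ : ℂ → ℂ) (χ : DirichletCharacter ℂ q) (y : ℝ) : ℂ :=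
  ∑ u : ZMod q, χ u * φ ((u.val : ℂ) / q + (y : ℂ) * I)

lemma F_units {q : ℕ} [NeZero q] (φ : ℂ → ℂ) (χ : DirichletCharacter ℂ q) (y : ℝ) :
    F φ χ y = ∑ u : (ZMod q)ˣ, χ (u : ZMod q) * φ (((u : ZMod q).val : ℂ) / q + (y : ℂ) * I) := by
  unfold F
  symm
  refine Fintype.sum_of_injective (fun u : (ZMod q)ˣ => (u : ZMod q)) Units.val_injective _ _ ?_
    fun u => rfl
  intro u hu
  have : ¬ IsUnit u := fun hc => hu ⟨hc.unit, rfl⟩
  rw [MulChar.map_nonunit χ this, zero_mul]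

/-- functional equation of the twisted sum -/
theorem F_fe {κ : ℕ} {φ : ℂ → ℂ} (hφ : Phi f κ φ) {q : ℕ} [NeZero q]
    (χ : DirichletCharacter ℂ q) (hχ : χ⁻¹ = χ) {y : ℝ} (hy : 0 < y) :
    F φ χ (1 / (q ^ 2 * y)) = χ (-1) * (-((q : ℂ) ^ 2 * (y : ℂ) ^ 2)) ^ κ * F φ χ y := by
  have hq : 0 < q := Nat.pos_of_ne_zero (NeZero.ne q)
  let σ : (ZMod q)ˣ ≃ (ZMod q)ˣ := (Equiv.inv _).trans (Equiv.neg _)
  have hσ : ∀ u, σ u = -u⁻¹ := fun u => rfl
  rw [F_units, F_units, ← Equiv.sum_comp σ (fun u : (ZMod q)ˣ =>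
    χ (u : ZMod q) * φ (((u : ZMod q).val : ℂ) / q + (y : ℂ) * I)), Finset.mul_sum]
  refine Finset.sum_congr rfl fun u _ => ?_
  rw [hσ]
  have hdvd : (q : ℤ) ∣ (((u : ZMod q).val : ℕ) : ℤ) * ((((-u⁻¹ : (ZMod q)ˣ) : ZMod q).val : ℕ) : ℤ) + 1 := by
    rw [← ZMod.intCast_zmod_eq_zero_iff_dvd]
    push_cast
    rw [ZMod.natCast_zmod_val, ZMod.natCast_zmod_val]
    simp
  have h1 := hφ.rel q hq _ _ hdvd y hy
  rw [Int.cast_natCast, Int.cast_natCast] at h1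
  rw [h1]
  have h2 : χ (u : ZMod q) = χ (-1) * χ (((-u⁻¹ : (ZMod q)ˣ) : ZMod q)) := by
    have h3 : χ (((u⁻¹ : (ZMod q)ˣ) : ZMod q)) = χ (u : ZMod q) := by
      have := MulChar.inv_apply χ (u : ZMod q)
      rw [hχ, Ring.inverse_unit] at this
      rw [this]
    rw [show (((-u⁻¹ : (ZMod q)ˣ) : ZMod q)) = (-1) * ((u⁻¹ : (ZMod q)ˣ) : ZMod q) by simp,
      map_mul, ← mul_assoc, ← map_mul, neg_one_mul, neg_neg, map_one, one_mul, h3]
  rw [h2]
  ring

/-- Gauss sum formula in terms of `e` -/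
lemma sum_e {q : ℕ} [NeZero q] {χ : DirichletCharacter ℂ q} (hχ : χ.IsPrimitive) (n : ℤ) :
    ∑ u : ZMod q, χ u * e (n * ((u.val : ℝ) / q))
      = χ⁻¹ (n : ZMod q) * gaussSum χ ZMod.stdAddChar := by
  rw [← gaussSum_mulShift_of_isPrimitive _ hχ, gaussSum]
  refine Finset.sum_congr rfl fun u _ => ?_
  congr 1
  rw [AddChar.mulShift_apply]
  have h1 : (n : ZMod q) * u = ((n * (u.val : ℤ) : ℤ) : ZMod q) := by
    push_cast
    rw [ZMod.natCast_zmod_val]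
  rw [h1, ZMod.stdAddChar_coe, e]
  congr 1
  push_cast
  ring

lemma gaussSum_ne_zero {q : ℕ} [NeZero q] {χ : DirichletCharacter ℂ q} (hχ : χ.IsPrimitive) :
    gaussSum χ (ZMod.stdAddChar (N := q)) ≠ 0 := by
  intro h0
  have h1 : ZMod.dft (χ : ZMod q → ℂ) = 0 := by
    funext k
    have := hχ.fourierTransform_eq_inv_mul_gaussSum k
    rw [h0, mul_zero] at this
    exact this
  have h2 : (χ : ZMod q → ℂ) = 0 := (LinearEquiv.map_eq_zero_iff _).mp h1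
  have h3 := congrFun h2 1
  simp at h3

/-- Fourier expansion of `φ` -/
lemma Dat.hasSum_phi (h : Dat f mu nu a c w) {κ : ℕ} {φ : ℂ → ℂ} (hφ : Phi f κ φ) (x : ℝ) {y : ℝ}
    (hy : 0 < y) : HasSum (fun n : ℤ => co φ n y * e (n * x)) (φ (x + y * I)) := by
  refine hasSum_fourier (g := fun x : ℝ => φ (x + y * I)) (cont_line hφ.cont hy)
    (hφ.per.periodic hy) ?_ x
  obtain ⟨C, hC, hb⟩ := h.co_bound
  refine Summable.of_norm_bounded ((summable_int κ hy).mul_left ((2 * Real.pi) ^ κ * C)) ?_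
  intro n
  have h1 := hφ.coe n y hy
  unfold co at h1
  rw [h1, norm_mul, norm_pow]
  have h2 : ‖(2 * Real.pi * I * n : ℂ)‖ = 2 * Real.pi * |(n : ℝ)| := by
    rw [norm_mul, norm_mul, norm_mul, Complex.norm_I, Complex.norm_intCast, Complex.norm_real,
      Real.norm_of_nonneg Real.pi_pos.le]
    simp
  rw [h2, mul_pow]
  have h3 := hb n y hy
  unfold co at h3
  calc (2 * Real.pi) ^ κ * |(n : ℝ)| ^ κ * ‖∫ x in (0 : ℝ)..1, f (x + y * I) * e (-n * x)‖
      ≤ (2 * Real.pi) ^ κ * |(n : ℝ)| ^ κ * (C * Real.exp (-(Real.pi * (|(n : ℝ)| * y)))) := by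
        gcongr
    _ = _ := by ring

/-- the coefficients of the twisted sum -/
noncomputable def cf (f : ℂ → ℂ) (c : ℕ → ℂ) (κ : ℕ) {q : ℕ} (χ : DirichletCharacter ℂ q) (y : ℝ)
    (n : ℕ) : ℂ :=
  χ (n : ZMod q) * c n * ((n : ℂ) ^ κ * ((Real.sqrt n : ℝ) : ℂ)⁻¹) * co f 1 (n * y)

/-- the expansion of the twisted sum -/
theorem Dat.hasSum_F (h : Dat f mu nu a c w) {κ : ℕ} {φ : ℂ → ℂ} (hφ : Phi f κ φ)
    {q : ℕ} [NeZero q] {χ : DirichletCharacter ℂ q} (hp : χ.IsPrimitive) (hχ : χ⁻¹ = χ)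
    (hsgn : χ (-1) = (-1) ^ (κ + 1)) {y : ℝ} (hy : 0 < y) :
    HasSum (fun n : ℕ => 2 * gaussSum χ (ZMod.stdAddChar (N := q)) * (2 * Real.pi * I) ^ κ *
      cf f c κ χ y n) (F φ χ y) := by
  set τ := gaussSum χ (ZMod.stdAddChar (N := q)) with hτ
  have h1 : HasSum (fun n : ℤ => ∑ u : ZMod q, χ u * (co φ n y * e (n * ((u.val : ℝ) / q))))
      (F φ χ y) := by
    unfold F
    refine hasSum_sum fun u _ => ?_
    have := (h.hasSum_phi hφ ((u.val : ℝ) / q) hy).mul_left (χ u)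
    push_cast at this
    exact this
  have h2 : ∀ n : ℤ, ∑ u : ZMod q, χ u * (co φ n y * e (n * ((u.val : ℝ) / q)))
      = co φ n y * (χ (n : ZMod q) * τ) := by
    intro n
    have := sum_e hp n
    rw [hχ] at this
    rw [hτ, ← this, Finset.mul_sum]
    refine Finset.sum_congr rfl fun u _ => by ring
  simp only [h2] at h1
  have h3 := h1.nat_add_neg
  have h4 : co φ 0 y = 0 := by
    rw [hφ.coe 0 y hy, co_zero h.om hy, mul_zero]
  rw [h4, zero_mul, add_zero] at h3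
  refine (show (fun n : ℕ => _) = (fun n : ℕ => _) from funext fun n => ?_) ▸ h3
  rcases Nat.eq_zero_or_pos n with h0 | h0
  · subst h0
    simp [h4, cf, h.hr.zero]
  · have h5 : co φ (-(n : ℤ)) y = (-1) ^ (κ + 1) * co φ n y := by
      rw [hφ.coe _ y hy, hφ.coe _ y hy, co_neg h.om n hy]
      push_cast
      rw [show (2 * Real.pi * I * -(n : ℂ)) = (-1) * (2 * Real.pi * I * n) by ring, mul_pow,
        pow_succ]
      ring
    have h6 : χ ((-(n : ℤ) : ℤ) : ZMod q) = (-1) ^ (κ + 1) * χ ((n : ℤ) : ZMod q) := by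
      push_cast
      rw [neg_eq_neg_one_mul, map_mul, hsgn]
    have h7 : ((-1 : ℂ) ^ (κ + 1)) * (-1) ^ (κ + 1) = 1 := by
      rw [← mul_pow]; simp
    rw [h5, h6, hφ.coe _ y hy, h.form n h0 y hy, cf]
    push_cast
    rw [mul_pow]
    linear_combination ((2 * Real.pi * I) ^ κ * (n : ℂ) ^ κ * (((Real.sqrt n : ℝ) : ℂ)⁻¹ * c n
      * co f 1 (n * y)) * (χ (n : ZMod q) * τ)) * h7

end Pool.Agent.X290.Tw
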