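import Pool.Agent.X290.LF
import Pool.Agent.X290.Exi

set_option autoImplicit false

/-!
# Quadratic twists of Hecke-Maass forms of level one
-/

namespace Pool.Agent.X290

open Complex Filter Topology

/-- A quadratic extension `E` of `ℚ`, given by its quadratic character: a primitive Dirichlet
character `chi ≠ 1` with `chi ^ 2 = 1`. Its modulus `disc` is the absolute value of the
discriminant of `E`. -/
structure QField where
  disc : ℕ
  chi : DirichletCharacter ℂ disc
  pos : disc ≠ 0
  prim : chi.IsPrimitive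
  sq : chi ^ 2 = 1
  ne : chi ≠ 1

/-- `IsTwistedL a E L` : the entire function `L` is the `L`-function of the twist by `E` of the
form with Hecke eigenvalues `a p`, that is, it is given by the Euler product with the factors
`(1 - a p * chi p * p ^ (-s) + chi p ^ 2 * p ^ (-2 * s))⁻¹` for `3 / 2 < re s`. -/
def IsTwistedL (a : ℕ → ℂ) (E : QField) (L : ℂ → ℂ) : Prop :=
  Differentiable ℂ L ∧ ∀ s : ℂ, 3 / 2 < s.re →
    HasProd (fun p : Nat.Primes => (1 - a p * E.chi ((p : ℕ) : ZMod E.disc) * ((p : ℕ) : ℂ) ^ (-s)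
      + E.chi ((p : ℕ) : ZMod E.disc) ^ 2 * ((p : ℕ) : ℂ) ^ (-(2 * s)))⁻¹) (L s)

/-- the number of quadratic fields with `|Δ_E| < x` -/
noncomputable def numFields (x : ℝ) : ℝ := (Set.ncard {E : QField | (E.disc : ℝ) < x} : ℝ)

/-- the number of quadratic fields with `|Δ_E| < x` and nonvanishing central value -/
noncomputable def numNonvanishing (a : ℕ → ℂ) (x : ℝ) : ℝ :=
  (Set.ncard {E : QField | (E.disc : ℝ) < x ∧ ∃ L, IsTwistedL a E L ∧ L (1 / 2) ≠ 0} : ℝ)

namespace TwDef

theorem finite_fields (x : ℝ) : {E : QField | (E.disc : ℝ) < x}.Finite := by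
  obtain ⟨n, hn⟩ := exists_nat_gt x
  have hS : ∀ d : ℕ, {E : QField | E.disc = d}.Finite := by
    intro d
    rcases Nat.eq_zero_or_pos d with h0 | h0
    · subst h0
      have : {E : QField | E.disc = 0} = ∅ := by
        ext E
        simp only [Set.mem_ofPred_eq, Set.mem_empty_iff_false, iff_false]
        exact E.pos
      rw [this]
      exact Set.finite_empty
    · have : NeZero d := ⟨h0.ne'⟩
      let g : {χ : DirichletCharacter ℂ d // χ.IsPrimitive ∧ χ ^ 2 = 1 ∧ χ ≠ 1} → QField :=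
        fun χ => ⟨d, χ.1, h0.ne', χ.2.1, χ.2.2.1, χ.2.2.2⟩
      refine (Set.finite_range g).subset ?_
      rintro ⟨d', χ, h1, h2, h3, h4⟩ hE
      have hd : d' = d := hE
      subst hd
      exact ⟨⟨χ, h2, h3, h4⟩, rfl⟩
  refine ((Set.finite_lt_nat n).biUnion fun d _ => hS d).subset fun E hE => ?_
  have h1 : (E.disc : ℝ) < n := lt_trans hE hn
  have h2 : E.disc < n := by exact_mod_cast h1
  exact Set.mem_biUnion (show E.disc ∈ {i | i < n} from h2) rfl

theorem twist (f : ℂ → ℂ) (mu : ℂ) (a : ℕ → ℂ) (h : OddHM f mu a) (E : QField) :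
    ∃ L, IsTwistedL a E L ∧ L (1 / 2) = 0 := by
  have : NeZero E.disc := ⟨E.pos⟩
  have hinv : E.chi⁻¹ = E.chi := by
    have := E.sq
    rw [sq] at this
    exact inv_eq_of_mul_eq_one_left this
  obtain ⟨L, h1, h2, h3⟩ := LF.exists_L h E.prim hinv
  refine ⟨L, ⟨h1, fun s hs => (h2 s hs).congr_fun fun p => ?_⟩, h3⟩
  have e1 : ((p : ℕ) : ℂ) ^ (-(2 * s)) = (((p : ℕ) : ℂ) ^ (-s)) ^ 2 := by
    rw [← Complex.cpow_nat_mul]
    congr 1
    push_cast
    ring
  rw [e1]
  congr 1
  ring

theorem unique (a : ℕ → ℂ) (E : QField) {L L' : ℂ → ℂ} (h : IsTwistedL a E L)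
    (h' : IsTwistedL a E L') : L' = L := by
  have h1 : AnalyticOnNhd ℂ L Set.univ := h.1.differentiableOn.analyticOnNhd isOpen_univ
  have h2 : AnalyticOnNhd ℂ L' Set.univ := h'.1.differentiableOn.analyticOnNhd isOpen_univ
  refine h2.eq_of_eventuallyEq h1 (z₀ := 2) ?_
  have ho : IsOpen {s : ℂ | 3 / 2 < s.re} := isOpen_lt continuous_const Complex.continuous_re
  filter_upwards [ho.mem_nhds (show (3 / 2 : ℝ) < (2 : ℂ).re by simp; norm_num)] with s hs
  exact (h'.2 s hs).unique (h.2 s hs)

theorem numNonvanishing_eq_zero {f : ℂ → ℂ} {mu : ℂ} {a : ℕ → ℂ} (h : OddHM f mu a) (x : ℝ) :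
    numNonvanishing a x = 0 := by
  unfold numNonvanishing
  have : {E : QField | (E.disc : ℝ) < x ∧ ∃ L, IsTwistedL a E L ∧ L (1 / 2) ≠ 0} = ∅ := by
    ext E
    simp only [Set.mem_ofPred_eq, Set.mem_empty_iff_false, iff_false]
    rintro ⟨_, L, h1, h2⟩
    obtain ⟨L', h3, h4⟩ := twist f mu a h E
    rw [unique a E h1 h3] at h4
    exact h2 h4
  rw [this]
  simp

/-- the quadratic field of an odd prime -/
noncomputable def ofPrime (p : ℕ) (hp : p.Prime) (h2 : p ≠ 2) : QField :=
  haveI : Fact p.Prime := ⟨hp⟩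
  { disc := p
    chi := (quadraticChar (ZMod p)).ringHomComp (Int.castRingHom ℂ)
    pos := hp.ne_zero
    prim := by
      have hne : (quadraticChar (ZMod p)).ringHomComp (Int.castRingHom ℂ) ≠ 1 := by
        rw [MulChar.ringHomComp_ne_one_iff Int.cast_injective]
        exact quadraticChar_ne_one (by rw [ZMod.ringChar_zmod_n]; exact h2)
      rcases (Nat.dvd_prime hp).mp (DirichletCharacter.conductor_dvd_level
        ((quadraticChar (ZMod p)).ringHomComp (Int.castRingHom ℂ))) with h | h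
      · exact absurd (DirichletCharacter.eq_one_iff_conductor_eq_one.mpr h) hne
      · exact h
    sq := by
      have : (quadraticChar (ZMod p)) ^ 2 = 1 := (quadraticChar_isQuadratic (ZMod p)).sq_eq_one
      rw [MulChar.ringHomComp_pow, this, MulChar.ringHomComp_one]
    ne := by
      rw [MulChar.ringHomComp_ne_one_iff Int.cast_injective]
      exact quadraticChar_ne_one (by rw [ZMod.ringChar_zmod_n]; exact h2) }

theorem numFields_tendsto : Tendsto numFields atTop atTop := by
  have hmono : Monotone numFields := by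
    intro x y hxy
    unfold numFields
    have h : {E : QField | (E.disc : ℝ) < x} ⊆ {E : QField | (E.disc : ℝ) < y} :=
      fun E hE => lt_of_lt_of_le hE hxy
    exact_mod_cast Set.ncard_le_ncard h (finite_fields y)
  refine tendsto_atTop_atTop_of_monotone hmono fun b => ?_
  obtain ⟨n, hn⟩ := exists_nat_ge b
  -- `n` distinct odd primes
  obtain ⟨S, hS, hcard⟩ : ∃ S : Finset ℕ, (∀ p ∈ S, p.Prime ∧ p ≠ 2) ∧ S.card = n := by
    have hinf : {p : ℕ | p.Prime ∧ p ≠ 2}.Infinite := by
      have h1 := Nat.infinite_setOfPred_prime.sdiff (Set.finite_singleton 2)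
      exact h1
    obtain ⟨S, hS, hcard⟩ := hinf.exists_subset_card_eq n
    exact ⟨S, fun p hp => hS hp, hcard⟩
  refine ⟨(S.sup id : ℕ) + 1, hn.trans ?_⟩
  unfold numFields
  have h1 : S.card ≤ Set.ncard {E : QField | (E.disc : ℝ) < ((S.sup id : ℕ) : ℝ) + 1} := by
    let g : {p // p ∈ S} → QField := fun p => ofPrime p.1 (hS p.1 p.2).1 (hS p.1 p.2).2
    have hg : Function.Injective g := fun p q h => Subtype.ext (congrArg QField.disc h)
    have h2 : Set.ncard (Set.range g) = S.card := by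
      rw [← Set.image_univ, Set.ncard_image_of_injective _ hg, Set.ncard_univ]
      simp
    rw [← h2]
    refine Set.ncard_le_ncard ?_ (finite_fields _)
    rintro _ ⟨p, rfl⟩
    change ((p.1 : ℕ) : ℝ) < _
    have h3 : p.1 ≤ S.sup id := Finset.le_sup (f := id) p.2
    have h4 : (p.1 : ℝ) ≤ ((S.sup id : ℕ) : ℝ) := by exact_mod_cast h3
    linarith
  rw [hcard] at h1
  exact_mod_cast h1

end TwDef

end Pool.Agent.X290
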